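import Mathlib

set_option autoImplicit false

open Filter Topology MvPolynomial

namespace HilbArc

variable {K : Type*} [Field K]

/-- evaluation of a polynomial `g(x,y)` along the formal branch `(a(z), b(z))` -/
noncomputable def ev (a b : PowerSeries K) : MvPolynomial (Fin 2) K →ₐ[K] PowerSeries K :=
  aeval ![a, b]

@[simp] lemma ev_X0 (a b : PowerSeries K) : ev a b (X 0) = a := by simp [ev]
@[simp] lemma ev_X1 (a b : PowerSeries K) : ev a b (X 1) = b := by simp [ev]

/-- `(a,b)` is a smooth branch through the origin -/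
def IsBr (a b : PowerSeries K) : Prop :=
  PowerSeries.constantCoeff a = 0 ∧ PowerSeries.constantCoeff b = 0 ∧
    (PowerSeries.coeff 1 a ≠ 0 ∨ PowerSeries.coeff 1 b ≠ 0)

/-- two branches are transversal -/
def Tr (a b a' b' : PowerSeries K) : Prop :=
  PowerSeries.coeff 1 a * PowerSeries.coeff 1 b' ≠ PowerSeries.coeff 1 b * PowerSeries.coeff 1 a'

/-- tuples in a curvilinear ideal of colength `n` -/
def Cv (ι : Type*) (K : Type*) [Field K] (n : ℕ) : Set (ι → MvPolynomial (Fin 2) K) :=
  {g | ∃ a b : PowerSeries K, IsBr a b ∧ ∀ i, (PowerSeries.X : PowerSeries K) ^ n ∣ ev a b (g i)}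

/-- automorphisms act on branches -/
lemma ev_bind (a b : PowerSeries K) (P Q g : MvPolynomial (Fin 2) K) :
    ev a b (aeval ![P, Q] g) = ev (ev a b P) (ev a b Q) g := by
  have : (ev a b).comp (aeval ![P, Q]) = ev (ev a b P) (ev a b Q) := by
    ext i
    fin_cases i <;> simp [ev]
  exact congrArg (fun f => f g) this

/-- `zh = z/(z-1)` -/
noncomputable def zh (K : Type*) [Field K] : PowerSeries K :=
  - PowerSeries.X * (PowerSeries.mk fun _ => (1 : K))

lemma zh_mul : (zh K) * PowerSeries.X = zh K + PowerSeries.X := by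
  have h := PowerSeries.mk_one_mul_one_sub_eq_one K
  unfold zh
  linear_combination PowerSeries.X * h

/-- the new branch: the hyperbola `xy = αx + βy` parametrised by `x = β z/(z-1)`, `y = α z` -/
noncomputable def psi (α β : K) : MvPolynomial (Fin 2) K →ₐ[K] PowerSeries K :=
  ev (PowerSeries.C β * zh K) (PowerSeries.C α * PowerSeries.X)

section top
variable [TopologicalSpace K] [IsTopologicalRing K]

/-- the (finest) topology of the vector space `K[x,y]` -/
noncomputable scoped instance polyTop : TopologicalSpace (MvPolynomial (Fin 2) K) :=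
  moduleTopology K (MvPolynomial (Fin 2) K)

scoped instance polyTopIs : IsModuleTopology K (MvPolynomial (Fin 2) K) := ⟨rfl⟩

scoped instance polyContAdd : ContinuousAdd (MvPolynomial (Fin 2) K) :=
  IsModuleTopology.toContinuousAdd K _

/-- the conditions on the two parameters -/
structure Param (A B : ℕ) (α β : ℕ → K) : Prop where
  hα0 : ∀ L, α L ≠ 0
  hβ0 : ∀ L, β L ≠ 0
  hα : Tendsto α atTop (𝓝 0)
  hβ : Tendsto β atTop (𝓝 0)
  hαβ : Tendsto (fun L => α L / β L) atTop (𝓝 0)
  h1 : Tendsto (fun L => β L ^ A / α L ^ (B - 1)) atTop (𝓝 0)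
  h2 : Tendsto (fun L => α L ^ B / β L ^ (A - 1)) atTop (𝓝 0)


end top

end HilbArc
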