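import Mathlib
import Pool.Agent.HilbP1.Base

set_option autoImplicit false

open Filter Topology MvPolynomial

namespace HilbArc

variable {K : Type*} [Field K]

noncomputable def VV (K : Type*) [Field K] (A B : ℕ) : Submodule K (PowerSeries K) :=
  Submodule.span K (Set.range fun i : Fin A => zh K ^ (i : ℕ)) ⊔
    Submodule.span K (Set.range fun j : Fin B => (PowerSeries.X : PowerSeries K) ^ (j : ℕ))

lemma zh_mem {A B i : ℕ} (h : i < A) : zh K ^ i ∈ VV K A B :=
  Submodule.mem_sup_left (Submodule.subset_span ⟨⟨i, h⟩, rfl⟩)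

lemma X_mem {A B j : ℕ} (h : j < B) : (PowerSeries.X : PowerSeries K) ^ j ∈ VV K A B :=
  Submodule.mem_sup_right (Submodule.subset_span ⟨⟨j, h⟩, rfl⟩)

lemma VV_mono {A B A' B' : ℕ} (hA : A ≤ A') (hB : B ≤ B') : VV K A B ≤ VV K A' B' := by
  refine sup_le ?_ ?_
  · rw [Submodule.span_le]
    rintro _ ⟨i, rfl⟩
    exact zh_mem (lt_of_lt_of_le i.2 hA)
  · rw [Submodule.span_le]
    rintro _ ⟨j, rfl⟩
    exact X_mem (lt_of_lt_of_le j.2 hB)

lemma Xzh_mem (n : ℕ) : ∀ i j : ℕ, i + j ≤ n →
    (PowerSeries.X : PowerSeries K) ^ j * zh K ^ i ∈ VV K (i + 1) (j + 1) := by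
  induction n with
  | zero =>
    intro i j h
    have hi : i = 0 := by omega
    have hj : j = 0 := by omega
    subst hi; subst hj
    simpa using (zh_mem (K := K) (A := 1) (B := 1) (i := 0) (by norm_num))
  | succ n ih =>
    intro i j h
    rcases i with _ | i
    · simpa using (X_mem (K := K) (A := 0 + 1) (B := j + 1) (j := j) (by omega))
    rcases j with _ | j
    · simpa using (zh_mem (K := K) (A := i + 1 + 1) (B := 0 + 1) (i := i + 1) (by omega))
    have h1 : (PowerSeries.X : PowerSeries K) ^ (j + 1) * zh K ^ (i + 1)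
        = PowerSeries.X ^ j * zh K ^ (i + 1) + PowerSeries.X ^ (j + 1) * zh K ^ i := by
      have := zh_mul (K := K)
      calc (PowerSeries.X : PowerSeries K) ^ (j + 1) * zh K ^ (i + 1)
          = PowerSeries.X ^ j * zh K ^ i * (zh K * PowerSeries.X) := by ring
        _ = PowerSeries.X ^ j * zh K ^ i * (zh K + PowerSeries.X) := by rw [this]
        _ = _ := by ring
    rw [h1]
    refine Submodule.add_mem _ ?_ ?_
    · exact VV_mono (by omega) (by omega) (ih (i + 1) j (by omega))
    · exact VV_mono (by omega) (by omega) (ih i (j + 1) (by omega))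

lemma exists_v (B : ℕ) (hB : 1 ≤ B) (A : ℕ) (hA : 1 ≤ A) (w : PowerSeries K) :
    ∃ v ∈ VV K A B, (PowerSeries.X : PowerSeries K) ^ (A + B - 1) ∣ w - v := by
  induction A, hA using Nat.le_induction with
  | base =>
    refine ⟨∑ j ∈ Finset.range B, PowerSeries.coeff j w • (PowerSeries.X : PowerSeries K) ^ j,
      ?_, ?_⟩
    · refine Submodule.sum_mem _ fun j hj => Submodule.smul_mem _ _ ?_
      exact X_mem (Finset.mem_range.1 hj)
    · rw [PowerSeries.X_pow_dvd_iff]
      intro m hm
      rw [map_sub, map_sum]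
      simp only [PowerSeries.coeff_smul, PowerSeries.coeff_X_pow, smul_eq_mul, mul_ite, mul_one,
        mul_zero]
      rw [Finset.sum_ite_eq]
      have : m ∈ Finset.range B := Finset.mem_range.2 (by omega)
      simp [this]
  | succ A hA ih =>
    obtain ⟨v, hv, r, hr⟩ := ih
    set M : PowerSeries K := PowerSeries.mk fun _ => (1 : K) with hM
    have hM0 : PowerSeries.constantCoeff ((-M) ^ A) ≠ 0 := by
      rw [map_pow, map_neg]
      have : PowerSeries.constantCoeff M = 1 := by
        rw [hM, ← PowerSeries.coeff_zero_eq_constantCoeff_apply, PowerSeries.coeff_mk]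
      rw [this]
      exact pow_ne_zero _ (by simp)
    have he : (PowerSeries.X : PowerSeries K) ^ (B - 1) * zh K ^ A
        = PowerSeries.X ^ (A + B - 1) * (-M) ^ A := by
      have h1 : A + B - 1 = (B - 1) + A := by omega
      rw [h1, pow_add]
      have : zh K = PowerSeries.X * (-M) := by unfold zh; rw [hM]; ring
      rw [this, mul_pow]; ring
    set c : K := PowerSeries.constantCoeff r / PowerSeries.constantCoeff ((-M) ^ A) with hc
    refine ⟨v + c • ((PowerSeries.X : PowerSeries K) ^ (B - 1) * zh K ^ A), ?_, ?_⟩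
    · refine Submodule.add_mem _ (VV_mono (by omega) le_rfl hv) (Submodule.smul_mem _ _ ?_)
      have := Xzh_mem (K := K) (A + (B - 1)) A (B - 1) le_rfl
      rwa [Nat.sub_add_cancel hB] at this
    · have h2 : w - (v + c • ((PowerSeries.X : PowerSeries K) ^ (B - 1) * zh K ^ A))
          = PowerSeries.X ^ (A + B - 1) * (r - PowerSeries.C c * (-M) ^ A) := by
        rw [he, ← sub_sub, hr, PowerSeries.smul_eq_C_mul]; ring
      rw [h2]
      have h3 : (PowerSeries.X : PowerSeries K) ∣ r - PowerSeries.C c * (-M) ^ A := by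
        rw [PowerSeries.X_dvd_iff, map_sub, map_mul, PowerSeries.constantCoeff_C, hc,
          div_mul_cancel₀ _ hM0, sub_self]
      have h4 : A + 1 + B - 1 = (A + B - 1) + 1 := by omega
      rw [h4, pow_succ]
      exact mul_dvd_mul_left _ h3

lemma exists_st (A B : ℕ) (hA : 1 ≤ A) (hB : 1 ≤ B) (w : PowerSeries K) :
    ∃ s t : ℕ → K, (PowerSeries.X : PowerSeries K) ^ (A + B - 1) ∣
        w - (∑ i ∈ Finset.range A, PowerSeries.C (s i) * zh K ^ i
            + ∑ j ∈ Finset.range B, PowerSeries.C (t j) * PowerSeries.X ^ j) := by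
  obtain ⟨v, hv, hd⟩ := exists_v B hB A hA w
  obtain ⟨v1, h1, v2, h2, rfl⟩ := Submodule.mem_sup.1 hv
  obtain ⟨c, hc⟩ := (Submodule.mem_span_range_iff_exists_fun K).1 h1
  obtain ⟨d, hd'⟩ := (Submodule.mem_span_range_iff_exists_fun K).1 h2
  refine ⟨fun i => if h : i < A then c ⟨i, h⟩ else 0, fun j => if h : j < B then d ⟨j, h⟩ else 0, ?_⟩
  convert hd using 3
  · rw [← hc, Finset.sum_range]
    refine Finset.sum_congr rfl fun i _ => ?_
    simp [PowerSeries.smul_eq_C_mul]
  · rw [← hd', Finset.sum_range]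
    refine Finset.sum_congr rfl fun i _ => ?_
    simp [PowerSeries.smul_eq_C_mul]

/-- JOB A -/
theorem span_zh (A B : ℕ) (hA : 1 ≤ A) (hB : 1 ≤ B) :
    ∃ (θ ϑ : ℕ → ℕ → K), ∀ w : PowerSeries K,
      (PowerSeries.X : PowerSeries K) ^ (A + B - 1) ∣
        w - (∑ i ∈ Finset.range A,
              PowerSeries.C (∑ l ∈ Finset.range (A + B - 1), PowerSeries.coeff l w * θ l i) * zh K ^ i
            + ∑ j ∈ Finset.range B,
              PowerSeries.C (∑ l ∈ Finset.range (A + B - 1), PowerSeries.coeff l w * ϑ l j) *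
                PowerSeries.X ^ j) := by
  choose θ ϑ h using fun l : ℕ => exists_st (K := K) A B hA hB (PowerSeries.X ^ l)
  refine ⟨θ, ϑ, fun w => ?_⟩
  have h1 : (PowerSeries.X : PowerSeries K) ^ (A + B - 1) ∣
      w - ∑ l ∈ Finset.range (A + B - 1), PowerSeries.C (PowerSeries.coeff l w) * PowerSeries.X ^ l := by
    rw [PowerSeries.X_pow_dvd_iff]
    intro m hm
    rw [map_sub, map_sum]
    simp only [PowerSeries.coeff_C_mul, PowerSeries.coeff_X_pow, mul_ite, mul_one, mul_zero]
    rw [Finset.sum_ite_eq]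
    simp [Finset.mem_range.2 hm]
  have h2 : (PowerSeries.X : PowerSeries K) ^ (A + B - 1) ∣
      ∑ l ∈ Finset.range (A + B - 1), PowerSeries.C (PowerSeries.coeff l w) *
        (PowerSeries.X ^ l - (∑ i ∈ Finset.range A, PowerSeries.C (θ l i) * zh K ^ i
            + ∑ j ∈ Finset.range B, PowerSeries.C (ϑ l j) * PowerSeries.X ^ j)) :=
    Finset.dvd_sum fun l _ => Dvd.dvd.mul_left (h l) _
  have h3 := dvd_add h1 h2
  convert h3 using 1
  simp only [mul_sub, mul_add, Finset.sum_sub_distrib, Finset.sum_add_distrib, Finset.mul_sum,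
    map_sum, map_mul, Finset.sum_mul]
  rw [Finset.sum_comm (s := Finset.range A), Finset.sum_comm (s := Finset.range B)]
  simp only [mul_assoc]
  ring

end HilbArc
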