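import Mathlib

set_option autoImplicit false

namespace MP4403b8

/-- Base change of an ideal of `A[x,y]` along a ring homomorphism `f : A → B`: the ideal of
`B[x,y]` generated by the image. -/
noncomputable def baseChange {A B : Type*} [CommRing A] [CommRing B] (f : A →+* B)
    (I : Ideal (MvPolynomial (Fin 2) A)) : Ideal (MvPolynomial (Fin 2) B) :=
  I.map (MvPolynomial.map f)

/-- `I ⊆ A[x,y]` is an `A`-point of `Hilb^n` of the affine plane, for `A` a field or a principal
ideal domain: `A[x,y]/I` is a free `A`-module of rank `n`. -/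
def IsHilbPoint (n : ℕ) (A : Type*) [CommRing A] (I : Ideal (MvPolynomial (Fin 2) A)) : Prop :=
  Module.Finite A (MvPolynomial (Fin 2) A ⧸ I) ∧ Module.Free A (MvPolynomial (Fin 2) A ⧸ I) ∧
    Module.finrank A (MvPolynomial (Fin 2) A ⧸ I) = n

/-- the chart `X ↦ T` of the overlap `Spec ℂ[T, T⁻¹]` of the two affine lines covering `ℙ¹` -/
noncomputable def chart₀ : Polynomial ℂ →+* LaurentPolynomial ℂ :=
  Polynomial.eval₂RingHom (LaurentPolynomial.C) (LaurentPolynomial.T 1)

/-- the chart `X ↦ T⁻¹` of the overlap -/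
noncomputable def chart₁ : Polynomial ℂ →+* LaurentPolynomial ℂ :=
  Polynomial.eval₂RingHom (LaurentPolynomial.C) (LaurentPolynomial.T (-1))

/-- A morphism `ℙ¹ → Hilb^n(ℂ²)`, i.e. a flat family of length `n` subschemes of the plane over
`ℙ¹`: families over the two affine lines `Spec ℂ[t]` and `Spec ℂ[1/t]`, equal on the overlap. -/
structure P1Family (n : ℕ) where
  I₀ : Ideal (MvPolynomial (Fin 2) (Polynomial ℂ))
  I₁ : Ideal (MvPolynomial (Fin 2) (Polynomial ℂ))
  hilb₀ : IsHilbPoint n (Polynomial ℂ) I₀
  hilb₁ : IsHilbPoint n (Polynomial ℂ) I₁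
  glue : baseChange chart₀ I₀ = baseChange chart₁ I₁

/-- restriction of a family over the affine line to the point `a` -/
noncomputable def fib (a : ℂ) (I : Ideal (MvPolynomial (Fin 2) (Polynomial ℂ))) :
    Ideal (MvPolynomial (Fin 2) ℂ) :=
  baseChange (Polynomial.evalRingHom a) I

/-- the tangent vector `t = a + ε` of the affine line at `a` -/
noncomputable def jet (a : ℂ) : Polynomial ℂ →+* DualNumber ℂ :=
  Polynomial.eval₂RingHom (algebraMap ℂ (DualNumber ℂ))
    (algebraMap ℂ (DualNumber ℂ) a + DualNumber.eps)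

/-- The differential at `a` of the morphism to `Hilb^n` given by a family `I` over the affine
line is zero: the restriction of the family to the tangent vector `a + ε` is the constant
family with value `fib a I`. -/
def DiffZero (a : ℂ) (I : Ideal (MvPolynomial (Fin 2) (Polynomial ℂ))) : Prop :=
  baseChange (jet a) I = baseChange (algebraMap ℂ (DualNumber ℂ)) (fib a I)

/-- the value of the morphism `ℙ¹ → Hilb^n(ℂ²)` at a closed point of `ℙ¹ = ℂ ∪ {∞}` -/
noncomputable def P1Family.value {n : ℕ} (F : P1Family n) :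
    OnePoint ℂ → Ideal (MvPolynomial (Fin 2) ℂ)
  | some a => fib a F.I₀
  | OnePoint.infty => fib 0 F.I₁

/-- The morphism is a closed embedding: it is injective on closed points and on tangent
vectors. -/
structure P1Family.IsClosedEmbedding {n : ℕ} (F : P1Family n) : Prop where
  injective : Function.Injective F.value
  immersive : ∀ a : ℂ, ¬ DiffZero a F.I₀
  immersive_infty : ¬ DiffZero 0 F.I₁

/-- a monomial ideal of `ℂ[x,y]` -/
def IsMonomialIdeal (I : Ideal (MvPolynomial (Fin 2) ℂ)) : Prop :=
  ∃ S : Set (Fin 2 →₀ ℕ), I = Ideal.span ((fun m => MvPolynomial.monomial m (1 : ℂ)) '' S)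

/-- The points `[I]` and `[J]` of `Hilb^n(ℂ²)` are joined by a smooth rational curve. -/
def Joined (n : ℕ) (I J : Ideal (MvPolynomial (Fin 2) ℂ)) : Prop :=
  ∃ F : P1Family n, F.IsClosedEmbedding ∧ I ∈ Set.range F.value ∧ J ∈ Set.range F.value


end MP4403b8
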