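import Mathlib
import Pool.Agent.HilbP1.Statement

set_option autoImplicit false

namespace MP4403b8


/-! auxiliary definitions -/

/-- the curvilinear ideal `{g | X^n ∣ g(f(X), X)}` -/
noncomputable def JJ {L : Type*} [Field L] (n : ℕ) (f : Polynomial L) :
    Ideal (MvPolynomial (Fin 2) L) :=
  (Ideal.span {(Polynomial.X : Polynomial L) ^ n}).comap
    (MvPolynomial.aeval ![f, Polynomial.X] : MvPolynomial (Fin 2) L →ₐ[L] Polynomial L).toRingHom

lemma mem_JJ {L : Type*} [Field L] (n : ℕ) (f : Polynomial L) (g : MvPolynomial (Fin 2) L) :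
    g ∈ JJ n f ↔ (Polynomial.X : Polynomial L) ^ n ∣ MvPolynomial.aeval ![f, Polynomial.X] g := by
  unfold JJ
  rw [Ideal.mem_comap, Ideal.mem_span_singleton]
  rfl

/-- contraction of `JJ n f` along `j : ℂ[t] → L` -/
noncomputable def fam {L : Type*} [Field L] (j : Polynomial ℂ →+* L) (n : ℕ) (f : Polynomial L) :
    Ideal (MvPolynomial (Fin 2) (Polynomial ℂ)) :=
  (JJ n f).comap (MvPolynomial.map j)

/-- `j` identifies `L` with the fraction field of `ℂ[t]` -/
def IsFrac {L : Type*} [Field L] (j : Polynomial ℂ →+* L) : Prop :=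
  Function.Injective j ∧ ∀ x : L, ∃ p q : Polynomial ℂ, q ≠ 0 ∧ x * j q = j p

/-- the two embeddings of `ℂ[t]` in `ℂ(t)`: `X ↦ t` and `X ↦ t⁻¹` -/
noncomputable def j0 : Polynomial ℂ →+* RatFunc ℂ := algebraMap (Polynomial ℂ) (RatFunc ℂ)

noncomputable def j1 : Polynomial ℂ →+* RatFunc ℂ :=
  Polynomial.eval₂RingHom (algebraMap ℂ (RatFunc ℂ)) (RatFunc.X)⁻¹

/-- the family `I` contains an element `G0 + (t-a) G1 + (t-a)^2 (...)` -/
def Special (I : Ideal (MvPolynomial (Fin 2) (Polynomial ℂ))) (a : ℂ)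
    (G0 G1 : MvPolynomial (Fin 2) ℂ) : Prop :=
  ∃ r : MvPolynomial (Fin 2) (Polynomial ℂ),
    MvPolynomial.map Polynomial.C G0
      + MvPolynomial.C (Polynomial.X - Polynomial.C a) * MvPolynomial.map Polynomial.C G1
      + MvPolynomial.C ((Polynomial.X - Polynomial.C a) ^ 2) * r ∈ I

/-- there is a curvilinear ideal over `ℂ(t)` containing a tuple congruent to
`G0 + (t-a) G1` modulo `(t-a)^2` at the place `t = a`. -/
def Arc (n : ℕ) (a : ℂ) {ι : Type} (G0 G1 : ι → MvPolynomial (Fin 2) ℂ) : Prop :=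
  ∃ f : Polynomial (RatFunc ℂ), f.coeff 0 = 0 ∧ f.natDegree < n ∧
    ∃ g : ι → MvPolynomial (Fin 2) (RatFunc ℂ), (∀ i, g i ∈ JJ n f) ∧
      ∀ i m, ∃ p q : Polynomial ℂ, q.eval a ≠ 0 ∧
        (MvPolynomial.coeff m (g i)
          - j0 (Polynomial.C (MvPolynomial.coeff m (G0 i))
              + (Polynomial.X - Polynomial.C a) * Polynomial.C (MvPolynomial.coeff m (G1 i))))
          * j0 q = j0 ((Polynomial.X - Polynomial.C a) ^ 2 * p)

end MP4403b8
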