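import Mathlib
import Pool.Agent.HilbP1.A

set_option autoImplicit false

open Filter Topology MvPolynomial

namespace HilbArc

variable {K : Type*} [Field K]

section conv

/-- coefficientwise convergence of power series -/
def Cw [TopologicalSpace K] (w : ℕ → PowerSeries K) (v : PowerSeries K) : Prop :=
  ∀ j, Tendsto (fun L => PowerSeries.coeff j (w L)) atTop (𝓝 (PowerSeries.coeff j v))

variable [TopologicalSpace K] [IsTopologicalRing K]

omit [IsTopologicalRing K] in
lemma Cw.const (v : PowerSeries K) : Cw (fun _ => v) v := fun _ => tendsto_const_nhds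

omit [IsTopologicalRing K] in
lemma Cw.congr {w w' : ℕ → PowerSeries K} {v : PowerSeries K} (h : Cw w v) (e : ∀ L, w' L = w L) :
    Cw w' v := by
  have : w' = w := funext e
  rwa [this]

lemma Cw.add {w w' : ℕ → PowerSeries K} {v v' : PowerSeries K} (h : Cw w v) (h' : Cw w' v') :
    Cw (fun L => w L + w' L) (v + v') := by
  intro j
  simp only [map_add]
  exact (h j).add (h' j)

lemma Cw.sub {w w' : ℕ → PowerSeries K} {v v' : PowerSeries K} (h : Cw w v) (h' : Cw w' v') :
    Cw (fun L => w L - w' L) (v - v') := by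
  intro j
  simp only [map_sub]
  exact (h j).sub (h' j)

lemma Cw.mul {w w' : ℕ → PowerSeries K} {v v' : PowerSeries K} (h : Cw w v) (h' : Cw w' v') :
    Cw (fun L => w L * w' L) (v * v') := by
  intro j
  simp only [PowerSeries.coeff_mul]
  exact tendsto_finset_sum _ fun p _ => (h p.1).mul (h' p.2)

lemma Cw.pow {w : ℕ → PowerSeries K} {v : PowerSeries K} (h : Cw w v) :
    ∀ n : ℕ, Cw (fun L => w L ^ n) (v ^ n)
  | 0 => by simpa using Cw.const (1 : PowerSeries K)
  | n + 1 => by
    have := (Cw.pow h n).mul h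
    simpa only [← pow_succ] using this

lemma Cw.sum {κ : Type*} (S : Finset κ) {w : κ → ℕ → PowerSeries K} {v : κ → PowerSeries K}
    (h : ∀ k ∈ S, Cw (w k) (v k)) : Cw (fun L => ∑ k ∈ S, w k L) (∑ k ∈ S, v k) := by
  classical
  induction S using Finset.induction_on with
  | empty => simpa using Cw.const (0 : PowerSeries K)
  | insert a s ha ih =>
    rw [Finset.sum_insert ha]
    refine ((h a (by simp)).add (ih fun i hi => h i (by simp [hi]))).congr fun L => ?_
    rw [Finset.sum_insert ha]

lemma Cw.prod {κ : Type*} (S : Finset κ) {w : κ → ℕ → PowerSeries K} {v : κ → PowerSeries K}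
    (h : ∀ k ∈ S, Cw (w k) (v k)) : Cw (fun L => ∏ k ∈ S, w k L) (∏ k ∈ S, v k) := by
  classical
  induction S using Finset.induction_on with
  | empty => simpa using Cw.const (1 : PowerSeries K)
  | insert a s ha ih =>
    rw [Finset.prod_insert ha]
    refine ((h a (by simp)).mul (ih fun i hi => h i (by simp [hi]))).congr fun L => ?_
    rw [Finset.prod_insert ha]

omit [IsTopologicalRing K] in
lemma Cw.C {a : ℕ → K} {b : K} (h : Tendsto a atTop (𝓝 b)) :
    Cw (fun L => PowerSeries.C (a L)) (PowerSeries.C b) := by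
  intro j
  simp only [PowerSeries.coeff_C]
  split_ifs
  · exact h
  · exact tendsto_const_nhds

omit [IsTopologicalRing K] [TopologicalSpace K] in
lemma psi_X0 (α β : K) : psi α β (X 0) = PowerSeries.C β * zh K := by simp [psi]

omit [IsTopologicalRing K] [TopologicalSpace K] in
lemma psi_X1 (α β : K) : psi α β (X 1) = PowerSeries.C α * PowerSeries.X := by simp [psi]

omit [IsTopologicalRing K] [TopologicalSpace K] in
lemma psi_C (α β c : K) : psi α β (MvPolynomial.C c) = PowerSeries.C c := by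
  have := (psi α β).commutes c
  simpa [MvPolynomial.algebraMap_eq] using this

lemma psi_conv {α β : ℕ → K} (hα : Tendsto α atTop (𝓝 0)) (hβ : Tendsto β atTop (𝓝 0))
    (r : MvPolynomial (Fin 2) K) :
    Cw (fun L => psi (α L) (β L) r) (PowerSeries.C (constantCoeff r)) := by
  induction r using MvPolynomial.induction_on with
  | C a =>
    rw [constantCoeff_C]
    exact (Cw.const (PowerSeries.C a)).congr fun L => psi_C _ _ _
  | add p q hp hq =>
    simp only [map_add]
    exact hp.add hq
  | mul_X p i hp =>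
    have hX : Cw (fun L => psi (α L) (β L) (X i)) 0 := by
      fin_cases i
      · have := (Cw.C hβ).mul (Cw.const (zh K))
        rw [map_zero, zero_mul] at this
        exact this.congr fun L => psi_X0 _ _
      · have := (Cw.C hα).mul (Cw.const (PowerSeries.X : PowerSeries K))
        rw [map_zero, zero_mul] at this
        exact this.congr fun L => psi_X1 _ _
    have := hp.mul hX
    rw [mul_zero] at this
    simp only [map_mul, constantCoeff_X, mul_zero, map_zero]
    exact this

lemma X_dvd_zh : (PowerSeries.X : PowerSeries K) ∣ zh K := by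
  unfold zh
  exact Dvd.intro _ (by ring : PowerSeries.X * (-(PowerSeries.mk fun _ => (1 : K))) =
    - PowerSeries.X * (PowerSeries.mk fun _ => (1 : K)))

/-- the two sums of the correction term -/
lemma psi_corr (α β : K) (A B : ℕ) (a b : ℕ → K) :
    psi α β (∑ i ∈ Finset.range A, (-(a i)) • (X 0 : MvPolynomial (Fin 2) K) ^ i +
      ∑ j ∈ Finset.range B, (-(b j)) • (X 1 : MvPolynomial (Fin 2) K) ^ j) =
    - (∑ i ∈ Finset.range A, PowerSeries.C (a i * β ^ i) * zh K ^ i +
      ∑ j ∈ Finset.range B, PowerSeries.C (b j * α ^ j) * PowerSeries.X ^ j) := by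
  rw [map_add, map_sum, map_sum, neg_add, ← Finset.sum_neg_distrib, ← Finset.sum_neg_distrib]
  congr 1
  · refine Finset.sum_congr rfl fun i _ => ?_
    rw [MvPolynomial.smul_eq_C_mul, map_mul, map_pow, psi_X0, psi_C, map_neg, mul_pow, map_mul,
      map_pow]
    ring
  · refine Finset.sum_congr rfl fun i _ => ?_
    rw [MvPolynomial.smul_eq_C_mul, map_mul, map_pow, psi_X1, psi_C, map_neg, mul_pow, map_mul,
      map_pow]
    ring

end conv

section top
variable [TopologicalSpace K] [IsTopologicalRing K]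

variable [ContinuousInv₀ K] [T2Space K]

omit [ContinuousInv₀ K] [T2Space K] in
lemma corr_tendsto (A B : ℕ) (a b : ℕ → ℕ → K)
    (ha : ∀ i < A, Tendsto (fun L => a L i) atTop (𝓝 0))
    (hb : ∀ j < B, Tendsto (fun L => b L j) atTop (𝓝 0)) :
    Tendsto (fun L => ∑ i ∈ Finset.range A, (-(a L i)) • (X 0 : MvPolynomial (Fin 2) K) ^ i +
      ∑ j ∈ Finset.range B, (-(b L j)) • (X 1 : MvPolynomial (Fin 2) K) ^ j) atTop (𝓝 0) := by
  haveI : ContinuousSMul K (MvPolynomial (Fin 2) K) := IsModuleTopology.toContinuousSMul K _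
  have h1 : Tendsto (fun L => ∑ i ∈ Finset.range A,
      (-(a L i)) • (X 0 : MvPolynomial (Fin 2) K) ^ i) atTop (𝓝 (∑ i ∈ Finset.range A, 0)) := by
    refine tendsto_finset_sum _ fun i hi => ?_
    have := ((ha i (Finset.mem_range.1 hi)).neg).smul_const ((X 0 : MvPolynomial (Fin 2) K) ^ i)
    simpa only [neg_zero, zero_smul] using this
  have h2 : Tendsto (fun L => ∑ j ∈ Finset.range B,
      (-(b L j)) • (X 1 : MvPolynomial (Fin 2) K) ^ j) atTop (𝓝 (∑ j ∈ Finset.range B, 0)) := by
    refine tendsto_finset_sum _ fun i hi => ?_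
    have := ((hb i (Finset.mem_range.1 hi)).neg).smul_const ((X 1 : MvPolynomial (Fin 2) K) ^ i)
    simpa only [neg_zero, zero_smul] using this
  have := h1.add h2
  simpa only [Finset.sum_const_zero, add_zero] using this

omit [ContinuousInv₀ K] [T2Space K] in
lemma tendsto_zero_mul {u v : ℕ → K} {c : K} (hu : Tendsto u atTop (𝓝 0))
    (hv : Tendsto v atTop (𝓝 c)) : Tendsto (fun L => u L * v L) atTop (𝓝 0) := by
  have := hu.mul hv
  rwa [zero_mul] at this

omit [ContinuousInv₀ K] [T2Space K] in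
lemma tendsto_pow_pos {u : ℕ → K} (hu : Tendsto u atTop (𝓝 0)) {n : ℕ} (hn : 0 < n) :
    Tendsto (fun L => u L ^ n) atTop (𝓝 0) := by
  have := hu.pow n
  rwa [zero_pow hn.ne'] at this

/-- TARGET 1 -/
theorem lemC {κ : Type*} (A B o m : ℕ) (hA : 1 ≤ A) (hB : 1 ≤ B) (hm : A + o ≤ m)
    (α β : ℕ → K) (hp : Param A B α β)
    (S : Finset κ) (hS : S.card = o) (r1 r2 : κ → MvPolynomial (Fin 2) K)
    (hr : ∀ k ∈ S, constantCoeff (r1 k) ≠ 0) :
    ∃ g : ℕ → MvPolynomial (Fin 2) K, Tendsto g atTop (𝓝 0) ∧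
      ∀ᶠ L in atTop, (PowerSeries.X : PowerSeries K) ^ (A + B - 1 + o) ∣
        psi (α L) (β L) (X 0 ^ m + (∏ k ∈ S, (X 0 * r1 k + X 1 * r2 k)) * g L) := by
  obtain ⟨θ, ϑ, hspan⟩ := span_zh (K := K) A B hA hB
  set N := A + B - 1 with hN
  -- the product
  set wk : κ → ℕ → PowerSeries K := fun k L => psi (α L) (β L) (r1 k) +
    PowerSeries.C (α L / β L) * (PowerSeries.X - 1) * psi (α L) (β L) (r2 k) with hwk
  have hfac : ∀ k L, psi (α L) (β L) (X 0 * r1 k + X 1 * r2 k) =
      PowerSeries.C (β L) * zh K * wk k L := by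
    intro k L
    have hX : (PowerSeries.X : PowerSeries K) = zh K * (PowerSeries.X - 1) := by
      linear_combination -zh_mul (K := K)
    have hab : PowerSeries.C (α L) = PowerSeries.C (β L) * PowerSeries.C (α L / β L) := by
      rw [← map_mul, mul_div_cancel₀ _ (hp.hβ0 L)]
    rw [map_add, map_mul, map_mul, psi_X0, psi_X1, hab, hwk]
    simp only
    conv_lhs => rw [show PowerSeries.C (β L) * PowerSeries.C (α L / β L) * PowerSeries.X *
      psi (α L) (β L) (r2 k) = PowerSeries.C (β L) * PowerSeries.C (α L / β L) *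
        (zh K * (PowerSeries.X - 1)) * psi (α L) (β L) (r2 k) by rw [← hX]]
    ring
  set W : ℕ → PowerSeries K := fun L => ∏ k ∈ S, wk k L with hW
  set a : K := ∏ k ∈ S, constantCoeff (r1 k) with ha
  have ha0 : a ≠ 0 := Finset.prod_ne_zero_iff.2 hr
  have hWc : Cw W (PowerSeries.C a) := by
    rw [ha, map_prod]
    refine Cw.prod S fun k _ => ?_
    have h1 := psi_conv hp.hα hp.hβ (r1 k)
    have h2 := ((Cw.C hp.hαβ).mul (Cw.const ((PowerSeries.X : PowerSeries K) - 1))).mul
      (psi_conv hp.hα hp.hβ (r2 k))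
    have h3 := h1.add h2
    rw [map_zero, zero_mul, zero_mul, add_zero] at h3
    exact h3
  set aL : ℕ → K := fun L => PowerSeries.constantCoeff (W L) with haL
  have haLt : Tendsto aL atTop (𝓝 a) := by
    have := hWc 0
    simpa [PowerSeries.coeff_zero_eq_constantCoeff] using this
  have haLne : ∀ᶠ L in atTop, aL L ≠ 0 := haLt.eventually_ne ha0
  -- the approximate inverse
  set dL : ℕ → PowerSeries K := fun L => 1 - PowerSeries.C (aL L)⁻¹ * W L with hdL
  set V : ℕ → PowerSeries K := fun L => PowerSeries.C (aL L)⁻¹ *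
    ∑ j ∈ Finset.range N, dL L ^ j with hV
  have hdc : Cw dL (1 - PowerSeries.C a⁻¹ * PowerSeries.C a) :=
    (Cw.const 1).sub ((Cw.C (haLt.inv₀ ha0)).mul hWc)
  have hVc : ∃ v, Cw V v := ⟨_, (Cw.C (haLt.inv₀ ha0)).mul
    (Cw.sum (Finset.range N) fun j _ => hdc.pow j)⟩
  obtain ⟨v, hVc⟩ := hVc
  have hWV : ∀ L, aL L ≠ 0 → (PowerSeries.X : PowerSeries K) ^ N ∣ 1 - W L * V L := by
    intro L hL
    have e : 1 - W L * V L = dL L ^ N := by
      have h1 := mul_neg_geom_sum (dL L) N
      have h2 : W L * V L = (1 - dL L) * ∑ j ∈ Finset.range N, dL L ^ j := by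
        simp only [hV, hdL]; ring
      rw [h2, h1]; ring
    rw [e]
    refine pow_dvd_pow_of_dvd ?_ N
    rw [PowerSeries.X_dvd_iff]
    simp only [hdL, map_sub, map_one, map_mul, PowerSeries.constantCoeff_C]
    rw [show PowerSeries.constantCoeff (W L) = aL L from rfl, inv_mul_cancel₀ hL, sub_self]
  set w : ℕ → PowerSeries K := fun L => zh K ^ (m - o) * V L with hw
  have hwc : Cw w (zh K ^ (m - o) * v) := (Cw.const _).mul hVc
  set th : ℕ → ℕ → K := fun L i => ∑ l ∈ Finset.range N, PowerSeries.coeff l (w L) * θ l i with hth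
  set vt : ℕ → ℕ → K := fun L j => ∑ l ∈ Finset.range N, PowerSeries.coeff l (w L) * ϑ l j with hvt
  have hthc : ∀ i, ∃ c, Tendsto (fun L => th L i) atTop (𝓝 c) := fun i =>
    ⟨_, tendsto_finset_sum _ fun l _ => (hwc l).mul_const _⟩
  have hvtc : ∀ j, ∃ c, Tendsto (fun L => vt L j) atTop (𝓝 c) := fun j =>
    ⟨_, tendsto_finset_sum _ fun l _ => (hwc l).mul_const _⟩
  set cA : ℕ → ℕ → K := fun L i => β L ^ (m - o - i) * th L i with hcA
  set cB : ℕ → ℕ → K := fun L j => β L ^ (m - o) / α L ^ j * vt L j with hcB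
  refine ⟨fun L => ∑ i ∈ Finset.range A, (-(cA L i)) • (X 0 : MvPolynomial (Fin 2) K) ^ i +
      ∑ j ∈ Finset.range B, (-(cB L j)) • (X 1 : MvPolynomial (Fin 2) K) ^ j, ?_, ?_⟩
  · refine corr_tendsto A B cA cB ?_ ?_
    · intro i hi
      obtain ⟨c, hc⟩ := hthc i
      exact tendsto_zero_mul (tendsto_pow_pos hp.hβ (by omega)) hc
    · intro j hj
      obtain ⟨c, hc⟩ := hvtc j
      refine tendsto_zero_mul ?_ hc
      have h3 := tendsto_zero_mul (tendsto_zero_mul hp.h1 (hp.hβ.pow (m - o - A)))
        (hp.hα.pow (B - 1 - j))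
      refine h3.congr fun L => ?_
      have hαL := hp.hα0 L
      have e1 : α L ^ (B - 1) = α L ^ j * α L ^ (B - 1 - j) := by
        rw [← pow_add]; congr 1; omega
      have e2 : β L ^ (m - o) = β L ^ A * β L ^ (m - o - A) := by
        rw [← pow_add]; congr 1; omega
      rw [e1, e2]
      field_simp
  · filter_upwards [haLne] with L hL
    obtain ⟨q, hq⟩ := hspan (w L)
    obtain ⟨t, ht⟩ := hWV L hL
    obtain ⟨y, hy⟩ := X_dvd_zh (K := K)
    have hβL := hp.hβ0 L
    have hαL := hp.hα0 L
    rw [map_add, map_mul, map_pow, psi_X0, map_prod, psi_corr]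
    have e1 : ∏ k ∈ S, psi (α L) (β L) (X 0 * r1 k + X 1 * r2 k) =
        (PowerSeries.C (β L) * zh K) ^ o * W L := by
      rw [Finset.prod_congr rfl fun k _ => hfac k L, Finset.prod_mul_distrib, Finset.prod_const, hS]
    have e2 : ∑ i ∈ Finset.range A, PowerSeries.C (cA L i * β L ^ i) * zh K ^ i +
        ∑ j ∈ Finset.range B, PowerSeries.C (cB L j * α L ^ j) * PowerSeries.X ^ j =
        PowerSeries.C (β L) ^ (m - o) * (w L - PowerSeries.X ^ N * q) := by
      have e3 : w L - PowerSeries.X ^ N * q =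
          ∑ i ∈ Finset.range A, PowerSeries.C (th L i) * zh K ^ i +
          ∑ j ∈ Finset.range B, PowerSeries.C (vt L j) * PowerSeries.X ^ j := by
        rw [← hq]; ring
      rw [e3, mul_add, Finset.mul_sum, Finset.mul_sum]
      congr 1
      · refine Finset.sum_congr rfl fun i hi => ?_
        rw [Finset.mem_range] at hi
        have e4 : cA L i * β L ^ i = β L ^ (m - o) * th L i := by
          have e5 : β L ^ (m - o) = β L ^ (m - o - i) * β L ^ i := by
            rw [← pow_add]; congr 1; omega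
          rw [hcA, e5]; ring
        rw [e4, map_mul, map_pow]; ring
      · refine Finset.sum_congr rfl fun j hj => ?_
        have e4 : cB L j * α L ^ j = β L ^ (m - o) * vt L j := by
          rw [hcB]
          field_simp
        rw [e4, map_mul, map_pow]; ring
    rw [e1, e2]
    have e6 : (PowerSeries.C (β L) * zh K) ^ m =
        PowerSeries.C (β L) ^ m * (zh K ^ o * zh K ^ (m - o)) := by
      rw [mul_pow, ← pow_add]; congr 2; omega
    have e7 : PowerSeries.C (β L) ^ m = PowerSeries.C (β L) ^ o * PowerSeries.C (β L) ^ (m - o) := by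
      rw [← pow_add]; congr 1; omega
    refine ⟨PowerSeries.C (β L) ^ m * (y ^ o * (zh K ^ (m - o) * t + W L * q)), ?_⟩
    rw [e6, e7, mul_pow (PowerSeries.C (β L)) (zh K) o, pow_add, hw]
    simp only
    have e8 : zh K ^ o = PowerSeries.X ^ o * y ^ o := by rw [hy, mul_pow]
    have e9 : PowerSeries.C (β L) ^ o * PowerSeries.C (β L) ^ (m - o) * (zh K ^ o * zh K ^ (m - o)) +
        PowerSeries.C (β L) ^ o * zh K ^ o * W L *
          -(PowerSeries.C (β L) ^ (m - o) * (zh K ^ (m - o) * V L - PowerSeries.X ^ N * q)) =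
        PowerSeries.C (β L) ^ o * PowerSeries.C (β L) ^ (m - o) * (zh K ^ o *
          (zh K ^ (m - o) * (1 - W L * V L) + PowerSeries.X ^ N * (W L * q))) := by ring
    rw [e9, ht, e8]
    ring

/-- TARGET 2 (easier: theta, vartheta are constants here) -/
theorem lemC' (A B : ℕ) (hA : 1 ≤ A) (hB : 1 ≤ B) (α β : ℕ → K) (hp : Param A B α β) :
    ∃ g : ℕ → MvPolynomial (Fin 2) K, Tendsto g atTop (𝓝 0) ∧
      ∀ L, (PowerSeries.X : PowerSeries K) ^ (A + B - 1) ∣
        psi (α L) (β L) (X 1 ^ B + g L) := by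
  obtain ⟨θ, ϑ, hspan⟩ := span_zh (K := K) A B hA hB
  obtain ⟨q, hq⟩ := hspan (PowerSeries.X ^ B)
  set N := A + B - 1 with hN
  set th : ℕ → K := fun i => ∑ l ∈ Finset.range N,
    PowerSeries.coeff l (PowerSeries.X ^ B : PowerSeries K) * θ l i with hth
  set vt : ℕ → K := fun j => ∑ l ∈ Finset.range N,
    PowerSeries.coeff l (PowerSeries.X ^ B : PowerSeries K) * ϑ l j with hvt
  set cA : ℕ → ℕ → K := fun L i => α L ^ B / β L ^ i * th i with hcA
  set cB : ℕ → ℕ → K := fun L j => α L ^ (B - j) * vt j with hcB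
  refine ⟨fun L => ∑ i ∈ Finset.range A, (-(cA L i)) • (X 0 : MvPolynomial (Fin 2) K) ^ i +
      ∑ j ∈ Finset.range B, (-(cB L j)) • (X 1 : MvPolynomial (Fin 2) K) ^ j, ?_, ?_⟩
  · refine corr_tendsto A B cA cB ?_ ?_
    · intro i hi
      refine tendsto_zero_mul ?_ tendsto_const_nhds
      have h3 := tendsto_zero_mul hp.h2 (hp.hβ.pow (A - 1 - i))
      refine h3.congr fun L => ?_
      have hβL := hp.hβ0 L
      have e1 : β L ^ (A - 1) = β L ^ i * β L ^ (A - 1 - i) := by
        rw [← pow_add]; congr 1; omega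
      rw [e1]
      field_simp
    · intro j hj
      exact tendsto_zero_mul (tendsto_pow_pos hp.hα (by omega)) tendsto_const_nhds
  · intro L
    have hβL := hp.hβ0 L
    rw [map_add, map_pow, psi_X1, psi_corr]
    have e2 : ∑ i ∈ Finset.range A, PowerSeries.C (cA L i * β L ^ i) * zh K ^ i +
        ∑ j ∈ Finset.range B, PowerSeries.C (cB L j * α L ^ j) * PowerSeries.X ^ j =
        PowerSeries.C (α L) ^ B * (PowerSeries.X ^ B - PowerSeries.X ^ N * q) := by
      have e3 : PowerSeries.X ^ B - PowerSeries.X ^ N * q =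
          ∑ i ∈ Finset.range A, PowerSeries.C (th i) * zh K ^ i +
          ∑ j ∈ Finset.range B, PowerSeries.C (vt j) * PowerSeries.X ^ j := by
        rw [← hq]; ring
      rw [e3, mul_add, Finset.mul_sum, Finset.mul_sum]
      congr 1
      · refine Finset.sum_congr rfl fun i hi => ?_
        have e4 : cA L i * β L ^ i = α L ^ B * th i := by
          rw [hcA]
          field_simp
        rw [e4, map_mul, map_pow]; ring
      · refine Finset.sum_congr rfl fun j hj => ?_
        rw [Finset.mem_range] at hj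
        have e4 : cB L j * α L ^ j = α L ^ B * vt j := by
          have e5 : α L ^ B = α L ^ (B - j) * α L ^ j := by
            rw [← pow_add]; congr 1; omega
          rw [hcB, e5]; ring
        rw [e4, map_mul, map_pow]; ring
    rw [e2]
    exact ⟨PowerSeries.C (α L) ^ B * q, by ring⟩

end top

end HilbArc
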