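import Mathlib
import Pool.Agent.HilbP1.B

set_option autoImplicit false

open Filter Topology MvPolynomial

namespace HilbArc

variable {K : Type*} [Field K]

section top
variable [TopologicalSpace K] [IsTopologicalRing K]

variable [ContinuousInv₀ K] [T2Space K]

omit [TopologicalSpace K] [IsTopologicalRing K] [ContinuousInv₀ K] [T2Space K] in
lemma hb_cancel (n : ℕ) (q w : PowerSeries K) (h0 : PowerSeries.constantCoeff q = 0)
    (h1 : PowerSeries.coeff 1 q ≠ 0) (h : (PowerSeries.X : PowerSeries K) ^ (n + 1) ∣ q * w) :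
    (PowerSeries.X : PowerSeries K) ^ n ∣ w := by
  obtain ⟨u, hu⟩ := PowerSeries.X_dvd_iff.mpr h0
  have hu1 : PowerSeries.constantCoeff u ≠ 0 := by
    rw [hu] at h1
    have : PowerSeries.coeff 1 (PowerSeries.X * u) = PowerSeries.constantCoeff u := by
      rw [← PowerSeries.coeff_zero_eq_constantCoeff_apply]
      exact PowerSeries.coeff_succ_X_mul 0 u
    rwa [this] at h1
  have hunit : IsUnit u := by
    rw [PowerSeries.isUnit_iff_constantCoeff]
    exact isUnit_iff_ne_zero.mpr hu1
  rw [hu, pow_succ', mul_assoc] at h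
  have h2 := (mul_dvd_mul_iff_left (PowerSeries.X_ne_zero)).mp h
  exact hunit.dvd_mul_left.mp h2

omit [TopologicalSpace K] [IsTopologicalRing K] [ContinuousInv₀ K] [T2Space K] in
lemma hb_coe_dvd (n : ℕ) (q : Polynomial K) (h : (PowerSeries.X : PowerSeries K) ^ n ∣ (q : PowerSeries K)) :
    (Polynomial.X : Polynomial K) ^ n ∣ q := by
  rw [PowerSeries.X_pow_dvd_iff] at h
  rw [Polynomial.X_pow_dvd_iff]
  intro d hd
  have := h d hd
  rwa [Polynomial.coeff_coe] at this

omit [TopologicalSpace K] [IsTopologicalRing K] [ContinuousInv₀ K] [T2Space K] in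
lemma hb_split (f : Polynomial K) (g : MvPolynomial (Fin 2) K) :
    ∃ (q : Polynomial K) (h : MvPolynomial (Fin 2) K),
      ev PowerSeries.X (f : PowerSeries K) g = (q : PowerSeries K) ∧
      g = Polynomial.aeval (X 0 : MvPolynomial (Fin 2) K) q +
        (X 1 - Polynomial.aeval (X 0 : MvPolynomial (Fin 2) K) f) * h := by
  induction g using MvPolynomial.induction_on with
  | C a =>
    refine ⟨Polynomial.C a, 0, ?_, ?_⟩
    · have : (C a : MvPolynomial (Fin 2) K) = algebraMap K _ a := rfl
      rw [this, AlgHom.commutes, Polynomial.coe_C]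
      rfl
    · rw [Polynomial.aeval_C, mul_zero, add_zero]; rfl
  | add p q hp hq =>
    obtain ⟨q1, h1, e1, e2⟩ := hp
    obtain ⟨q2, h2, e3, e4⟩ := hq
    refine ⟨q1 + q2, h1 + h2, ?_, ?_⟩
    · rw [map_add, e1, e3, Polynomial.coe_add]
    · rw [map_add]
      linear_combination e2 + e4
  | mul_X p n hp =>
    obtain ⟨q1, h1, e1, e2⟩ := hp
    fin_cases n
    · refine ⟨q1 * Polynomial.X, h1 * X 0, ?_, ?_⟩
      · show ev _ _ (p * X 0) = _
        rw [map_mul, e1, ev_X0, Polynomial.coe_mul, Polynomial.coe_X]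
      · show p * X 0 = _
        rw [map_mul, Polynomial.aeval_X]
        linear_combination (X 0) * e2
    · refine ⟨q1 * f, Polynomial.aeval (X 0 : MvPolynomial (Fin 2) K) q1 + h1 * X 1, ?_, ?_⟩
      · show ev _ _ (p * X 1) = _
        rw [map_mul, e1, ev_X1, Polynomial.coe_mul]
      · show p * X 1 = _
        rw [map_mul]
        linear_combination (X 1) * e2

omit [TopologicalSpace K] [IsTopologicalRing K] [ContinuousInv₀ K] [T2Space K] in
lemma hb_split' (g : MvPolynomial (Fin 2) K) :
    ∃ (q : Polynomial K) (h : MvPolynomial (Fin 2) K),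
      ev 0 PowerSeries.X g = (q : PowerSeries K) ∧
      g = Polynomial.aeval (X 1 : MvPolynomial (Fin 2) K) q + X 0 * h := by
  induction g using MvPolynomial.induction_on with
  | C a =>
    refine ⟨Polynomial.C a, 0, ?_, ?_⟩
    · have : (C a : MvPolynomial (Fin 2) K) = algebraMap K _ a := rfl
      rw [this, AlgHom.commutes, Polynomial.coe_C]
      rfl
    · rw [Polynomial.aeval_C, mul_zero, add_zero]; rfl
  | add p q hp hq =>
    obtain ⟨q1, h1, e1, e2⟩ := hp
    obtain ⟨q2, h2, e3, e4⟩ := hq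
    refine ⟨q1 + q2, h1 + h2, ?_, ?_⟩
    · rw [map_add, e1, e3, Polynomial.coe_add]
    · rw [map_add]
      linear_combination e2 + e4
  | mul_X p n hp =>
    obtain ⟨q1, h1, e1, e2⟩ := hp
    fin_cases n
    · refine ⟨0, p, ?_, ?_⟩
      · show ev _ _ (p * X 0) = _
        rw [map_mul, ev_X0, mul_zero, Polynomial.coe_zero]
      · show p * X 0 = _
        rw [map_zero]
        ring
    · refine ⟨q1 * Polynomial.X, h1 * X 1, ?_, ?_⟩
      · show ev _ _ (p * X 1) = _
        rw [map_mul, e1, ev_X1, Polynomial.coe_mul, Polynomial.coe_X]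
      · show p * X 1 = _
        rw [map_mul, Polynomial.aeval_X]
        linear_combination (X 1) * e2

omit [TopologicalSpace K] [IsTopologicalRing K] [ContinuousInv₀ K] [T2Space K] in
lemma hb_ev_aeval0 (a b : PowerSeries K) (q : Polynomial K) :
    ev a b (Polynomial.aeval (X 0 : MvPolynomial (Fin 2) K) q) = Polynomial.aeval a q := by
  rw [← Polynomial.aeval_algHom_apply, ev_X0]

omit [TopologicalSpace K] [IsTopologicalRing K] [ContinuousInv₀ K] [T2Space K] in
lemma hb_ev_aeval1 (a b : PowerSeries K) (q : Polynomial K) :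
    ev a b (Polynomial.aeval (X 1 : MvPolynomial (Fin 2) K) q) = Polynomial.aeval b q := by
  rw [← Polynomial.aeval_algHom_apply, ev_X1]

omit [TopologicalSpace K] [IsTopologicalRing K] [ContinuousInv₀ K] [T2Space K] in
lemma hb_aeval_X (q : Polynomial K) :
    Polynomial.aeval (PowerSeries.X : PowerSeries K) q = (q : PowerSeries K) := by
  induction q using Polynomial.induction_on' with
  | add p q hp hq => rw [map_add, hp, hq, Polynomial.coe_add]
  | monomial n a =>
    rw [← Polynomial.C_mul_X_pow_eq_monomial, map_mul, map_pow, Polynomial.aeval_X, Polynomial.aeval_C,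
      Polynomial.coe_mul, Polynomial.coe_C, Polynomial.coe_pow, Polynomial.coe_X]
    rfl

omit [TopologicalSpace K] [IsTopologicalRing K] [ContinuousInv₀ K] [T2Space K] in
lemma hb_psi_hyp (a b : K) : psi a b (X 0 * X 1 - C a * X 0 - C b * X 1) = 0 := by
  have hC : ∀ c : K, psi a b (C c) = PowerSeries.C c := by
    intro c
    have : (C c : MvPolynomial (Fin 2) K) = algebraMap K _ c := rfl
    rw [this, AlgHom.commutes]
    rfl
  have h0 : psi a b (X 0) = PowerSeries.C b * zh K := by unfold psi; simp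
  have h1 : psi a b (X 1) = PowerSeries.C a * PowerSeries.X := by unfold psi; simp
  rw [map_sub, map_sub, map_mul, map_mul, map_mul, hC, hC, h0, h1]
  linear_combination (PowerSeries.C a * PowerSeries.C b) * zh_mul (K := K)

omit [IsTopologicalRing K] [ContinuousInv₀ K] [T2Space K] in
lemma hb_mul_cont (p : MvPolynomial (Fin 2) K) {u : ℕ → MvPolynomial (Fin 2) K} {l : MvPolynomial (Fin 2) K}
    (hu : Tendsto u atTop (𝓝 l)) : Tendsto (fun L => u L * p) atTop (𝓝 (l * p)) := by
  have hc : Continuous (LinearMap.mulRight K p) := IsModuleTopology.continuous_of_linearMap _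
  exact (hc.tendsto l).comp hu

omit [IsTopologicalRing K] [ContinuousInv₀ K] [T2Space K] in
lemma hb_smul_zero (p : MvPolynomial (Fin 2) K) {c : ℕ → K} (hc : Tendsto c atTop (𝓝 0)) :
    Tendsto (fun L => C (c L) * p) atTop (𝓝 0) := by
  have : ContinuousSMul K (MvPolynomial (Fin 2) K) := IsModuleTopology.toContinuousSMul K _
  have h := hc.smul (tendsto_const_nhds (x := p))
  rw [zero_smul] at h
  refine h.congr (fun L => ?_)
  rw [smul_eq_C_mul]

omit [TopologicalSpace K] [IsTopologicalRing K] [ContinuousInv₀ K] [T2Space K] in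
lemma hb_psi_eta (a b : K) (f : Polynomial K) (hf : f.coeff 0 = 0) :
    (PowerSeries.X : PowerSeries K) ∣ psi a b (X 1 - Polynomial.aeval (X 0 : MvPolynomial (Fin 2) K) f) := by
  unfold psi
  rw [map_sub, hb_ev_aeval0, ev_X1]
  apply dvd_sub (Dvd.intro_left _ rfl)
  have hz : (PowerSeries.X : PowerSeries K) ∣ PowerSeries.C b * zh K := by
    unfold zh
    exact ⟨-(PowerSeries.C b * PowerSeries.mk fun _ => (1 : K)), by ring⟩
  have hfX : (Polynomial.X : Polynomial K) ∣ f := Polynomial.X_dvd_iff.mpr hf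
  obtain ⟨f', rfl⟩ := hfX
  rw [map_mul, Polynomial.aeval_X]
  exact Dvd.dvd.mul_right hz _

theorem hb_base (A B : ℕ) (hA : 1 ≤ A) (hB : 1 ≤ B) (α β : ℕ → K)
    (hp : Param A B α β) (g : MvPolynomial (Fin 2) K)
    (h1 : (PowerSeries.X : PowerSeries K) ^ A ∣ ev PowerSeries.X 0 g)
    (h2 : (PowerSeries.X : PowerSeries K) ^ B ∣ ev 0 PowerSeries.X g) :
    ∃ gL : ℕ → MvPolynomial (Fin 2) K, Tendsto gL atTop (𝓝 g) ∧
      ∀ᶠ L in atTop, (PowerSeries.X : PowerSeries K) ^ (A + B - 1) ∣ psi (α L) (β L) (gL L) := by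
  obtain ⟨q1, h, e1, e2⟩ := hb_split (0 : Polynomial K) g
  rw [Polynomial.coe_zero] at e1
  rw [e1] at h1
  obtain ⟨p, rfl⟩ := hb_coe_dvd A q1 h1
  obtain ⟨q2, r, e3, e4⟩ := hb_split' h
  have e5 : ev 0 PowerSeries.X g = PowerSeries.X * (q2 : PowerSeries K) := by
    have b1 : ev 0 PowerSeries.X (X 1 - Polynomial.aeval (X 0 : MvPolynomial (Fin 2) K) (0 : Polynomial K)) =
        PowerSeries.X := by
      rw [map_zero, sub_zero, ev_X1]
    rw [e2, map_add, map_mul (ev 0 PowerSeries.X) (X 1 - _) h, b1, e3, hb_ev_aeval0, map_mul, map_pow,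
      Polynomial.aeval_X, zero_pow (by omega), zero_mul, zero_add]
  obtain ⟨B', rfl⟩ : ∃ B', B = B' + 1 := ⟨B - 1, by omega⟩
  rw [e5, pow_succ'] at h2
  have h3 := hb_coe_dvd B' q2 ((mul_dvd_mul_iff_left (PowerSeries.X_ne_zero)).mp h2)
  obtain ⟨q, rfl⟩ := h3
  have eg : g = X 0 ^ A * Polynomial.aeval (X 0 : MvPolynomial (Fin 2) K) p +
      X 1 ^ (B' + 1) * Polynomial.aeval (X 1 : MvPolynomial (Fin 2) K) q + (X 0 * X 1) * r := by
    rw [e2]
    nth_rewrite 1 [e4]
    simp only [map_mul, map_pow, Polynomial.aeval_X, map_zero]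
    ring
  obtain ⟨u, hu0, hu⟩ := lemC (κ := Empty) A (B' + 1) 0 A hA hB (by omega) α β hp ∅ rfl
    (fun _ => 0) (fun _ => 0) (by simp)
  obtain ⟨v, hv0, hv⟩ := lemC' A (B' + 1) hA hB α β hp
  refine ⟨fun L => (X 0 ^ A + u L) * Polynomial.aeval (X 0 : MvPolynomial (Fin 2) K) p +
      (X 1 ^ (B' + 1) + v L) * Polynomial.aeval (X 1 : MvPolynomial (Fin 2) K) q +
      (X 0 * X 1 - C (α L) * X 0 - C (β L) * X 1) * r, ?_, ?_⟩
  · rw [eg]
    have t1 : Tendsto (fun L => (X 0 ^ A + u L) * Polynomial.aeval (X 0 : MvPolynomial (Fin 2) K) p) atTop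
        (𝓝 (X 0 ^ A * Polynomial.aeval (X 0 : MvPolynomial (Fin 2) K) p)) := by
      apply hb_mul_cont
      have := (tendsto_const_nhds (x := (X 0 ^ A : MvPolynomial (Fin 2) K)) (f := atTop)).add hu0
      rwa [add_zero] at this
    have t2 : Tendsto (fun L => (X 1 ^ (B' + 1) + v L) * Polynomial.aeval (X 1 : MvPolynomial (Fin 2) K) q) atTop
        (𝓝 (X 1 ^ (B' + 1) * Polynomial.aeval (X 1 : MvPolynomial (Fin 2) K) q)) := by
      apply hb_mul_cont
      have := (tendsto_const_nhds (x := (X 1 ^ (B' + 1) : MvPolynomial (Fin 2) K)) (f := atTop)).add hv0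
      rwa [add_zero] at this
    have t3 : Tendsto (fun L => (X 0 * X 1 - C (α L) * X 0 - C (β L) * X 1) * r) atTop
        (𝓝 ((X 0 * X 1) * r)) := by
      have a1 := hb_smul_zero (-(X 0 * r)) hp.hα
      have a2 := hb_smul_zero (-(X 1 * r)) hp.hβ
      have a3 := ((tendsto_const_nhds (x := ((X 0 * X 1) * r : MvPolynomial (Fin 2) K)) (f := atTop)).add a1).add a2
      rw [add_zero, add_zero] at a3
      refine a3.congr (fun L => ?_)
      ring
    exact (t1.add t2).add t3
  · filter_upwards [hu] with L hL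
    rw [map_add, map_add, map_mul, map_mul, map_mul, hb_psi_hyp, zero_mul, add_zero]
    apply dvd_add
    · apply Dvd.dvd.mul_right
      simpa using hL
    · exact Dvd.dvd.mul_right (hv L) _

/-- TARGET -/
theorem claimD {κ : Type*} (A B : ℕ) (hA : 1 ≤ A) (hB : 1 ≤ B) (α β : ℕ → K)
    (hp : Param A B α β) (o : ℕ) :
    ∀ (S : Finset κ) (f : κ → Polynomial K) (Ak : κ → ℕ), S.card = o →
      (∀ k ∈ S, (f k).coeff 0 = 0 ∧ (f k).coeff 1 ≠ 0) →
      (∀ k ∈ S, ∀ l ∈ S, k ≠ l → (f k).coeff 1 ≠ (f l).coeff 1) →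
      (∀ k ∈ S, A + o ≤ Ak k) →
      ∀ g : MvPolynomial (Fin 2) K,
        (PowerSeries.X : PowerSeries K) ^ (A + o) ∣ ev PowerSeries.X 0 g →
        (PowerSeries.X : PowerSeries K) ^ (B + o) ∣ ev 0 PowerSeries.X g →
        (∀ k ∈ S, (PowerSeries.X : PowerSeries K) ^ (Ak k) ∣ ev PowerSeries.X (f k : PowerSeries K) g) →
        ∃ gL : ℕ → MvPolynomial (Fin 2) K, Tendsto gL atTop (𝓝 g) ∧
          (∀ L, ∀ k ∈ S, (PowerSeries.X : PowerSeries K) ^ (Ak k) ∣
            ev PowerSeries.X (f k : PowerSeries K) (gL L)) ∧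
          ∀ᶠ L in atTop, (PowerSeries.X : PowerSeries K) ^ (A + B - 1 + o) ∣
            psi (α L) (β L) (gL L) := by
  classical
  induction o with
  | zero =>
    intro S f Ak hS _ _ _ g h1 h2 _
    rw [Finset.card_eq_zero] at hS
    subst hS
    obtain ⟨gL, t1, t2⟩ := hb_base A B hA hB α β hp g h1 h2
    exact ⟨gL, t1, by simp, t2⟩
  | succ o ih =>
    intro S f Ak hS hf hdist hAk g h1 h2 h3
    have hSne : S.Nonempty := by
      rw [← Finset.card_pos]; omega
    obtain ⟨k0, hk0, hmax⟩ := Finset.exists_max_image S Ak hSne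
    obtain ⟨q, g', e1, e2⟩ := hb_split (f k0) g
    have hq := h3 k0 hk0
    rw [e1] at hq
    obtain ⟨p, rfl⟩ := hb_coe_dvd _ q hq
    set η0 : MvPolynomial (Fin 2) K := X 1 - Polynomial.aeval (X 0 : MvPolynomial (Fin 2) K) (f k0) with hη0
    have hA0 := hAk k0 hk0
    -- evaluation of the first part
    have hpart : ∀ k, Ak k ≤ Ak k0 → (PowerSeries.X : PowerSeries K) ^ (Ak k) ∣
        Polynomial.aeval (PowerSeries.X : PowerSeries K) (Polynomial.X ^ Ak k0 * p) := by
      intro k hk
      rw [map_mul, map_pow, Polynomial.aeval_X]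
      exact Dvd.dvd.mul_right (pow_dvd_pow _ hk) _
    have c1 : (PowerSeries.X : PowerSeries K) ^ (A + o) ∣ ev PowerSeries.X 0 g' := by
      have a1 : (PowerSeries.X : PowerSeries K) ^ (A + o + 1) ∣ ev PowerSeries.X 0 η0 * ev PowerSeries.X 0 g' := by
        have a2 : ev PowerSeries.X 0 η0 * ev PowerSeries.X 0 g' = ev PowerSeries.X 0 g -
            Polynomial.aeval (PowerSeries.X : PowerSeries K) (Polynomial.X ^ Ak k0 * p) := by
          rw [e2, map_add, map_mul (ev PowerSeries.X 0) η0, hb_ev_aeval0]; ring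
        rw [a2]
        apply dvd_sub h1
        rw [map_mul, map_pow, Polynomial.aeval_X]
        exact Dvd.dvd.mul_right (pow_dvd_pow _ (by omega)) _
      have a3 : ev PowerSeries.X 0 η0 = -(f k0 : PowerSeries K) := by
        rw [hη0, map_sub, ev_X1, hb_ev_aeval0, hb_aeval_X, zero_sub]
      refine hb_cancel _ _ _ ?_ ?_ a1
      · rw [a3, map_neg, ← PowerSeries.coeff_zero_eq_constantCoeff_apply, Polynomial.coeff_coe, (hf k0 hk0).1, neg_zero]
      · rw [a3, map_neg, Polynomial.coeff_coe]
        exact neg_ne_zero.mpr (hf k0 hk0).2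
    have c2 : (PowerSeries.X : PowerSeries K) ^ (B + o) ∣ ev 0 PowerSeries.X g' := by
      have a1 : (PowerSeries.X : PowerSeries K) ^ (B + o + 1) ∣ ev 0 PowerSeries.X η0 * ev 0 PowerSeries.X g' := by
        have a2 : ev 0 PowerSeries.X η0 * ev 0 PowerSeries.X g' = ev 0 PowerSeries.X g := by
          rw [e2, map_add, map_mul (ev 0 PowerSeries.X) η0, hb_ev_aeval0, map_mul, map_pow, Polynomial.aeval_X,
            zero_pow (by omega)]
          ring
        rw [a2]
        exact h2
      have a3 : ev 0 PowerSeries.X η0 = PowerSeries.X := by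
        rw [hη0, map_sub, ev_X1, hb_ev_aeval0, ← Polynomial.coeff_zero_eq_aeval_zero', (hf k0 hk0).1, map_zero, sub_zero]
      refine hb_cancel _ _ _ ?_ ?_ a1
      · rw [a3]; simp
      · rw [a3]; simp
    have hev : ∀ k, ev PowerSeries.X (f k : PowerSeries K) η0 = (f k : PowerSeries K) - (f k0 : PowerSeries K) := by
      intro k
      rw [hη0, map_sub, ev_X1, hb_ev_aeval0, hb_aeval_X]
    have c3 : ∀ k ∈ S.erase k0, (PowerSeries.X : PowerSeries K) ^ (Ak k - 1) ∣
        ev PowerSeries.X (f k : PowerSeries K) g' := by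
      intro k hk
      rw [Finset.mem_erase] at hk
      have hAkk := hAk k hk.2
      have a1 : (PowerSeries.X : PowerSeries K) ^ (Ak k - 1 + 1) ∣
          ev PowerSeries.X (f k : PowerSeries K) η0 * ev PowerSeries.X (f k : PowerSeries K) g' := by
        have a2 : ev PowerSeries.X (f k : PowerSeries K) η0 * ev PowerSeries.X (f k : PowerSeries K) g' =
            ev PowerSeries.X (f k : PowerSeries K) g -
            Polynomial.aeval (PowerSeries.X : PowerSeries K) (Polynomial.X ^ Ak k0 * p) := by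
          rw [e2, map_add, map_mul (ev PowerSeries.X (f k : PowerSeries K)) η0, hb_ev_aeval0]; ring
        rw [a2, Nat.sub_add_cancel (by omega)]
        exact dvd_sub (h3 k hk.2) (hpart k (hmax k hk.2))
      refine hb_cancel _ _ _ ?_ ?_ a1
      · rw [hev, map_sub, ← PowerSeries.coeff_zero_eq_constantCoeff_apply, ← PowerSeries.coeff_zero_eq_constantCoeff_apply,
          Polynomial.coeff_coe, Polynomial.coeff_coe, (hf k hk.2).1, (hf k0 hk0).1, sub_zero]
      · rw [hev, map_sub, Polynomial.coeff_coe, Polynomial.coeff_coe]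
        exact sub_ne_zero.mpr (hdist k hk.2 k0 hk0 hk.1)
    obtain ⟨gL', t1, t2, t3⟩ := ih (S.erase k0) f (fun k => Ak k - 1)
      (by rw [Finset.card_erase_of_mem hk0]; omega)
      (fun k hk => hf k (Finset.mem_of_mem_erase hk))
      (fun k hk l hl => hdist k (Finset.mem_of_mem_erase hk) l (Finset.mem_of_mem_erase hl))
      (fun k hk => by have := hAk k (Finset.mem_of_mem_erase hk); omega) g' c1 c2 c3
    obtain ⟨u, hu0, hu⟩ := lemC A B (o + 1) (Ak k0) hA hB (by omega) α β hp S hS
      (fun k => -Polynomial.aeval (X 0 : MvPolynomial (Fin 2) K) (f k).divX) (fun _ => 1) (by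
        intro k hk
        have a1 : constantCoeff (-Polynomial.aeval (X 0 : MvPolynomial (Fin 2) K) (f k).divX) = -(f k).coeff 1 := by
          rw [map_neg]
          congr 1
          have a2 : ∀ q : Polynomial K, constantCoeff (Polynomial.aeval (X 0 : MvPolynomial (Fin 2) K) q) = q.coeff 0 := by
            intro q
            induction q using Polynomial.induction_on' with
            | add p q hp hq => rw [map_add, map_add, hp, hq, Polynomial.coeff_add]
            | monomial n a =>
              rw [← Polynomial.C_mul_X_pow_eq_monomial, map_mul, map_pow, Polynomial.aeval_X, Polynomial.aeval_C,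
                map_mul, map_pow, Polynomial.coeff_C_mul, Polynomial.coeff_X_pow]
              have a4 : constantCoeff (algebraMap K (MvPolynomial (Fin 2) K) a) = a := constantCoeff_C _ a
              rw [a4, constantCoeff_X]
              rcases Nat.eq_zero_or_pos n with rfl | hn
              · simp
              · rw [zero_pow hn.ne', if_neg hn.ne]
          rw [a2, Polynomial.coeff_divX]
        rw [a1]
        exact neg_ne_zero.mpr (hf k hk).2)
    have hprod : ∀ k ∈ S, (X 0 * -Polynomial.aeval (X 0 : MvPolynomial (Fin 2) K) (f k).divX + X 1 * 1 :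
        MvPolynomial (Fin 2) K) = X 1 - Polynomial.aeval (X 0 : MvPolynomial (Fin 2) K) (f k) := by
      intro k hk
      have a1 : f k = Polynomial.X * (f k).divX := by
        have := Polynomial.X_mul_divX_add (f k)
        rw [(hf k hk).1, map_zero, add_zero] at this
        exact this.symm
      nth_rewrite 2 [a1]
      rw [map_mul, Polynomial.aeval_X]
      ring
    set Pr : MvPolynomial (Fin 2) K := ∏ k ∈ S, (X 0 * -Polynomial.aeval (X 0 : MvPolynomial (Fin 2) K) (f k).divX + X 1 * 1)
      with hPr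
    refine ⟨fun L => (X 0 ^ Ak k0 + Pr * u L) * Polynomial.aeval (X 0 : MvPolynomial (Fin 2) K) p + η0 * gL' L, ?_, ?_, ?_⟩
    · rw [e2, map_mul, map_pow, Polynomial.aeval_X]
      apply Tendsto.add
      · apply hb_mul_cont
        have a1 := hb_mul_cont Pr hu0
        rw [zero_mul] at a1
        have a2 := (tendsto_const_nhds (x := (X 0 ^ Ak k0 : MvPolynomial (Fin 2) K)) (f := atTop)).add a1
        rw [add_zero] at a2
        exact a2.congr (fun L => by ring)
      · have a1 := hb_mul_cont η0 t1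
        rw [mul_comm η0 g']
        exact a1.congr (fun L => by ring)
    · intro L k hk
      have a1 : ev PowerSeries.X (f k : PowerSeries K) Pr = 0 := by
        rw [hPr, map_prod]
        apply Finset.prod_eq_zero hk
        rw [hprod k hk, map_sub, ev_X1, hb_ev_aeval0, hb_aeval_X, sub_self]
      rw [map_add, map_mul, map_mul, map_add, map_mul, a1, zero_mul, add_zero, map_pow, ev_X0, hb_ev_aeval0]
      apply dvd_add
      · exact Dvd.dvd.mul_right (pow_dvd_pow _ (hmax k hk)) _
      · by_cases hkk : k = k0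
        · subst hkk
          rw [hev, sub_self, zero_mul]
          exact dvd_zero _
        · have hk' : k ∈ S.erase k0 := Finset.mem_erase.mpr ⟨hkk, hk⟩
          have hAkk := hAk k hk
          have a2 : (PowerSeries.X : PowerSeries K) ^ (Ak k) = PowerSeries.X * PowerSeries.X ^ (Ak k - 1) := by
            rw [← pow_succ', Nat.sub_add_cancel (by omega)]
          rw [a2]
          apply mul_dvd_mul _ (t2 L k hk')
          rw [hev, PowerSeries.X_dvd_iff, map_sub, ← PowerSeries.coeff_zero_eq_constantCoeff_apply,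
            ← PowerSeries.coeff_zero_eq_constantCoeff_apply, Polynomial.coeff_coe, Polynomial.coeff_coe,
            (hf k hk).1, (hf k0 hk0).1, sub_zero]
    · filter_upwards [hu, t3] with L hL1 hL2
      rw [map_add, map_mul, map_mul]
      apply dvd_add
      · exact Dvd.dvd.mul_right hL1 _
      · rw [← add_assoc, pow_succ']
        exact mul_dvd_mul (hb_psi_eta _ _ _ (hf k0 hk0).1) hL2

end top

end HilbArc
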