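import Mathlib
import Pool.Agent.HilbP1.C

set_option autoImplicit false

open Filter Topology MvPolynomial

namespace HilbArc

variable {K : Type*} [Field K]

section top
variable [TopologicalSpace K] [IsTopologicalRing K]

/-- TARGET 1: `α = s^(2AL)`, `β = s^((2B-1)L)` -/
theorem exists_param (A B : ℕ) (hB : 1 ≤ B) (hAB : B ≤ A) (s : K) (hs : s ≠ 0)
    (hs' : Tendsto (fun L : ℕ => s ^ L) atTop (𝓝 0)) :
    ∃ α β : ℕ → K, Param A B α β := by
  have tc : ∀ c : ℕ, 1 ≤ c → Tendsto (fun L : ℕ => s ^ (c * L)) atTop (𝓝 0) := by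
    intro c hc
    refine hs'.comp ?_
    exact tendsto_id.const_mul_atTop' (by omega)
  obtain ⟨b, rfl⟩ : ∃ b, B = b + 1 := ⟨B - 1, by omega⟩
  obtain ⟨d, rfl⟩ : ∃ d, A = b + 1 + d := ⟨A - (b + 1), by omega⟩
  refine ⟨fun L => s ^ (2 * (b + 1 + d) * L), fun L => s ^ ((2 * b + 1) * L),
    ⟨fun L => pow_ne_zero _ hs, fun L => pow_ne_zero _ hs, tc _ (by omega), tc _ (by omega),
      ?_, ?_, ?_⟩⟩
  · refine (tc (2 * d + 1) (by omega)).congr fun L => ?_
    rw [eq_div_iff (pow_ne_zero _ hs), ← pow_add]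
    congr 1
    ring
  · refine (tc (b + 1 + d) (by omega)).congr fun L => ?_
    rw [eq_div_iff (pow_ne_zero _ (pow_ne_zero _ hs)), Nat.add_sub_cancel, ← pow_mul, ← pow_mul,
      ← pow_add]
    congr 1
    ring
  · refine (tc (3 * b + 2 + d) (by omega)).congr fun L => ?_
    have : b + 1 + d - 1 = b + d := by omega
    rw [eq_div_iff (pow_ne_zero _ (pow_ne_zero _ hs)), this, ← pow_mul, ← pow_mul,
      ← pow_add]
    congr 1
    ring

/-- TARGET 2 -/
theorem closure_aut {ι : Type*} (e : MvPolynomial (Fin 2) K ≃ₐ[K] MvPolynomial (Fin 2) K)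
    (he : ∀ a b : PowerSeries K, IsBr a b → IsBr (ev a b (e.symm (X 0))) (ev a b (e.symm (X 1))))
    (n : ℕ) (g : ι → MvPolynomial (Fin 2) K)
    (hg : (fun i => e.symm (g i)) ∈ closure (Cv ι K n)) : g ∈ closure (Cv ι K n) := by
  have hc : Continuous fun h : ι → MvPolynomial (Fin 2) K => fun i => e (h i) := by
    refine continuous_pi fun i => ?_
    exact (IsModuleTopology.continuous_of_linearMap e.toLinearMap).comp (continuous_apply i)
  have hm : Set.MapsTo (fun h : ι → MvPolynomial (Fin 2) K => fun i => e (h i))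
      (Cv ι K n) (Cv ι K n) := by
    rintro h ⟨a, b, hbr, hd⟩
    refine ⟨_, _, he a b hbr, fun i => ?_⟩
    have key : ev (ev a b (e.symm (X 0))) (ev a b (e.symm (X 1)))
        = (ev a b).comp (e.symm : MvPolynomial (Fin 2) K →ₐ[K] MvPolynomial (Fin 2) K) := by
      ext1 j
      fin_cases j <;> simp
    have h1 : ev (ev a b (e.symm (X 0))) (ev a b (e.symm (X 1))) (e (h i)) = ev a b (h i) := by
      rw [key]
      show ev a b (e.symm (e (h i))) = _
      rw [AlgEquiv.symm_apply_apply]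
    show PowerSeries.X ^ n ∣ ev (ev a b (e.symm (X 0))) (ev a b (e.symm (X 1))) (e (h i))
    rw [h1]
    exact hd i
  have h2 := map_mem_closure hc hg hm
  have h3 : (fun i => e (e.symm (g i))) = g := by
    funext i
    exact e.apply_symm_apply _
  rwa [h3] at h2

variable [ContinuousInv₀ K] [T2Space K]

/-- TARGET 3 -/
theorem stepM_core {ι κ : Type*} [Finite ι] (n o A B : ℕ) (hA : 1 ≤ A) (hB : 1 ≤ B)
    (α β : ℕ → K) (hp : Param A B α β) (O : Finset κ) (f : κ → Polynomial K) (Ak : κ → ℕ)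
    (hO : O.card = o) (hf : ∀ k ∈ O, (f k).coeff 0 = 0 ∧ (f k).coeff 1 ≠ 0)
    (hff : ∀ k ∈ O, ∀ l ∈ O, k ≠ l → (f k).coeff 1 ≠ (f l).coeff 1)
    (hAk : ∀ k ∈ O, A + o ≤ Ak k)
    (IH : ∀ α0 β0 : K, β0 ≠ 0 → (∀ k ∈ O, α0 + β0 * (f k).coeff 1 ≠ 0) →
      ∀ g : ι → MvPolynomial (Fin 2) K,
      (∀ i, ∀ k ∈ O, (PowerSeries.X : PowerSeries K) ^ (Ak k) ∣
        ev PowerSeries.X (f k : PowerSeries K) (g i)) →
      (∀ i, (PowerSeries.X : PowerSeries K) ^ (A + B - 1 + o) ∣ psi α0 β0 (g i)) →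
      g ∈ closure (Cv ι K n))
    (g : ι → MvPolynomial (Fin 2) K)
    (h1 : ∀ i, (PowerSeries.X : PowerSeries K) ^ (A + o) ∣ ev PowerSeries.X 0 (g i))
    (h2 : ∀ i, (PowerSeries.X : PowerSeries K) ^ (B + o) ∣ ev 0 PowerSeries.X (g i))
    (h3 : ∀ i, ∀ k ∈ O, (PowerSeries.X : PowerSeries K) ^ (Ak k) ∣
        ev PowerSeries.X (f k : PowerSeries K) (g i)) :
    g ∈ closure (Cv ι K n) := by
  have hcl := fun i => claimD A B hA hB α β hp o O f Ak hO hf hff hAk (g i) (h1 i) (h2 i) (h3 i)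
  choose gL hg1 hg2 hg3 using hcl
  have ht : Tendsto (fun L => fun i => gL i L) atTop (𝓝 g) := tendsto_pi_nhds.2 hg1
  have he1 : ∀ᶠ L in atTop, ∀ i, (PowerSeries.X : PowerSeries K) ^ (A + B - 1 + o) ∣
      psi (α L) (β L) (gL i L) := eventually_all.2 hg3
  have he2 : ∀ᶠ L in atTop, ∀ k ∈ O, α L + β L * (f k).coeff 1 ≠ 0 := by
    rw [Filter.eventually_all_finset]
    intro k hk
    have h5 : Tendsto (fun L => α L / β L + (f k).coeff 1) atTop (𝓝 (0 + (f k).coeff 1)) :=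
      hp.hαβ.add tendsto_const_nhds
    have h6 : (0 : K) + (f k).coeff 1 ≠ 0 := by
      rw [zero_add]
      exact (hf k hk).2
    filter_upwards [h5.eventually_ne h6] with L hL h7
    apply hL
    have h8 : α L / β L + (f k).coeff 1 = (α L + β L * (f k).coeff 1) / β L := by
      field_simp [hp.hβ0 L]
    rw [h8, h7, zero_div]
  have he3 : ∀ᶠ L in atTop, (fun i => gL i L) ∈ closure (Cv ι K n) := by
    filter_upwards [he1, he2] with L h5 h6
    exact IH (α L) (β L) (hp.hβ0 L) h6 _ (fun i k hk => hg2 i L k hk) h5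
  exact isClosed_closure.mem_of_tendsto ht he3

end top

end HilbArc
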