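import Mathlib
import Pool.Agent.HilbP1.Base

set_option autoImplicit false

open Filter Topology MvPolynomial

namespace HilbArc

variable {K : Type*} [Field K]

/-- divisibility of `X^n * v`, `v` with nonzero constant coefficient -/
lemma dvd_iff_le (v : PowerSeries K) (hv : PowerSeries.constantCoeff v ≠ 0) (A n : ℕ) :
    (PowerSeries.X : PowerSeries K) ^ A ∣ PowerSeries.X ^ n * v ↔ A ≤ n := by
  have hu : IsUnit v := by
    rw [PowerSeries.isUnit_iff_constantCoeff]
    exact isUnit_iff_ne_zero.2 hv
  rw [hu.dvd_mul_right]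
  have hp : Prime (PowerSeries.X : PowerSeries K) := PowerSeries.X_prime
  exact pow_dvd_pow_iff hp.ne_zero hp.not_unit

lemma coe_eq_aeval (q : Polynomial K) :
    (q : PowerSeries K) = Polynomial.aeval (PowerSeries.X : PowerSeries K) q := by
  induction q using Polynomial.induction_on with
  | C c =>
    rw [Polynomial.aeval_C, Polynomial.coe_C, ← PowerSeries.C_eq_algebraMap]
  | add p r hp hr => rw [Polynomial.coe_add, hp, hr, map_add]
  | monomial n c h =>
    rw [Polynomial.coe_mul, Polynomial.coe_C, Polynomial.coe_pow, Polynomial.coe_X, map_mul, map_pow,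
      Polynomial.aeval_C, Polynomial.aeval_X, ← PowerSeries.C_eq_algebraMap]

lemma step4 (a : PowerSeries K) (u : PowerSeries K) (hau : a = PowerSeries.X * u)
    (hu : PowerSeries.constantCoeff u ≠ 0) (A : ℕ) (q : Polynomial K) :
    (PowerSeries.X : PowerSeries K) ^ A ∣ Polynomial.aeval a q ↔
      (PowerSeries.X : PowerSeries K) ^ A ∣ (q : PowerSeries K) := by
  by_cases hq : q = 0
  · subst hq; simp
  obtain ⟨q1, hq1, hnd⟩ := Polynomial.exists_eq_pow_rootMultiplicity_mul_and_not_dvd q hq 0
  set n := Polynomial.rootMultiplicity 0 q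
  rw [Polynomial.C_0, sub_zero] at hq1 hnd
  have hc : q1.coeff 0 ≠ 0 := fun h => hnd (Polynomial.X_dvd_iff.2 h)
  have key : ∀ (c : PowerSeries K) (w : PowerSeries K), c = PowerSeries.X * w →
      PowerSeries.constantCoeff w ≠ 0 →
      ((PowerSeries.X : PowerSeries K) ^ A ∣ Polynomial.aeval c q ↔ A ≤ n) := by
    intro c w hcw hw
    have h1 : Polynomial.aeval c q = PowerSeries.X ^ n * (w ^ n * Polynomial.aeval c q1) := by
      conv_lhs => rw [hq1]
      rw [map_mul, map_pow, Polynomial.aeval_X]
      conv_lhs => rw [hcw, mul_pow]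
      rw [← hcw]
      ring
    rw [h1]
    apply dvd_iff_le
    rw [map_mul, map_pow]
    have h2 : PowerSeries.constantCoeff (Polynomial.aeval c q1) = q1.coeff 0 := by
      have h3 : (PowerSeries.constantCoeff (R := K)) (Polynomial.aeval c q1)
          = Polynomial.eval₂ (RingHom.id K) (PowerSeries.constantCoeff c) q1 := by
        rw [Polynomial.aeval_def, Polynomial.hom_eval₂]
        congr 1
      rw [h3, hcw, map_mul, PowerSeries.constantCoeff_X, zero_mul, Polynomial.eval₂_at_zero]
      simp
    rw [h2]
    exact mul_ne_zero (pow_ne_zero _ hw) hc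
  rw [key a u hau hu, coe_eq_aeval, key PowerSeries.X 1 (by rw [mul_one]) (by simp)]

lemma step2 (m : ℕ) (φ ψ : MvPolynomial (Fin 2) K →ₐ[K] PowerSeries K)
    (h : ∀ i, (PowerSeries.X : PowerSeries K) ^ m ∣ φ (X i) - ψ (X i)) (g : MvPolynomial (Fin 2) K) :
    (PowerSeries.X : PowerSeries K) ^ m ∣ φ g - ψ g := by
  induction g using MvPolynomial.induction_on with
  | C c =>
    have h1 : φ (C c) = ψ (C c) := by
      rw [← MvPolynomial.algebraMap_eq, AlgHom.commutes, AlgHom.commutes]
    rw [h1, sub_self]
    exact dvd_zero _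
  | add p q hp hq =>
    have : φ (p + q) - ψ (p + q) = (φ p - ψ p) + (φ q - ψ q) := by
      rw [map_add, map_add]; ring
    rw [this]
    exact dvd_add hp hq
  | mul_X p i hp =>
    have : φ (p * X i) - ψ (p * X i) = (φ p - ψ p) * φ (X i) + ψ p * (φ (X i) - ψ (X i)) := by
      rw [map_mul, map_mul]; ring
    rw [this]
    exact dvd_add (hp.mul_right _) ((h i).mul_left _)

lemma step1 (a b u : PowerSeries K) (hau : a = PowerSeries.X * u)
    (hu : PowerSeries.constantCoeff u ≠ 0) (hb0 : PowerSeries.constantCoeff b = 0) (m : ℕ) :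
    ∃ f : Polynomial K, f.coeff 0 = 0 ∧
      (PowerSeries.X : PowerSeries K) ^ (m + 1) ∣ b - Polynomial.aeval a f := by
  induction m with
  | zero =>
    refine ⟨0, by simp, ?_⟩
    rw [map_zero, sub_zero, zero_add, pow_one]
    exact PowerSeries.X_dvd_iff.2 hb0
  | succ m ih =>
    obtain ⟨f, hf0, r, hr⟩ := ih
    refine ⟨f + Polynomial.C (PowerSeries.constantCoeff r / (PowerSeries.constantCoeff u) ^ (m + 1))
      * Polynomial.X ^ (m + 1), ?_, ?_⟩
    · simp [hf0]
    · have h1 : b - Polynomial.aeval a (f + Polynomial.C (PowerSeries.constantCoeff r /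
          (PowerSeries.constantCoeff u) ^ (m + 1)) * Polynomial.X ^ (m + 1))
          = PowerSeries.X ^ (m + 1) * (r - PowerSeries.C (PowerSeries.constantCoeff r /
          (PowerSeries.constantCoeff u) ^ (m + 1)) * u ^ (m + 1)) := by
        rw [map_add, map_mul, map_pow, Polynomial.aeval_X, Polynomial.aeval_C,
          ← PowerSeries.C_eq_algebraMap]
        have : b - (Polynomial.aeval a f + PowerSeries.C (PowerSeries.constantCoeff r /
          (PowerSeries.constantCoeff u) ^ (m + 1)) * a ^ (m + 1)) = (b - Polynomial.aeval a f) -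
          PowerSeries.C (PowerSeries.constantCoeff r /
          (PowerSeries.constantCoeff u) ^ (m + 1)) * a ^ (m + 1) := by ring
        rw [this, hr]
        have h2 : a ^ (m + 1) = PowerSeries.X ^ (m + 1) * u ^ (m + 1) := by rw [hau, mul_pow]
        rw [h2]
        ring
      rw [h1, pow_succ]
      apply mul_dvd_mul_left
      rw [PowerSeries.X_dvd_iff, map_sub, map_mul, map_pow, PowerSeries.constantCoeff_C,
        div_mul_cancel₀ _ (pow_ne_zero _ hu), sub_self]

/-- TARGET 1 -/
theorem nf (a b : PowerSeries K) (ha0 : PowerSeries.constantCoeff a = 0)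
    (hb0 : PowerSeries.constantCoeff b = 0) (ha1 : PowerSeries.coeff 1 a ≠ 0) (A : ℕ) :
    ∃ f : Polynomial K, f.coeff 0 = 0 ∧
      PowerSeries.coeff 1 a * f.coeff 1 = PowerSeries.coeff 1 b ∧
      ∀ g : MvPolynomial (Fin 2) K, (PowerSeries.X : PowerSeries K) ^ A ∣ ev a b g ↔
        (PowerSeries.X : PowerSeries K) ^ A ∣ ev PowerSeries.X (f : PowerSeries K) g := by
  obtain ⟨u, hau⟩ := PowerSeries.X_dvd_iff.2 ha0
  have hu : PowerSeries.constantCoeff u ≠ 0 := by
    rw [hau] at ha1
    have h1 : PowerSeries.coeff 1 (PowerSeries.X * u) = PowerSeries.coeff 0 u := by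
      have := PowerSeries.coeff_succ_X_mul 0 u
      simpa using this
    rw [h1, PowerSeries.coeff_zero_eq_constantCoeff_apply] at ha1
    exact ha1
  obtain ⟨f, hf0, hf⟩ := step1 a b u hau hu hb0 (A + 1)
  refine ⟨f, hf0, ?_, ?_⟩
  · have h2 : (PowerSeries.X : PowerSeries K) ^ 2 ∣ b - Polynomial.aeval a f :=
      (pow_dvd_pow _ (by omega)).trans hf
    have h3 : (PowerSeries.X : PowerSeries K) ^ 2 ∣ Polynomial.aeval a f - PowerSeries.C (f.coeff 1) * a := by
      have h4 : f = Polynomial.X ^ 2 * f.divX.divX + Polynomial.C (f.coeff 1) * Polynomial.X := by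
        conv_lhs => rw [← Polynomial.divX_mul_X_add f, ← Polynomial.divX_mul_X_add f.divX, hf0]
        rw [Polynomial.coeff_divX]
        simp only [Polynomial.C_0, add_zero, zero_add]
        ring
      have h5 : Polynomial.aeval a f - PowerSeries.C (f.coeff 1) * a =
          PowerSeries.X ^ 2 * (u ^ 2 * Polynomial.aeval a f.divX.divX) := by
        conv_lhs => rw [h4]
        rw [map_add, map_mul, map_mul, map_pow, Polynomial.aeval_X, Polynomial.aeval_C,
          ← PowerSeries.C_eq_algebraMap]
        simp only [Polynomial.coeff_add, Polynomial.coeff_C_mul, Polynomial.coeff_X_one, mul_one]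
        have h6 : (Polynomial.X ^ 2 * f.divX.divX).coeff 1 = 0 := by
          rw [pow_two, mul_assoc]
          have := Polynomial.coeff_X_mul (Polynomial.X * f.divX.divX) 0
          rw [zero_add] at this
          rw [this]
          simp
        rw [h6, zero_add]
        have h7 : a ^ 2 = PowerSeries.X ^ 2 * u ^ 2 := by rw [hau, mul_pow]
        rw [h7]
        ring
      rw [h5]
      exact dvd_mul_right _ _
    have h8 : (PowerSeries.X : PowerSeries K) ^ 2 ∣ b - PowerSeries.C (f.coeff 1) * a := by
      have := dvd_add h2 h3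
      have e : b - Polynomial.aeval a f + (Polynomial.aeval a f - PowerSeries.C (f.coeff 1) * a)
        = b - PowerSeries.C (f.coeff 1) * a := by ring
      rwa [e] at this
    have h9 := (PowerSeries.X_pow_dvd_iff.1 h8) 1 (by norm_num)
    rw [map_sub, PowerSeries.coeff_C_mul] at h9
    linear_combination (-1) * h9
  · intro g
    have h1 : (PowerSeries.X : PowerSeries K) ^ A ∣ ev a b g - ev a (Polynomial.aeval a f) g := by
      apply step2
      intro i
      fin_cases i
      · simp
      · simpa using (pow_dvd_pow _ (by omega)).trans hf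
    have h2 : ev a (Polynomial.aeval a f) g = Polynomial.aeval a (MvPolynomial.aeval ![Polynomial.X, f] g) := by
      have : (Polynomial.aeval a).comp (MvPolynomial.aeval ![(Polynomial.X : Polynomial K), f])
          = ev a (Polynomial.aeval a f) := by
        ext i
        fin_cases i <;> simp [ev]
      exact (congrArg (fun h => h g) this).symm
    have h3 : ev PowerSeries.X (f : PowerSeries K) g =
        ((MvPolynomial.aeval ![Polynomial.X, f] g : Polynomial K) : PowerSeries K) := by
      refine Eq.trans ?_ (coe_eq_aeval _).symm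
      have : (Polynomial.aeval (PowerSeries.X : PowerSeries K)).comp
          (MvPolynomial.aeval ![(Polynomial.X : Polynomial K), f])
          = ev PowerSeries.X (f : PowerSeries K) := by
        apply MvPolynomial.algHom_ext
        intro i
        fin_cases i
        · simp [ev]
        · simp [ev, coe_eq_aeval]
      exact (congrArg (fun h => h g) this).symm
    rw [h3, ← step4 a u hau hu A, ← h2]
    constructor
    · intro h
      have := dvd_sub h h1
      simpa using this
    · intro h
      have := dvd_add h1 h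
      simpa using this

/-- TARGET 2 (the same with the two variables exchanged) -/
theorem nf' (a b : PowerSeries K) (ha0 : PowerSeries.constantCoeff a = 0)
    (hb0 : PowerSeries.constantCoeff b = 0) (hb1 : PowerSeries.coeff 1 b ≠ 0) (A : ℕ) :
    ∃ f : Polynomial K, f.coeff 0 = 0 ∧
      PowerSeries.coeff 1 b * f.coeff 1 = PowerSeries.coeff 1 a ∧
      ∀ g : MvPolynomial (Fin 2) K, (PowerSeries.X : PowerSeries K) ^ A ∣ ev a b g ↔
        (PowerSeries.X : PowerSeries K) ^ A ∣ ev (f : PowerSeries K) PowerSeries.X g := by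
  obtain ⟨f, h0, h1, h2⟩ := nf b a hb0 ha0 hb1 A
  refine ⟨f, h0, h1, ?_⟩
  have hsw : ∀ (c d : PowerSeries K) (g : MvPolynomial (Fin 2) K),
      ev c d g = ev d c (MvPolynomial.rename (Equiv.swap (0 : Fin 2) 1) g) := by
    intro c d g
    have : (ev d c).comp (MvPolynomial.rename (Equiv.swap (0 : Fin 2) 1)) = ev c d := by
      apply MvPolynomial.algHom_ext
      intro i
      fin_cases i <;> simp [ev]
    exact (congrArg (fun h => h g) this).symm
  intro g
  rw [hsw a b g, hsw (f : PowerSeries K) PowerSeries.X g]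
  exact h2 _

end HilbArc
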