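import Mathlib
import Pool.Agent.HilbP1.D

set_option autoImplicit false

open Filter Topology MvPolynomial

namespace HilbArc

variable {K : Type*} [Field K]

/-! ### auxiliary -/

lemma normalise_ev_hom (φ : MvPolynomial (Fin 2) K ≃ₐ[K] MvPolynomial (Fin 2) K)
    (a b : PowerSeries K) (g : MvPolynomial (Fin 2) K) :
    ev a b (φ g) = ev (ev a b (φ (X 0))) (ev a b (φ (X 1))) g := by
  have : (ev a b).comp φ.toAlgHom = ev (ev a b (φ (X 0))) (ev a b (φ (X 1))) := by
    apply MvPolynomial.algHom_ext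
    intro i
    fin_cases i <;> simp
  exact congrArg (fun f => f g) this

/-- branch preserving automorphisms -/
def normalise_Pres (φ : MvPolynomial (Fin 2) K ≃ₐ[K] MvPolynomial (Fin 2) K) : Prop :=
  ∀ a b : PowerSeries K, IsBr a b → IsBr (ev a b (φ.symm (X 0))) (ev a b (φ.symm (X 1)))

lemma normalise_Pres.trans {φ ψ : MvPolynomial (Fin 2) K ≃ₐ[K] MvPolynomial (Fin 2) K}
    (h1 : normalise_Pres φ) (h2 : normalise_Pres ψ) : normalise_Pres (φ.trans ψ) := by
  intro a b hab
  have h3 := h2 _ _ (h1 a b hab)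
  have e0 : (φ.trans ψ).symm (X 0) = φ.symm (ψ.symm (X 0)) := rfl
  have e1 : (φ.trans ψ).symm (X 1) = φ.symm (ψ.symm (X 1)) := rfl
  rw [e0, e1, normalise_ev_hom φ.symm a b (ψ.symm (X 0)),
    normalise_ev_hom φ.symm a b (ψ.symm (X 1))]
  exact h3

/-- swapping the coordinates -/
noncomputable def normalise_swap (K : Type*) [Field K] :
    MvPolynomial (Fin 2) K ≃ₐ[K] MvPolynomial (Fin 2) K :=
  MvPolynomial.renameEquiv K (Equiv.swap 0 1)

lemma normalise_swap_X0 : normalise_swap K (X 0) = X 1 := by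
  simp [normalise_swap, MvPolynomial.renameEquiv]

lemma normalise_swap_X1 : normalise_swap K (X 1) = X 0 := by
  simp [normalise_swap, MvPolynomial.renameEquiv]

lemma normalise_swap_symm_X0 : (normalise_swap K).symm (X 0) = X 1 := by
  rw [AlgEquiv.symm_apply_eq, normalise_swap_X1]

lemma normalise_swap_symm_X1 : (normalise_swap K).symm (X 1) = X 0 := by
  rw [AlgEquiv.symm_apply_eq, normalise_swap_X0]

lemma normalise_swap_pres : normalise_Pres (normalise_swap K) := by
  intro a b hab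
  rw [normalise_swap_symm_X0, normalise_swap_symm_X1, ev_X0, ev_X1]
  exact ⟨hab.2.1, hab.1, hab.2.2.symm⟩

/-- the shear `X1 ↦ X1 - f(X0)` -/
noncomputable def normalise_sh (f : Polynomial K) :
    MvPolynomial (Fin 2) K →ₐ[K] MvPolynomial (Fin 2) K :=
  aeval ![X 0, X 1 - Polynomial.aeval (X 0) f]

lemma normalise_sh_X0 (f : Polynomial K) : normalise_sh f (X 0) = X 0 := by
  simp [normalise_sh]

lemma normalise_sh_X1 (f : Polynomial K) :
    normalise_sh f (X 1) = X 1 - Polynomial.aeval (X 0) f := by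
  simp [normalise_sh]

lemma normalise_sh_aeval (f p : Polynomial K) :
    normalise_sh f (Polynomial.aeval (X 0 : MvPolynomial (Fin 2) K) p) =
      Polynomial.aeval (X 0) p := by
  rw [← Polynomial.aeval_algHom_apply, normalise_sh_X0]

lemma normalise_sh_inv (f : Polynomial K) : (normalise_sh (-f)).comp (normalise_sh f) =
    AlgHom.id K (MvPolynomial (Fin 2) K) := by
  apply MvPolynomial.algHom_ext
  intro i
  fin_cases i
  · show normalise_sh (-f) (normalise_sh f (X 0)) = X 0
    rw [normalise_sh_X0, normalise_sh_X0]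
  · show normalise_sh (-f) (normalise_sh f (X 1)) = X 1
    rw [normalise_sh_X1, map_sub, normalise_sh_X1, normalise_sh_aeval, map_neg]
    ring

/-- the shear as an automorphism -/
noncomputable def normalise_she (f : Polynomial K) :
    MvPolynomial (Fin 2) K ≃ₐ[K] MvPolynomial (Fin 2) K :=
  AlgEquiv.ofAlgHom (normalise_sh f) (normalise_sh (-f))
    (by have := normalise_sh_inv (-f); rwa [neg_neg] at this) (normalise_sh_inv f)

lemma normalise_she_X0 (f : Polynomial K) : normalise_she f (X 0) = X 0 := normalise_sh_X0 f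

lemma normalise_she_X1 (f : Polynomial K) :
    normalise_she f (X 1) = X 1 - Polynomial.aeval (X 0) f := normalise_sh_X1 f

lemma normalise_she_symm_X0 (f : Polynomial K) : (normalise_she f).symm (X 0) = X 0 :=
  normalise_sh_X0 (-f)

lemma normalise_she_symm_X1 (f : Polynomial K) :
    (normalise_she f).symm (X 1) = X 1 + Polynomial.aeval (X 0) f := by
  have h : (normalise_she f).symm (X 1) = X 1 - Polynomial.aeval (X 0) (-f) :=
    normalise_sh_X1 (-f)
  rw [h, map_neg, sub_neg_eq_add]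

lemma normalise_coeffs (a : PowerSeries K) (ha : PowerSeries.constantCoeff a = 0)
    (f : Polynomial K) (hf : f.coeff 0 = 0) :
    PowerSeries.constantCoeff (Polynomial.aeval a f) = 0 ∧
      PowerSeries.coeff 1 (Polynomial.aeval a f) = f.coeff 1 * PowerSeries.coeff 1 a := by
  have hf' : f = Polynomial.X * f.divX := by
    conv_lhs => rw [← Polynomial.X_mul_divX_add f, hf, Polynomial.C_0, add_zero]
  have hcc : ∀ p : Polynomial K, PowerSeries.constantCoeff (Polynomial.aeval a p) = p.coeff 0 := by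
    intro p
    rw [Polynomial.aeval_def, Polynomial.hom_eval₂, ha, Polynomial.eval₂_at_zero]
    simp
  have h1 : Polynomial.aeval a f = a * Polynomial.aeval a f.divX := by
    conv_lhs => rw [hf']
    rw [map_mul, Polynomial.aeval_X]
  constructor
  · rw [hcc, hf]
  · rw [h1, PowerSeries.coeff_mul]
    rw [Finset.Nat.antidiagonal_succ, Finset.sum_cons, Finset.Nat.antidiagonal_zero]
    simp only [PowerSeries.coeff_zero_eq_constantCoeff, ha, zero_mul, zero_add, Finset.map_singleton,
      Finset.sum_singleton, Function.Embedding.prodMap, Function.Embedding.coeFn_mk, Prod.map]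
    simp only [Nat.succ_eq_add_one, zero_add, Function.Embedding.refl_apply,
      PowerSeries.coeff_zero_eq_constantCoeff, hcc, Polynomial.coeff_divX]
    ring

lemma normalise_she_pres (f : Polynomial K) (hf : f.coeff 0 = 0) :
    normalise_Pres (normalise_she f) := by
  intro a b hab
  rw [normalise_she_symm_X0, normalise_she_symm_X1, map_add, ev_X0, ev_X1,
    ← Polynomial.aeval_algHom_apply, ev_X0]
  obtain ⟨c0, c1⟩ := normalise_coeffs a hab.1 f hf
  refine ⟨hab.1, ?_, ?_⟩
  · rw [map_add, c0, hab.2.1, add_zero]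
  · by_cases ha : PowerSeries.coeff 1 a = 0
    · right
      rw [map_add, c1, ha, mul_zero, add_zero]
      rcases hab.2.2 with h | h
      · exact absurd ha h
      · exact h
    · exact Or.inl ha

/-- the shear `X0 ↦ X0 - f(X1)` -/
noncomputable def normalise_shs (f : Polynomial K) :
    MvPolynomial (Fin 2) K ≃ₐ[K] MvPolynomial (Fin 2) K :=
  (normalise_swap K).trans ((normalise_she f).trans (normalise_swap K))

lemma normalise_shs_X1 (f : Polynomial K) : normalise_shs f (X 1) = X 1 := by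
  unfold normalise_shs
  rw [AlgEquiv.trans_apply, AlgEquiv.trans_apply, normalise_swap_X1, normalise_she_X0,
    normalise_swap_X0]

lemma normalise_shs_X0 (f : Polynomial K) :
    normalise_shs f (X 0) = X 0 - Polynomial.aeval (X 1) f := by
  unfold normalise_shs
  rw [AlgEquiv.trans_apply, AlgEquiv.trans_apply, normalise_swap_X0, normalise_she_X1, map_sub,
    normalise_swap_X1, ← Polynomial.aeval_algHom_apply, normalise_swap_X0]

lemma normalise_shs_pres (f : Polynomial K) (hf : f.coeff 0 = 0) :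
    normalise_Pres (normalise_shs f) :=
  normalise_swap_pres.trans ((normalise_she_pres f hf).trans normalise_swap_pres)

lemma normalise_aeval_X (f : Polynomial K) :
    Polynomial.aeval (PowerSeries.X : PowerSeries K) f = (f : PowerSeries K) := by
  rw [Polynomial.aeval_def]
  exact Polynomial.eval₂_C_X_eq_coe

lemma normalise_she_ev (f : Polynomial K) (c d : PowerSeries K) (g : MvPolynomial (Fin 2) K) :
    ev c d g = ev c (d - Polynomial.aeval c f) ((normalise_she f).symm g) := by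
  have h1 := normalise_ev_hom (normalise_she f) c d ((normalise_she f).symm g)
  rw [AlgEquiv.apply_symm_apply, normalise_she_X0, normalise_she_X1, map_sub, ev_X0, ev_X1,
    ← Polynomial.aeval_algHom_apply, ev_X0] at h1
  exact h1

lemma normalise_shs_ev (f : Polynomial K) (c d : PowerSeries K) (g : MvPolynomial (Fin 2) K) :
    ev c d g = ev (c - Polynomial.aeval d f) d ((normalise_shs f).symm g) := by
  have h1 := normalise_ev_hom (normalise_shs f) c d ((normalise_shs f).symm g)
  rw [AlgEquiv.apply_symm_apply, normalise_shs_X0, normalise_shs_X1, map_sub, ev_X0, ev_X1,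
    ← Polynomial.aeval_algHom_apply, ev_X1] at h1
  exact h1

/-- the main case -/
theorem normalise_main {κ : Type*} (S : Finset κ) (a b : κ → PowerSeries K) (A : κ → ℕ)
    (hbr : ∀ k ∈ S, IsBr (a k) (b k))
    (htr : ∀ k ∈ S, ∀ l ∈ S, k ≠ l → Tr (a k) (b k) (a l) (b l))
    (k1 k2 : κ) (hk1 : k1 ∈ S) (hk2 : k2 ∈ S) (hne : k1 ≠ k2)
    (hα : PowerSeries.coeff 1 (a k1) ≠ 0) :
    ∃ e : MvPolynomial (Fin 2) K ≃ₐ[K] MvPolynomial (Fin 2) K,
      normalise_Pres e ∧
      ∃ f : κ → Polynomial K,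
        (∀ k ∈ S, k ≠ k1 → k ≠ k2 → (f k).coeff 0 = 0 ∧ (f k).coeff 1 ≠ 0) ∧
        (∀ k ∈ S, k ≠ k1 → k ≠ k2 → ∀ l ∈ S, l ≠ k1 → l ≠ k2 → k ≠ l →
          (f k).coeff 1 ≠ (f l).coeff 1) ∧
        ∀ g : MvPolynomial (Fin 2) K,
          ((PowerSeries.X : PowerSeries K) ^ (A k1) ∣ ev (a k1) (b k1) g ↔
            (PowerSeries.X : PowerSeries K) ^ (A k1) ∣ ev PowerSeries.X 0 (e.symm g)) ∧
          ((PowerSeries.X : PowerSeries K) ^ (A k2) ∣ ev (a k2) (b k2) g ↔
            (PowerSeries.X : PowerSeries K) ^ (A k2) ∣ ev 0 PowerSeries.X (e.symm g)) ∧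
          (∀ k ∈ S, k ≠ k1 → k ≠ k2 →
            ((PowerSeries.X : PowerSeries K) ^ (A k) ∣ ev (a k) (b k) g ↔
            (PowerSeries.X : PowerSeries K) ^ (A k) ∣
              ev PowerSeries.X (f k : PowerSeries K) (e.symm g))) := by
  classical
  obtain ⟨f1, hf10, hf11, hf1⟩ := nf (a k1) (b k1) (hbr k1 hk1).1 (hbr k1 hk1).2.1 hα (A k1)
  set b' : κ → PowerSeries K := fun k => b k - Polynomial.aeval (a k) f1 with hb'
  have hb'0 : ∀ k ∈ S, PowerSeries.constantCoeff (b' k) = 0 := by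
    intro k hk
    simp only [hb']
    rw [map_sub, (normalise_coeffs (a k) (hbr k hk).1 f1 hf10).1, (hbr k hk).2.1, sub_zero]
  have hb'1 : ∀ k ∈ S, PowerSeries.coeff 1 (b' k) =
      PowerSeries.coeff 1 (b k) - f1.coeff 1 * PowerSeries.coeff 1 (a k) := by
    intro k hk
    simp only [hb']
    rw [map_sub, (normalise_coeffs (a k) (hbr k hk).1 f1 hf10).2]
  have htr' : ∀ k ∈ S, ∀ l ∈ S, k ≠ l → Tr (a k) (b' k) (a l) (b' l) := by
    intro k hk l hl hkl h
    apply htr k hk l hl hkl
    rw [hb'1 k hk, hb'1 l hl] at h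
    linear_combination h
  have hβ' : ∀ k ∈ S, k ≠ k1 → PowerSeries.coeff 1 (b' k) ≠ 0 := by
    intro k hk hkk h
    apply htr k1 hk1 k hk (Ne.symm hkk)
    rw [hb'1 k hk] at h
    rw [← hf11]
    linear_combination (PowerSeries.coeff 1 (a k1)) * h
  obtain ⟨f2, hf20, hf21, hf2⟩ := nf' (a k2) (b' k2) (hbr k2 hk2).1 (hb'0 k2 hk2)
    (hβ' k2 hk2 hne.symm) (A k2)
  set a' : κ → PowerSeries K := fun k => a k - Polynomial.aeval (b' k) f2 with ha'
  have ha'0 : ∀ k ∈ S, PowerSeries.constantCoeff (a' k) = 0 := by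
    intro k hk
    simp only [ha']
    rw [map_sub, (normalise_coeffs (b' k) (hb'0 k hk) f2 hf20).1, (hbr k hk).1, sub_zero]
  have ha'1 : ∀ k ∈ S, PowerSeries.coeff 1 (a' k) =
      PowerSeries.coeff 1 (a k) - f2.coeff 1 * PowerSeries.coeff 1 (b' k) := by
    intro k hk
    simp only [ha']
    rw [map_sub, (normalise_coeffs (b' k) (hb'0 k hk) f2 hf20).2]
  have htr'' : ∀ k ∈ S, ∀ l ∈ S, k ≠ l → Tr (a' k) (b' k) (a' l) (b' l) := by
    intro k hk l hl hkl h
    apply htr' k hk l hl hkl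
    rw [ha'1 k hk, ha'1 l hl] at h
    linear_combination h
  have hα' : ∀ k ∈ S, k ≠ k2 → PowerSeries.coeff 1 (a' k) ≠ 0 := by
    intro k hk hkk h
    apply htr' k hk k2 hk2 hkk
    rw [ha'1 k hk] at h
    rw [← hf21]
    linear_combination (PowerSeries.coeff 1 (b' k2)) * h
  -- the remaining normal forms
  have hex : ∀ k, ∃ p : Polynomial K, k ∈ S → k ≠ k1 → k ≠ k2 → p.coeff 0 = 0 ∧
      PowerSeries.coeff 1 (a' k) * p.coeff 1 = PowerSeries.coeff 1 (b' k) ∧
      ∀ g : MvPolynomial (Fin 2) K, (PowerSeries.X : PowerSeries K) ^ (A k) ∣ ev (a' k) (b' k) g ↔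
        (PowerSeries.X : PowerSeries K) ^ (A k) ∣ ev PowerSeries.X (p : PowerSeries K) g := by
    intro k
    by_cases hk : k ∈ S ∧ k ≠ k2
    · obtain ⟨p, hp⟩ := nf (a' k) (b' k) (ha'0 k hk.1) (hb'0 k hk.1) (hα' k hk.1 hk.2) (A k)
      exact ⟨p, fun _ _ _ => hp⟩
    · exact ⟨0, fun h1 _ h3 => absurd ⟨h1, h3⟩ hk⟩
  choose f hf using hex
  refine ⟨(normalise_shs f2).trans (normalise_she f1), ?_, f, ?_, ?_, ?_⟩
  · exact (normalise_shs_pres f2 hf20).trans (normalise_she_pres f1 hf10)
  · intro k hk h1 h2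
    obtain ⟨p0, p1, -⟩ := hf k hk h1 h2
    refine ⟨p0, fun h => ?_⟩
    rw [h, mul_zero] at p1
    exact hβ' k hk h1 p1.symm
  · intro k hk hkk1 hkk2 l hl hlk1 hlk2 hkl h
    obtain ⟨-, p1, -⟩ := hf k hk hkk1 hkk2
    obtain ⟨-, q1, -⟩ := hf l hl hlk1 hlk2
    apply htr'' k hk l hl hkl
    rw [← p1, ← q1, h]
    ring
  · intro g
    have hsymm : ((normalise_shs f2).trans (normalise_she f1)).symm g =
        (normalise_shs f2).symm ((normalise_she f1).symm g) := rfl
    rw [hsymm]
    refine ⟨?_, ?_, ?_⟩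
    · rw [hf1 g, normalise_she_ev f1 PowerSeries.X (f1 : PowerSeries K) g, normalise_aeval_X,
        sub_self, normalise_shs_ev f2 PowerSeries.X 0 ((normalise_she f1).symm g)]
      have : Polynomial.aeval (0 : PowerSeries K) f2 = 0 := by
        rw [Polynomial.aeval_def, Polynomial.eval₂_at_zero, hf20, map_zero]
      rw [this, sub_zero]
    · rw [normalise_she_ev f1 (a k2) (b k2) g, hf2 ((normalise_she f1).symm g),
        normalise_shs_ev f2 (f2 : PowerSeries K) PowerSeries.X ((normalise_she f1).symm g),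
        normalise_aeval_X, sub_self]
    · intro k hk h1 h2
      rw [normalise_she_ev f1 (a k) (b k) g,
        normalise_shs_ev f2 (a k) _ ((normalise_she f1).symm g)]
      exact (hf k hk h1 h2).2.2 _

/-- TARGET -/
theorem normalise {κ : Type*} (S : Finset κ) (a b : κ → PowerSeries K) (A : κ → ℕ)
    (hbr : ∀ k ∈ S, IsBr (a k) (b k))
    (htr : ∀ k ∈ S, ∀ l ∈ S, k ≠ l → Tr (a k) (b k) (a l) (b l))
    (k1 k2 : κ) (hk1 : k1 ∈ S) (hk2 : k2 ∈ S) (hne : k1 ≠ k2) :
    ∃ e : MvPolynomial (Fin 2) K ≃ₐ[K] MvPolynomial (Fin 2) K,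
      (∀ a b : PowerSeries K, IsBr a b → IsBr (ev a b (e.symm (X 0))) (ev a b (e.symm (X 1)))) ∧
      ∃ f : κ → Polynomial K,
        (∀ k ∈ S, k ≠ k1 → k ≠ k2 → (f k).coeff 0 = 0 ∧ (f k).coeff 1 ≠ 0) ∧
        (∀ k ∈ S, k ≠ k1 → k ≠ k2 → ∀ l ∈ S, l ≠ k1 → l ≠ k2 → k ≠ l →
          (f k).coeff 1 ≠ (f l).coeff 1) ∧
        ∀ g : MvPolynomial (Fin 2) K,
          ((PowerSeries.X : PowerSeries K) ^ (A k1) ∣ ev (a k1) (b k1) g ↔
            (PowerSeries.X : PowerSeries K) ^ (A k1) ∣ ev PowerSeries.X 0 (e.symm g)) ∧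
          ((PowerSeries.X : PowerSeries K) ^ (A k2) ∣ ev (a k2) (b k2) g ↔
            (PowerSeries.X : PowerSeries K) ^ (A k2) ∣ ev 0 PowerSeries.X (e.symm g)) ∧
          (∀ k ∈ S, k ≠ k1 → k ≠ k2 →
            ((PowerSeries.X : PowerSeries K) ^ (A k) ∣ ev (a k) (b k) g ↔
            (PowerSeries.X : PowerSeries K) ^ (A k) ∣
              ev PowerSeries.X (f k : PowerSeries K) (e.symm g))) := by
  by_cases hα : PowerSeries.coeff 1 (a k1) = 0
  · have hβ : PowerSeries.coeff 1 (b k1) ≠ 0 := by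
      rcases (hbr k1 hk1).2.2 with h | h
      · exact absurd hα h
      · exact h
    obtain ⟨e, he, f, h1, h2, h3⟩ := normalise_main S b a A
      (fun k hk => ⟨(hbr k hk).2.1, (hbr k hk).1, (hbr k hk).2.2.symm⟩)
      (fun k hk l hl hkl h => htr k hk l hl hkl h.symm) k1 k2 hk1 hk2 hne hβ
    refine ⟨e.trans (normalise_swap K), ?_, f, h1, h2, ?_⟩
    · exact he.trans normalise_swap_pres
    · intro g
      have hsw : ∀ c d : PowerSeries K, ev c d g = ev d c ((normalise_swap K).symm g) := by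
        intro c d
        have h4 := normalise_ev_hom (normalise_swap K).symm d c g
        rw [normalise_swap_symm_X0, normalise_swap_symm_X1, ev_X0, ev_X1] at h4
        exact h4.symm
      have hsymm : (e.trans (normalise_swap K)).symm g = e.symm ((normalise_swap K).symm g) := rfl
      rw [hsymm]
      obtain ⟨g1, g2, g3⟩ := h3 ((normalise_swap K).symm g)
      refine ⟨?_, ?_, ?_⟩
      · rw [hsw (a k1) (b k1)]; exact g1
      · rw [hsw (a k2) (b k2)]; exact g2
      · intro k hk hkk1 hkk2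
        rw [hsw (a k) (b k)]
        exact g3 k hk hkk1 hkk2
  · obtain ⟨e, he, f, h1, h2, h3⟩ := normalise_main S a b A hbr htr k1 k2 hk1 hk2 hne hα
    exact ⟨e, he, f, h1, h2, h3⟩

end HilbArc
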