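import Mathlib
import Pool.Agent.HilbP1.E1
import Pool.Agent.HilbP1.E2

set_option autoImplicit false

open Filter Topology MvPolynomial

namespace HilbArc

variable {K : Type*} [Field K]

section top
variable [TopologicalSpace K] [IsTopologicalRing K]

variable [ContinuousInv₀ K] [T2Space K]

omit [TopologicalSpace K] [IsTopologicalRing K] [ContinuousInv₀ K] [T2Space K] in
lemma stepM_zh0 : PowerSeries.constantCoeff (zh K) = 0 := by
  unfold zh
  simp

omit [TopologicalSpace K] [IsTopologicalRing K] [ContinuousInv₀ K] [T2Space K] in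
lemma stepM_zh1 : PowerSeries.coeff 1 (zh K) = -1 := by
  unfold zh
  rw [neg_mul, map_neg]
  have : PowerSeries.coeff 1 (PowerSeries.X * (PowerSeries.mk fun _ => (1 : K))) = 1 := by
    rw [show (1 : ℕ) = 0 + 1 from rfl, PowerSeries.coeff_succ_X_mul]
    simp
  rw [this]

/-- TARGET: a family of `t+1` pairwise transversal branches, lengths `≥ t+1` -/
theorem stepM {ι κ : Type*} [Finite ι] [DecidableEq κ] (s : K) (hs : s ≠ 0)
    (hs' : Tendsto (fun L : ℕ => s ^ L) atTop (𝓝 0)) (t : ℕ) :
    ∀ (S : Finset κ) (a b : κ → PowerSeries K) (A : κ → ℕ) (n : ℕ), S.card = t + 1 →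
      (∀ k ∈ S, IsBr (a k) (b k)) →
      (∀ k ∈ S, ∀ l ∈ S, k ≠ l → Tr (a k) (b k) (a l) (b l)) →
      (∀ k ∈ S, t + 1 ≤ A k) →
      2 * ∑ k ∈ S, A k = 2 * n + (t + 1) * t →
      ∀ g : ι → MvPolynomial (Fin 2) K,
        (∀ i, ∀ k ∈ S, (PowerSeries.X : PowerSeries K) ^ (A k) ∣ ev (a k) (b k) (g i)) →
        g ∈ closure (Cv ι K n) := by
  induction t with
  | zero =>
    intro S a b A n hS hbr htr hlen hsum g hg
    rw [zero_add, Finset.card_eq_one] at hS
    obtain ⟨k, rfl⟩ := hS
    apply subset_closure
    refine ⟨a k, b k, hbr k (by simp), fun i => ?_⟩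
    have hA : A k = n := by simpa using hsum
    rw [← hA]
    exact hg i k (by simp)
  | succ t ih =>
    intro S a b A n hS hbr htr hlen hsum g hg
    have hSne : S.Nonempty := by
      rw [← Finset.card_pos]
      omega
    obtain ⟨k2, hk2, hmin2⟩ := S.exists_min_image A hSne
    have hcard1 : (S.erase k2).card = t + 1 := by
      rw [Finset.card_erase_of_mem hk2]
      omega
    have hSne' : (S.erase k2).Nonempty := by
      rw [← Finset.card_pos]
      omega
    obtain ⟨k1, hk1', hmin1⟩ := (S.erase k2).exists_min_image A hSne'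
    have hk1 : k1 ∈ S := Finset.mem_of_mem_erase hk1'
    have hne : k1 ≠ k2 := Finset.ne_of_mem_erase hk1'
    have hO : ((S.erase k2).erase k1).card = t := by
      rw [Finset.card_erase_of_mem hk1']
      omega
    have hOmem : ∀ k, k ∈ (S.erase k2).erase k1 → k ∈ S ∧ k ≠ k1 ∧ k ≠ k2 := by
      intro k hk
      rw [Finset.mem_erase, Finset.mem_erase] at hk
      exact ⟨hk.2.2, hk.1, hk.2.1⟩
    have hA2 : A k2 ≤ A k1 := hmin2 k1 hk1
    have hA1 : ∀ k ∈ (S.erase k2).erase k1, A k1 ≤ A k := fun k hk =>
      hmin1 k (Finset.mem_of_mem_erase hk)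
    have hl2 : t + 1 + 1 ≤ A k2 := hlen k2 hk2
    have hl1 : t + 1 + 1 ≤ A k1 := hlen k1 hk1
    obtain ⟨α, β, hp⟩ := exists_param (K := K) (A k1 - t) (A k2 - t) (by omega) (by omega) s hs hs'
    obtain ⟨e, he, f, hf1, hf2, hf3⟩ := normalise S a b A hbr htr k1 k2 hk1 hk2 hne
    apply closure_aut e he
    have hf1' : ∀ k ∈ (S.erase k2).erase k1, (f k).coeff 0 = 0 ∧ (f k).coeff 1 ≠ 0 := fun k hk =>
      hf1 k (hOmem k hk).1 (hOmem k hk).2.1 (hOmem k hk).2.2
    have hf2' : ∀ k ∈ (S.erase k2).erase k1, ∀ l ∈ (S.erase k2).erase k1, k ≠ l →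
        (f k).coeff 1 ≠ (f l).coeff 1 := fun k hk l hl hkl =>
      hf2 k (hOmem k hk).1 (hOmem k hk).2.1 (hOmem k hk).2.2 l (hOmem l hl).1
        (hOmem l hl).2.1 (hOmem l hl).2.2 hkl
    refine stepM_core n t (A k1 - t) (A k2 - t) (by omega) (by omega) α β hp
      ((S.erase k2).erase k1) f A hO hf1' hf2' (fun k hk => ?_) ?_ _ (fun i => ?_) (fun i => ?_)
      (fun i k hk => ?_)
    · have := hA1 k hk
      omega
    · intro α0 β0 hβ0 hslope g' h1 h2
      have hmem : ∀ k ∈ S.erase k2, k ≠ k1 → k ∈ (S.erase k2).erase k1 := fun k hk hk' =>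
        Finset.mem_erase.2 ⟨hk', hk⟩
      refine ih (S.erase k2) (fun k => if k = k1 then PowerSeries.C β0 * zh K else PowerSeries.X)
        (fun k => if k = k1 then PowerSeries.C α0 * PowerSeries.X else (f k : PowerSeries K))
        (fun k => if k = k1 then A k1 - t + (A k2 - t) - 1 + t else A k) n hcard1 ?_ ?_ ?_ ?_ g' ?_
      · intro k hk
        by_cases h : k = k1
        · simp only [h, if_true]
          refine ⟨by simp [stepM_zh0], by simp, Or.inl ?_⟩
          rw [PowerSeries.coeff_C_mul, stepM_zh1]
          simpa using hβ0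
        · simp only [h, if_false]
          have hk0 := hf1' k (hmem k hk h)
          refine ⟨by simp, ?_, Or.inl ?_⟩
          · rw [Polynomial.constantCoeff_coe]
            exact hk0.1
          · rw [PowerSeries.coeff_one_X]
            exact one_ne_zero
      · intro k hk l hl hkl
        unfold Tr
        by_cases h : k = k1
        · have h' : l ≠ k1 := fun hh => hkl (h.trans hh.symm)
          simp only [h, h', if_true, if_false]
          have hl0 := hslope l (hmem l hl h')
          rw [PowerSeries.coeff_C_mul, stepM_zh1, PowerSeries.coeff_C_mul, PowerSeries.coeff_one_X,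
            Polynomial.coeff_coe]
          intro hh
          apply hl0
          linear_combination -hh
        · by_cases h' : l = k1
          · simp only [h, h', if_true, if_false]
            have hl0 := hslope k (hmem k hk h)
            rw [PowerSeries.coeff_C_mul, PowerSeries.coeff_C_mul, stepM_zh1,
              PowerSeries.coeff_one_X, Polynomial.coeff_coe]
            intro hh
            apply hl0
            linear_combination hh
          · simp only [h, h', if_false]
            rw [PowerSeries.coeff_one_X, Polynomial.coeff_coe, Polynomial.coeff_coe]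
            have := hf2' k (hmem k hk h) l (hmem l hl h') hkl
            intro hh
            apply this
            linear_combination -hh
      · intro k hk
        by_cases h : k = k1
        · simp only [h, if_true]
          omega
        · simp only [h, if_false]
          have := hlen k (Finset.mem_of_mem_erase hk)
          omega
      · have e1 : ∑ k ∈ S, A k = A k2 + (A k1 + ∑ k ∈ (S.erase k2).erase k1, A k) := by
          rw [← Finset.add_sum_erase S A hk2, ← Finset.add_sum_erase (S.erase k2) A hk1']
        rw [← Finset.add_sum_erase (S.erase k2) _ hk1']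
        have e2 : ∑ x ∈ (S.erase k2).erase k1,
            (if x = k1 then A k1 - t + (A k2 - t) - 1 + t else A x) =
            ∑ k ∈ (S.erase k2).erase k1, A k := by
          refine Finset.sum_congr rfl fun x hx => ?_
          rw [if_neg (Finset.ne_of_mem_erase hx)]
        rw [e2, if_pos rfl]
        rw [e1] at hsum
        have e3 : (t + 1 + 1) * (t + 1) = (t + 1) * t + 2 * (t + 1) := by ring
        rw [e3] at hsum
        generalize (t + 1) * t = q at hsum ⊢
        omega
      · intro i k hk
        by_cases h : k = k1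
        · simp only [h, if_true]
          exact h2 i
        · simp only [h, if_false]
          exact h1 i k (hmem k hk h)
    · have := ((hf3 (g i)).1).1 (hg i k1 hk1)
      rwa [Nat.sub_add_cancel (by omega)]
    · have := ((hf3 (g i)).2.1).1 (hg i k2 hk2)
      rwa [Nat.sub_add_cancel (by omega)]
    · exact ((hf3 (g i)).2.2 k (hOmem k hk).1 (hOmem k hk).2.1 (hOmem k hk).2.2).1
        (hg i k (hOmem k hk).1)

end top

end HilbArc
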