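import Mathlib
import Pool.Agent.HilbP1.Base

set_option autoImplicit false

open Filter Topology MvPolynomial

namespace HilbArc

variable {K : Type*} [Field K]

section top
variable [TopologicalSpace K] [IsTopologicalRing K]

omit [TopologicalSpace K] [IsTopologicalRing K] in
/-- division by `x - p(y)` -/
lemma exists_div (p : Polynomial K) (g : MvPolynomial (Fin 2) K) :
    (X 0 - Polynomial.aeval (X 1) p : MvPolynomial (Fin 2) K) ∣
      g - aeval ![Polynomial.aeval (X 1) p, X 1] g := by
  induction g using MvPolynomial.induction_on with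
  | C a => simp
  | add g h hg hh =>
    rw [map_add, add_sub_add_comm]
    exact dvd_add hg hh
  | mul_X g i hg =>
    rw [map_mul, aeval_X]
    have : g * X i - aeval ![Polynomial.aeval (X 1) p, X 1] g *
        (![Polynomial.aeval (X 1) p, X 1] : Fin 2 → MvPolynomial (Fin 2) K) i
        = (g - aeval ![Polynomial.aeval (X 1) p, X 1] g) * X i +
          aeval ![Polynomial.aeval (X 1) p, X 1] g *
          (X i - (![Polynomial.aeval (X 1) p, X 1] : Fin 2 → MvPolynomial (Fin 2) K) i) := by
      ring
    rw [this]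
    refine dvd_add (Dvd.dvd.mul_right hg _) (Dvd.dvd.mul_left ?_ _)
    fin_cases i
    · simp
    · simp

omit [TopologicalSpace K] [IsTopologicalRing K] in
lemma ev_aeval (a : PowerSeries K) (p : Polynomial K) :
    ev a PowerSeries.X (Polynomial.aeval (X 1) p) = (p : PowerSeries K) := by
  have : (ev a PowerSeries.X).comp (Polynomial.aeval (X 1)) =
      (Polynomial.coeToPowerSeries.algHom K : Polynomial K →ₐ[K] PowerSeries K) := by
    apply Polynomial.algHom_ext
    simp
  have h := congrArg (fun F => F p) this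
  simpa using h

omit [TopologicalSpace K] [IsTopologicalRing K] in
lemma aeval_pair (p : Polynomial K) (g : MvPolynomial (Fin 2) K) :
    aeval ![Polynomial.aeval (X 1) p, X 1] g
      = (Polynomial.aeval (X 1) (aeval ![p, Polynomial.X] g) : MvPolynomial (Fin 2) K) := by
  have : (Polynomial.aeval (X 1) : Polynomial K →ₐ[K] MvPolynomial (Fin 2) K).comp
      (aeval ![p, Polynomial.X]) = aeval ![Polynomial.aeval (X 1) p, X 1] := by
    ext i
    fin_cases i <;> simp
  exact (congrArg (fun F => F g) this).symm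

omit [TopologicalSpace K] [IsTopologicalRing K] in
lemma ev_poly (p : Polynomial K) (g : MvPolynomial (Fin 2) K) :
    ev (p : PowerSeries K) PowerSeries.X g
      = ((aeval ![p, Polynomial.X] g : Polynomial K) : PowerSeries K) := by
  have : ev (p : PowerSeries K) PowerSeries.X =
      (Polynomial.coeToPowerSeries.algHom K : Polynomial K →ₐ[K] PowerSeries K).comp
      (aeval ![p, Polynomial.X]) := by
    ext1 i
    fin_cases i <;> simp [ev]
  have h := congrArg (fun F => F g) this
  simpa using h

omit [TopologicalSpace K] [IsTopologicalRing K] in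
lemma dvd_of_dvd_coe {n : ℕ} {p : Polynomial K}
    (h : (PowerSeries.X : PowerSeries K) ^ n ∣ (p : PowerSeries K)) : Polynomial.X ^ n ∣ p := by
  rw [PowerSeries.X_pow_dvd_iff] at h
  rw [Polynomial.X_pow_dvd_iff]
  intro d hd
  have := h d hd
  rwa [Polynomial.coeff_coe] at this

omit [TopologicalSpace K] [IsTopologicalRing K] in
lemma decomp (p : Polynomial K) (n : ℕ) (g : MvPolynomial (Fin 2) K)
    (h : (PowerSeries.X : PowerSeries K) ^ n ∣ ev (p : PowerSeries K) PowerSeries.X g) :
    ∃ (s : Polynomial K) (g' : MvPolynomial (Fin 2) K),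
      g = (X 1) ^ n * Polynomial.aeval (X 1) s + (X 0 - Polynomial.aeval (X 1) p) * g' := by
  rw [ev_poly] at h
  obtain ⟨s, hs⟩ := dvd_of_dvd_coe h
  obtain ⟨g', hg'⟩ := exists_div p g
  refine ⟨s, g', ?_⟩
  rw [← hg', aeval_pair, hs, map_mul, map_pow, Polynomial.aeval_X]
  ring

/-- TARGET -/
theorem stepT {κ : Type*} [DecidableEq κ] (q : ℕ) : ∀ (S : Finset κ) (f : κ → Polynomial K)
    (c : κ → κ → ℕ) (A : κ → ℕ) (ε : κ → ℕ → K), S.card = q →
    (∀ k ∈ S, (f k).coeff 0 = 0) →
    (∀ k ∈ S, ∀ l ∈ S, k ≠ l → 1 ≤ c k l ∧ c k l = c l k ∧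
      ∃ r : Polynomial K, r.coeff 0 ≠ 0 ∧ f k - f l = Polynomial.X ^ (c k l) * r) →
    (∀ k ∈ S, 1 + ∑ l ∈ S.erase k, c k l ≤ A k) →
    (∀ k, Tendsto (ε k) atTop (𝓝 0)) →
    ∃ A' : κ → ℕ, (∀ k ∈ S, q ≤ A' k) ∧ (∀ k ∈ S, ∃ l ∈ S, A' k ≤ A l) ∧
      2 * ∑ k ∈ S, A' k + ∑ k ∈ S, ∑ l ∈ S.erase k, c k l = 2 * ∑ k ∈ S, A k + q * (q - 1) ∧
      ∀ g : MvPolynomial (Fin 2) K,
        (∀ k ∈ S, (PowerSeries.X : PowerSeries K) ^ (A k) ∣ ev (f k : PowerSeries K) PowerSeries.X g) →
        ∃ gL : ℕ → MvPolynomial (Fin 2) K, Tendsto gL atTop (𝓝 g) ∧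
          ∀ L, ∀ k ∈ S, (PowerSeries.X : PowerSeries K) ^ (A' k) ∣
            ev ((f k : PowerSeries K) + PowerSeries.C (ε k L) * PowerSeries.X) PowerSeries.X (gL L) := by
  induction q with
  | zero =>
    intro S f c A ε hS _ _ _ _
    rw [Finset.card_eq_zero] at hS
    subst hS
    refine ⟨A, by simp, by simp, by simp, fun g _ => ⟨fun _ => g, tendsto_const_nhds, by simp⟩⟩
  | succ q ih =>
    intro S f c A ε hS hf0 hfc hA hε
    have hne : S.Nonempty := by
      rw [← Finset.card_pos, hS]; omega
    obtain ⟨k0, hk0, hmax⟩ := Finset.exists_max_image S A hne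
    have hcard : (S.erase k0).card = q := by
      rw [Finset.card_erase_of_mem hk0, hS]; omega
    have hins : ∀ k ∈ S.erase k0, S.erase k = insert k0 ((S.erase k0).erase k) := by
      intro k hk
      have hne' : k0 ≠ k := (Finset.ne_of_mem_erase hk).symm
      rw [Finset.erase_right_comm, Finset.insert_erase (Finset.mem_erase.2 ⟨hne', hk0⟩)]
    have hsum : ∀ k ∈ S.erase k0,
        ∑ l ∈ S.erase k, c k l = c k k0 + ∑ l ∈ (S.erase k0).erase k, c k l := by
      intro k hk
      rw [hins k hk, Finset.sum_insert]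
      intro h
      exact (Finset.mem_erase.1 (Finset.mem_erase.1 h).2).1 rfl
    have hAk : ∀ k ∈ S.erase k0, 1 ≤ c k k0 ∧ 1 + c k k0 ≤ A k := by
      intro k hk
      have h1 := (hfc k (Finset.mem_of_mem_erase hk) k0 hk0 (Finset.ne_of_mem_erase hk)).1
      have h2 := hA k (Finset.mem_of_mem_erase hk)
      rw [hsum k hk] at h2
      exact ⟨h1, by omega⟩
    obtain ⟨A'', h1, h2, h3, h4⟩ := ih (S.erase k0) f c (fun k => A k - c k k0) ε hcard
      (fun k hk => hf0 k (Finset.mem_of_mem_erase hk))
      (fun k hk l hl => hfc k (Finset.mem_of_mem_erase hk) l (Finset.mem_of_mem_erase hl))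
      (fun k hk => by
        have := hA k (Finset.mem_of_mem_erase hk)
        rw [hsum k hk] at this
        show 1 + ∑ l ∈ (S.erase k0).erase k, c k l ≤ A k - c k k0
        omega) hε
    have hA'k0 : (fun k => if k = k0 then A k0 else A'' k + 1) k0 = A k0 := if_pos rfl
    have hA'k : ∀ k ∈ S.erase k0, (fun k => if k = k0 then A k0 else A'' k + 1) k = A'' k + 1 :=
      fun k hk => if_neg (Finset.ne_of_mem_erase hk)
    have hle : ∀ k ∈ S.erase k0, A'' k + 1 ≤ A k0 := by
      intro k hk
      obtain ⟨l, hl, hl'⟩ := h2 k hk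
      have hl'' : A'' k ≤ A l - c l k0 := hl'
      have := hAk l hl
      have := hmax l (Finset.mem_of_mem_erase hl)
      omega
    refine ⟨fun k => if k = k0 then A k0 else A'' k + 1, ?_, ?_, ?_, ?_⟩
    · intro k hk
      by_cases hkk : k = k0
      · subst hkk
        rw [hA'k0]
        have h5 := hA k hk
        have h6 : (S.erase k).card ≤ ∑ l ∈ S.erase k, c k l := by
          rw [Finset.card_eq_sum_ones]
          exact Finset.sum_le_sum fun l hl =>
            (hfc k hk l (Finset.mem_of_mem_erase hl) (Finset.ne_of_mem_erase hl).symm).1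
        omega
      · have hk' : k ∈ S.erase k0 := Finset.mem_erase.2 ⟨hkk, hk⟩
        rw [hA'k k hk']
        have := h1 k hk'
        omega
    · intro k hk
      by_cases hkk : k = k0
      · subst hkk
        exact ⟨k, hk, (if_pos rfl).le⟩
      · have hk' : k ∈ S.erase k0 := Finset.mem_erase.2 ⟨hkk, hk⟩
        obtain ⟨l, hl, hl'⟩ := h2 k hk'
        refine ⟨l, Finset.mem_of_mem_erase hl, ?_⟩
        rw [hA'k k hk']
        have hl'' : A'' k ≤ A l - c l k0 := hl'
        have := hAk l hl
        omega
    · -- sums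
      have e1 : ∑ k ∈ S, (fun k => if k = k0 then A k0 else A'' k + 1) k
          = A k0 + (∑ k ∈ S.erase k0, A'' k + q) := by
        have e5 : ∑ k ∈ S.erase k0, (fun k => if k = k0 then A k0 else A'' k + 1) k
            = ∑ k ∈ S.erase k0, A'' k + q := by
          rw [Finset.sum_congr rfl hA'k, Finset.sum_add_distrib, Finset.sum_const, hcard,
            smul_eq_mul, mul_one]
        rw [← e5, ← Finset.add_sum_erase S _ hk0]
        congr 1
      have e2 : ∑ k ∈ S, ∑ l ∈ S.erase k, c k l
          = ∑ k ∈ S.erase k0, c k k0 + (∑ k ∈ S.erase k0, c k k0 +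
            ∑ k ∈ S.erase k0, ∑ l ∈ (S.erase k0).erase k, c k l) := by
        rw [← Finset.add_sum_erase S _ hk0, Finset.sum_congr rfl hsum, Finset.sum_add_distrib]
        congr 1
        refine Finset.sum_congr rfl fun l hl => ?_
        exact (hfc l (Finset.mem_of_mem_erase hl) k0 hk0 (Finset.ne_of_mem_erase hl)).2.1.symm
      have e3 : ∑ k ∈ S, A k = A k0 + (∑ k ∈ S.erase k0, (A k - c k k0) +
          ∑ k ∈ S.erase k0, c k k0) := by
        rw [← Finset.add_sum_erase S _ hk0, ← Finset.sum_add_distrib]
        congr 1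
        refine Finset.sum_congr rfl fun k hk => ?_
        have := hAk k hk
        omega
      have e4 : (q + 1) * (q + 1 - 1) = q * (q - 1) + 2 * q := by
        rcases q with _ | q
        · rfl
        · simp only [Nat.add_sub_cancel]
          ring
      have h3' : 2 * ∑ k ∈ S.erase k0, A'' k +
          ∑ k ∈ S.erase k0, ∑ l ∈ (S.erase k0).erase k, c k l
          = 2 * ∑ k ∈ S.erase k0, (A k - c k k0) + q * (q - 1) := h3
      rw [e1, e2, e3, e4]
      omega
    · intro g hg
      obtain ⟨s, g', hgg⟩ := decomp (f k0) (A k0) g (hg k0 hk0)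
      have hg' : ∀ k ∈ S.erase k0, (PowerSeries.X : PowerSeries K) ^ (A k - c k k0) ∣
          ev (f k : PowerSeries K) PowerSeries.X g' := by
        intro k hk
        have hkS := Finset.mem_of_mem_erase hk
        obtain ⟨hc1, hc2, r, hr0, hr⟩ := hfc k hkS k0 hk0 (Finset.ne_of_mem_erase hk)
        have h5 := hg k hkS
        rw [hgg, map_add, map_mul, map_mul, map_pow, ev_X1, ev_aeval, map_sub, ev_X0, ev_aeval]
          at h5
        have h6 : (PowerSeries.X : PowerSeries K) ^ (A k) ∣ PowerSeries.X ^ (A k0) *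
            (s : PowerSeries K) := Dvd.dvd.mul_right (pow_dvd_pow _ (hmax k hkS)) _
        have h7 := (dvd_add_right h6).1 h5
        have h8 : (f k : PowerSeries K) - (f k0 : PowerSeries K)
            = PowerSeries.X ^ (c k k0) * (r : PowerSeries K) := by
          rw [← Polynomial.coe_sub, hr, Polynomial.coe_mul, Polynomial.coe_pow, Polynomial.coe_X]
        rw [h8] at h7
        have h9 : A k = c k k0 + (A k - c k k0) := by
          have := hAk k hk
          omega
        rw [h9, pow_add, mul_assoc] at h7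
        have h10 := (mul_dvd_mul_iff_left (pow_ne_zero _ PowerSeries.X_ne_zero)).1 h7
        have hu : IsUnit (r : PowerSeries K) := by
          rw [PowerSeries.isUnit_iff_constantCoeff, Polynomial.constantCoeff_coe]
          exact isUnit_iff_ne_zero.2 hr0
        exact (hu.dvd_mul_left).1 h10
      obtain ⟨gL, hgL, hgL'⟩ := h4 g' hg'
      refine ⟨fun L => ((X 1) ^ (A k0) * Polynomial.aeval (X 1) s +
        (X 0 - Polynomial.aeval (X 1) (f k0)) * gL L) + (-ε k0 L) • (X 1 * gL L), ?_, ?_⟩
      · have : ContinuousSMul K (MvPolynomial (Fin 2) K) := IsModuleTopology.toContinuousSMul K _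
        have hmul : ∀ a : MvPolynomial (Fin 2) K, Continuous fun b : MvPolynomial (Fin 2) K => a * b :=
          fun a => IsModuleTopology.continuous_of_linearMap (LinearMap.mulLeft K a)
        have t1 : Tendsto (fun L => (X 0 - Polynomial.aeval (X 1) (f k0)) * gL L) atTop
            (𝓝 ((X 0 - Polynomial.aeval (X 1) (f k0)) * g')) :=
          ((hmul _).tendsto g').comp hgL
        have t2 : Tendsto (fun L => X 1 * gL L) atTop (𝓝 (X 1 * g')) :=
          ((hmul _).tendsto g').comp hgL
        have t3 : Tendsto (fun L => (-ε k0 L) • (X 1 * gL L)) atTop (𝓝 ((-0 : K) • (X 1 * g'))) :=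
          (hε k0).neg.smul t2
        have t4 := (tendsto_const_nhds (x := (X 1) ^ (A k0) * Polynomial.aeval (X 1) s)
          (f := (atTop : Filter ℕ))).add t1
        have t5 := t4.add t3
        rw [neg_zero, zero_smul, add_zero, ← hgg] at t5
        exact t5
      · intro L k hk
        have hev : ev ((f k : PowerSeries K) + PowerSeries.C (ε k L) * PowerSeries.X)
            PowerSeries.X (((X 1) ^ (A k0) * Polynomial.aeval (X 1) s +
            (X 0 - Polynomial.aeval (X 1) (f k0)) * gL L) + (-ε k0 L) • (X 1 * gL L))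
            = PowerSeries.X ^ (A k0) * (s : PowerSeries K) +
              ((f k : PowerSeries K) - (f k0 : PowerSeries K) +
                PowerSeries.C (ε k L - ε k0 L) * PowerSeries.X) *
              ev ((f k : PowerSeries K) + PowerSeries.C (ε k L) * PowerSeries.X)
                PowerSeries.X (gL L) := by
          rw [map_add, map_add, map_mul, map_mul, map_pow, ev_X1, ev_aeval, map_sub, ev_X0,
            ev_aeval, map_smul, map_mul, ev_X1, PowerSeries.smul_eq_C_mul, map_sub, map_neg]
          ring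
        rw [hev]
        by_cases hkk : k = k0
        · subst hkk
          rw [hA'k0, sub_self, sub_self, map_zero, zero_mul, add_zero, zero_mul, add_zero]
          exact Dvd.dvd.mul_right dvd_rfl _
        · have hk' : k ∈ S.erase k0 := Finset.mem_erase.2 ⟨hkk, hk⟩
          rw [hA'k k hk']
          refine dvd_add (Dvd.dvd.mul_right (pow_dvd_pow _ (hle k hk')) _) ?_
          rw [pow_succ']
          refine mul_dvd_mul ?_ (hgL' L k hk')
          obtain ⟨hc1, hc2, r, hr0, hr⟩ := hfc k hk k0 hk0 hkk
          have h8 : (f k : PowerSeries K) - (f k0 : PowerSeries K)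
              = PowerSeries.X ^ (c k k0) * (r : PowerSeries K) := by
            rw [← Polynomial.coe_sub, hr, Polynomial.coe_mul, Polynomial.coe_pow, Polynomial.coe_X]
          rw [h8]
          refine dvd_add (Dvd.dvd.mul_right (dvd_pow_self _ (by omega)) _) ?_
          exact Dvd.dvd.mul_left dvd_rfl _

end top

end HilbArc
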