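import Mathlib
import Pool.Agent.HilbP1.F
import Pool.Agent.HilbP1.E3

set_option autoImplicit false

open Filter Topology MvPolynomial

namespace HilbArc

variable {K : Type*} [Field K]

section top
variable [TopologicalSpace K] [IsTopologicalRing K]

variable [ContinuousInv₀ K] [T2Space K]

/-- TARGET -/
theorem stepTM {ι : Type*} [Finite ι] [CharZero K] (s : K) (hs : s ≠ 0)
    (hs' : Tendsto (fun L : ℕ => s ^ L) atTop (𝓝 0)) (S : Finset ℕ) (hS : S.Nonempty)
    (f : ℕ → Polynomial K) (c : ℕ → ℕ → ℕ) (A : ℕ → ℕ) (n : ℕ)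
    (hf0 : ∀ k ∈ S, (f k).coeff 0 = 0)
    (hc : ∀ k ∈ S, ∀ l ∈ S, k ≠ l → 1 ≤ c k l ∧ c k l = c l k ∧
      ∃ r : Polynomial K, r.coeff 0 ≠ 0 ∧ f k - f l = Polynomial.X ^ (c k l) * r)
    (hA : ∀ k ∈ S, 1 + ∑ l ∈ S.erase k, c k l ≤ A k)
    (hn : 2 * ∑ k ∈ S, A k = 2 * n + ∑ k ∈ S, ∑ l ∈ S.erase k, c k l)
    (g : ι → MvPolynomial (Fin 2) K)
    (hg : ∀ i, ∀ k ∈ S, (PowerSeries.X : PowerSeries K) ^ (A k) ∣
      ev (f k : PowerSeries K) PowerSeries.X (g i)) :
    g ∈ closure (Cv ι K n) := by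
  classical
  have hcard : 0 < S.card := Finset.card_pos.mpr hS
  obtain ⟨t, ht⟩ : ∃ t, S.card = t + 1 := ⟨S.card - 1, by omega⟩
  have hε : ∀ k : ℕ, Tendsto (fun L : ℕ => (k : K) * s ^ L) atTop (𝓝 0) := by
    intro k
    have := hs'.const_mul (k : K)
    rwa [mul_zero] at this
  obtain ⟨A', hA1, -, hA2, hA3⟩ := stepT (t + 1) S f c A (fun k L => (k : K) * s ^ L) ht hf0 hc hA hε
  have hn' : 2 * ∑ k ∈ S, A' k = 2 * n + (t + 1) * t := by
    rw [hn] at hA2
    have : (t + 1) * (t + 1 - 1) = (t + 1) * t := by rw [Nat.add_sub_cancel]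
    rw [this] at hA2
    omega
  choose gL hg1 hg2 using fun i => hA3 (g i) (hg i)
  have hG : Tendsto (fun L : ℕ => (fun i => gL i L : ι → MvPolynomial (Fin 2) K)) atTop (𝓝 g) :=
    tendsto_pi_nhds.mpr hg1
  have hTr : ∀ᶠ L : ℕ in atTop, ∀ k ∈ S, ∀ l ∈ S, k ≠ l →
      (f k).coeff 1 + (k : K) * s ^ L ≠ (f l).coeff 1 + (l : K) * s ^ L := by
    rw [eventually_all_finset]
    intro k _
    rw [eventually_all_finset]
    intro l _
    by_cases hkl : k = l
    · exact Eventually.of_forall (fun L h => absurd hkl h)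
    by_cases hfe : (f k).coeff 1 = (f l).coeff 1
    · refine Eventually.of_forall (fun L _ h => ?_)
      rw [hfe] at h
      have h1 := add_left_cancel h
      have h2 := mul_right_cancel₀ (pow_ne_zero L hs) h1
      exact hkl (Nat.cast_injective h2)
    · have h1 : Tendsto (fun L : ℕ => ((f k).coeff 1 + (k : K) * s ^ L) -
          ((f l).coeff 1 + (l : K) * s ^ L)) atTop (𝓝 (((f k).coeff 1 + 0) - ((f l).coeff 1 + 0))) :=
        ((tendsto_const_nhds.add (hε k)).sub (tendsto_const_nhds.add (hε l)))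
      have h2 : ((f k).coeff 1 + 0) - ((f l).coeff 1 + 0) ≠ 0 := by
        rw [add_zero, add_zero]
        exact sub_ne_zero.mpr hfe
      filter_upwards [h1.eventually_ne h2] with L hL _
      exact sub_ne_zero.mp hL
  refine isClosed_closure.mem_of_tendsto hG ?_
  filter_upwards [hTr] with L hL
  refine stepM s hs hs' t S
    (fun k => (f k : PowerSeries K) + PowerSeries.C ((k : K) * s ^ L) * PowerSeries.X)
    (fun _ => PowerSeries.X) A' n ht ?_ ?_ hA1 hn' _ ?_
  · intro k hk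
    refine ⟨?_, ?_, Or.inr ?_⟩
    · simp [hf0 k hk]
    · simp
    · rw [PowerSeries.coeff_one_X]
      exact one_ne_zero
  · intro k hk l hl hkl
    have := hL k hk l hl hkl
    simp only [Tr, map_add, Polynomial.coeff_coe, PowerSeries.coeff_C_mul, PowerSeries.coeff_one_X,
      mul_one, one_mul]
    exact this
  · intro i k hk
    exact hg2 i L k hk

end top

end HilbArc
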