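import Mathlib
import Pool.Agent.HilbP1.G1

set_option autoImplicit false

open Filter Topology MvPolynomial

namespace HilbArc

variable {K : Type*} [Field K]

section top
variable [TopologicalSpace K] [IsTopologicalRing K]

variable [ContinuousInv₀ K] [T2Space K]

private def gB (h : ℕ → ℕ) (v : ℕ) : ℕ := h (v - 1) - h v

omit [TopologicalSpace K] [IsTopologicalRing K] [ContinuousInv₀ K] [T2Space K] in
private theorem g_abel (h : ℕ → ℕ) (hh : Antitone h) (N : ℕ) :
    ∑ v ∈ Finset.Icc 1 N, gB h v * v + N * h N = ∑ a ∈ Finset.range N, h a := by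
  induction N with
  | zero => simp
  | succ N ih =>
    rw [Finset.sum_Icc_succ_top (by omega), Finset.sum_range_succ, ← ih]
    have h1 : gB h (N + 1) + h (N + 1) = h N := by
      unfold gB
      simp only [Nat.add_sub_cancel]
      exact Nat.sub_add_cancel (hh (Nat.le_succ N))
    have h2 : gB h (N + 1) * (N + 1) + (N + 1) * h (N + 1) = N * h N + h N := by
      calc _ = (N + 1) * (gB h (N + 1) + h (N + 1)) := by ring
        _ = (N + 1) * h N := by rw [h1]
        _ = _ := by ring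
    linarith

private theorem g_tele (h : ℕ → ℕ) (hh : Antitone h) {v N : ℕ} (hv : v ≤ N) :
    ∑ u ∈ Finset.Ioc v N, gB h u + h N = h v := by
  induction N, hv using Nat.le_induction with
  | base => simp
  | succ N hN ih =>
    rw [Finset.sum_Ioc_succ_top hN]
    have h1 : gB h (N + 1) + h (N + 1) = h N := by
      unfold gB
      simp only [Nat.add_sub_cancel]
      exact Nat.sub_add_cancel (hh (Nat.le_succ N))
    omega

private def gS (h : ℕ → ℕ) (N : ℕ) : Finset ℕ := (Finset.Icc 1 N).filter (fun v => 0 < gB h v)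

private def gT (h : ℕ → ℕ) (N : ℕ) (v : ℕ) : Finset ℕ := (gS h N).filter (fun u => v < u)

private def gA (h : ℕ → ℕ) (N : ℕ) (v : ℕ) : ℕ :=
  gB h v * v + ∑ u ∈ gT h N v, min (gB h u) (gB h v)

private theorem g_mem_S {h : ℕ → ℕ} {N v : ℕ} : v ∈ gS h N ↔ (1 ≤ v ∧ v ≤ N) ∧ 0 < gB h v := by
  unfold gS
  rw [Finset.mem_filter, Finset.mem_Icc]

private theorem g_sum_S (h : ℕ → ℕ) (hh : Antitone h) (N : ℕ) (hN : h N = 0) :
    ∑ v ∈ gS h N, gB h v * v = ∑ a ∈ Finset.range N, h a := by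
  rw [← g_abel h hh N, hN, mul_zero, add_zero]
  refine Finset.sum_subset (Finset.filter_subset _ _) fun x hx hx' => ?_
  have : gB h x = 0 := by
    by_contra hne
    exact hx' (Finset.mem_filter.2 ⟨hx, Nat.pos_of_ne_zero hne⟩)
  rw [this, zero_mul]

private theorem g_sum_T (h : ℕ → ℕ) (hh : Antitone h) (N : ℕ) (hN : h N = 0) {v : ℕ} (hv : v ≤ N) :
    ∑ u ∈ gT h N v, gB h u = h v := by
  rw [← g_tele h hh hv, hN, add_zero]
  refine Finset.sum_subset ?_ fun x hx hx' => ?_
  · intro x hx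
    have h1 := Finset.mem_filter.1 hx
    have h2 := g_mem_S.1 h1.1
    exact Finset.mem_Ioc.2 ⟨h1.2, h2.1.2⟩
  · by_contra hne
    have h1 := Finset.mem_Ioc.1 hx
    exact hx' (Finset.mem_filter.2 ⟨g_mem_S.2 ⟨⟨by omega, h1.2⟩, Nat.pos_of_ne_zero hne⟩, h1.1⟩)

private theorem g_split (h : ℕ → ℕ) (N k : ℕ) (f : ℕ → ℕ) :
    ∑ l ∈ (gS h N).erase k, f l = ∑ l ∈ gT h N k, f l + ∑ l ∈ (gS h N).filter (fun l => l < k), f l := by
  rw [← Finset.sum_filter_add_sum_filter_not ((gS h N).erase k) (fun l => k < l)]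
  congr 1
  · refine Finset.sum_congr ?_ fun _ _ => rfl
    ext x
    simp only [gT, Finset.mem_filter, Finset.mem_erase]
    constructor
    · rintro ⟨⟨_, h1⟩, h2⟩; exact ⟨h1, h2⟩
    · rintro ⟨h1, h2⟩; exact ⟨⟨by omega, h1⟩, h2⟩
  · refine Finset.sum_congr ?_ fun _ _ => rfl
    ext x
    simp only [Finset.mem_filter, Finset.mem_erase]
    constructor
    · rintro ⟨⟨h0, h1⟩, h2⟩; exact ⟨h1, by omega⟩
    · rintro ⟨h1, h2⟩; exact ⟨⟨by omega, h1⟩, by omega⟩

private theorem g_hA (h : ℕ → ℕ) (N : ℕ) {k : ℕ} (hk : k ∈ gS h N) :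
    1 + ∑ l ∈ (gS h N).erase k, min (gB h k) (gB h l) ≤ gA h N k := by
  rw [g_split]
  unfold gA
  have h0 := g_mem_S.1 hk
  have h1 : ∑ l ∈ (gS h N).filter (fun l => l < k), min (gB h k) (gB h l) ≤ (k - 1) * gB h k := by
    calc ∑ l ∈ (gS h N).filter (fun l => l < k), min (gB h k) (gB h l)
        ≤ ∑ l ∈ (gS h N).filter (fun l => l < k), gB h k :=
          Finset.sum_le_sum fun _ _ => min_le_left _ _
      _ = ((gS h N).filter (fun l => l < k)).card * gB h k := by
          rw [Finset.sum_const, smul_eq_mul]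
      _ ≤ (k - 1) * gB h k := by
          gcongr
          have : (gS h N).filter (fun l => l < k) ⊆ Finset.Ico 1 k := by
            intro x hx
            have h1 := Finset.mem_filter.1 hx
            have h2 := g_mem_S.1 h1.1
            exact Finset.mem_Ico.2 ⟨h2.1.1, h1.2⟩
          have h3 := Finset.card_le_card this
          rwa [Nat.card_Ico] at h3
  have h2 : ∑ l ∈ gT h N k, min (gB h k) (gB h l) = ∑ u ∈ gT h N k, min (gB h u) (gB h k) :=
    Finset.sum_congr rfl fun _ _ => min_comm _ _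
  rw [h2]
  obtain ⟨m, hm⟩ : ∃ m, k = m + 1 := ⟨k - 1, by omega⟩
  have h3 : (k - 1) * gB h k + gB h k = gB h k * k := by
    rw [hm, Nat.add_sub_cancel]
    ring
  have h4 := h0.2
  omega

private theorem g_hn (h : ℕ → ℕ) (hh : Antitone h) (N : ℕ) (hN : h N = 0) :
    2 * ∑ k ∈ gS h N, gA h N k = 2 * (∑ a ∈ Finset.range N, h a) +
      ∑ k ∈ gS h N, ∑ l ∈ (gS h N).erase k, min (gB h k) (gB h l) := by
  simp only [g_split]
  rw [Finset.sum_add_distrib]
  have h1 : ∑ k ∈ gS h N, ∑ l ∈ (gS h N).filter (fun l => l < k), min (gB h k) (gB h l) =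
      ∑ k ∈ gS h N, ∑ l ∈ gT h N k, min (gB h l) (gB h k) := by
    refine Finset.sum_comm' ?_
    intro x y
    simp only [gT, Finset.mem_filter]
    tauto
  have h2 : ∑ k ∈ gS h N, ∑ l ∈ gT h N k, min (gB h k) (gB h l) =
      ∑ k ∈ gS h N, ∑ l ∈ gT h N k, min (gB h l) (gB h k) :=
    Finset.sum_congr rfl fun _ _ => Finset.sum_congr rfl fun _ _ => min_comm _ _
  rw [h1, h2]
  unfold gA
  rw [Finset.sum_add_distrib, g_sum_S h hh N hN]
  ring

private theorem g_mono (h : ℕ → ℕ) (N : ℕ) {w v : ℕ} (hwv : w ≤ v) :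
    gA h N w ≤ gB h w * v + ∑ u ∈ gT h N v, min (gB h u) (gB h w) := by
  unfold gA
  have h1 : ∑ u ∈ gT h N w, min (gB h u) (gB h w) ≤
      ∑ u ∈ gT h N v, min (gB h u) (gB h w) + (v - w) * gB h w := by
    rw [← Finset.sum_filter_add_sum_filter_not (gT h N w) (fun u => v < u)]
    gcongr ?_ + ?_
    · apply le_of_eq
      refine Finset.sum_congr ?_ fun _ _ => rfl
      ext x
      simp only [gT, Finset.mem_filter]
      constructor
      · rintro ⟨⟨h1, _⟩, h2⟩; exact ⟨h1, h2⟩
      · rintro ⟨h1, h2⟩; exact ⟨⟨h1, by omega⟩, h2⟩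
    · calc ∑ u ∈ (gT h N w).filter (fun u => ¬ v < u), min (gB h u) (gB h w)
          ≤ ∑ u ∈ (gT h N w).filter (fun u => ¬ v < u), gB h w :=
            Finset.sum_le_sum fun _ _ => min_le_right _ _
        _ = ((gT h N w).filter (fun u => ¬ v < u)).card * gB h w := by
            rw [Finset.sum_const, smul_eq_mul]
        _ ≤ (v - w) * gB h w := by
            gcongr
            have : (gT h N w).filter (fun u => ¬ v < u) ⊆ Finset.Ioc w v := by
              intro x hx
              have h1 := Finset.mem_filter.1 hx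
              have h2 := Finset.mem_filter.1 h1.1
              exact Finset.mem_Ioc.2 ⟨h2.2, by omega⟩
            have h3 := Finset.card_le_card this
            rwa [Nat.card_Ioc] at h3
  obtain ⟨m, rfl⟩ := Nat.exists_eq_add_of_le hwv
  rw [Nat.add_sub_cancel_left] at h1
  have h2 : gB h w * (w + m) = gB h w * w + m * gB h w := by ring
  omega

private noncomputable def gF (h : ℕ → ℕ) (σ : K) (v : ℕ) : Polynomial K :=
  Polynomial.C (((v : K) * σ)⁻¹) * Polynomial.X ^ (gB h v)

private noncomputable def gG (h : ℕ → ℕ) (N : ℕ) (σ : K) (v : ℕ) : MvPolynomial (Fin 2) K :=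
  X 0 ^ v * ∏ u ∈ gT h N v, (X 1 ^ (gB h u) - C ((u : K) * σ) * X 0)

omit [TopologicalSpace K] [IsTopologicalRing K] [ContinuousInv₀ K] [T2Space K] in
private theorem g_hc [CharZero K] (h : ℕ → ℕ) (N : ℕ) {σ : K} (hσ : σ ≠ 0) {k l : ℕ}
    (hk : k ∈ gS h N) (hl : l ∈ gS h N) (hkl : k ≠ l) :
    1 ≤ min (gB h k) (gB h l) ∧ min (gB h k) (gB h l) = min (gB h l) (gB h k) ∧
      ∃ r : Polynomial K, r.coeff 0 ≠ 0 ∧
        gF h σ k - gF h σ l = Polynomial.X ^ (min (gB h k) (gB h l)) * r := by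
  have hk' := g_mem_S.1 hk
  have hl' := g_mem_S.1 hl
  have hk0 : (k : K) * σ ≠ 0 := mul_ne_zero (Nat.cast_ne_zero.2 (by omega)) hσ
  have hl0 : (l : K) * σ ≠ 0 := mul_ne_zero (Nat.cast_ne_zero.2 (by omega)) hσ
  refine ⟨le_min hk'.2 hl'.2, min_comm _ _, ?_⟩
  refine ⟨Polynomial.C (((k : K) * σ)⁻¹) * Polynomial.X ^ (gB h k - min (gB h k) (gB h l)) -
    Polynomial.C (((l : K) * σ)⁻¹) * Polynomial.X ^ (gB h l - min (gB h k) (gB h l)), ?_, ?_⟩
  · rw [Polynomial.coeff_sub, Polynomial.coeff_C_mul_X_pow, Polynomial.coeff_C_mul_X_pow]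
    rcases lt_trichotomy (gB h k) (gB h l) with hlt | heq | hgt
    · rw [min_eq_left hlt.le, if_pos (by omega), if_neg (by omega), sub_zero]
      exact inv_ne_zero hk0
    · rw [heq, min_self, if_pos (by omega), if_pos (by omega), sub_ne_zero]
      intro hcon
      have h1 := inv_injective hcon
      have h2 := mul_right_cancel₀ hσ h1
      exact hkl (Nat.cast_injective h2)
    · rw [min_eq_right hgt.le, if_neg (by omega), if_pos (by omega), zero_sub]
      exact neg_ne_zero.2 (inv_ne_zero hl0)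
  · unfold gF
    have e1 : Polynomial.X ^ (gB h k) = (Polynomial.X : Polynomial K) ^ (min (gB h k) (gB h l)) *
        Polynomial.X ^ (gB h k - min (gB h k) (gB h l)) := by
      rw [← pow_add]
      congr 1
      have := min_le_left (gB h k) (gB h l)
      omega
    have e2 : Polynomial.X ^ (gB h l) = (Polynomial.X : Polynomial K) ^ (min (gB h k) (gB h l)) *
        Polynomial.X ^ (gB h l - min (gB h k) (gB h l)) := by
      rw [← pow_add]
      congr 1
      have := min_le_right (gB h k) (gB h l)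
      omega
    rw [e1, e2]
    ring

omit [TopologicalSpace K] [IsTopologicalRing K] [ContinuousInv₀ K] [T2Space K] in
private theorem g_hg [CharZero K] (h : ℕ → ℕ) (N : ℕ) {σ : K} (hσ : σ ≠ 0) (v : ℕ) {w : ℕ}
    (hw : w ∈ gS h N) :
    (PowerSeries.X : PowerSeries K) ^ (gA h N w) ∣
      ev (gF h σ w : PowerSeries K) PowerSeries.X (gG h N σ v) := by
  have hw' := g_mem_S.1 hw
  have hw0 : (w : K) * σ ≠ 0 := mul_ne_zero (Nat.cast_ne_zero.2 (by omega)) hσ
  have hF : ((gF h σ w : Polynomial K) : PowerSeries K) =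
      PowerSeries.C (((w : K) * σ)⁻¹) * PowerSeries.X ^ (gB h w) := by
    unfold gF
    rw [Polynomial.coe_mul, Polynomial.coe_C, Polynomial.coe_pow, Polynomial.coe_X]
  have hC : ∀ c : K, ev (gF h σ w : PowerSeries K) PowerSeries.X (C c) = PowerSeries.C c := by
    intro c
    rw [ev, aeval_C]
    rfl
  have hev : ev (gF h σ w : PowerSeries K) PowerSeries.X (gG h N σ v) =
      (gF h σ w : PowerSeries K) ^ v * ∏ u ∈ gT h N v,
        (PowerSeries.X ^ (gB h u) - PowerSeries.C ((u : K) * σ) * (gF h σ w : PowerSeries K)) := by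
    unfold gG
    rw [map_mul, map_pow, ev_X0, map_prod]
    congr 1
    refine Finset.prod_congr rfl fun u _ => ?_
    rw [map_sub, map_mul, map_pow, ev_X0, ev_X1, hC]
  rw [hev]
  by_cases hwv : v < w
  · have h1 : ∏ u ∈ gT h N v,
        (PowerSeries.X ^ (gB h u) - PowerSeries.C ((u : K) * σ) * (gF h σ w : PowerSeries K)) = 0 := by
      apply Finset.prod_eq_zero (Finset.mem_filter.2 ⟨hw, hwv⟩)
      rw [hF, ← mul_assoc, ← map_mul, mul_inv_cancel₀ hw0, map_one, one_mul, sub_self]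
    rw [h1, mul_zero]
    exact dvd_zero _
  · push Not at hwv
    refine (pow_dvd_pow _ (g_mono h N hwv)).trans ?_
    rw [pow_add, ← Finset.prod_pow_eq_pow_sum]
    apply mul_dvd_mul
    · rw [hF, mul_pow, ← pow_mul]
      exact Dvd.intro_left _ rfl
    · apply Finset.prod_dvd_prod_of_dvd
      intro u _
      rw [hF]
      apply dvd_sub
      · exact pow_dvd_pow _ (min_le_left _ _)
      · exact ((pow_dvd_pow _ (min_le_right _ _)).mul_left _).mul_left _

omit [ContinuousInv₀ K] [T2Space K] in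
private theorem g_tendsto (s : K) (hs' : Tendsto (fun L : ℕ => s ^ L) atTop (𝓝 0))
    (H : Polynomial (MvPolynomial (Fin 2) K)) :
    Tendsto (fun L : ℕ => H.eval (C (s ^ L))) atTop (𝓝 (H.eval 0)) := by
  have hsm : ContinuousSMul K (MvPolynomial (Fin 2) K) := IsModuleTopology.toContinuousSMul K _
  have key : ∀ σ : K, H.eval (C σ) = ∑ j ∈ Finset.range (H.natDegree + 1), σ ^ j • H.coeff j := by
    intro σ
    rw [Polynomial.eval_eq_sum_range]
    refine Finset.sum_congr rfl fun j _ => ?_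
    rw [← map_pow, mul_comm, ← smul_eq_C_mul]
  have h0 : H.eval 0 = ∑ j ∈ Finset.range (H.natDegree + 1), (0 : K) ^ j • H.coeff j := by
    rw [← key, map_zero]
  rw [h0]
  simp only [key]
  refine tendsto_finsetSum _ fun j _ => ?_
  exact (hs'.pow j).smul_const (H.coeff j)

/-- TARGET: the generators `x^v y^(h v)` of the monomial ideal with column heights `h` are
limits of tuples in curvilinear ideals of colength `n = ∑ h`. -/
theorem stepR [CharZero K] (s : K) (hs : s ≠ 0)
    (hs' : Tendsto (fun L : ℕ => s ^ L) atTop (𝓝 0)) (h : ℕ → ℕ) (hh : Antitone h) (N : ℕ)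
    (hN : h N = 0) (n : ℕ) (hn : ∑ a ∈ Finset.range N, h a = n) (hn1 : 1 ≤ n) :
    (fun v : Fin (N + 1) => (X 0 ^ (v : ℕ) * X 1 ^ (h v) : MvPolynomial (Fin 2) K)) ∈
      closure (Cv (Fin (N + 1)) K n) := by
  have hS : (gS h N).Nonempty := by
    rw [Finset.nonempty_iff_ne_empty]
    intro hemp
    have h1 := g_sum_S h hh N hN
    rw [hemp, Finset.sum_empty, hn] at h1
    omega
  have hmem : ∀ L : ℕ, (fun v : Fin (N + 1) => gG h N (s ^ L) (v : ℕ)) ∈
      closure (Cv (Fin (N + 1)) K n) := by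
    intro L
    have hσ : s ^ L ≠ 0 := pow_ne_zero _ hs
    refine stepTM s hs hs' (gS h N) hS (gF h (s ^ L)) (fun u v => min (gB h u) (gB h v))
      (gA h N) n ?_ ?_ ?_ ?_ _ ?_
    · intro k hk
      have hk' := g_mem_S.1 hk
      unfold gF
      rw [Polynomial.coeff_C_mul_X_pow, if_neg (by omega)]
    · intro k hk l hl hkl
      exact g_hc h N hσ hk hl hkl
    · intro k hk
      exact g_hA h N hk
    · rw [g_hn h hh N hN, hn]
    · intro v w hw
      exact g_hg h N hσ v hw
  refine isClosed_closure.mem_of_tendsto (b := (atTop : Filter ℕ)) ?_ (Eventually.of_forall hmem)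
  rw [tendsto_pi_nhds]
  intro v
  obtain ⟨H, hH⟩ : ∃ H : Polynomial (MvPolynomial (Fin 2) K), H = Polynomial.C (X 0 ^ (v : ℕ)) *
    ∏ u ∈ gT h N v, (Polynomial.C (X 1 ^ (gB h u)) - Polynomial.C (C (u : K) * X 0) * Polynomial.X) :=
    ⟨_, rfl⟩
  have hHe : ∀ p : MvPolynomial (Fin 2) K, H.eval p = X 0 ^ (v : ℕ) *
      ∏ u ∈ gT h N v, (X 1 ^ (gB h u) - (C (u : K) * X 0) * p) := by
    intro p
    rw [hH, Polynomial.eval_mul, Polynomial.eval_C, Polynomial.eval_prod]
    congr 1
    refine Finset.prod_congr rfl fun u _ => ?_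
    rw [Polynomial.eval_sub, Polynomial.eval_C, Polynomial.eval_mul, Polynomial.eval_C,
      Polynomial.eval_X]
  have h1 := g_tendsto s hs' H
  have h2 : H.eval 0 = X 0 ^ (v : ℕ) * X 1 ^ (h v) := by
    rw [hHe]
    simp only [mul_zero, sub_zero]
    rw [Finset.prod_pow_eq_pow_sum, g_sum_T h hh N hN (Nat.lt_succ_iff.1 v.2)]
  rw [h2] at h1
  refine h1.congr fun L => ?_
  rw [hHe]
  unfold gG
  congr 1
  refine Finset.prod_congr rfl fun u _ => ?_
  rw [map_mul]
  ring

end top

end HilbArc
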