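import Mathlib
import Pool.Agent.HilbP1.G1

set_option autoImplicit false

open Filter Topology MvPolynomial

namespace HilbArc

variable {K : Type*} [Field K]

section top
variable [TopologicalSpace K] [IsTopologicalRing K]

variable [ContinuousInv₀ K] [T2Space K]

omit [IsTopologicalRing K] [ContinuousInv₀ K] [T2Space K] in
lemma tri_cont_eval [IsTopologicalRing K] (H : Polynomial (MvPolynomial (Fin 2) K)) :
    Continuous (fun σ : K => H.eval (C σ : MvPolynomial (Fin 2) K)) := by
  have : ContinuousSMul K (MvPolynomial (Fin 2) K) := IsModuleTopology.toContinuousSMul K _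
  simp only [Polynomial.eval_eq_sum_range]
  refine continuous_finsetSum _ fun j _ => ?_
  have : (fun σ : K => H.coeff j * (C σ : MvPolynomial (Fin 2) K) ^ j)
      = fun σ : K => σ ^ j • H.coeff j := by
    funext σ
    rw [← C_pow, mul_comm, ← C_mul']
  rw [this]
  exact (continuous_pow j).smul continuous_const

/-- the line factor -/
noncomputable def triP (s σ : K) (i : ℕ) : MvPolynomial (Fin 2) K := X 1 - C ((i : K) * s * σ) * X 0

noncomputable def triQ (s σ : K) (j : ℕ) : MvPolynomial (Fin 2) K :=
  ∏ i ∈ Finset.range j, triP s σ (i + 1)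

noncomputable def triG (s : K) (k : ℕ) (σ : K) (j : ℕ) : MvPolynomial (Fin 2) K :=
  if j + 2 ≤ k then X 0 ^ (k - j) * triQ s σ j
  else if j + 1 = k then X 0 * X 1 * triQ s σ (k - 2)
  else (X 1 ^ 2 - C s * X 0) * triQ s σ (k - 2)

omit [TopologicalSpace K] [IsTopologicalRing K] [ContinuousInv₀ K] [T2Space K] in
lemma triP_poly (s : K) (i : ℕ) : ∃ H : Polynomial (MvPolynomial (Fin 2) K),
    ∀ σ : K, H.eval (C σ) = triP s σ i := by
  refine ⟨Polynomial.C (X 1) - Polynomial.C (C ((i : K) * s) * X 0) * Polynomial.X, fun σ => ?_⟩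
  simp only [Polynomial.eval_sub, Polynomial.eval_mul, Polynomial.eval_C, Polynomial.eval_X, triP]
  rw [C_mul (a := (i : K) * s) (a' := σ)]
  ring

omit [TopologicalSpace K] [IsTopologicalRing K] [ContinuousInv₀ K] [T2Space K] in
lemma triQ_poly (s : K) (j : ℕ) : ∃ H : Polynomial (MvPolynomial (Fin 2) K),
    ∀ σ : K, H.eval (C σ) = triQ s σ j := by
  choose H hH using triP_poly (K := K) s
  refine ⟨∏ i ∈ Finset.range j, H (i + 1), fun σ => ?_⟩
  rw [Polynomial.eval_prod, triQ]
  exact Finset.prod_congr rfl fun i _ => hH _ _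

omit [TopologicalSpace K] [IsTopologicalRing K] [ContinuousInv₀ K] [T2Space K] in
lemma triG_poly (s : K) (k j : ℕ) : ∃ H : Polynomial (MvPolynomial (Fin 2) K),
    ∀ σ : K, H.eval (C σ) = triG s k σ j := by
  unfold triG
  split_ifs with h1 h2
  · obtain ⟨H, hH⟩ := triQ_poly (K := K) s j
    exact ⟨Polynomial.C (X 0 ^ (k - j)) * H, fun σ => by
      rw [Polynomial.eval_mul, Polynomial.eval_C, hH]⟩
  · obtain ⟨H, hH⟩ := triQ_poly (K := K) s (k - 2)
    exact ⟨Polynomial.C (X 0 * X 1) * H, fun σ => by
      rw [Polynomial.eval_mul, Polynomial.eval_C, hH]⟩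
  · obtain ⟨H, hH⟩ := triQ_poly (K := K) s (k - 2)
    exact ⟨Polynomial.C (X 1 ^ 2 - C s * X 0) * H, fun σ => by
      rw [Polynomial.eval_mul, Polynomial.eval_C, hH]⟩

omit [TopologicalSpace K] [IsTopologicalRing K] [ContinuousInv₀ K] [T2Space K] in
lemma triQ_dvd (s σ : K) (j : ℕ) (a : PowerSeries K) (ha : (PowerSeries.X : PowerSeries K) ∣ a) :
    (PowerSeries.X : PowerSeries K) ^ j ∣ ev a PowerSeries.X (triQ s σ j) := by
  unfold triQ
  rw [map_prod]
  calc (PowerSeries.X : PowerSeries K) ^ j = ∏ i ∈ Finset.range j, PowerSeries.X := by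
        rw [Finset.prod_const, Finset.card_range]
    _ ∣ _ := by
        refine Finset.prod_dvd_prod_of_dvd _ _ fun i _ => ?_
        rw [triP, map_sub, map_mul, ev_X0, ev_X1]
        exact dvd_sub dvd_rfl (ha.mul_left _)

omit [TopologicalSpace K] [IsTopologicalRing K] [ContinuousInv₀ K] [T2Space K] in
lemma ev_C'_G3 (a b : PowerSeries K) (x : K) : ev a b (C x) = PowerSeries.C x := by
  unfold ev
  rw [aeval_C]; rfl

/-- TARGET: the first order deformation `y^k - s x y^(k-2)` of the triangle. -/
theorem stepTri [CharZero K] (s : K) (hs : s ≠ 0)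
    (hs' : Tendsto (fun L : ℕ => s ^ L) atTop (𝓝 0)) (k : ℕ) (hk : 2 ≤ k) (n : ℕ)
    (hn : 2 * n = k * (k + 1)) :
    (fun j : Fin (k + 1) => if (j : ℕ) < k then (X 0 ^ (k - (j : ℕ)) * X 1 ^ (j : ℕ))
      else (X 1 ^ k - C s * X 0 * X 1 ^ (k - 2)) : Fin (k + 1) → MvPolynomial (Fin 2) K) ∈
      closure (Cv (Fin (k + 1)) K n) := by
  classical
  -- the approximating tuples are in the closure
  have hmem : ∀ L : ℕ, (fun j : Fin (k + 1) => triG s k (s ^ L) j) ∈
      closure (Cv (Fin (k + 1)) K n) := by
    intro L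
    obtain ⟨σ, hσ⟩ : ∃ σ : K, σ = s ^ L := ⟨_, rfl⟩
    have hσ0 : σ ≠ 0 := by rw [hσ]; exact pow_ne_zero _ hs
    rw [← hσ]
    have hsi : ∀ i : ℕ, i ≠ 0 → (i : K) * s * σ ≠ 0 := fun i hi =>
      mul_ne_zero (mul_ne_zero (Nat.cast_ne_zero.2 hi) hs) hσ0
    refine stepTM s hs hs' (Finset.range (k - 1)) ⟨0, by rw [Finset.mem_range]; omega⟩
      (fun i => if i = 0 then Polynomial.C (1 / s) * Polynomial.X ^ 2
        else Polynomial.C (1 / ((i : K) * s * σ)) * Polynomial.X)
      (fun _ _ => 1) (fun i => if i = 0 then k + 1 else k) n ?_ ?_ ?_ ?_ _ ?_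
    · intro i _
      try dsimp only
      split_ifs with h
      · simp
      · simp
    · intro i _ j _ hij
      refine ⟨le_rfl, rfl, ?_⟩
      try dsimp only
      by_cases hi : i = 0
      · have hj : j ≠ 0 := fun h => hij (hi.trans h.symm)
        rw [if_pos hi, if_neg hj]
        refine ⟨Polynomial.C (1 / s) * Polynomial.X - Polynomial.C (1 / ((j : K) * s * σ)), ?_, by ring⟩
        simp [hs, hσ0, hj]
      · by_cases hj : j = 0
        · rw [if_neg hi, if_pos hj]
          refine ⟨Polynomial.C (1 / ((i : K) * s * σ)) - Polynomial.C (1 / s) * Polynomial.X, ?_, by ring⟩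
          simp [hs, hσ0, hi]
        · rw [if_neg hi, if_neg hj]
          refine ⟨Polynomial.C (1 / ((i : K) * s * σ) - 1 / ((j : K) * s * σ)), ?_, by
            rw [Polynomial.C_sub]; ring⟩
          rw [Polynomial.coeff_C_zero, sub_ne_zero]
          intro h
          rw [div_eq_div_iff (hsi i hi) (hsi j hj), one_mul, one_mul] at h
          have h2 := mul_right_cancel₀ hs (mul_right_cancel₀ hσ0 h)
          exact hij (Nat.cast_injective h2).symm
    · intro i hi
      rw [Finset.sum_const, Finset.card_erase_of_mem hi, Finset.card_range, smul_eq_mul, mul_one]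
      split_ifs <;> omega
    · obtain ⟨q, rfl⟩ : ∃ q, k = q + 2 := ⟨k - 2, by omega⟩
      have h1 : ∀ i ∈ Finset.range (q + 2 - 1),
          ∑ l ∈ (Finset.range (q + 2 - 1)).erase i, 1 = q := by
        intro i hi
        rw [Finset.sum_const, Finset.card_erase_of_mem hi, Finset.card_range, smul_eq_mul, mul_one]
        omega
      rw [Finset.sum_congr rfl h1, Finset.sum_const, Finset.card_range, smul_eq_mul]
      have h2 : q + 2 - 1 = q + 1 := by omega
      rw [h2, Finset.sum_range_succ']
      simp only [Nat.add_eq_zero_iff, one_ne_zero, and_false, if_false, if_true, Finset.sum_const,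
        Finset.card_range, smul_eq_mul]
      rw [hn]; ring
    · intro j i hi
      rw [Finset.mem_range] at hi
      have hj := j.2
      try dsimp only
      by_cases hi0 : i = 0
      · rw [if_pos hi0, if_pos hi0]
        have ha : ((Polynomial.C (1 / s) * Polynomial.X ^ 2 : Polynomial K) : PowerSeries K)
            = PowerSeries.C (1 / s) * PowerSeries.X ^ 2 := by
          rw [Polynomial.coe_mul, Polynomial.coe_C, Polynomial.coe_pow, Polynomial.coe_X]
        rw [ha]
        have hXa : (PowerSeries.X : PowerSeries K) ∣ PowerSeries.C (1 / s) * PowerSeries.X ^ 2 :=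
          Dvd.dvd.mul_left (dvd_pow_self _ two_ne_zero) _
        have hX2 : (PowerSeries.X : PowerSeries K) ^ 2 ∣ PowerSeries.C (1 / s) * PowerSeries.X ^ 2 :=
          Dvd.intro_left _ rfl
        unfold triG
        split_ifs with h1 h2
        · rw [map_mul, map_pow, ev_X0]
          have h3 : (PowerSeries.X : PowerSeries K) ^ (2 * (k - (j : ℕ)) + (j : ℕ)) ∣
              (PowerSeries.C (1 / s) * PowerSeries.X ^ 2) ^ (k - (j : ℕ)) *
                ev (PowerSeries.C (1 / s) * PowerSeries.X ^ 2) PowerSeries.X (triQ s σ j) := by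
            rw [pow_add, pow_mul]
            exact mul_dvd_mul (pow_dvd_pow_of_dvd hX2 _) (triQ_dvd s σ _ _ hXa)
          exact (pow_dvd_pow _ (by omega)).trans h3
        · rw [map_mul, map_mul, ev_X0, ev_X1]
          have h3 : k + 1 = 2 + 1 + (k - 2) := by omega
          rw [h3, pow_add, pow_add, pow_one]
          exact mul_dvd_mul (mul_dvd_mul hX2 dvd_rfl) (triQ_dvd s σ _ _ hXa)
        · rw [map_mul, map_sub, map_pow, map_mul, ev_X0, ev_X1, ev_C'_G3]
          have : (PowerSeries.X : PowerSeries K) ^ 2 - PowerSeries.C s *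
              (PowerSeries.C (1 / s) * PowerSeries.X ^ 2) = 0 := by
            rw [← mul_assoc, ← map_mul, mul_one_div_cancel hs, map_one, one_mul, sub_self]
          rw [this, zero_mul]
          exact dvd_zero _
      · rw [if_neg hi0, if_neg hi0]
        have ha : ((Polynomial.C (1 / ((i : K) * s * σ)) * Polynomial.X : Polynomial K) : PowerSeries K)
            = PowerSeries.C (1 / ((i : K) * s * σ)) * PowerSeries.X := by
          rw [Polynomial.coe_mul, Polynomial.coe_C, Polynomial.coe_X]
        rw [ha]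
        have hXa : (PowerSeries.X : PowerSeries K) ∣
            PowerSeries.C (1 / ((i : K) * s * σ)) * PowerSeries.X := Dvd.intro_left _ rfl
        unfold triG
        split_ifs with h1 h2
        · rw [map_mul, map_pow, ev_X0]
          have h3 : k = (k - (j : ℕ)) + (j : ℕ) := by omega
          nth_rewrite 1 [h3]
          rw [pow_add]
          exact mul_dvd_mul (pow_dvd_pow_of_dvd hXa _) (triQ_dvd s σ _ _ hXa)
        · rw [map_mul, map_mul, ev_X0, ev_X1]
          have h3 : k = 1 + 1 + (k - 2) := by omega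
          nth_rewrite 1 [h3]
          rw [pow_add, pow_add, pow_one]
          exact mul_dvd_mul (mul_dvd_mul hXa dvd_rfl) (triQ_dvd s σ _ _ hXa)
        · have h0 : ev (PowerSeries.C (1 / ((i : K) * s * σ)) * PowerSeries.X) PowerSeries.X
              (triQ s σ (k - 2)) = 0 := by
            unfold triQ
            rw [map_prod]
            refine Finset.prod_eq_zero (i := i - 1) (by rw [Finset.mem_range]; omega) ?_
            have h5 : i - 1 + 1 = i := by omega
            rw [h5, triP, map_sub, map_mul, ev_X0, ev_X1, ev_C'_G3, ← mul_assoc, ← map_mul,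
              mul_one_div_cancel (hsi i hi0), map_one, one_mul, sub_self]
          rw [map_mul, h0, mul_zero]
          exact dvd_zero _
  -- the limit
  have hlim : Tendsto (fun L : ℕ => (fun j : Fin (k + 1) => triG s k (s ^ L) j)) atTop
      (𝓝 (fun j : Fin (k + 1) => triG s k 0 j)) := by
    rw [tendsto_pi_nhds]
    intro j
    obtain ⟨H, hH⟩ := triG_poly (K := K) s k j
    have h1 := (tri_cont_eval H).tendsto 0
    simp only [hH] at h1
    exact h1.comp hs'
  have hfin := isClosed_closure.mem_of_tendsto hlim (Eventually.of_forall hmem)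
  convert hfin using 1
  funext j
  have hj := j.2
  have hQ : ∀ m : ℕ, triQ s (0 : K) m = X 1 ^ m := by
    intro m
    unfold triQ triP
    simp
  unfold triG
  rw [hQ, hQ]
  split_ifs with h1 h2 h3 h4 h5
  · rfl
  · have h6 : k - (j : ℕ) = 1 := by omega
    have h7 : (j : ℕ) = 1 + (k - 2) := by omega
    rw [h6, pow_one]
    nth_rewrite 1 [h7]
    rw [pow_add, pow_one]; ring
  · omega
  · omega
  · omega
  · have h6 : k = 2 + (k - 2) := by omega
    nth_rewrite 1 [h6]
    rw [pow_add]; ring

end top

end HilbArc
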