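import Mathlib
import Pool.Agent.HilbP1.D
import Pool.Agent.HilbP1.E1

set_option autoImplicit false

open Filter Topology MvPolynomial

namespace HilbArc

variable {K : Type*} [Field K]

section top
variable [TopologicalSpace K] [IsTopologicalRing K]

/-! ### auxiliary -/

omit [TopologicalSpace K] [IsTopologicalRing K] in
lemma arcout_congr (A : PowerSeries K) {a a' : PowerSeries K} (b : PowerSeries K)
    (h : A ∣ a - a') (p : MvPolynomial (Fin 2) K) : A ∣ ev a b p - ev a' b p := by
  induction p using MvPolynomial.induction_on with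
  | C c => simp [ev]
  | add p q hp hq =>
    have : ev a b (p + q) - ev a' b (p + q) = (ev a b p - ev a' b p) + (ev a b q - ev a' b q) := by
      rw [map_add, map_add]; ring
    rw [this]
    exact dvd_add hp hq
  | mul_X p i hp =>
    have : ev a b (p * X i) - ev a' b (p * X i) =
        (ev a b p - ev a' b p) * ev a b (X i) + ev a' b p * (ev a b (X i) - ev a' b (X i)) := by
      rw [map_mul, map_mul]; ring
    rw [this]
    refine dvd_add (hp.mul_right _) (Dvd.dvd.mul_left ?_ _)
    fin_cases i
    · simpa using h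
    · simp

omit [TopologicalSpace K] [IsTopologicalRing K] in
lemma arcout_high (n : ℕ) (f : Polynomial K) (hf : f.coeff 0 = 0) (p : MvPolynomial (Fin 2) K)
    (hp : ∀ m : Fin 2 →₀ ℕ, m.degree < n → coeff m p = 0) :
    (PowerSeries.X : PowerSeries K) ^ n ∣ ev (f : PowerSeries K) PowerSeries.X p := by
  have hX : (PowerSeries.X : PowerSeries K) ∣ (f : PowerSeries K) := by
    rw [PowerSeries.X_dvd_iff, ← PowerSeries.coeff_zero_eq_constantCoeff_apply, Polynomial.coeff_coe,
      hf]
  unfold ev
  rw [MvPolynomial.aeval_def, MvPolynomial.eval₂_eq']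
  refine Finset.dvd_sum fun m hm => ?_
  have hm' : n ≤ m.degree := by
    by_contra hcon
    push Not at hcon
    exact (MvPolynomial.mem_support_iff.1 hm) (hp m hcon)
  rw [Finsupp.degree_eq_sum, Fin.sum_univ_two] at hm'
  rw [Fin.prod_univ_two]
  refine Dvd.dvd.mul_left ?_ _
  simp only [Matrix.cons_val_zero, Matrix.cons_val_one]
  calc (PowerSeries.X : PowerSeries K) ^ n ∣ PowerSeries.X ^ (m 0 + m 1) := pow_dvd_pow _ hm'
    _ = PowerSeries.X ^ (m 0) * PowerSeries.X ^ (m 1) := pow_add _ _ _
    _ ∣ _ := mul_dvd_mul (pow_dvd_pow_of_dvd hX _) dvd_rfl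

omit [TopologicalSpace K] [IsTopologicalRing K] in
lemma arcout_coe (f : Polynomial K) (p : MvPolynomial (Fin 2) K) :
    ev (f : PowerSeries K) PowerSeries.X p =
      ((aeval ![f, Polynomial.X] p : Polynomial K) : PowerSeries K) := by
  induction p using MvPolynomial.induction_on with
  | C c =>
    simp only [ev, algHom_C]
    rw [← Polynomial.C_eq_algebraMap, Polynomial.coe_C]
    rfl
  | add p q hp hq => rw [map_add, map_add, hp, hq, Polynomial.coe_add]
  | mul_X p i hp =>
    rw [map_mul, map_mul, hp, Polynomial.coe_mul]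
    congr 1
    fin_cases i <;> simp

/-- the family of shears applied to a polynomial, as a polynomial in the parameter -/
noncomputable def arcoutH (p : MvPolynomial (Fin 2) K) : Polynomial (MvPolynomial (Fin 2) K) :=
  aeval ![Polynomial.C (X 0), Polynomial.C (X 1) - Polynomial.X * Polynomial.C (X 0)] p

omit [TopologicalSpace K] [IsTopologicalRing K] in
lemma arcoutH_eval (ε : K) (p : MvPolynomial (Fin 2) K) :
    Polynomial.eval (C ε) (arcoutH p) = aeval ![X 0, X 1 - C ε * X 0] p := by
  unfold arcoutH
  induction p using MvPolynomial.induction_on with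
  | C c =>
    rw [algHom_C, algHom_C]
    have : (algebraMap K (Polynomial (MvPolynomial (Fin 2) K)) c) = Polynomial.C (C c) := rfl
    rw [this, Polynomial.eval_C]
    rfl
  | add p q hp hq => rw [map_add, map_add, Polynomial.eval_add, hp, hq]
  | mul_X p i hp =>
    rw [map_mul, map_mul, Polynomial.eval_mul, hp]
    congr 1
    fin_cases i
    · simp
    · simp
      ring

lemma arcout_cont (p : MvPolynomial (Fin 2) K) :
    Continuous (fun ε : K => (aeval ![X 0, X 1 - C ε * X 0] p : MvPolynomial (Fin 2) K)) := by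
  have h : (fun ε : K => (aeval ![X 0, X 1 - C ε * X 0] p : MvPolynomial (Fin 2) K)) =
      fun ε => ∑ j ∈ Finset.range ((arcoutH p).natDegree + 1), ε ^ j • (arcoutH p).coeff j := by
    funext ε
    rw [← arcoutH_eval, Polynomial.eval_eq_sum_range]
    refine Finset.sum_congr rfl fun j _ => ?_
    rw [← map_pow, mul_comm, ← MvPolynomial.smul_eq_C_mul]
  rw [h]
  have hsm : ContinuousSMul K (MvPolynomial (Fin 2) K) := IsModuleTopology.toContinuousSMul K _
  refine continuous_finsetSum _ fun j _ => ?_
  exact (continuous_pow j).smul continuous_const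

lemma arcout_coeff_cont (m : Fin 2 →₀ ℕ) :
    Continuous (fun p : MvPolynomial (Fin 2) K => coeff m p) :=
  IsModuleTopology.continuous_of_linearMap (MvPolynomial.lcoeff K m)

/-- TARGET: extraction of a curvilinear ideal `{g | X^n ∣ g(f(X), X)}` from the closure. -/
theorem arc_out {ι : Type*} [Finite ι] [T2Space K] (s : K) (hs : s ≠ 0)
    (hs' : Tendsto (fun L : ℕ => s ^ L) atTop (𝓝 0)) (n : ℕ) (hn : 2 ≤ n)
    (g : ι → MvPolynomial (Fin 2) K) (hg : g ∈ closure (Cv ι K n)) (U : Set K) (hU : U ∈ 𝓝 (0 : K)) :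
    ∃ f : Polynomial K, f.coeff 0 = 0 ∧ f.natDegree < n ∧ ∃ g' : ι → MvPolynomial (Fin 2) K,
      (∀ i, (Polynomial.X : Polynomial K) ^ n ∣ aeval ![f, Polynomial.X] (g' i)) ∧
      ∀ i m, coeff m (g' i) - coeff m (g i) ∈ U := by
  classical
  set Cy : Set (ι → MvPolynomial (Fin 2) K) := {h | ∃ f : Polynomial K, f.coeff 0 = 0 ∧
    ∀ i, (PowerSeries.X : PowerSeries K) ^ n ∣ ev (f : PowerSeries K) PowerSeries.X (h i)} with hCy
  have key1 : ∀ (h : ι → MvPolynomial (Fin 2) K) (a b : PowerSeries K),
      PowerSeries.constantCoeff a = 0 → PowerSeries.constantCoeff b = 0 →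
      PowerSeries.coeff 1 b ≠ 0 → (∀ i, (PowerSeries.X : PowerSeries K) ^ n ∣ ev a b (h i)) →
      h ∈ Cy := by
    intro h a b ha hb hb1 hd
    obtain ⟨f, hf0, -, hf⟩ := nf' a b ha hb hb1 n
    exact ⟨f, hf0, fun i => (hf (h i)).1 (hd i)⟩
  have key2 : Cv ι K n ⊆ closure Cy := by
    rintro h ⟨a, b, ⟨ha, hb, hab⟩, hd⟩
    by_cases hb1 : PowerSeries.coeff 1 b = 0
    · have ha1 : PowerSeries.coeff 1 a ≠ 0 := by
        rcases hab with h | h
        · exact h
        · exact absurd hb1 h
      have hmem : ∀ L : ℕ, (fun i => (aeval ![X 0, X 1 - C (s ^ L) * X 0] (h i) :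
          MvPolynomial (Fin 2) K)) ∈ Cy := by
        intro L
        refine key1 _ a (b + PowerSeries.C (s ^ L) * a) ha ?_ ?_ ?_
        · rw [map_add, map_mul, hb, ha]; simp
        · rw [map_add, hb1, PowerSeries.coeff_C_mul, zero_add]
          exact mul_ne_zero (pow_ne_zero L hs) ha1
        · intro i
          rw [ev_bind, ev_X0, map_sub, ev_X1, map_mul, ev_X0]
          have : ev a (b + PowerSeries.C (s ^ L) * a) (C (s ^ L)) = PowerSeries.C (s ^ L) := by
            simp only [ev, algHom_C]
            rfl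
          rw [this, add_sub_cancel_right]
          exact hd i
      refine mem_closure_of_tendsto (b := (atTop : Filter ℕ)) (f := fun L : ℕ => fun i =>
        (aeval ![X 0, X 1 - C (s ^ L) * X 0] (h i) : MvPolynomial (Fin 2) K)) ?_
        (Eventually.of_forall hmem)
      rw [tendsto_pi_nhds]
      intro i
      have h1 := ((arcout_cont (h i)).tendsto 0).comp hs'
      have h2 : (aeval ![X 0, X 1 - C (0 : K) * X 0] (h i) : MvPolynomial (Fin 2) K) = h i := by
        rw [C_0, zero_mul, sub_zero]
        have h3 : (![X 0, X 1] : Fin 2 → MvPolynomial (Fin 2) K) = X := by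
          funext j
          fin_cases j <;> rfl
        rw [h3, aeval_X_left_apply]
      rw [h2] at h1
      exact h1
    · exact subset_closure (key1 h a b ha hb hb1 hd)
  have hg' : g ∈ closure Cy := closure_minimal key2 isClosed_closure hg
  -- the neighbourhood
  have hM : {m : Fin 2 →₀ ℕ | m.degree ≤ n}.Finite := Finsupp.finite_of_degree_le n
  have hV : ∀ᶠ g'' in 𝓝 g, ∀ i, ∀ m ∈ {m : Fin 2 →₀ ℕ | m.degree ≤ n},
      coeff m (g'' i) - coeff m (g i) ∈ U := by
    rw [eventually_all]
    intro i
    rw [eventually_all_finite hM]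
    intro m _
    have hc : Continuous (fun g'' : ι → MvPolynomial (Fin 2) K =>
        coeff m (g'' i) - coeff m (g i)) :=
      ((arcout_coeff_cont m).comp (continuous_apply i)).sub continuous_const
    have ht := hc.tendsto g
    rw [sub_self] at ht
    exact ht hU
  obtain ⟨g'', hg1, hg2⟩ := mem_closure_iff_nhds.1 hg' _ hV
  obtain ⟨f, hf0, hf⟩ := hg2
  -- truncation of `f`
  set q : Polynomial K := Polynomial.X ^ n with hq
  have hqm : q.Monic := Polynomial.monic_X_pow n
  set f0 := f %ₘ q with hf0def
  have hdiv : f0 + q * (f /ₘ q) = f := Polynomial.modByMonic_add_div f q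
  have hf00 : f0.coeff 0 = 0 := by
    have h1 := congrArg (fun p => Polynomial.coeff p 0) hdiv
    simp only [Polynomial.coeff_add, Polynomial.mul_coeff_zero, hf0] at h1
    have h2 : q.coeff 0 = 0 := by
      rw [hq, Polynomial.coeff_X_pow, if_neg (by omega)]
    rw [h2, zero_mul, add_zero] at h1
    exact h1
  have hdeg : f0.natDegree < n := by
    have h1 := Polynomial.natDegree_modByMonic_lt f hqm (by
      intro h1
      have h2 := congrArg Polynomial.natDegree h1
      rw [hq, Polynomial.natDegree_X_pow, Polynomial.natDegree_one] at h2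
      omega)
    rwa [hq, Polynomial.natDegree_X_pow, ← hq] at h1
  have hf' : ∀ i, (PowerSeries.X : PowerSeries K) ^ n ∣
      ev (f0 : PowerSeries K) PowerSeries.X (g'' i) := by
    intro i
    have h1 : (PowerSeries.X : PowerSeries K) ^ n ∣ (f : PowerSeries K) - (f0 : PowerSeries K) := by
      refine ⟨((f /ₘ q : Polynomial K) : PowerSeries K), ?_⟩
      have h2 : (f : PowerSeries K) = (f0 : PowerSeries K) +
          (q : PowerSeries K) * ((f /ₘ q : Polynomial K) : PowerSeries K) := by
        rw [← Polynomial.coe_mul, ← Polynomial.coe_add, hdiv]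
      rw [h2, hq, Polynomial.coe_pow, Polynomial.coe_X]
      ring
    have h3 := arcout_congr _ PowerSeries.X h1 (g'' i)
    exact (dvd_sub_right (hf i)).1 h3
  -- the modified tuple
  set g' : ι → MvPolynomial (Fin 2) K := fun i => g i +
    ∑ m ∈ hM.toFinset, monomial m (coeff m (g'' i) - coeff m (g i)) with hg'def
  have hcoef : ∀ i m, coeff m (g' i) = if m.degree ≤ n then coeff m (g'' i) else coeff m (g i) := by
    intro i m
    simp only [hg'def, coeff_add, coeff_sum, coeff_monomial]
    rw [Finset.sum_ite_eq']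
    simp only [Set.Finite.mem_toFinset, Set.mem_ofPred_eq]
    split_ifs with h
    · ring
    · ring
  refine ⟨f0, hf00, hdeg, g', ?_, ?_⟩
  · intro i
    have h1 : (PowerSeries.X : PowerSeries K) ^ n ∣
        ev (f0 : PowerSeries K) PowerSeries.X (g' i - g'' i) := by
      apply arcout_high n f0 hf00
      intro m hm
      rw [coeff_sub, hcoef, if_pos hm.le, sub_self]
    have h2 : (PowerSeries.X : PowerSeries K) ^ n ∣ ev (f0 : PowerSeries K) PowerSeries.X (g' i) := by
      have h3 := dvd_add h1 (hf' i)
      rwa [← map_add, sub_add_cancel] at h3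
    rw [arcout_coe, PowerSeries.X_pow_dvd_iff] at h2
    rw [Polynomial.X_pow_dvd_iff]
    intro d hd
    have h4 := h2 d hd
    rwa [Polynomial.coeff_coe] at h4
  · intro i m
    rw [hcoef]
    split_ifs with h
    · exact hg1 i m h
    · rw [sub_self]
      exact mem_of_mem_nhds hU

end top

end HilbArc
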