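import Mathlib

set_option autoImplicit false

open Filter Topology

namespace HilbArc

open IsDedekindDomain Polynomial in
/-- the place -/
noncomputable def pl {k : Type*} [Field k] (a : k) : HeightOneSpectrum (Polynomial k) where
  asIdeal := Ideal.span {Polynomial.X - Polynomial.C a}
  isPrime := by
    rw [Ideal.span_singleton_prime (Polynomial.X_sub_C_ne_zero a)]
    exact Polynomial.prime_X_sub_C a
  ne_bot := by
    intro h
    rw [Ideal.span_singleton_eq_bot] at h
    exact Polynomial.X_sub_C_ne_zero a h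

/-- TARGET: the topology of `k(t)` given by the order of vanishing at `t = a`. -/
theorem place_topology {k : Type*} [Field k] (a : k) : ∃ τ : TopologicalSpace (RatFunc k),
    @IsTopologicalRing (RatFunc k) τ _ ∧ @ContinuousInv₀ (RatFunc k) _ _ τ ∧
    @T2Space (RatFunc k) τ ∧
    Tendsto (fun L : ℕ => (RatFunc.X - RatFunc.C a : RatFunc k) ^ L) atTop (@nhds _ τ 0) ∧
    {x : RatFunc k | ∃ p q : Polynomial k, q.eval a ≠ 0 ∧
      x * algebraMap (Polynomial k) (RatFunc k) q =
        algebraMap (Polynomial k) (RatFunc k) ((Polynomial.X - Polynomial.C a) ^ 2 * p)} ∈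
      @nhds _ τ 0 := by
  let V : Valued (RatFunc k) (WithZero (Multiplicative ℤ)) :=
    Valued.mk' ((pl a).valuation (RatFunc k))
  have hv : ∀ x : RatFunc k, Valued.v x = (pl a).valuation (RatFunc k) x := fun x => rfl
  have hX : (RatFunc.X - RatFunc.C a : RatFunc k) =
      algebraMap (Polynomial k) (RatFunc k) (Polynomial.X - Polynomial.C a) := by
    rw [map_sub, RatFunc.algebraMap_X, RatFunc.algebraMap_C]
  have hπne : algebraMap (Polynomial k) (RatFunc k) (Polynomial.X - Polynomial.C a) ≠ 0 := by
    rw [Ne, map_eq_zero_iff _ (RatFunc.algebraMap_injective k)]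
    exact Polynomial.X_sub_C_ne_zero a
  have hlt : (pl a).valuation (RatFunc k)
      (algebraMap (Polynomial k) (RatFunc k) (Polynomial.X - Polynomial.C a)) < 1 := by
    rw [IsDedekindDomain.HeightOneSpectrum.valuation_lt_one_iff_mem]
    exact Ideal.subset_span rfl
  refine ⟨inferInstance, inferInstance, inferInstance, inferInstance, ?_, ?_⟩
  · apply Valued.tendsto_zero_pow_of_v_lt_one
    rw [hv, hX]
    exact hlt
  · rw [Valued.mem_nhds_zero]
    have hne : Valued.v.restrict
        ((algebraMap (Polynomial k) (RatFunc k) (Polynomial.X - Polynomial.C a)) ^ 2) ≠ 0 := by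
      rw [Ne, Valuation.restrict_eq_zero_iff, map_eq_zero]
      exact pow_ne_zero 2 hπne
    refine ⟨Units.mk0 _ hne, ?_⟩
    intro x hx
    rw [Set.mem_ofPred_eq, Units.val_mk0, Valuation.restrict_lt_iff, hv, hv] at hx
    obtain ⟨π, hπ⟩ : ∃ π, π = algebraMap (Polynomial k) (RatFunc k)
      (Polynomial.X - Polynomial.C a) := ⟨_, rfl⟩
    rw [← hπ] at hx hπne
    have h1 : (pl a).valuation (RatFunc k) (x / π ^ 2) ≤ 1 := by
      rw [map_div₀]
      apply div_le_one_of_le₀ hx.le zero_le
    obtain ⟨n, d, hnd⟩ :=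
      IsDedekindDomain.HeightOneSpectrum.exists_primeCompl_mul_eq_of_integer (pl a) _ h1
    refine ⟨n, d, ?_, ?_⟩
    · intro h0
      apply d.2
      show (d : Polynomial k) ∈ Ideal.span {Polynomial.X - Polynomial.C a}
      rw [Ideal.mem_span_singleton, Polynomial.dvd_iff_isRoot]
      exact h0
    · rw [map_mul, map_pow, ← hπ, ← hnd]
      field_simp

end HilbArc
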