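import Mathlib
import Pool.Agent.HilbP1.Defs
import Pool.Agent.HilbP1.G2
import Pool.Agent.HilbP1.G3
import Pool.Agent.HilbP1.H
import Pool.Agent.HilbP1.V

set_option autoImplicit false

section
open Filter Topology MvPolynomial

namespace HilbArc

variable {K : Type*} [Field K]

section top
variable [TopologicalSpace K] [IsTopologicalRing K]

variable [ContinuousInv₀ K] [T2Space K]

end top

end HilbArc

end

namespace MP4403b8

open scoped HilbArc

section aux
open MvPolynomial

/-- shear automorphism `x ↦ x + s y` -/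
noncomputable def shX {K : Type*} [Field K] (s : K) :
    MvPolynomial (Fin 2) K ≃ₐ[K] MvPolynomial (Fin 2) K :=
  AlgEquiv.ofAlgHom (aeval ![X 0 + C s * X 1, X 1]) (aeval ![X 0 - C s * X 1, X 1])
    (by
      ext i : 1
      fin_cases i <;> simp [MvPolynomial.algebraMap_eq])
    (by
      ext i : 1
      fin_cases i <;> simp)

/-- shear automorphism `y ↦ y + s x` -/
noncomputable def shY {K : Type*} [Field K] (s : K) :
    MvPolynomial (Fin 2) K ≃ₐ[K] MvPolynomial (Fin 2) K :=
  AlgEquiv.ofAlgHom (aeval ![X 0, X 1 + C s * X 0]) (aeval ![X 0, X 1 - C s * X 0])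
    (by
      ext i : 1
      fin_cases i <;> simp)
    (by
      ext i : 1
      fin_cases i <;> simp)

lemma shX_symm {K : Type*} [Field K] (s : K) (p : MvPolynomial (Fin 2) K) :
    (shX s).symm p = aeval ![X 0 - C s * X 1, X 1] p := rfl

lemma shY_symm {K : Type*} [Field K] (s : K) (p : MvPolynomial (Fin 2) K) :
    (shY s).symm p = aeval ![X 0, X 1 - C s * X 0] p := rfl

lemma ev_C' {K : Type*} [Field K] (a b : PowerSeries K) (s : K) :
    HilbArc.ev a b (C s) = PowerSeries.C s := by
  simp [HilbArc.ev]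

lemma shX_br {K : Type*} [Field K] (s : K) (a b : PowerSeries K) (hab : HilbArc.IsBr a b) :
    HilbArc.IsBr (HilbArc.ev a b ((shX s).symm (X 0))) (HilbArc.ev a b ((shX s).symm (X 1))) := by
  obtain ⟨h1, h2, h3⟩ := hab
  rw [shX_symm, shX_symm]
  simp only [aeval_X, Matrix.cons_val_zero, Matrix.cons_val_one, map_sub, map_mul, HilbArc.ev_X0,
    HilbArc.ev_X1, ev_C', HilbArc.IsBr, h1, h2]
  refine ⟨by simp, trivial, ?_⟩
  rw [PowerSeries.coeff_C_mul]
  by_contra hcon
  push Not at hcon
  obtain ⟨hc1, hc2⟩ := hcon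
  rw [hc2] at hc1
  rcases h3 with h3 | h3
  · apply h3
    simpa using hc1
  · exact h3 hc2

lemma shY_br {K : Type*} [Field K] (s : K) (a b : PowerSeries K) (hab : HilbArc.IsBr a b) :
    HilbArc.IsBr (HilbArc.ev a b ((shY s).symm (X 0))) (HilbArc.ev a b ((shY s).symm (X 1))) := by
  obtain ⟨h1, h2, h3⟩ := hab
  rw [shY_symm, shY_symm]
  simp only [aeval_X, Matrix.cons_val_zero, Matrix.cons_val_one, map_sub, map_mul, HilbArc.ev_X0,
    HilbArc.ev_X1, ev_C', HilbArc.IsBr, h1, h2]
  refine ⟨trivial, by simp, ?_⟩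
  rw [PowerSeries.coeff_C_mul]
  by_contra hcon
  push Not at hcon
  obtain ⟨hc1, hc2⟩ := hcon
  rw [hc1] at hc2
  rcases h3 with h3 | h3
  · exact h3 hc1
  · apply h3
    simpa using hc2

lemma mono_eq (a b : ℕ) : (X 0 ^ a * X 1 ^ b : MvPolynomial (Fin 2) ℂ) =
    monomial (Finsupp.single 0 a + Finsupp.single 1 b) 1 := by
  rw [X_pow_eq_monomial, X_pow_eq_monomial, monomial_mul, one_mul]

lemma coeff_one_pow {R : Type*} [CommRing R] (a b : R) (v : ℕ) :
    ((Polynomial.C a + Polynomial.X * Polynomial.C b) ^ v : Polynomial R).coeff 1 =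
      (v : R) * a ^ (v - 1) * b := by
  have h1 := Polynomial.coeff_derivative ((Polynomial.C a + Polynomial.X *
    Polynomial.C b) ^ v : Polynomial R) 0
  have h2 : (Polynomial.derivative ((Polynomial.C a + Polynomial.X *
    Polynomial.C b) ^ v : Polynomial R)).coeff 0 = (v : R) * a ^ (v - 1) * b := by
    rw [Polynomial.coeff_zero_eq_eval_zero, Polynomial.derivative_pow]
    simp
  rw [h2] at h1
  simp only [zero_add, Nat.cast_zero, mul_one] at h1
  rw [← h1]

lemma natCast_mul_mono_support (v a b : ℕ) (hv : v ≠ 0) :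
    (Finsupp.single 0 a + Finsupp.single 1 b : Fin 2 →₀ ℕ) ∈
      ((v : MvPolynomial (Fin 2) ℂ) * (X 0 ^ a * X 1 ^ b)).support := by
  rw [mono_eq, mem_support_iff, ← map_natCast (C : ℂ →+* MvPolynomial (Fin 2) ℂ), coeff_C_mul,
    coeff_monomial]
  simpa using hv

/-- Case X -/
lemma case_X (n : ℕ) (hn : 2 ≤ n) (h : ℕ → ℕ) (hh : Antitone h) (N : ℕ) (hN : h N = 0)
    (hsum : ∑ a ∈ Finset.range N, h a = n) (v : ℕ) (hv1 : 1 ≤ v) (hvN : v ≤ N)
    (hv : h v + 2 ≤ h (v - 1)) :
    ∃ (m : ℕ) (H : Fin m → Polynomial (MvPolynomial (Fin 2) ℂ)),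
      (Ideal.span (Set.range (fun i => (H i).coeff 0)) = Ideal.span (Set.range
        (fun v : Fin (N + 1) => (MvPolynomial.X 0 ^ (v : ℕ) * MvPolynomial.X 1 ^ (h v) :
          MvPolynomial (Fin 2) ℂ)))) ∧
      (∃ i, ∃ m' ∈ ((H i).coeff 1).support, m' 1 < h (m' 0)) ∧
      ∀ (K : Type) [Field K] [Algebra ℂ K] [TopologicalSpace K] [IsTopologicalRing K]
        [ContinuousInv₀ K] [T2Space K] (s : K), s ≠ 0 →
        Filter.Tendsto (fun L : ℕ => s ^ L) Filter.atTop (nhds 0) →
        (fun i => ((H i).map (MvPolynomial.map (algebraMap ℂ K))).eval (MvPolynomial.C s)) ∈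
          closure (HilbArc.Cv (Fin m) K n) := by
  refine ⟨N + 1, fun v => (Polynomial.C (X 0) + Polynomial.X * Polynomial.C (X 1)) ^ (v : ℕ) *
    (Polynomial.C (X 1)) ^ (h v), ?_, ?_, ?_⟩
  · congr 2
    funext i
    rw [Polynomial.coeff_zero_eq_eval_zero]
    simp
  · refine ⟨⟨v, by omega⟩, Finsupp.single 0 (v - 1) + Finsupp.single 1 (h v + 1), ?_, ?_⟩
    · have hc : ((Polynomial.C (X 0) + Polynomial.X * Polynomial.C (X 1)) ^ v *
          (Polynomial.C (X 1)) ^ (h v) : Polynomial (MvPolynomial (Fin 2) ℂ)).coeff 1 =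
          (v : MvPolynomial (Fin 2) ℂ) * (X 0 ^ (v - 1) * X 1 ^ (h v + 1)) := by
        rw [← Polynomial.C_pow, Polynomial.coeff_mul_C, coeff_one_pow]
        ring
      simp only
      rw [hc]
      exact natCast_mul_mono_support _ _ _ (by omega)
    · simp only [Finsupp.coe_add, Pi.add_apply, Finsupp.single_eq_same]
      rw [Finsupp.single_eq_of_ne (by decide), Finsupp.single_eq_of_ne (by decide)]
      simp only [zero_add, add_zero]
      omega
  · intro K _ _ _ _ _ _ s hs hs'
    have : CharZero K := charZero_of_injective_algebraMap (algebraMap ℂ K).injective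
    apply HilbArc.closure_aut (shX s) (shX_br s)
    convert HilbArc.stepR s hs hs' h hh N hN n hsum (by omega) using 2
    rename_i i
    rw [shX_symm]
    simp only [Polynomial.map_mul, Polynomial.map_pow, Polynomial.map_add, Polynomial.map_C,
      Polynomial.map_X, MvPolynomial.map_X, Polynomial.eval_mul, Polynomial.eval_pow,
      Polynomial.eval_add, Polynomial.eval_C, Polynomial.eval_X, map_mul, map_pow, map_add,
      aeval_X, Matrix.cons_val_zero, Matrix.cons_val_one, aeval_C, MvPolynomial.algebraMap_eq]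
    congr 2
    ring

/-- Case Y -/
lemma case_Y (n : ℕ) (hn : 2 ≤ n) (h : ℕ → ℕ) (hh : Antitone h) (N : ℕ) (hN : h N = 0)
    (hsum : ∑ a ∈ Finset.range N, h a = n) (v : ℕ) (hvN : v ≤ N) (hv0 : 1 ≤ h v)
    (hv : h (v + 1) = h v) :
    ∃ (m : ℕ) (H : Fin m → Polynomial (MvPolynomial (Fin 2) ℂ)),
      (Ideal.span (Set.range (fun i => (H i).coeff 0)) = Ideal.span (Set.range
        (fun v : Fin (N + 1) => (MvPolynomial.X 0 ^ (v : ℕ) * MvPolynomial.X 1 ^ (h v) :
          MvPolynomial (Fin 2) ℂ)))) ∧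
      (∃ i, ∃ m' ∈ ((H i).coeff 1).support, m' 1 < h (m' 0)) ∧
      ∀ (K : Type) [Field K] [Algebra ℂ K] [TopologicalSpace K] [IsTopologicalRing K]
        [ContinuousInv₀ K] [T2Space K] (s : K), s ≠ 0 →
        Filter.Tendsto (fun L : ℕ => s ^ L) Filter.atTop (nhds 0) →
        (fun i => ((H i).map (MvPolynomial.map (algebraMap ℂ K))).eval (MvPolynomial.C s)) ∈
          closure (HilbArc.Cv (Fin m) K n) := by
  refine ⟨N + 1, fun v => (Polynomial.C (X 0)) ^ (v : ℕ) *
    (Polynomial.C (X 1) + Polynomial.X * Polynomial.C (X 0)) ^ (h v), ?_, ?_, ?_⟩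
  · congr 2
    funext i
    rw [Polynomial.coeff_zero_eq_eval_zero]
    simp
  · refine ⟨⟨v, by omega⟩, Finsupp.single 0 (v + 1) + Finsupp.single 1 (h v - 1), ?_, ?_⟩
    · have hc : ((Polynomial.C (X 0)) ^ v *
          (Polynomial.C (X 1) + Polynomial.X * Polynomial.C (X 0)) ^ (h v) :
            Polynomial (MvPolynomial (Fin 2) ℂ)).coeff 1 =
          (h v : MvPolynomial (Fin 2) ℂ) * (X 0 ^ (v + 1) * X 1 ^ (h v - 1)) := by
        rw [← Polynomial.C_pow, Polynomial.coeff_C_mul, coeff_one_pow]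
        ring
      simp only
      rw [hc]
      exact natCast_mul_mono_support _ _ _ (by omega)
    · simp only [Finsupp.coe_add, Pi.add_apply, Finsupp.single_eq_same]
      rw [Finsupp.single_eq_of_ne (by decide), Finsupp.single_eq_of_ne (by decide)]
      simp only [zero_add, add_zero]
      omega
  · intro K _ _ _ _ _ _ s hs hs'
    have : CharZero K := charZero_of_injective_algebraMap (algebraMap ℂ K).injective
    apply HilbArc.closure_aut (shY s) (shY_br s)
    convert HilbArc.stepR s hs hs' h hh N hN n hsum (by omega) using 2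
    rename_i i
    rw [shY_symm]
    simp only [Polynomial.map_mul, Polynomial.map_pow, Polynomial.map_add, Polynomial.map_C,
      Polynomial.map_X, MvPolynomial.map_X, Polynomial.eval_mul, Polynomial.eval_pow,
      Polynomial.eval_add, Polynomial.eval_C, Polynomial.eval_X, map_mul, map_pow, map_add,
      aeval_X, Matrix.cons_val_zero, Matrix.cons_val_one, aeval_C, MvPolynomial.algebraMap_eq]
    congr 2
    ring

/-- Case Z -/
lemma case_Z (n : ℕ) (hn : 2 ≤ n) (h : ℕ → ℕ) (hh : Antitone h) (N : ℕ) (hN : h N = 0)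
    (hsum : ∑ a ∈ Finset.range N, h a = n)
    (hX : ∀ v, 1 ≤ v → v ≤ N → h (v - 1) ≤ h v + 1)
    (hY : ∀ v, v ≤ N → 1 ≤ h v → h (v + 1) ≠ h v) :
    ∃ (m : ℕ) (H : Fin m → Polynomial (MvPolynomial (Fin 2) ℂ)),
      (Ideal.span (Set.range (fun i => (H i).coeff 0)) = Ideal.span (Set.range
        (fun v : Fin (N + 1) => (MvPolynomial.X 0 ^ (v : ℕ) * MvPolynomial.X 1 ^ (h v) :
          MvPolynomial (Fin 2) ℂ)))) ∧
      (∃ i, ∃ m' ∈ ((H i).coeff 1).support, m' 1 < h (m' 0)) ∧
      ∀ (K : Type) [Field K] [Algebra ℂ K] [TopologicalSpace K] [IsTopologicalRing K]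
        [ContinuousInv₀ K] [T2Space K] (s : K), s ≠ 0 →
        Filter.Tendsto (fun L : ℕ => s ^ L) Filter.atTop (nhds 0) →
        (fun i => ((H i).map (MvPolynomial.map (algebraMap ℂ K))).eval (MvPolynomial.C s)) ∈
          closure (HilbArc.Cv (Fin m) K n) := by
  obtain ⟨k, hk⟩ : ∃ k, h 0 = k := ⟨_, rfl⟩
  have hform : ∀ v, h v = k - v := by
    intro v
    induction v with
    | zero => simpa using hk
    | succ v ih =>
      by_cases h0 : h v = 0
      · have := hh (Nat.le_succ v)
        simp only [Nat.succ_eq_add_one] at this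
        omega
      · have hvN : v < N := by
          by_contra hc
          have := hh (not_lt.mp hc)
          omega
        have h1 := hX (v + 1) (by omega) (by omega)
        have h2 := hY v hvN.le (by omega)
        have h3 := hh (Nat.le_succ v)
        simp only [Nat.succ_eq_add_one, Nat.add_sub_cancel] at *
        omega
  have hkN : k ≤ N := by
    have := hform N
    omega
  have hn2 : 2 * n = k * (k + 1) := by
    rw [← hsum]
    have e1 : ∑ a ∈ Finset.range N, h a = ∑ a ∈ Finset.range (k + 1), h a := by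
      by_cases hc : k + 1 ≤ N
      · symm
        apply Finset.sum_subset
        · intro x hx
          simp only [Finset.mem_range] at *
          omega
        · intro x _ hx
          simp only [Finset.mem_range] at hx
          rw [hform]
          omega
      · have : N = k := by omega
        rw [this, Finset.sum_range_succ, hform k]
        simp
    rw [e1]
    have e2 : ∑ a ∈ Finset.range (k + 1), h a = ∑ a ∈ Finset.range (k + 1), a := by
      rw [← Finset.sum_range_reflect]
      apply Finset.sum_congr rfl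
      intro x hx
      simp only [Finset.mem_range] at hx
      rw [hform]
      omega
    rw [e2, mul_comm 2, Finset.sum_range_id_mul_two]
    simp [mul_comm]
  have hk2 : 2 ≤ k := by
    by_contra hc
    have : k = 0 ∨ k = 1 := by omega
    rcases this with rfl | rfl <;> omega
  refine ⟨k + 1, fun j => if (j : ℕ) < k then Polynomial.C (X 0 ^ (k - (j : ℕ)) * X 1 ^ (j : ℕ))
    else Polynomial.C (X 1 ^ k) - Polynomial.X * Polynomial.C (X 0 * X 1 ^ (k - 2)), ?_, ?_, ?_⟩
  · have hc0 : ∀ j : Fin (k + 1), (if (j : ℕ) < k then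
        Polynomial.C (X 0 ^ (k - (j : ℕ)) * X 1 ^ (j : ℕ)) else
        Polynomial.C (X 1 ^ k) - Polynomial.X * Polynomial.C (X 0 * X 1 ^ (k - 2)) :
          Polynomial (MvPolynomial (Fin 2) ℂ)).coeff 0 = X 0 ^ (k - (j : ℕ)) * X 1 ^ (j : ℕ) := by
      intro j
      split_ifs with hj
      · rw [Polynomial.coeff_C_zero]
      · have : (j : ℕ) = k := by omega
        rw [this, Polynomial.coeff_sub, Polynomial.coeff_C_zero, Polynomial.coeff_X_mul_zero]
        simp
    simp only [hc0]
    apply le_antisymm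
    · rw [Ideal.span_le]
      rintro _ ⟨j, rfl⟩
      apply Ideal.subset_span
      refine ⟨⟨k - j, by omega⟩, ?_⟩
      simp only [hform]
      congr 2
      omega
    · rw [Ideal.span_le]
      rintro _ ⟨v, rfl⟩
      simp only [hform, SetLike.mem_coe]
      by_cases hv : (v : ℕ) ≤ k
      · apply Ideal.subset_span
        refine ⟨⟨k - v, by omega⟩, ?_⟩
        simp only
        congr 2
        omega
      · have e1 : (X 0 ^ (v : ℕ) * X 1 ^ (k - (v : ℕ)) : MvPolynomial (Fin 2) ℂ) =
            X 0 ^ ((v : ℕ) - k) * (X 0 ^ k * X 1 ^ 0) := by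
          rw [show k - (v : ℕ) = 0 by omega, ← mul_assoc, ← pow_add]
          congr 2
          omega
        rw [e1]
        apply Ideal.mul_mem_left
        apply Ideal.subset_span
        exact ⟨⟨0, by omega⟩, by simp⟩
  · refine ⟨⟨k, by omega⟩, Finsupp.single 0 1 + Finsupp.single 1 (k - 2), ?_, ?_⟩
    · simp only [lt_irrefl, if_false]
      have e0 : (Polynomial.C (X 1 ^ k) - Polynomial.X * Polynomial.C (X 0 * X 1 ^ (k - 2)) :
          Polynomial (MvPolynomial (Fin 2) ℂ)).coeff 1 = - (X 0 * X 1 ^ (k - 2)) := by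
        rw [Polynomial.coeff_sub, Polynomial.coeff_C, if_neg one_ne_zero,
          Polynomial.coeff_X_mul (n := 0), Polynomial.coeff_C_zero, zero_sub]
      rw [e0]
      have := mono_eq 1 (k - 2)
      rw [pow_one] at this
      rw [this, mem_support_iff, coeff_neg, coeff_monomial]
      simp
    · simp only [Finsupp.coe_add, Pi.add_apply, Finsupp.single_eq_same]
      rw [Finsupp.single_eq_of_ne (by decide), Finsupp.single_eq_of_ne (by decide), hform]
      simp only [zero_add, add_zero]
      omega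
  · intro K _ _ _ _ _ _ s hs hs'
    have : CharZero K := charZero_of_injective_algebraMap (algebraMap ℂ K).injective
    convert HilbArc.stepTri s hs hs' k hk2 n hn2 using 2
    rename_i j
    beta_reduce
    by_cases hj : (j : ℕ) < k
    · rw [if_pos hj, if_pos hj]
      rw [Polynomial.map_C, Polynomial.eval_C, map_mul, map_pow, map_pow, MvPolynomial.map_X,
        MvPolynomial.map_X]
    · rw [if_neg hj, if_neg hj]
      rw [Polynomial.map_sub, Polynomial.map_mul, Polynomial.map_X, Polynomial.map_C,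
        Polynomial.map_C, Polynomial.eval_sub, Polynomial.eval_mul, Polynomial.eval_X,
        Polynomial.eval_C, Polynomial.eval_C, map_mul, map_pow, map_pow, MvPolynomial.map_X,
        MvPolynomial.map_X]
      ring

end aux

/-- TARGET 1: the tuple `Γ_s` in the closure of the curvilinear tuples. `G0`, `G1` are the first
order part of a tuple `H(s)` polynomial in the parameter `s`. -/
theorem exists_tuple (n : ℕ) (hn : 2 ≤ n) (h : ℕ → ℕ) (hh : Antitone h) (N : ℕ) (hN : h N = 0)
    (hsum : ∑ a ∈ Finset.range N, h a = n) :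
    ∃ (m : ℕ) (H : Fin m → Polynomial (MvPolynomial (Fin 2) ℂ)),
      (Ideal.span (Set.range (fun i => (H i).coeff 0)) = Ideal.span (Set.range
        (fun v : Fin (N + 1) => (MvPolynomial.X 0 ^ (v : ℕ) * MvPolynomial.X 1 ^ (h v) :
          MvPolynomial (Fin 2) ℂ)))) ∧
      (∃ i, ∃ m' ∈ ((H i).coeff 1).support, m' 1 < h (m' 0)) ∧
      ∀ (K : Type) [Field K] [Algebra ℂ K] [TopologicalSpace K] [IsTopologicalRing K]
        [ContinuousInv₀ K] [T2Space K] (s : K), s ≠ 0 →
        Filter.Tendsto (fun L : ℕ => s ^ L) Filter.atTop (nhds 0) →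
        (fun i => ((H i).map (MvPolynomial.map (algebraMap ℂ K))).eval (MvPolynomial.C s)) ∈
          closure (HilbArc.Cv (Fin m) K n) := by
  by_cases hX : ∃ v, 1 ≤ v ∧ v ≤ N ∧ h v + 2 ≤ h (v - 1)
  · obtain ⟨v, h1, h2, h3⟩ := hX
    exact case_X n hn h hh N hN hsum v h1 h2 h3
  by_cases hY : ∃ v, v ≤ N ∧ 1 ≤ h v ∧ h (v + 1) = h v
  · obtain ⟨v, h1, h2, h3⟩ := hY
    exact case_Y n hn h hh N hN hsum v h1 h2 h3
  push Not at hX hY
  exact case_Z n hn h hh N hN hsum (fun v h1 h2 => by have := hX v h1 h2; omega) hY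

end MP4403b8
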