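import Mathlib
import Pool.Agent.HilbP1.A1a

set_option autoImplicit false

section
open Filter Topology MvPolynomial

namespace HilbArc

variable {K : Type*} [Field K]

section top
variable [TopologicalSpace K] [IsTopologicalRing K]

variable [ContinuousInv₀ K] [T2Space K]

end top

end HilbArc

end

namespace MP4403b8

open scoped HilbArc

lemma ev_coeff (b : Polynomial ℂ) (H : Polynomial (MvPolynomial (Fin 2) ℂ)) (m' : Fin 2 →₀ ℕ) :
    ∃ r : Polynomial ℂ, MvPolynomial.coeff m'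
      ((H.map (MvPolynomial.map (algebraMap ℂ (RatFunc ℂ)))).eval (MvPolynomial.C (j0 b))) =
        j0 r := by
  refine ⟨MvPolynomial.coeff m' (H.eval₂ (MvPolynomial.map Polynomial.C) (MvPolynomial.C b)), ?_⟩
  rw [← MvPolynomial.coeff_map, Polynomial.eval_map]
  congr 1
  rw [Polynomial.hom_eval₂, MvPolynomial.map_C]
  congr 1
  apply MvPolynomial.ringHom_ext
  · intro c
    simp only [MvPolynomial.map_C, RingHom.comp_apply]
    rfl
  · intro c
    simp only [MvPolynomial.map_X, RingHom.comp_apply]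

lemma ev_coeff2 (b : Polynomial ℂ) (H : Polynomial (MvPolynomial (Fin 2) ℂ)) (m' : Fin 2 →₀ ℕ) :
    ∃ r : Polynomial ℂ, MvPolynomial.coeff m'
      ((H.map (MvPolynomial.map (algebraMap ℂ (RatFunc ℂ)))).eval (MvPolynomial.C (j0 b))) =
        j0 (Polynomial.C (MvPolynomial.coeff m' (H.coeff 0)) +
          b * Polynomial.C (MvPolynomial.coeff m' (H.coeff 1)) + b ^ 2 * r) := by
  obtain ⟨r, hr⟩ := ev_coeff b H.divX.divX m'
  refine ⟨r, ?_⟩
  have hH : H = Polynomial.C (H.coeff 0) +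
      Polynomial.X * (Polynomial.C (H.coeff 1) + Polynomial.X * H.divX.divX) := by
    conv_lhs => rw [← Polynomial.divX_mul_X_add H]
    have h1 : H.divX = Polynomial.C (H.coeff 1) + Polynomial.X * H.divX.divX := by
      conv_lhs => rw [← Polynomial.divX_mul_X_add H.divX]
      rw [Polynomial.coeff_divX]
      ring
    rw [← h1]
    ring
  have e : (H.map (MvPolynomial.map (algebraMap ℂ (RatFunc ℂ)))).eval (MvPolynomial.C (j0 b)) =
      MvPolynomial.map (algebraMap ℂ (RatFunc ℂ)) (H.coeff 0) +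
      MvPolynomial.C (j0 b) * MvPolynomial.map (algebraMap ℂ (RatFunc ℂ)) (H.coeff 1) +
      MvPolynomial.C (j0 (b ^ 2)) *
        (H.divX.divX.map (MvPolynomial.map (algebraMap ℂ (RatFunc ℂ)))).eval
          (MvPolynomial.C (j0 b)) := by
    conv_lhs => rw [hH]
    simp only [Polynomial.map_add, Polynomial.map_mul, Polynomial.map_C, Polynomial.map_X,
      Polynomial.eval_add, Polynomial.eval_mul, Polynomial.eval_C, Polynomial.eval_X, map_pow]
    ring
  have hc : ∀ c : ℂ, algebraMap ℂ (RatFunc ℂ) c = j0 (Polynomial.C c) := fun c => rfl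
  rw [e, MvPolynomial.coeff_add, MvPolynomial.coeff_add, MvPolynomial.coeff_C_mul,
    MvPolynomial.coeff_C_mul, MvPolynomial.coeff_map, MvPolynomial.coeff_map, hr, hc, hc]
  simp only [map_add, map_mul]

/-- TARGET -/
theorem arcs (n : ℕ) (hn : 2 ≤ n) (h : ℕ → ℕ) (hh : Antitone h) (N : ℕ) (hN : h N = 0)
    (hsum : ∑ a ∈ Finset.range N, h a = n) :
    ∃ (m : ℕ) (G0 G1 : Fin m → MvPolynomial (Fin 2) ℂ),
      (Ideal.span (Set.range G0) = Ideal.span (Set.range
        (fun v : Fin (N + 1) => (MvPolynomial.X 0 ^ (v : ℕ) * MvPolynomial.X 1 ^ (h v) :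
          MvPolynomial (Fin 2) ℂ)))) ∧
      (∃ i, ∃ m' ∈ (G1 i).support, m' 1 < h (m' 0)) ∧
      ∀ a : ℂ, Arc n a G0 G1 := by
  obtain ⟨m, H, h1, h2, h3⟩ := exists_tuple n hn h hh N hN hsum
  refine ⟨m, fun i => (H i).coeff 0, fun i => (H i).coeff 1, h1, h2, fun a => ?_⟩
  obtain ⟨τ, t1, t2, t3, t4, t5⟩ := HilbArc.place_topology a
  letI := τ
  have := t1
  have := t2
  have := t3
  have hsj : (RatFunc.X - RatFunc.C a : RatFunc ℂ) = j0 (Polynomial.X - Polynomial.C a) := by
    rw [map_sub]; rfl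
  have hinj : Function.Injective j0 := IsFractionRing.injective (Polynomial ℂ) (RatFunc ℂ)
  have hs : (RatFunc.X - RatFunc.C a : RatFunc ℂ) ≠ 0 := by
    rw [hsj]
    intro h0
    exact Polynomial.X_sub_C_ne_zero a (hinj (by rw [h0, map_zero]))
  have h4 := h3 (RatFunc ℂ) (RatFunc.X - RatFunc.C a) hs t4
  obtain ⟨f, hf0, hfn, g', hg1, hg2⟩ := HilbArc.arc_out (RatFunc.X - RatFunc.C a) hs t4 n hn _ h4
    _ t5
  refine ⟨f, hf0, hfn, g', fun i => (mem_JJ n f _).2 (hg1 i), fun i m' => ?_⟩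
  obtain ⟨p, q, hq, hpq⟩ := hg2 i m'
  obtain ⟨r, hr⟩ := ev_coeff2 (Polynomial.X - Polynomial.C a) (H i) m'
  refine ⟨p + r * q, q, hq, ?_⟩
  rw [hsj, hr] at hpq
  have hpq' : (MvPolynomial.coeff m' (g' i) - j0 (Polynomial.C (MvPolynomial.coeff m' ((H i).coeff 0)) +
          (Polynomial.X - Polynomial.C a) * Polynomial.C (MvPolynomial.coeff m' ((H i).coeff 1)) +
          (Polynomial.X - Polynomial.C a) ^ 2 * r)) * j0 q =
        j0 ((Polynomial.X - Polynomial.C a) ^ 2 * p) := hpq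
  have e1 : j0 (Polynomial.C (MvPolynomial.coeff m' ((H i).coeff 0)) +
          (Polynomial.X - Polynomial.C a) * Polynomial.C (MvPolynomial.coeff m' ((H i).coeff 1)) +
          (Polynomial.X - Polynomial.C a) ^ 2 * r) =
      j0 (Polynomial.C (MvPolynomial.coeff m' ((H i).coeff 0)) +
          (Polynomial.X - Polynomial.C a) * Polynomial.C (MvPolynomial.coeff m' ((H i).coeff 1))) +
      j0 ((Polynomial.X - Polynomial.C a) ^ 2 * r) := map_add _ _ _
  rw [e1] at hpq'
  have e2 : j0 ((Polynomial.X - Polynomial.C a) ^ 2 * (p + r * q)) =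
      j0 ((Polynomial.X - Polynomial.C a) ^ 2 * p) +
        j0 ((Polynomial.X - Polynomial.C a) ^ 2 * r) * j0 q := by
    rw [← map_mul, ← map_add]; congr 1; ring
  rw [e2, ← hpq']
  ring

end MP4403b8
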