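import Mathlib
import Pool.Agent.HilbP1.Defs

set_option autoImplicit false

namespace MP4403b8

/-- exchange of the two variables -/
noncomputable def sw {A : Type*} [CommRing A] (I : Ideal (MvPolynomial (Fin 2) A)) :
    Ideal (MvPolynomial (Fin 2) A) :=
  I.map (MvPolynomial.rename (Equiv.swap (0 : Fin 2) 1) :
    MvPolynomial (Fin 2) A →ₐ[A] MvPolynomial (Fin 2) A).toRingHom

theorem sw_comp {A : Type*} [CommRing A] :
    ((MvPolynomial.rename (Equiv.swap (0 : Fin 2) 1) :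
      MvPolynomial (Fin 2) A →ₐ[A] MvPolynomial (Fin 2) A).toRingHom).comp
    ((MvPolynomial.rename (Equiv.swap (0 : Fin 2) 1) :
      MvPolynomial (Fin 2) A →ₐ[A] MvPolynomial (Fin 2) A).toRingHom) = RingHom.id _ := by
  apply RingHom.ext
  intro p
  show MvPolynomial.rename (Equiv.swap (0 : Fin 2) 1)
    (MvPolynomial.rename (Equiv.swap (0 : Fin 2) 1) p) = p
  rw [MvPolynomial.rename_rename]
  have : (⇑(Equiv.swap (0 : Fin 2) 1) ∘ ⇑(Equiv.swap (0 : Fin 2) 1)) = id := by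
    funext x; simp
  rw [this, MvPolynomial.rename_id]
  rfl

/-- TARGET 1 -/
theorem sw_sw {A : Type*} [CommRing A] (I : Ideal (MvPolynomial (Fin 2) A)) : sw (sw I) = I := by
  unfold sw
  rw [Ideal.map_map, sw_comp, Ideal.map_id]

/-- TARGET 2 -/
theorem sw_hilb {A : Type*} [CommRing A] (n : ℕ) (I : Ideal (MvPolynomial (Fin 2) A))
    (hI : IsHilbPoint n A I) : IsHilbPoint n A (sw I) := by
  obtain ⟨h1, h2, h3⟩ := hI
  have e : (MvPolynomial (Fin 2) A ⧸ I) ≃ₐ[A] (MvPolynomial (Fin 2) A ⧸ sw I) :=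
    Ideal.quotientEquivAlg I (sw I) (MvPolynomial.renameEquiv A (Equiv.swap (0 : Fin 2) 1)) rfl
  refine ⟨Module.Finite.equiv e.toLinearEquiv, Module.Free.of_equiv e.toLinearEquiv, ?_⟩
  rw [← h3]
  exact e.toLinearEquiv.finrank_eq.symm

/-- TARGET 3 -/
theorem sw_monomial (I : Ideal (MvPolynomial (Fin 2) ℂ)) (hI : IsMonomialIdeal I) :
    IsMonomialIdeal (sw I) := by
  obtain ⟨S, rfl⟩ := hI
  refine ⟨(Finsupp.mapDomain (Equiv.swap (0 : Fin 2) 1)) '' S, ?_⟩
  unfold sw
  rw [Ideal.map_span]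
  congr 1
  rw [Set.image_image, Set.image_image]
  apply Set.image_congr
  intro m _
  exact MvPolynomial.rename_monomial _ _ _

theorem baseChange_sw {A B : Type*} [CommRing A] [CommRing B] (f : A →+* B)
    (I : Ideal (MvPolynomial (Fin 2) A)) : baseChange f (sw I) = sw (baseChange f I) := by
  unfold baseChange sw
  rw [Ideal.map_map, Ideal.map_map]
  congr 1
  apply RingHom.ext
  intro p
  exact MvPolynomial.map_rename f (Equiv.swap (0 : Fin 2) 1) p

theorem fib_sw (a : ℂ) (I : Ideal (MvPolynomial (Fin 2) (Polynomial ℂ))) :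
    fib a (sw I) = sw (fib a I) := baseChange_sw _ _

theorem diffZero_sw {a : ℂ} {I : Ideal (MvPolynomial (Fin 2) (Polynomial ℂ))}
    (h : DiffZero a (sw I)) : DiffZero a I := by
  unfold DiffZero at h ⊢
  rw [fib_sw, baseChange_sw, baseChange_sw] at h
  have := congrArg sw h
  rwa [sw_sw, sw_sw] at this

/-- TARGET 4 (the family `sw I₀, sw I₁`; `sw` commutes with `baseChange`) -/
theorem Joined.sw {n : ℕ} {I J : Ideal (MvPolynomial (Fin 2) ℂ)} (h : Joined n I J) :
    Joined n (MP4403b8.sw I) (MP4403b8.sw J) := by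
  obtain ⟨F, hF, ⟨x, hx⟩, ⟨y, hy⟩⟩ := h
  let F' : P1Family n :=
    { I₀ := MP4403b8.sw F.I₀
      I₁ := MP4403b8.sw F.I₁
      hilb₀ := sw_hilb n _ F.hilb₀
      hilb₁ := sw_hilb n _ F.hilb₁
      glue := by rw [baseChange_sw, baseChange_sw, F.glue] }
  have hval : ∀ p, F'.value p = MP4403b8.sw (F.value p) := by
    intro p
    cases p with
    | infty => exact fib_sw 0 F.I₁
    | coe a => exact fib_sw a F.I₀
  refine ⟨F', ⟨?_, ?_, ?_⟩, ⟨x, ?_⟩, ⟨y, ?_⟩⟩
  · intro p q hpq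
    rw [hval, hval] at hpq
    have := congrArg MP4403b8.sw hpq
    rw [sw_sw, sw_sw] at this
    exact hF.injective this
  · intro a ha
    exact hF.immersive a (diffZero_sw ha)
  · intro ha
    exact hF.immersive_infty (diffZero_sw ha)
  · rw [hval, hx]
  · rw [hval, hy]

/-- TARGET 5 -/
theorem Joined.symm {n : ℕ} {I J : Ideal (MvPolynomial (Fin 2) ℂ)} (h : Joined n I J) :
    Joined n J I := by
  obtain ⟨F, hF, hI, hJ⟩ := h
  exact ⟨F, hF, hJ, hI⟩

end MP4403b8
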