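import Mathlib
import Pool.Agent.HilbP1.Defs

set_option autoImplicit false

namespace MP4403b8

theorem glue_clear {Λ : Type*} [CommRing Λ] (τ : Polynomial ℂ →+* Λ)
    (hdom : ∀ l : Λ, ∃ (m : ℕ) (p : Polynomial ℂ), l * (τ Polynomial.X) ^ m = τ p)
    (w : MvPolynomial (Fin 2) Λ) :
    ∃ (m : ℕ) (g : MvPolynomial (Fin 2) (Polynomial ℂ)),
      w * MvPolynomial.C ((τ Polynomial.X) ^ m) = MvPolynomial.map τ g := by
  induction w using MvPolynomial.induction_on' with
  | monomial u a =>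
    obtain ⟨m, p, h⟩ := hdom a
    refine ⟨m, MvPolynomial.monomial u p, ?_⟩
    rw [MvPolynomial.map_monomial, mul_comm, MvPolynomial.C_mul_monomial, mul_comm, h]
  | add w1 w2 h1 h2 =>
    obtain ⟨m1, g1, h1⟩ := h1
    obtain ⟨m2, g2, h2⟩ := h2
    refine ⟨m1 + m2, g1 * MvPolynomial.C (Polynomial.X ^ m2) +
      g2 * MvPolynomial.C (Polynomial.X ^ m1), ?_⟩
    rw [map_add, map_mul, map_mul, ← h1, ← h2, MvPolynomial.map_C, MvPolynomial.map_C]
    simp only [map_pow, pow_add, map_mul]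
    ring

theorem glue_aux {Λ : Type*} [CommRing Λ] {L : Type*} [Field L] (τ : Polynomial ℂ →+* Λ)
    (ρ : Λ →+* L) (j : Polynomial ℂ →+* L) (hj : ρ.comp τ = j) (hu : IsUnit (τ Polynomial.X))
    (hdom : ∀ l : Λ, ∃ (m : ℕ) (p : Polynomial ℂ), l * (τ Polynomial.X) ^ m = τ p)
    (n : ℕ) (f : Polynomial L) :
    baseChange τ (fam j n f) = (JJ n f).comap (MvPolynomial.map ρ) := by
  have hmap : ∀ g : MvPolynomial (Fin 2) (Polynomial ℂ),
      MvPolynomial.map ρ (MvPolynomial.map τ g) = MvPolynomial.map j g := by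
    intro g
    rw [MvPolynomial.map_map, hj]
  apply le_antisymm
  · unfold baseChange
    rw [Ideal.map_le_iff_le_comap]
    intro g hg
    rw [Ideal.mem_comap, Ideal.mem_comap, hmap]
    exact hg
  · intro w hw
    rw [Ideal.mem_comap] at hw
    obtain ⟨m, g, h⟩ := glue_clear τ hdom w
    have hg : g ∈ fam j n f := by
      unfold fam
      rw [Ideal.mem_comap, ← hmap, ← h, map_mul]
      exact Ideal.mul_mem_right _ _ hw
    have h1 : MvPolynomial.map τ g ∈ baseChange τ (fam j n f) := Ideal.mem_map_of_mem _ hg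
    obtain ⟨v, hv⟩ := (hu.pow m).exists_right_inv
    have h2 : w = MvPolynomial.map τ g * MvPolynomial.C v := by
      rw [← h, mul_assoc, ← map_mul, hv, map_one, mul_one]
    rw [h2]
    exact Ideal.mul_mem_right _ _ h1

theorem chart_dom (ε : ℤ) (hε : ε = 1 ∨ ε = -1) (l : LaurentPolynomial ℂ) :
    ∃ (m : ℕ) (p : Polynomial ℂ),
      l * ((Polynomial.eval₂RingHom (LaurentPolynomial.C) (LaurentPolynomial.T ε) :
        Polynomial ℂ →+* LaurentPolynomial ℂ) Polynomial.X) ^ m =
      (Polynomial.eval₂RingHom (LaurentPolynomial.C) (LaurentPolynomial.T ε) :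
        Polynomial ℂ →+* LaurentPolynomial ℂ) p := by
  induction l using LaurentPolynomial.induction_on' with
  | add l1 l2 h1 h2 =>
    obtain ⟨m1, p1, h1⟩ := h1
    obtain ⟨m2, p2, h2⟩ := h2
    refine ⟨m1 + m2, p1 * Polynomial.X ^ m2 + p2 * Polynomial.X ^ m1, ?_⟩
    rw [map_add, map_mul, map_mul, ← h1, ← h2, map_pow, map_pow, pow_add]
    ring
  | C_mul_T n a =>
    refine ⟨n.natAbs, Polynomial.C a * Polynomial.X ^ ((ε * n + n.natAbs).toNat), ?_⟩
    rw [map_mul, map_pow, Polynomial.coe_eval₂RingHom, Polynomial.eval₂_C, Polynomial.eval₂_X,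
      LaurentPolynomial.T_pow, LaurentPolynomial.T_pow, mul_assoc, ← LaurentPolynomial.T_add]
    have h0 : 0 ≤ ε * n + n.natAbs := by
      rcases hε with h | h <;> subst h <;> omega
    rw [Int.toNat_of_nonneg h0]
    congr 2
    rcases hε with h | h <;> subst h <;> ring

/-- TARGET -/
theorem fam_glue (n : ℕ) (f : Polynomial (RatFunc ℂ)) :
    baseChange chart₀ (fam j0 n f) = baseChange chart₁ (fam j1 n f) := by
  let x : (RatFunc ℂ)ˣ := Units.mk0 RatFunc.X RatFunc.X_ne_zero
  let ρ : LaurentPolynomial ℂ →+* RatFunc ℂ := LaurentPolynomial.eval₂ (algebraMap ℂ (RatFunc ℂ)) x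
  have h0 : ρ.comp chart₀ = j0 := by
    apply Polynomial.ringHom_ext
    · intro a
      show ρ (chart₀ (Polynomial.C a)) = j0 (Polynomial.C a)
      unfold chart₀ j0
      rw [Polynomial.coe_eval₂RingHom, Polynomial.eval₂_C]
      show LaurentPolynomial.eval₂ _ _ _ = _
      rw [LaurentPolynomial.eval₂_C]
      rfl
    · show ρ (chart₀ Polynomial.X) = j0 Polynomial.X
      unfold chart₀ j0
      rw [Polynomial.coe_eval₂RingHom, Polynomial.eval₂_X]
      show LaurentPolynomial.eval₂ _ _ _ = _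
      rw [LaurentPolynomial.eval₂_T, RatFunc.algebraMap_X]
      simp [x]
  have h1 : ρ.comp chart₁ = j1 := by
    apply Polynomial.ringHom_ext
    · intro a
      show ρ (chart₁ (Polynomial.C a)) = j1 (Polynomial.C a)
      unfold chart₁ j1
      rw [Polynomial.coe_eval₂RingHom, Polynomial.eval₂_C, Polynomial.coe_eval₂RingHom,
        Polynomial.eval₂_C]
      show LaurentPolynomial.eval₂ _ _ _ = _
      rw [LaurentPolynomial.eval₂_C]
    · show ρ (chart₁ Polynomial.X) = j1 Polynomial.X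
      unfold chart₁ j1
      rw [Polynomial.coe_eval₂RingHom, Polynomial.eval₂_X, Polynomial.coe_eval₂RingHom,
        Polynomial.eval₂_X]
      show LaurentPolynomial.eval₂ _ _ _ = _
      rw [LaurentPolynomial.eval₂_T]
      simp [x]
  have u0 : IsUnit (chart₀ Polynomial.X) := by
    unfold chart₀
    rw [Polynomial.coe_eval₂RingHom, Polynomial.eval₂_X]
    exact LaurentPolynomial.isUnit_T _
  have u1 : IsUnit (chart₁ Polynomial.X) := by
    unfold chart₁
    rw [Polynomial.coe_eval₂RingHom, Polynomial.eval₂_X]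
    exact LaurentPolynomial.isUnit_T _
  rw [glue_aux chart₀ ρ j0 h0 u0 (chart_dom 1 (Or.inl rfl)) n f,
    glue_aux chart₁ ρ j1 h1 u1 (chart_dom (-1) (Or.inr rfl)) n f]

end MP4403b8
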