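import Mathlib
import Pool.Agent.HilbP1.Defs

set_option autoImplicit false

namespace MP4403b8

open Polynomial in
/-- the local ring at `c` -/
noncomputable def Oc (c : ℂ) : Subring (RatFunc ℂ) where
  carrier := {x | ∃ p q : Polynomial ℂ, q.eval c ≠ 0 ∧ x * j0 q = j0 p}
  mul_mem' := by
    rintro x y ⟨p, q, hq, h⟩ ⟨p', q', hq', h'⟩
    refine ⟨p * p', q * q', by rw [Polynomial.eval_mul]; exact mul_ne_zero hq hq', ?_⟩
    rw [map_mul, map_mul, ← h, ← h']; ring
  one_mem' := ⟨1, 1, by simp, by simp⟩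
  add_mem' := by
    rintro x y ⟨p, q, hq, h⟩ ⟨p', q', hq', h'⟩
    refine ⟨p * q' + p' * q, q * q', by rw [Polynomial.eval_mul]; exact mul_ne_zero hq hq', ?_⟩
    rw [map_mul, map_add, map_mul, map_mul, ← h, ← h']; ring
  zero_mem' := ⟨0, 1, by simp, by simp⟩
  neg_mem' := by
    rintro x ⟨p, q, hq, h⟩
    refine ⟨-p, q, hq, ?_⟩
    rw [map_neg, ← h]; ring

theorem mem_Oc (c : ℂ) (x : RatFunc ℂ) :
    x ∈ Oc c ↔ ∃ p q : Polynomial ℂ, q.eval c ≠ 0 ∧ x * j0 q = j0 p := Iff.rfl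

theorem j0_mem (c : ℂ) (p : Polynomial ℂ) : j0 p ∈ Oc c := ⟨p, 1, by simp, by simp⟩

theorem j0_inj : Function.Injective j0 := IsFractionRing.injective (Polynomial ℂ) (RatFunc ℂ)

theorem j0_ne {p : Polynomial ℂ} (h : p ≠ 0) : j0 p ≠ 0 := by
  intro h0
  exact h (j0_inj (by rw [h0, map_zero]))

theorem j0_inv_mem (c : ℂ) (q : Polynomial ℂ) (hq : q.eval c ≠ 0) : (j0 q)⁻¹ ∈ Oc c := by
  refine ⟨1, q, hq, ?_⟩
  have : q ≠ 0 := by rintro rfl; simp at hq
  rw [map_one, inv_mul_cancel₀ (j0_ne this)]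

theorem exists_pow_mem (c : ℂ) (x : RatFunc ℂ) :
    ∃ m, ∀ m', m ≤ m' → j0 ((Polynomial.X - Polynomial.C c) ^ m') * x ∈ Oc c := by
  obtain ⟨p, q, hq, hx⟩ := IsFractionRing.div_surjective (A := Polynomial ℂ) x
  have hq0 : q ≠ 0 := nonZeroDivisors.ne_zero hq
  obtain ⟨k, q', hq', hnd⟩ : ∃ (k : ℕ) (q' : Polynomial ℂ), q = (Polynomial.X - Polynomial.C c) ^ k * q' ∧
      ¬ (Polynomial.X - Polynomial.C c) ∣ q' := by
    obtain ⟨q', hq', hnd⟩ := Polynomial.exists_eq_pow_rootMultiplicity_mul_and_not_dvd q hq0 c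
    exact ⟨_, q', hq', hnd⟩
  refine ⟨k, fun m' hm => ?_⟩
  refine ⟨(Polynomial.X - Polynomial.C c) ^ (m' - k) * p, q', ?_, ?_⟩
  · intro h0
    exact hnd (Polynomial.dvd_iff_isRoot.2 h0)
  · have hx' : x * j0 q = j0 p := by
      rw [← hx]
      exact div_mul_cancel₀ _ (j0_ne hq0)
    have hsplit : (Polynomial.X - Polynomial.C c) ^ m' =
        (Polynomial.X - Polynomial.C c) ^ (m' - k) *
        (Polynomial.X - Polynomial.C c) ^ k := by
      rw [← pow_add]; congr 1; omega
    rw [hsplit, map_mul j0 _ p, ← hx', hq', map_mul, map_mul]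
    ring

theorem coprime_of_eval (c : ℂ) (q : Polynomial ℂ) (hq : q.eval c ≠ 0) (P : ℕ) :
    IsCoprime ((Polynomial.X - Polynomial.C c) ^ P) q := by
  apply IsCoprime.pow_left
  obtain ⟨r, hr⟩ := Polynomial.X_sub_C_dvd_sub_C_eval (a := c) (p := q)
  refine ⟨-(Polynomial.C (q.eval c)⁻¹ * r), Polynomial.C (q.eval c)⁻¹, ?_⟩
  have : q = Polynomial.C (q.eval c) + (Polynomial.X - Polynomial.C c) * r := by
    rw [← hr]; ring
  have h1 : Polynomial.C (q.eval c)⁻¹ * Polynomial.C (q.eval c) = 1 := by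
    rw [← Polynomial.C_mul, inv_mul_cancel₀ hq, Polynomial.C_1]
  calc -(Polynomial.C (q.eval c)⁻¹ * r) * (Polynomial.X - Polynomial.C c) + Polynomial.C (q.eval c)⁻¹ * q
      = Polynomial.C (q.eval c)⁻¹ * (q - (Polynomial.X - Polynomial.C c) * r) := by ring
    _ = Polynomial.C (q.eval c)⁻¹ * Polynomial.C (q.eval c) := by rw [← hr]; ring
    _ = 1 := h1

/-- approximation by polynomials -/
theorem approx (c : ℂ) (x : RatFunc ℂ) (hx : x ∈ Oc c) (P : ℕ) :
    ∃ u : Polynomial ℂ, ∃ z ∈ Oc c, j0 u - x = j0 ((Polynomial.X - Polynomial.C c) ^ P) * z := by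
  have hx0 := hx
  obtain ⟨p, q, hq, h⟩ := hx
  obtain ⟨r, s, hrs⟩ := coprime_of_eval c q hq P
  refine ⟨s * p, -(j0 r * x), neg_mem (mul_mem (j0_mem c r) hx0), ?_⟩
  have h1 : j0 s * j0 q = 1 - j0 r * j0 ((Polynomial.X - Polynomial.C c) ^ P) := by
    rw [← map_mul, ← map_mul, ← map_one j0, ← map_sub, ← hrs]
    congr 1; ring
  rw [map_mul, ← h]
  calc j0 s * (x * j0 q) - x = x * (j0 s * j0 q - 1) := by ring
    _ = _ := by rw [h1]; ring

theorem crt (a b : ℂ) (hab : a ≠ b) (P : ℕ) (u v : Polynomial ℂ) :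
    ∃ B r s : Polynomial ℂ, B - u = (Polynomial.X - Polynomial.C a) ^ P * r ∧
      B - v = (Polynomial.X - Polynomial.C b) ^ P * s := by
  have hco : IsCoprime ((Polynomial.X - Polynomial.C a) ^ P) ((Polynomial.X - Polynomial.C b) ^ P) := by
    apply coprime_of_eval
    rw [Polynomial.eval_pow, Polynomial.eval_sub, Polynomial.eval_X, Polynomial.eval_C]
    exact pow_ne_zero _ (sub_ne_zero.2 hab)
  obtain ⟨α, β, h⟩ := hco
  refine ⟨u * (β * (Polynomial.X - Polynomial.C b) ^ P) + v * (α * (Polynomial.X - Polynomial.C a) ^ P),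
    (v - u) * α, (u - v) * β, ?_, ?_⟩
  · linear_combination u * h
  · linear_combination v * h

/-- the restriction of `j0` to the local ring -/
noncomputable def jO (c : ℂ) : Polynomial ℂ →+* Oc c := j0.codRestrict (Oc c) (j0_mem c)

theorem subtype_jO (c : ℂ) (p : Polynomial ℂ) : (Oc c).subtype (jO c p) = j0 p := rfl

theorem subtype_comp_jO (c : ℂ) : (Oc c).subtype.comp (jO c) = j0 := rfl

theorem lift_mv (c : ℂ) (g : MvPolynomial (Fin 2) (RatFunc ℂ)) (h : ∀ m, MvPolynomial.coeff m g ∈ Oc c) :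
    ∃ g' : MvPolynomial (Fin 2) (Oc c), MvPolynomial.map (Oc c).subtype g' = g := by
  classical
  refine ⟨∑ m ∈ g.support, MvPolynomial.monomial m ⟨MvPolynomial.coeff m g, h m⟩, ?_⟩
  rw [map_sum]
  conv_rhs => rw [MvPolynomial.as_sum g]
  apply Finset.sum_congr rfl
  intro m _
  rw [MvPolynomial.map_monomial]
  rfl

theorem lift_poly (c : ℂ) (g : Polynomial (RatFunc ℂ)) (h : ∀ m, g.coeff m ∈ Oc c) :
    ∃ g' : Polynomial (Oc c), Polynomial.map (Oc c).subtype g' = g := by
  classical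
  refine ⟨∑ m ∈ g.support, Polynomial.monomial m ⟨g.coeff m, h m⟩, ?_⟩
  rw [Polynomial.map_sum]
  conv_rhs => rw [Polynomial.as_sum_support g]
  apply Finset.sum_congr rfl
  intro m _
  rw [Polynomial.map_monomial]
  rfl

theorem clear_denoms (c : ℂ) (w : MvPolynomial (Fin 2) (Oc c)) :
    ∃ (q : Polynomial ℂ) (w' : MvPolynomial (Fin 2) (Polynomial ℂ)), q.eval c ≠ 0 ∧
      MvPolynomial.map j0 w' = MvPolynomial.C (j0 q) * MvPolynomial.map (Oc c).subtype w := by
  induction w using MvPolynomial.induction_on with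
  | C x =>
    obtain ⟨p, q, hq, h⟩ := x.2
    refine ⟨q, MvPolynomial.C p, hq, ?_⟩
    rw [MvPolynomial.map_C, MvPolynomial.map_C, ← MvPolynomial.C_mul, ← h]
    congr 1
    rw [mul_comm]; rfl
  | add w1 w2 h1 h2 =>
    obtain ⟨q1, w1', hq1, e1⟩ := h1
    obtain ⟨q2, w2', hq2, e2⟩ := h2
    refine ⟨q1 * q2, MvPolynomial.C q2 * w1' + MvPolynomial.C q1 * w2', ?_, ?_⟩
    · rw [Polynomial.eval_mul]; exact mul_ne_zero hq1 hq2
    · rw [map_add, map_mul, map_mul, e1, e2, MvPolynomial.map_C, MvPolynomial.map_C, map_add, map_mul j0,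
        MvPolynomial.C_mul]
      ring
  | mul_X w i h =>
    obtain ⟨q, w', hq, e⟩ := h
    refine ⟨q, w' * MvPolynomial.X i, hq, ?_⟩
    rw [map_mul, map_mul, e, MvPolynomial.map_X, MvPolynomial.map_X]
    ring

theorem point (n : ℕ) (c : ℂ) (G0 G1 : MvPolynomial (Fin 2) ℂ) (f F : Polynomial (RatFunc ℂ))
    (hδ : ∀ i, ∃ z ∈ Oc c, F.coeff i - f.coeff i = j0 ((Polynomial.X - Polynomial.C c) ^ 2) * z)
    (g : MvPolynomial (Fin 2) (RatFunc ℂ)) (hg : g ∈ JJ n f)
    (hc : ∀ m, ∃ p q : Polynomial ℂ, q.eval c ≠ 0 ∧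
        (MvPolynomial.coeff m g
          - j0 (Polynomial.C (MvPolynomial.coeff m G0)
              + (Polynomial.X - Polynomial.C c) * Polynomial.C (MvPolynomial.coeff m G1)))
          * j0 q = j0 ((Polynomial.X - Polynomial.C c) ^ 2 * p)) :
    Special (fam j0 n F) c G0 G1 := by
  classical
  have hXc : (Polynomial.X - Polynomial.C c : Polynomial ℂ) ^ 2 ≠ 0 :=
    pow_ne_zero _ (Polynomial.X_sub_C_ne_zero c)
  have hτ0 : j0 ((Polynomial.X - Polynomial.C c : Polynomial ℂ) ^ 2) ≠ 0 := j0_ne hXc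
  set L : MvPolynomial (Fin 2) (Polynomial ℂ) := MvPolynomial.map Polynomial.C G0
      + MvPolynomial.C (Polynomial.X - Polynomial.C c) * MvPolynomial.map Polynomial.C G1 with hL
  -- step 1
  obtain ⟨w1, hw1⟩ := lift_mv c (MvPolynomial.C (j0 ((Polynomial.X - Polynomial.C c) ^ 2))⁻¹ *
    (g - MvPolynomial.map j0 L)) (by
      intro m
      rw [MvPolynomial.coeff_C_mul, MvPolynomial.coeff_sub, MvPolynomial.coeff_map, hL,
        MvPolynomial.coeff_add, MvPolynomial.coeff_C_mul, MvPolynomial.coeff_map, MvPolynomial.coeff_map]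
      obtain ⟨p, q, hq, h⟩ := hc m
      refine ⟨p, q, hq, ?_⟩
      rw [mul_assoc, h, map_mul, inv_mul_cancel_left₀ hτ0])
  have hg' : g = MvPolynomial.map (Oc c).subtype (MvPolynomial.map (jO c) L +
      MvPolynomial.C (jO c ((Polynomial.X - Polynomial.C c) ^ 2)) * w1) := by
    rw [map_add, map_mul, hw1, MvPolynomial.map_C, MvPolynomial.map_map, subtype_comp_jO, subtype_jO,
      ← mul_assoc, ← MvPolynomial.C_mul, mul_inv_cancel₀ hτ0, MvPolynomial.C_1]
    ring
  -- step 2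
  obtain ⟨δ', hδ'⟩ := lift_poly c (Polynomial.C (j0 ((Polynomial.X - Polynomial.C c) ^ 2))⁻¹ * (f - F)) (by
      intro i
      rw [Polynomial.coeff_C_mul, Polynomial.coeff_sub]
      obtain ⟨z, hz, h⟩ := hδ i
      have : f.coeff i - F.coeff i = j0 ((Polynomial.X - Polynomial.C c) ^ 2) * (-z) := by
        rw [mul_neg, ← h]; ring
      rw [this, inv_mul_cancel_left₀ hτ0]
      exact neg_mem hz)
  set τ : Oc c := jO c ((Polynomial.X - Polynomial.C c) ^ 2) with hτ
  have hδ'' : Polynomial.map (Oc c).subtype (Polynomial.C τ * δ') = f - F := by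
    rw [Polynomial.map_mul, hδ', Polynomial.map_C, hτ, subtype_jO, ← mul_assoc, ← Polynomial.C_mul,
      mul_inv_cancel₀ hτ0, Polynomial.C_1, one_mul]
  clear_value L
  set g' : MvPolynomial (Fin 2) (Oc c) := MvPolynomial.map (jO c) L + MvPolynomial.C τ * w1 with hg'd
  -- step 3
  let θ : MvPolynomial (Fin 2) (Oc c) →ₐ[Oc c] MvPolynomial (Fin 2) (Oc c) :=
    MvPolynomial.aeval ![MvPolynomial.X 0 + Polynomial.aeval (MvPolynomial.X 1) (Polynomial.C τ * δ'),
      MvPolynomial.X 1]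
  have hθ : ∃ w2, θ g' = g' + MvPolynomial.C τ * w2 := by
    have h1 : (Ideal.Quotient.mk (Ideal.span {(MvPolynomial.C τ : MvPolynomial (Fin 2) (Oc c))})).comp
        θ.toRingHom = Ideal.Quotient.mk (Ideal.span {(MvPolynomial.C τ : MvPolynomial (Fin 2) (Oc c))}) := by
      apply MvPolynomial.ringHom_ext
      · intro r
        have : θ (MvPolynomial.C r) = MvPolynomial.C r := θ.commutes r
        show Ideal.Quotient.mk _ (θ (MvPolynomial.C r)) = _
        rw [this]
      · intro i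
        show Ideal.Quotient.mk _ (θ (MvPolynomial.X i)) = _
        simp only [θ, MvPolynomial.aeval_X]
        fin_cases i
        · show Ideal.Quotient.mk _ (MvPolynomial.X 0 + Polynomial.aeval (MvPolynomial.X 1) (Polynomial.C τ * δ')) =
            Ideal.Quotient.mk _ (MvPolynomial.X 0)
          rw [Ideal.Quotient.eq, Ideal.mem_span_singleton]
          refine ⟨Polynomial.aeval (MvPolynomial.X 1) δ', ?_⟩
          rw [map_mul, Polynomial.aeval_C]
          show MvPolynomial.X 0 + MvPolynomial.C τ * _ - MvPolynomial.X 0 = _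
          ring
        · rfl
    have h2 := RingHom.congr_fun h1 g'
    have h3 : Ideal.Quotient.mk (Ideal.span {(MvPolynomial.C τ : MvPolynomial (Fin 2) (Oc c))}) (θ g') =
      Ideal.Quotient.mk _ g' := h2
    rw [Ideal.Quotient.eq, Ideal.mem_span_singleton] at h3
    obtain ⟨w2, hw2⟩ := h3
    exact ⟨w2, by rw [← hw2]; ring⟩
  obtain ⟨w2, hw2⟩ := hθ
  -- step 4
  have hpoly : ∀ p : Polynomial (Oc c), MvPolynomial.aeval ![F, Polynomial.X]
      (MvPolynomial.map (Oc c).subtype (Polynomial.aeval (MvPolynomial.X 1) p)) =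
      Polynomial.map (Oc c).subtype p := by
    intro p
    induction p using Polynomial.induction_on' with
    | add p q hp hq => rw [map_add, map_add, map_add, Polynomial.map_add, hp, hq]
    | monomial k x =>
      rw [Polynomial.aeval_monomial, map_mul, map_mul, map_pow, map_pow, MvPolynomial.map_X,
        MvPolynomial.aeval_X, Polynomial.map_monomial, ← Polynomial.C_mul_X_pow_eq_monomial]
      congr 1
      show MvPolynomial.aeval ![F, Polynomial.X] (MvPolynomial.map (Oc c).subtype (MvPolynomial.C x)) = _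
      rw [MvPolynomial.map_C, MvPolynomial.aeval_C]
      rfl
  have hcomp : ((MvPolynomial.aeval ![F, Polynomial.X] :
        MvPolynomial (Fin 2) (RatFunc ℂ) →ₐ[RatFunc ℂ] Polynomial (RatFunc ℂ)).toRingHom.comp
        ((MvPolynomial.map (Oc c).subtype).comp θ.toRingHom)) =
      ((MvPolynomial.aeval ![f, Polynomial.X] :
        MvPolynomial (Fin 2) (RatFunc ℂ) →ₐ[RatFunc ℂ] Polynomial (RatFunc ℂ)).toRingHom.comp
        (MvPolynomial.map (Oc c).subtype)) := by
    apply MvPolynomial.ringHom_ext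
    · intro r
      have : θ (MvPolynomial.C r) = MvPolynomial.C r := θ.commutes r
      show MvPolynomial.aeval ![F, Polynomial.X] (MvPolynomial.map (Oc c).subtype (θ (MvPolynomial.C r))) =
        MvPolynomial.aeval ![f, Polynomial.X] (MvPolynomial.map (Oc c).subtype (MvPolynomial.C r))
      rw [this, MvPolynomial.map_C, MvPolynomial.aeval_C, MvPolynomial.aeval_C]
    · intro i
      show MvPolynomial.aeval ![F, Polynomial.X] (MvPolynomial.map (Oc c).subtype (θ (MvPolynomial.X i))) =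
        MvPolynomial.aeval ![f, Polynomial.X] (MvPolynomial.map (Oc c).subtype (MvPolynomial.X i))
      rw [MvPolynomial.map_X, MvPolynomial.aeval_X]
      simp only [θ, MvPolynomial.aeval_X]
      fin_cases i
      · show MvPolynomial.aeval ![F, Polynomial.X] (MvPolynomial.map (Oc c).subtype
          (MvPolynomial.X 0 + Polynomial.aeval (MvPolynomial.X 1) (Polynomial.C τ * δ'))) = f
        rw [map_add, map_add, hpoly, hδ'', MvPolynomial.map_X, MvPolynomial.aeval_X]
        show F + (f - F) = f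
        ring
      · show MvPolynomial.aeval ![F, Polynomial.X] (MvPolynomial.map (Oc c).subtype
          (MvPolynomial.X 1)) = Polynomial.X
        rw [MvPolynomial.map_X, MvPolynomial.aeval_X]
        rfl
  have hmem : MvPolynomial.map (Oc c).subtype (θ g') ∈ JJ n F := by
    rw [mem_JJ]
    have h1 : MvPolynomial.aeval ![F, Polynomial.X] (MvPolynomial.map (Oc c).subtype (θ g')) =
      MvPolynomial.aeval ![f, Polynomial.X] (MvPolynomial.map (Oc c).subtype g') := RingHom.congr_fun hcomp g'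
    rw [h1, ← hg', ← mem_JJ]
    exact hg
  -- step 5
  have h5 : MvPolynomial.map (Oc c).subtype (θ g') = MvPolynomial.map j0 L +
      MvPolynomial.C (j0 ((Polynomial.X - Polynomial.C c) ^ 2)) * MvPolynomial.map (Oc c).subtype (w1 + w2) := by
    rw [hw2, hg'd, map_add, map_add, map_mul, map_mul, map_add, MvPolynomial.map_C, MvPolynomial.map_map,
      subtype_comp_jO, hτ, subtype_jO]
    ring
  -- step 6
  obtain ⟨q, w', hq, hw'⟩ := clear_denoms c (w1 + w2)
  obtain ⟨r', s, hrs⟩ := coprime_of_eval c q hq 2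
  refine ⟨-(MvPolynomial.C r' * L) + MvPolynomial.C s * w', ?_⟩
  unfold fam
  rw [Ideal.mem_comap, ← hL]
  have hsq : s * q = 1 - (Polynomial.X - Polynomial.C c) ^ 2 * r' := by
    rw [← hrs]; ring
  have h7 : MvPolynomial.C (j0 (s * q)) = (1 : MvPolynomial (Fin 2) (RatFunc ℂ)) -
      MvPolynomial.C (j0 ((Polynomial.X - Polynomial.C c) ^ 2)) * MvPolynomial.C (j0 r') := by
    rw [hsq, map_sub, map_one, map_mul, map_sub, map_one, map_mul]
  have h8 : MvPolynomial.C (j0 (s * q)) = (MvPolynomial.C (j0 s) * MvPolynomial.C (j0 q) :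
      MvPolynomial (Fin 2) (RatFunc ℂ)) := by
    rw [map_mul, map_mul]
  have h6 : MvPolynomial.map j0 (L + MvPolynomial.C ((Polynomial.X - Polynomial.C c) ^ 2) *
      (-(MvPolynomial.C r' * L) + MvPolynomial.C s * w')) =
      MvPolynomial.C (j0 (s * q)) * MvPolynomial.map (Oc c).subtype (θ g') := by
    have e1 : MvPolynomial.map j0 (L + MvPolynomial.C ((Polynomial.X - Polynomial.C c) ^ 2) *
      (-(MvPolynomial.C r' * L) + MvPolynomial.C s * w')) = MvPolynomial.map j0 L +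
        MvPolynomial.C (j0 ((Polynomial.X - Polynomial.C c) ^ 2)) *
        (-(MvPolynomial.C (j0 r') * MvPolynomial.map j0 L) + MvPolynomial.C (j0 s) * MvPolynomial.map j0 w') := by
      rw [map_add, map_mul, map_add, map_neg, map_mul, map_mul, MvPolynomial.map_C, MvPolynomial.map_C,
        MvPolynomial.map_C]
    rw [e1, hw', h5]
    linear_combination (-(MvPolynomial.map j0 L)) * h7 - (MvPolynomial.C (j0 ((Polynomial.X - Polynomial.C c) ^ 2)) *
      MvPolynomial.map (Oc c).subtype (w1 + w2)) * h8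
  rw [h6]
  exact Ideal.mul_mem_left _ _ hmem

theorem close (a b : ℂ) (hab : a ≠ b) (N : ℕ) (x : RatFunc ℂ) (B E : Polynomial ℂ)
    (hB : ∃ z ∈ Oc a, j0 B - j0 (((Polynomial.X - Polynomial.C a) * (Polynomial.X - Polynomial.C b)) ^ N) * x =
      j0 ((Polynomial.X - Polynomial.C a) ^ (N + 2)) * z) :
    ∃ z ∈ Oc a, (j0 (B + ((Polynomial.X - Polynomial.C a) * (Polynomial.X - Polynomial.C b)) ^ (N + 2) * E)
          / j0 (((Polynomial.X - Polynomial.C a) * (Polynomial.X - Polynomial.C b)) ^ N)) - x =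
      j0 ((Polynomial.X - Polynomial.C a) ^ 2) * z := by
  obtain ⟨z, hz, h⟩ := hB
  have hb : ((Polynomial.X - Polynomial.C b) ^ N : Polynomial ℂ).eval a ≠ 0 := by
    rw [Polynomial.eval_pow, Polynomial.eval_sub, Polynomial.eval_X, Polynomial.eval_C]
    exact pow_ne_zero _ (sub_ne_zero.2 hab)
  have h1 : j0 ((Polynomial.X - Polynomial.C a) ^ N) ≠ 0 := j0_ne (pow_ne_zero _ (Polynomial.X_sub_C_ne_zero a))
  have h2 : j0 ((Polynomial.X - Polynomial.C b) ^ N) ≠ 0 := j0_ne (pow_ne_zero _ (Polynomial.X_sub_C_ne_zero b))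
  refine ⟨z * (j0 ((Polynomial.X - Polynomial.C b) ^ N))⁻¹ + j0 ((Polynomial.X - Polynomial.C b) ^ 2 * E),
    add_mem (mul_mem hz (j0_inv_mem a _ hb)) (j0_mem a _), ?_⟩
  have h3 : j0 B = j0 (((Polynomial.X - Polynomial.C a) * (Polynomial.X - Polynomial.C b)) ^ N) * x +
      j0 ((Polynomial.X - Polynomial.C a) ^ (N + 2)) * z := by rw [← h]; ring
  rw [map_add, h3]
  simp only [mul_pow, map_mul, pow_add] at *
  field_simp
  ring

/-- TARGET -/
theorem interpolate (n : ℕ) (a b : ℂ) (hab : a ≠ b) {ι κ : Type} [Finite ι] [Finite κ]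
    (G0 G1 : ι → MvPolynomial (Fin 2) ℂ) (G0' G1' : κ → MvPolynomial (Fin 2) ℂ)
    (h : Arc n a G0 G1) (h' : Arc n b G0' G1') :
    ∃ (N M : ℕ) (B : ℕ → Polynomial ℂ), ∀ E : ℕ → Polynomial ℂ,
      ∀ F : Polynomial (RatFunc ℂ),
      F = ∑ i ∈ Finset.Ico 1 n, Polynomial.monomial i
        (j0 (B i + ((Polynomial.X - Polynomial.C a) * (Polynomial.X - Polynomial.C b)) ^ M * E i)
          / j0 (((Polynomial.X - Polynomial.C a) * (Polynomial.X - Polynomial.C b)) ^ N)) →
      (∀ i, Special (fam j0 n F) a (G0 i) (G1 i)) ∧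
      (∀ i, Special (fam j0 n F) b (G0' i) (G1' i)) := by
  classical
  obtain ⟨f0, hf00, hf0n, g, hg, hgc⟩ := h
  obtain ⟨f1, hf10, hf1n, g', hg', hgc'⟩ := h'
  -- exponent
  have hN : ∃ N : ℕ, ∀ i < n, j0 (((Polynomial.X - Polynomial.C a) * (Polynomial.X - Polynomial.C b)) ^ N) * f0.coeff i ∈ Oc a ∧
      j0 (((Polynomial.X - Polynomial.C a) * (Polynomial.X - Polynomial.C b)) ^ N) * f1.coeff i ∈ Oc b := by
    have ha : ∀ i, ∃ m, ∀ m', m ≤ m' → j0 ((Polynomial.X - Polynomial.C a) ^ m') * f0.coeff i ∈ Oc a :=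
      fun i => exists_pow_mem a _
    have hb : ∀ i, ∃ m, ∀ m', m ≤ m' → j0 ((Polynomial.X - Polynomial.C b) ^ m') * f1.coeff i ∈ Oc b :=
      fun i => exists_pow_mem b _
    choose ma hma using ha
    choose mb hmb using hb
    refine ⟨(Finset.range n).sup ma + (Finset.range n).sup mb, fun i hi => ?_⟩
    have h1 : ma i ≤ (Finset.range n).sup ma := Finset.le_sup (Finset.mem_range.2 hi)
    have h2 : mb i ≤ (Finset.range n).sup mb := Finset.le_sup (Finset.mem_range.2 hi)
    constructor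
    · rw [mul_pow, map_mul, mul_comm (j0 ((Polynomial.X - Polynomial.C a) ^ _)), mul_assoc]
      exact mul_mem (j0_mem _ _) (hma i _ (by omega))
    · rw [mul_pow, map_mul, mul_assoc]
      exact mul_mem (j0_mem _ _) (hmb i _ (by omega))
  obtain ⟨N, hN⟩ := hN
  have hB : ∀ i, ∃ B : Polynomial ℂ, i < n →
      (∃ z ∈ Oc a, j0 B - j0 (((Polynomial.X - Polynomial.C a) * (Polynomial.X - Polynomial.C b)) ^ N) * f0.coeff i =
        j0 ((Polynomial.X - Polynomial.C a) ^ (N + 2)) * z) ∧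
      (∃ z ∈ Oc b, j0 B - j0 (((Polynomial.X - Polynomial.C a) * (Polynomial.X - Polynomial.C b)) ^ N) * f1.coeff i =
        j0 ((Polynomial.X - Polynomial.C b) ^ (N + 2)) * z) := by
    intro i
    by_cases hi : i < n
    · obtain ⟨u, z, hz, hu⟩ := approx a _ (hN i hi).1 (N + 2)
      obtain ⟨v, y, hy, hv⟩ := approx b _ (hN i hi).2 (N + 2)
      obtain ⟨B, r, s, hr, hs⟩ := crt a b hab (N + 2) u v
      refine ⟨B, fun _ => ⟨⟨j0 r + z, add_mem (j0_mem _ _) hz, ?_⟩, ⟨j0 s + y, add_mem (j0_mem _ _) hy, ?_⟩⟩⟩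
      · rw [mul_add, ← hu, ← map_mul, ← hr, map_sub]; ring
      · rw [mul_add, ← hv, ← map_mul, ← hs, map_sub]; ring
    · exact ⟨0, fun h => absurd h hi⟩
  choose B hB using hB
  refine ⟨N, N + 2, B, ?_⟩
  intro E F hF
  have hFc : ∀ i, F.coeff i = if i ∈ Finset.Ico 1 n then
      (j0 (B i + ((Polynomial.X - Polynomial.C a) * (Polynomial.X - Polynomial.C b)) ^ (N + 2) * E i)
          / j0 (((Polynomial.X - Polynomial.C a) * (Polynomial.X - Polynomial.C b)) ^ N)) else 0 := by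
    intro i
    rw [hF, Polynomial.finset_sum_coeff]
    simp only [Polynomial.coeff_monomial]
    rw [Finset.sum_ite_eq']
  have hzero : ∀ (f : Polynomial (RatFunc ℂ)), f.coeff 0 = 0 → f.natDegree < n → ∀ i, i ∉ Finset.Ico 1 n →
      f.coeff i = 0 := by
    intro f h0 hn i hi
    rw [Finset.mem_Ico, not_and_or] at hi
    rcases hi with hi | hi
    · have : i = 0 := by omega
      rw [this, h0]
    · exact Polynomial.coeff_eq_zero_of_natDegree_lt (by omega)
  constructor
  · intro i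
    refine point n a (G0 i) (G1 i) f0 F ?_ (g i) (hg i) (hgc i)
    intro k
    rw [hFc]
    split_ifs with hk
    · rw [Finset.mem_Ico] at hk
      exact close a b hab N _ _ _ (hB k hk.2).1
    · refine ⟨0, zero_mem _, ?_⟩
      rw [hzero f0 hf00 hf0n k hk]; simp
  · intro i
    refine point n b (G0' i) (G1' i) f1 F ?_ (g' i) (hg' i) (hgc' i)
    intro k
    rw [hFc]
    split_ifs with hk
    · rw [Finset.mem_Ico] at hk
      rw [mul_comm (Polynomial.X - Polynomial.C a) (Polynomial.X - Polynomial.C b)]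
      refine close b a hab.symm N _ _ _ ?_
      rw [mul_comm (Polynomial.X - Polynomial.C b) (Polynomial.X - Polynomial.C a)]
      exact (hB k hk.2).2
    · refine ⟨0, zero_mem _, ?_⟩
      rw [hzero f1 hf10 hf1n k hk]; simp

end MP4403b8
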