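import Mathlib
import Pool.Agent.HilbP1.Defs

set_option autoImplicit false

namespace MP4403b8

section aux

open Polynomial

lemma j0_eq (p : Polynomial ℂ) :
    j0 p = Polynomial.eval₂ (algebraMap ℂ (RatFunc ℂ)) RatFunc.X p := by
  have h : j0 = Polynomial.eval₂RingHom (algebraMap ℂ (RatFunc ℂ)) RatFunc.X := by
    apply Polynomial.ringHom_ext
    · intro a
      simp [j0, RatFunc.algebraMap_C, RatFunc.algebraMap_eq_C]
    · simp [j0, RatFunc.algebraMap_X]
  rw [h]
  rfl

lemma j0_inj_P6 {p : Polynomial ℂ} (h : p ≠ 0) : j0 p ≠ 0 := by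
  intro h0
  apply h
  apply RatFunc.algebraMap_injective ℂ
  rw [map_zero]
  exact h0

lemma j1_X_P6 : j1 (X : Polynomial ℂ) = (RatFunc.X)⁻¹ := by
  unfold j1
  simp

lemma j1_reverse (p : Polynomial ℂ) :
    j1 p.reverse = j0 p * ((RatFunc.X : RatFunc ℂ)⁻¹) ^ p.natDegree := by
  have hX : (RatFunc.X : RatFunc ℂ) ≠ 0 := RatFunc.X_ne_zero
  letI : Invertible (RatFunc.X : RatFunc ℂ) := invertibleOfNonzero hX
  have h := Polynomial.eval₂_reverse_mul_pow (algebraMap ℂ (RatFunc ℂ)) RatFunc.X p
  rw [invOf_eq_inv] at h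
  have h2 : j1 p.reverse * RatFunc.X ^ p.natDegree = j0 p := by
    rw [j0_eq]
    exact h
  rw [← h2, mul_assoc, ← mul_pow, mul_inv_cancel₀ hX, one_pow, mul_one]

lemma reverse_coeff_zero (p : Polynomial ℂ) : p.reverse.coeff 0 = p.leadingCoeff :=
  Polynomial.coeff_zero_reverse p

/-- first order expansion -/
lemma expand2 (p : Polynomial ℂ) :
    p = C (p.coeff 0) + X * C (p.coeff 1) + X ^ 2 * p.divX.divX := by
  conv_lhs => rw [← Polynomial.divX_mul_X_add p, ← Polynomial.divX_mul_X_add p.divX]
  rw [Polynomial.coeff_divX]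
  ring

lemma expand1 (p : Polynomial ℂ) : p = C (p.coeff 0) + X * p.divX := by
  conv_lhs => rw [← Polynomial.divX_mul_X_add p]
  ring

end aux

/-- TARGET: behaviour at `t = ∞` (local parameter `u = 1/t`, embedding `j1`) -/
theorem at_infinity (n : ℕ) (hn : 4 ≤ n) (Q : Polynomial ℂ) (hQ : Q ≠ 0) (P : ℕ → Polynomial ℂ)
    (h1 : Q.natDegree + 2 ≤ (P 1).natDegree)
    (h2 : ∀ i, 2 ≤ i → i + 2 ≤ n → (P i).natDegree + 2 ≤ (P 1).natDegree)
    (h3 : P (n - 1) ≠ 0)
    (h4 : (P (n - 1)).natDegree + (n - 1) * Q.natDegree + 1 = n * (P 1).natDegree)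
    (F : Polynomial (RatFunc ℂ))
    (hF : F = ∑ i ∈ Finset.Ico 1 n, Polynomial.monomial i (j0 (P i) / j0 Q)) :
    ∃ c0 c1 κ : ℂ, c0 ≠ 0 ∧ κ ≠ 0 ∧
      Special (fam j1 n F) 0 (MvPolynomial.C c0 * MvPolynomial.X 1)
        (MvPolynomial.C c1 * MvPolynomial.X 1 + MvPolynomial.C κ * MvPolynomial.X 0 ^ (n - 1)) ∧
      Special (fam j1 n F) 0 (MvPolynomial.X 0 ^ n) 0 := by
  set m := n - 1 with hm
  have hnm : n = m + 1 := by omega
  have hm3 : 3 ≤ m := by omega
  set u : RatFunc ℂ := (RatFunc.X)⁻¹ with hu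
  have hu0 : u ≠ 0 := inv_ne_zero RatFunc.X_ne_zero
  have hP1 : P 1 ≠ 0 := by
    intro h
    rw [h, Polynomial.natDegree_zero] at h1
    omega
  set U := (P 1).reverse with hU
  set R := Q.reverse with hR
  have jU : j1 U = j0 (P 1) * u ^ (P 1).natDegree := j1_reverse _
  have jR : j1 R = j0 Q * u ^ Q.natDegree := j1_reverse _
  have jP : ∀ k, j1 (P k).reverse = j0 (P k) * u ^ (P k).natDegree := fun k => j1_reverse _
  have jX : j1 (Polynomial.X : Polynomial ℂ) = u := j1_X_P6
  have hQ0 : j0 Q ≠ 0 := j0_inj_P6 hQ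
  have hP0 : j0 (P 1) ≠ 0 := j0_inj_P6 hP1
  set c : ℕ → RatFunc ℂ := fun i => j0 (P i) / j0 Q with hc
  have hc1 : c 1 ≠ 0 := div_ne_zero hP0 hQ0
  set s := j1 U with hs
  have hs0 : s ≠ 0 := by rw [jU]; positivity
  -- divisibility facts about `F`
  have hFX : ∃ G : Polynomial (RatFunc ℂ), F = Polynomial.X * G ∧ G.coeff 0 = c 1 := by
    refine ⟨∑ i ∈ Finset.Ico 1 n, Polynomial.monomial (i - 1) (c i), ?_, ?_⟩
    · rw [hF, Finset.mul_sum]
      refine Finset.sum_congr rfl fun i hi => ?_
      rw [Finset.mem_Ico] at hi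
      have h5 : i - 1 + 1 = i := by omega
      rw [Polynomial.X_mul_monomial, h5]
    · rw [Polynomial.finsetSum_coeff, Finset.sum_eq_single 1]
      · simp
      · intro i hi hi1
        rw [Finset.mem_Ico] at hi
        rw [Polynomial.coeff_monomial, if_neg (by omega)]
      · intro h
        exact absurd (Finset.mem_Ico.2 ⟨le_refl 1, by omega⟩) h
  obtain ⟨G, hFG, hG⟩ := hFX
  have hFm : (Polynomial.X : Polynomial (RatFunc ℂ)) ^ n ∣
      F ^ m - Polynomial.C (c 1 ^ m) * Polynomial.X ^ m := by
    have e1 : F ^ m - Polynomial.C (c 1 ^ m) * Polynomial.X ^ m =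
        Polynomial.X ^ m * (G ^ m - Polynomial.C (c 1 ^ m)) := by
      rw [hFG, mul_pow]; ring
    rw [e1, hnm, pow_succ]
    apply mul_dvd_mul_left
    rw [Polynomial.X_dvd_iff]
    simp [hG, Polynomial.coeff_zero_eq_eval_zero]
    rw [Polynomial.coeff_zero_eq_eval_zero] at hG
    rw [hG, sub_self]
  set A := (P m).reverse * R ^ m with hA
  set V := (U ^ n).divX.divX with hV
  set V' := A.divX with hV'
  refine ⟨(U ^ n).coeff 0, (U ^ n).coeff 1, A.coeff 0, ?_, ?_, ?_, ?_⟩
  · rw [Polynomial.coeff_zero_eq_eval_zero, Polynomial.eval_pow, ← Polynomial.coeff_zero_eq_eval_zero,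
      hU, reverse_coeff_zero]
    exact pow_ne_zero _ (Polynomial.leadingCoeff_ne_zero.2 hP1)
  · rw [hA, Polynomial.mul_coeff_zero, hR, reverse_coeff_zero,
      Polynomial.coeff_zero_eq_eval_zero, Polynomial.eval_pow, ← Polynomial.coeff_zero_eq_eval_zero,
      reverse_coeff_zero]
    exact mul_ne_zero (Polynomial.leadingCoeff_ne_zero.2 h3)
      (pow_ne_zero _ (Polynomial.leadingCoeff_ne_zero.2 hQ))
  · refine ⟨MvPolynomial.C V * MvPolynomial.X 1
      + ∑ k ∈ Finset.Ico 2 m, MvPolynomial.C (U ^ m * Polynomial.X ^ ((P 1).natDegree - (P k).natDegree - 2)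
          * (P k).reverse) * MvPolynomial.X 1 ^ k
      + MvPolynomial.C V' * MvPolynomial.X 0 ^ m
      - MvPolynomial.C (U ^ m * Polynomial.X ^ ((P 1).natDegree - Q.natDegree - 2) * R)
          * MvPolynomial.X 0, ?_⟩
    have hw : MvPolynomial.map Polynomial.C
          ((MvPolynomial.C ((U ^ n).coeff 0) * MvPolynomial.X 1 : MvPolynomial (Fin 2) ℂ))
        + MvPolynomial.C (Polynomial.X - Polynomial.C 0) * MvPolynomial.map Polynomial.C
          (MvPolynomial.C ((U ^ n).coeff 1) * MvPolynomial.X 1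
            + MvPolynomial.C (A.coeff 0) * MvPolynomial.X 0 ^ m)
        + MvPolynomial.C ((Polynomial.X - Polynomial.C 0) ^ 2) *
          (MvPolynomial.C V * MvPolynomial.X 1
            + ∑ k ∈ Finset.Ico 2 m, MvPolynomial.C (U ^ m *
                Polynomial.X ^ ((P 1).natDegree - (P k).natDegree - 2)
                * (P k).reverse) * MvPolynomial.X 1 ^ k
            + MvPolynomial.C V' * MvPolynomial.X 0 ^ m
            - MvPolynomial.C (U ^ m * Polynomial.X ^ ((P 1).natDegree - Q.natDegree - 2) * R)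
                * MvPolynomial.X 0)
        = MvPolynomial.C (U ^ n) * MvPolynomial.X 1
          + ∑ k ∈ Finset.Ico 2 m, MvPolynomial.C (U ^ m *
                Polynomial.X ^ ((P 1).natDegree - (P k).natDegree)
                * (P k).reverse) * MvPolynomial.X 1 ^ k
          + MvPolynomial.C (Polynomial.X * A) * MvPolynomial.X 0 ^ m
          - MvPolynomial.C (U ^ m * Polynomial.X ^ ((P 1).natDegree - Q.natDegree) * R)
                * MvPolynomial.X 0 := by
      have e1 : MvPolynomial.C (σ := Fin 2) (U ^ n) = MvPolynomial.C (Polynomial.C ((U ^ n).coeff 0))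
          + MvPolynomial.C Polynomial.X * MvPolynomial.C (Polynomial.C ((U ^ n).coeff 1))
          + MvPolynomial.C Polynomial.X ^ 2 * MvPolynomial.C V := by
        conv_lhs => rw [expand2 (U ^ n)]
        simp only [map_add, map_mul, map_pow]
        rfl
      have e2 : MvPolynomial.C (σ := Fin 2) (Polynomial.X * A) =
          MvPolynomial.C Polynomial.X * MvPolynomial.C (Polynomial.C (A.coeff 0))
          + MvPolynomial.C Polynomial.X ^ 2 * MvPolynomial.C V' := by
        conv_lhs => rw [expand1 A]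
        simp only [map_add, map_mul, mul_add]
        rw [hV']
        ring
      have e3 : ∑ k ∈ Finset.Ico 2 m, MvPolynomial.C (σ := Fin 2) (U ^ m *
                Polynomial.X ^ ((P 1).natDegree - (P k).natDegree)
                * (P k).reverse) * MvPolynomial.X 1 ^ k =
          MvPolynomial.C Polynomial.X ^ 2 * ∑ k ∈ Finset.Ico 2 m, MvPolynomial.C (U ^ m *
                Polynomial.X ^ ((P 1).natDegree - (P k).natDegree - 2)
                * (P k).reverse) * MvPolynomial.X 1 ^ k := by
        rw [Finset.mul_sum]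
        refine Finset.sum_congr rfl fun k hk => ?_
        rw [Finset.mem_Ico] at hk
        have h5 := h2 k hk.1 (by omega)
        have h6 : (P 1).natDegree - (P k).natDegree =
          2 + ((P 1).natDegree - (P k).natDegree - 2) := by omega
        conv_lhs => rw [h6, pow_add]
        simp only [map_mul, map_pow]
        ring
      have e4 : MvPolynomial.C (σ := Fin 2) (U ^ m * Polynomial.X ^ ((P 1).natDegree - Q.natDegree) * R)
          = MvPolynomial.C Polynomial.X ^ 2 *
            MvPolynomial.C (U ^ m * Polynomial.X ^ ((P 1).natDegree - Q.natDegree - 2) * R) := by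
        have h6 : (P 1).natDegree - Q.natDegree =
          2 + ((P 1).natDegree - Q.natDegree - 2) := by omega
        conv_lhs => rw [h6, pow_add]
        simp only [map_mul, map_pow]
        ring
      rw [e1, e2, e3, e4]
      simp only [map_add, map_mul, map_pow, MvPolynomial.map_C, MvPolynomial.map_X, map_zero,
        sub_zero]
      ring
    rw [hw]
    show MvPolynomial.map j1 _ ∈ JJ n F
    rw [mem_JJ]
    have hs' : j1 U = s := rfl
    have hev : (MvPolynomial.aeval ![F, Polynomial.X])
        (MvPolynomial.map j1 (MvPolynomial.C (U ^ n) * MvPolynomial.X 1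
          + ∑ k ∈ Finset.Ico 2 m, MvPolynomial.C (U ^ m *
                Polynomial.X ^ ((P 1).natDegree - (P k).natDegree)
                * (P k).reverse) * MvPolynomial.X 1 ^ k
          + MvPolynomial.C (Polynomial.X * A) * MvPolynomial.X 0 ^ m
          - MvPolynomial.C (U ^ m * Polynomial.X ^ ((P 1).natDegree - Q.natDegree) * R)
                * MvPolynomial.X 0)) =
        Polynomial.C (s ^ n) * Polynomial.X
          + ∑ k ∈ Finset.Ico 2 m, Polynomial.C (s ^ m *
                u ^ ((P 1).natDegree - (P k).natDegree)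
                * j1 (P k).reverse) * Polynomial.X ^ k
          + Polynomial.C (u * j1 A) * F ^ m
          - Polynomial.C (s ^ m * u ^ ((P 1).natDegree - Q.natDegree) * j1 R) * F := by
      simp only [map_add, map_sub, map_mul, map_sum, map_pow, MvPolynomial.map_C,
        MvPolynomial.map_X, MvPolynomial.aeval_X, Matrix.cons_val_zero, Matrix.cons_val_one,
        MvPolynomial.aeval_C, Polynomial.algebraMap_eq, jX, hs']
    rw [hev]
    have hd : ∀ k ∈ Finset.Ico 2 m, s ^ m * u ^ ((P 1).natDegree - (P k).natDegree)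
        * j1 (P k).reverse = s ^ n / c 1 * c k := by
      intro k hk
      rw [Finset.mem_Ico] at hk
      have h5 := h2 k hk.1 (by omega)
      rw [jP k, hnm, pow_succ]
      have h6 : u ^ (P 1).natDegree = u ^ ((P 1).natDegree - (P k).natDegree) *
          u ^ (P k).natDegree := by
        rw [← pow_add]; congr 1; omega
      have h7 : s = j0 (P 1) * (u ^ ((P 1).natDegree - (P k).natDegree) *
          u ^ (P k).natDegree) := by rw [jU, h6]
      have h8 : s ^ m * s = s ^ m * (j0 (P 1) * (u ^ ((P 1).natDegree - (P k).natDegree) *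
          u ^ (P k).natDegree)) := by rw [← h7]
      rw [h8, hc]
      simp only
      field_simp
    have hg : s ^ m * u ^ ((P 1).natDegree - Q.natDegree) * j1 R = s ^ n / c 1 := by
      rw [jR, hnm, pow_succ]
      have h6 : u ^ (P 1).natDegree = u ^ ((P 1).natDegree - Q.natDegree) *
          u ^ Q.natDegree := by
        rw [← pow_add]; congr 1; omega
      have h7 : s = j0 (P 1) * (u ^ ((P 1).natDegree - Q.natDegree) *
          u ^ Q.natDegree) := by rw [jU, h6]
      have h8 : s ^ m * s = s ^ m * (j0 (P 1) * (u ^ ((P 1).natDegree - Q.natDegree) *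
          u ^ Q.natDegree)) := by rw [← h7]
      rw [h8, hc]
      simp only
      field_simp
    have he : u * j1 A * c 1 ^ m = s ^ n / c 1 * c m := by
      have h6 : s ^ n = j0 (P 1) ^ n * (u * u ^ (P m).natDegree * (u ^ Q.natDegree) ^ m) := by
        rw [jU, mul_pow, ← pow_mul, ← pow_mul, mul_comm (P 1).natDegree n, ← h4,
          pow_add, pow_add, mul_comm m]
        ring
      rw [h6, hA, map_mul, map_pow, jP m, jR, hc, hnm]
      simp only
      rw [mul_pow, div_pow, pow_succ (j0 (P 1))]
      field_simp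
    have hs1 : s ^ n = s ^ n / c 1 * c 1 := by
      field_simp
    rw [hg]
    have hsum : ∑ k ∈ Finset.Ico 2 m, Polynomial.C (s ^ m *
                u ^ ((P 1).natDegree - (P k).natDegree)
                * j1 (P k).reverse) * (Polynomial.X : Polynomial (RatFunc ℂ)) ^ k =
        Polynomial.C (s ^ n / c 1) * ∑ k ∈ Finset.Ico 2 m, Polynomial.monomial k (c k) := by
      rw [Finset.mul_sum]
      refine Finset.sum_congr rfl fun k hk => ?_
      rw [hd k hk, map_mul, ← Polynomial.C_mul_X_pow_eq_monomial]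
      ring
    rw [hsum]
    have hFsum : F = Polynomial.C (c 1) * Polynomial.X + ∑ k ∈ Finset.Ico 2 m,
        Polynomial.monomial k (c k) + Polynomial.C (c m) * Polynomial.X ^ m := by
      rw [hF, hnm, Finset.sum_Ico_succ_top (by omega), Finset.sum_eq_sum_Ico_succ_bot (by omega),
        ← Polynomial.C_mul_X_pow_eq_monomial, ← Polynomial.C_mul_X_pow_eq_monomial, pow_one]
    have htot : Polynomial.C (s ^ n) * Polynomial.X
        + Polynomial.C (s ^ n / c 1) * ∑ k ∈ Finset.Ico 2 m, Polynomial.monomial k (c k)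
        + Polynomial.C (u * j1 A) * F ^ m - Polynomial.C (s ^ n / c 1) * F =
        Polynomial.C (u * j1 A) * (F ^ m - Polynomial.C (c 1 ^ m) * Polynomial.X ^ m) := by
      have e1 : Polynomial.C (s ^ n) = Polynomial.C (s ^ n / c 1) * Polynomial.C (c 1) := by
        rw [← map_mul, ← hs1]
      have e2 : Polynomial.C (u * j1 A) * Polynomial.C (c 1 ^ m) =
          Polynomial.C (s ^ n / c 1) * Polynomial.C (c m) := by
        rw [← map_mul, he, map_mul]
      have e3 : Polynomial.C (s ^ n / c 1) * F = Polynomial.C (s ^ n / c 1) *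
        (Polynomial.C (c 1) * Polynomial.X + ∑ k ∈ Finset.Ico 2 m,
        Polynomial.monomial k (c k) + Polynomial.C (c m) * Polynomial.X ^ m) := by
        rw [← hFsum]
      rw [e3, e1, mul_sub, ← mul_assoc, e2]
      ring
    rw [htot]
    exact Dvd.dvd.mul_left hFm _
  · refine ⟨0, ?_⟩
    simp only [map_zero, mul_zero, add_zero]
    show MvPolynomial.map j1 _ ∈ JJ n F
    rw [mem_JJ]
    simp only [map_pow, MvPolynomial.map_X, MvPolynomial.aeval_X, Matrix.cons_val_zero]
    rw [hFG, mul_pow]
    exact Dvd.intro _ rfl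

end MP4403b8
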