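import Mathlib
import Pool.Agent.HilbP1.Defs

set_option autoImplicit false

namespace MP4403b8

/-- TARGET 1 -/
theorem isFrac_j0 : IsFrac j0 := by
  refine ⟨IsFractionRing.injective (Polynomial ℂ) (RatFunc ℂ), fun x => ?_⟩
  refine ⟨x.num, x.denom, x.denom_ne_zero, ?_⟩
  have h := RatFunc.num_div_denom x
  have h0 : algebraMap (Polynomial ℂ) (RatFunc ℂ) x.denom ≠ 0 :=
    RatFunc.algebraMap_ne_zero x.denom_ne_zero
  unfold j0
  rw [div_eq_iff h0] at h
  exact h.symm

theorem j1_inj : Function.Injective j1 := by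
  have h1 : Transcendental ℂ (RatFunc.X : RatFunc ℂ)⁻¹ := by
    intro h
    have := h.inv
    rw [inv_inv] at this
    exact RatFunc.transcendental_X this
  rw [transcendental_iff_injective] at h1
  exact h1

theorem j1_rev (p : Polynomial ℂ) :
    j1 p.reverse * RatFunc.X ^ p.natDegree = j0 p := by
  haveI : Invertible (RatFunc.X : RatFunc ℂ) := invertibleOfNonzero RatFunc.X_ne_zero
  have h := Polynomial.eval₂_reverse_mul_pow (algebraMap ℂ (RatFunc ℂ)) (RatFunc.X) p
  rw [invOf_eq_inv] at h
  unfold j1 j0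
  rw [Polynomial.coe_eval₂RingHom, h]
  have h2 : (Polynomial.eval₂RingHom (algebraMap ℂ (RatFunc ℂ)) (RatFunc.X)) =
      algebraMap (Polynomial ℂ) (RatFunc ℂ) := by
    apply Polynomial.ringHom_ext
    · intro a
      simp
    · simp
  rw [← Polynomial.coe_eval₂RingHom, h2]

/-- TARGET 2 -/
theorem isFrac_j1 : IsFrac j1 := by
  refine ⟨j1_inj, fun x => ?_⟩
  obtain ⟨p, q, hq, h⟩ := isFrac_j0.2 x
  refine ⟨p.reverse * Polynomial.X ^ q.natDegree, q.reverse * Polynomial.X ^ p.natDegree,
    mul_ne_zero (by simpa using hq) (pow_ne_zero _ Polynomial.X_ne_zero), ?_⟩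
  rw [← j1_rev, ← j1_rev] at h
  have hX : j1 Polynomial.X = (RatFunc.X)⁻¹ := by
    unfold j1; simp
  have hX0 : (RatFunc.X : RatFunc ℂ) ≠ 0 := RatFunc.X_ne_zero
  rw [map_mul, map_mul, map_pow, map_pow, hX]
  rw [inv_pow, inv_pow]
  field_simp
  linear_combination h

/-- TARGET 3 -/
theorem fam_hilb {L : Type*} [Field L] (j : Polynomial ℂ →+* L) (hj : IsFrac j) (n : ℕ)
    (f : Polynomial L) (hf : f.coeff 0 = 0) : IsHilbPoint n (Polynomial ℂ) (fam j n f) := by
  classical
  letI : Algebra (Polynomial ℂ) L := j.toAlgebra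
  have halg : ∀ a : Polynomial ℂ, algebraMap (Polynomial ℂ) L a = j a := fun _ => rfl
  haveI hfr : IsFractionRing (Polynomial ℂ) L := by
    refine { map_units := ?_, surj := ?_, exists_of_eq := ?_ }
    · intro y
      rw [halg]
      have : (y : Polynomial ℂ) ≠ 0 := nonZeroDivisors.coe_ne_zero y
      exact (isUnit_iff_ne_zero.2 (fun h => this (hj.1 (by rw [h, map_zero]))))
    · intro z
      obtain ⟨p, q, hq, h⟩ := hj.2 z
      exact ⟨(p, ⟨q, mem_nonZeroDivisors_of_ne_zero hq⟩), h⟩
    · intro x y h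
      refine ⟨1, ?_⟩
      rw [halg, halg] at h
      rw [hj.1 h]
  let φ : MvPolynomial (Fin 2) (Polynomial ℂ) →ₗ[Polynomial ℂ] (Fin n → L) :=
    { toFun := fun g i =>
        (MvPolynomial.aeval ![f, Polynomial.X] (MvPolynomial.map j g) : Polynomial L).coeff i
      map_add' := by
        intro g g'
        funext i
        simp only [map_add, Polynomial.coeff_add, Pi.add_apply]
      map_smul' := by
        intro a g
        funext i
        simp only [RingHom.id_apply, Pi.smul_apply]
        rw [MvPolynomial.smul_eq_C_mul, map_mul, MvPolynomial.map_C, map_mul,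
          MvPolynomial.aeval_C, Polynomial.algebraMap_eq, Polynomial.coeff_C_mul,
          Algebra.smul_def, halg] }
  have hφ : ∀ g i, φ g i =
      (MvPolynomial.aeval ![f, Polynomial.X] (MvPolynomial.map j g) : Polynomial L).coeff i :=
    fun _ _ => rfl
  have hker : LinearMap.ker φ = (fam j n f).restrictScalars (Polynomial ℂ) := by
    ext g
    rw [LinearMap.mem_ker, Submodule.restrictScalars_mem]
    unfold fam
    rw [Ideal.mem_comap, mem_JJ, Polynomial.X_pow_dvd_iff]
    constructor
    · intro h d hd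
      have := congrFun h ⟨d, hd⟩
      rw [hφ] at this
      simpa using this
    · intro h
      funext i
      rw [hφ]
      exact h i i.2
  -- monomials of large degree
  have hmon : ∀ m : Fin 2 →₀ ℕ, n ≤ m 0 + m 1 → φ (MvPolynomial.monomial m 1) = 0 := by
    intro m hm
    funext i
    rw [hφ, MvPolynomial.map_monomial, map_one, MvPolynomial.aeval_monomial]
    rw [Finsupp.prod_fintype _ _ (by intro i; simp), Fin.prod_univ_two]
    simp only [map_one, one_mul, Matrix.cons_val_zero, Matrix.cons_val_one, Pi.zero_apply]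
    obtain ⟨g, hg⟩ := Polynomial.X_dvd_iff.2 hf
    have hd : (Polynomial.X : Polynomial L) ^ n ∣ f ^ (m 0) * Polynomial.X ^ (m 1) := by
      rw [hg, mul_pow]
      refine Dvd.dvd.trans (pow_dvd_pow _ hm) ⟨g ^ (m 0), ?_⟩
      rw [pow_add]; ring
    exact Polynomial.X_pow_dvd_iff.1 hd i i.2
  have hfin : Set.Finite {m : Fin 2 →₀ ℕ | m 0 + m 1 < n} := by
    apply Set.Finite.subset (Set.finite_Iic (Finsupp.equivFunOnFinite.symm (fun _ => n) : Fin 2 →₀ ℕ))
    intro m hm
    simp only [Set.mem_ofPred_eq] at hm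
    rw [Set.mem_Iic]
    intro i
    fin_cases i <;> simp <;> omega
  have hfg : (LinearMap.range φ).FG := by
    have : LinearMap.range φ = Submodule.span (Polynomial ℂ)
        ((fun m => φ (MvPolynomial.monomial m 1)) '' {m : Fin 2 →₀ ℕ | m 0 + m 1 < n}) := by
      apply le_antisymm
      · rintro _ ⟨g, rfl⟩
        rw [MvPolynomial.as_sum g, map_sum]
        apply Submodule.sum_mem
        intro m _
        have e : MvPolynomial.monomial m (MvPolynomial.coeff m g) =
            (MvPolynomial.coeff m g) • MvPolynomial.monomial m (1 : Polynomial ℂ) := by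
          rw [MvPolynomial.smul_monomial, smul_eq_mul, mul_one]
        rw [e, map_smul]
        apply Submodule.smul_mem
        rcases lt_or_ge (m 0 + m 1) n with h | h
        · exact Submodule.subset_span ⟨m, h, rfl⟩
        · rw [hmon m h]; exact Submodule.zero_mem _
      · rw [Submodule.span_le]
        rintro _ ⟨m, _, rfl⟩
        exact ⟨_, rfl⟩
    rw [this]
    exact Submodule.fg_span (hfin.image _)
  have hspan : Submodule.span L ((LinearMap.range φ : Submodule (Polynomial ℂ) (Fin n → L)) :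
      Set (Fin n → L)) = ⊤ := by
    rw [eq_top_iff, ← (Pi.basisFun L (Fin n)).span_eq, Submodule.span_le]
    rintro _ ⟨i, rfl⟩
    apply Submodule.subset_span
    refine ⟨(MvPolynomial.X 1) ^ (i : ℕ), ?_⟩
    funext k
    rw [hφ]
    simp only [map_pow, MvPolynomial.map_X, MvPolynomial.aeval_X, Matrix.cons_val_one,
      Polynomial.coeff_X_pow, Pi.basisFun_apply, Pi.single_apply]
    simp [Fin.ext_iff]
  haveI hlat : Submodule.IsLattice L (LinearMap.range φ) := ⟨hfg, hspan⟩
  let e : (MvPolynomial (Fin 2) (Polynomial ℂ) ⧸ fam j n f) ≃ₗ[Polynomial ℂ]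
      LinearMap.range φ :=
    (Submodule.Quotient.restrictScalarsEquiv (Polynomial ℂ) (fam j n f)).symm ≪≫ₗ
      (Submodule.quotEquivOfEq _ _ hker.symm) ≪≫ₗ φ.quotKerEquivRange
  haveI htf : Module.IsTorsionFree (Polynomial ℂ) L := inferInstance
  haveI : Module.Free (Polynomial ℂ) (LinearMap.range φ) :=
    Submodule.IsLattice.free L (LinearMap.range φ)
  refine ⟨Module.Finite.equiv e.symm, Module.Free.of_equiv e.symm, ?_⟩
  rw [e.finrank_eq, Submodule.IsLattice.finrank_of_pi L (LinearMap.range φ), Fintype.card_fin]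

end MP4403b8
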