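import Mathlib
import Pool.Agent.HilbP1.Defs

set_option autoImplicit false

namespace MP4403b8

lemma map_surj {A B : Type*} [CommRing A] [CommRing B] (f : A →+* B)
    (hf : Function.Surjective f) :
    Function.Surjective (MvPolynomial.map f : MvPolynomial (Fin 2) A →+* MvPolynomial (Fin 2) B) :=
  MvPolynomial.map_surjective f hf

lemma ev_surj (a : ℂ) : Function.Surjective (Polynomial.evalRingHom a) := fun c =>
  ⟨Polynomial.C c, by simp⟩

lemma ker_ev (a : ℂ) (D : MvPolynomial (Fin 2) (Polynomial ℂ))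
    (hD : MvPolynomial.map (Polynomial.evalRingHom a) D = 0) :
    MvPolynomial.C (Polynomial.X - Polynomial.C a) ∣ D := by
  rw [MvPolynomial.C_dvd_iff_dvd_coeff]
  intro m
  rw [Polynomial.dvd_iff_isRoot]
  have := congrArg (MvPolynomial.coeff m) hD
  rw [MvPolynomial.coeff_map, MvPolynomial.coeff_zero] at this
  exact this

/-- TARGET 1 -/
theorem fib_hilb (n : ℕ) (I : Ideal (MvPolynomial (Fin 2) (Polynomial ℂ)))
    (hI : IsHilbPoint n (Polynomial ℂ) I) (a : ℂ) : IsHilbPoint n ℂ (fib a I) := by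
  obtain ⟨h1, h2, h3⟩ := hI
  let bs : Module.Basis (Fin n) (Polynomial ℂ) (MvPolynomial (Fin 2) (Polynomial ℂ) ⧸ I) :=
    Module.finBasisOfFinrankEq _ _ h3
  choose g hg using fun i => Ideal.Quotient.mk_surjective (bs i)
  let φ : MvPolynomial (Fin 2) (Polynomial ℂ) →+* MvPolynomial (Fin 2) ℂ :=
    MvPolynomial.map (Polynomial.evalRingHom a)
  have hφ : Function.Surjective φ := map_surj _ (ev_surj a)
  have hmkC : ∀ (c : ℂ) (w : MvPolynomial (Fin 2) ℂ),
      c • Ideal.Quotient.mk (fib a I) w = Ideal.Quotient.mk (fib a I) (MvPolynomial.C c * w) := by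
    intro c w
    rw [← MvPolynomial.smul_eq_C_mul]
    rfl
  have hmkC' : ∀ (c : Polynomial ℂ) (w : MvPolynomial (Fin 2) (Polynomial ℂ)),
      c • Ideal.Quotient.mk I w = Ideal.Quotient.mk I (MvPolynomial.C c * w) := by
    intro c w
    rw [← MvPolynomial.smul_eq_C_mul]
    rfl
  have hli : LinearIndependent ℂ (fun i => Ideal.Quotient.mk (fib a I) (φ (g i))) := by
    rw [Fintype.linearIndependent_iff]
    intro c hc
    have e1 : ∑ i, c i • Ideal.Quotient.mk (fib a I) (φ (g i)) =
        Ideal.Quotient.mk (fib a I) (∑ i, MvPolynomial.C (c i) * φ (g i)) := by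
      rw [map_sum]
      exact Finset.sum_congr rfl fun i _ => hmkC _ _
    rw [e1, Ideal.Quotient.eq_zero_iff_mem] at hc
    obtain ⟨h, hhI, hh⟩ := (Ideal.mem_map_iff_of_surjective φ hφ).1 hc
    have hD : φ (∑ i, MvPolynomial.C (Polynomial.C (c i)) * g i - h) = 0 := by
      rw [map_sub, hh, map_sum, sub_eq_zero]
      refine Finset.sum_congr rfl fun i _ => ?_
      rw [map_mul]
      congr 1
      show MvPolynomial.map _ _ = _
      rw [MvPolynomial.map_C]
      simp
    obtain ⟨D, hD'⟩ := ker_ev a _ hD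
    have e2 : ∑ i, Polynomial.C (c i) • bs i =
        (Polynomial.X - Polynomial.C a) • Ideal.Quotient.mk I D := by
      rw [hmkC', ← hD', map_sub, Ideal.Quotient.eq_zero_iff_mem.2 hhI, sub_zero, map_sum]
      refine Finset.sum_congr rfl fun i _ => ?_
      rw [← hmkC', hg]
    intro i
    have e3 := congrArg (fun v => bs.repr v i) e2
    simp only [map_smul, Finsupp.smul_apply, smul_eq_mul] at e3
    rw [map_sum, Finsupp.finsetSum_apply] at e3
    have e4 : ∑ k, (bs.repr (Polynomial.C (c k) • bs k)) i = Polynomial.C (c i) := by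
      simp [Finsupp.single_apply]
    rw [e4] at e3
    have e5 := congrArg (Polynomial.eval a) e3
    simpa using e5
  have hsp : ⊤ ≤ Submodule.span ℂ (Set.range (fun i => Ideal.Quotient.mk (fib a I) (φ (g i)))) := by
    intro v _
    obtain ⟨w, rfl⟩ := Ideal.Quotient.mk_surjective v
    obtain ⟨W, rfl⟩ := hφ w
    have e1 : Ideal.Quotient.mk I W = ∑ i, bs.repr (Ideal.Quotient.mk I W) i • bs i :=
      (bs.sum_repr _).symm
    have e2 : W - ∑ i, MvPolynomial.C (bs.repr (Ideal.Quotient.mk I W) i) * g i ∈ I := by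
      rw [← Ideal.Quotient.eq_zero_iff_mem, map_sub, map_sum, sub_eq_zero]
      refine e1.trans (Finset.sum_congr rfl fun i _ => ?_)
      rw [← hmkC', hg]
    have e3 : φ (W - ∑ i, MvPolynomial.C (bs.repr (Ideal.Quotient.mk I W) i) * g i) ∈ fib a I :=
      Ideal.mem_map_of_mem φ e2
    rw [← Ideal.Quotient.eq_zero_iff_mem, map_sub, map_sub, sub_eq_zero] at e3
    rw [e3, map_sum, map_sum]
    refine Submodule.sum_mem _ fun i _ => ?_
    rw [map_mul]
    have e4 : φ (MvPolynomial.C (bs.repr (Ideal.Quotient.mk I W) i)) =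
        MvPolynomial.C ((bs.repr (Ideal.Quotient.mk I W) i).eval a) := by
      show MvPolynomial.map _ _ = _
      rw [MvPolynomial.map_C]
      rfl
    rw [e4, ← hmkC]
    exact Submodule.smul_mem _ _ (Submodule.subset_span ⟨i, rfl⟩)
  let B := Module.Basis.mk hli hsp
  refine ⟨Module.Finite.of_basis B, inferInstance, ?_⟩
  rw [Module.finrank_eq_card_basis B, Fintype.card_fin]

/-- TARGET 2 (use target 1: `span (range G0) ≤ fib a I` and equal colengths) -/
theorem fib_eq (n : ℕ) (I : Ideal (MvPolynomial (Fin 2) (Polynomial ℂ)))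
    (hI : IsHilbPoint n (Polynomial ℂ) I) (a : ℂ) {ι : Type} (G0 G1 : ι → MvPolynomial (Fin 2) ℂ)
    (hs : ∀ i, Special I a (G0 i) (G1 i))
    (hG : IsHilbPoint n ℂ (Ideal.span (Set.range G0))) :
    fib a I = Ideal.span (Set.range G0) := by
  have hle : Ideal.span (Set.range G0) ≤ fib a I := by
    rw [Ideal.span_le]
    rintro _ ⟨i, rfl⟩
    obtain ⟨r, hr⟩ := hs i
    have h1 := Ideal.mem_map_of_mem (MvPolynomial.map (Polynomial.evalRingHom a)) hr
    have h2 : MvPolynomial.map (Polynomial.evalRingHom a)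
        (MvPolynomial.map Polynomial.C (G0 i)
      + MvPolynomial.C (Polynomial.X - Polynomial.C a) * MvPolynomial.map Polynomial.C (G1 i)
      + MvPolynomial.C ((Polynomial.X - Polynomial.C a) ^ 2) * r) = G0 i := by
      rw [map_add, map_add, map_mul, map_mul, MvPolynomial.map_C, MvPolynomial.map_C,
        MvPolynomial.map_map]
      have h3 : (Polynomial.evalRingHom a).comp Polynomial.C = RingHom.id ℂ := by
        ext <;> simp
      rw [h3, MvPolynomial.map_id]
      simp
    rw [h2] at h1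
    exact h1
  obtain ⟨h1, h2, h3⟩ := fib_hilb n I hI a
  obtain ⟨k1, k2, k3⟩ := hG
  refine le_antisymm ?_ hle
  let F : (MvPolynomial (Fin 2) ℂ ⧸ Ideal.span (Set.range G0)) →ₗ[ℂ]
      (MvPolynomial (Fin 2) ℂ ⧸ fib a I) :=
    (Ideal.Quotient.factorₐ ℂ hle).toLinearMap
  have hF : Function.Surjective F := Ideal.Quotient.factor_surjective hle
  have hF' : Function.Injective F :=
    (LinearMap.injective_iff_surjective_of_finrank_eq_finrank (by rw [h3, k3])).2 hF
  intro w hw
  rw [← Ideal.Quotient.eq_zero_iff_mem] at hw ⊢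
  apply hF'
  rw [map_zero]
  exact hw

/-- TARGET 3 -/
theorem not_diffZero (I : Ideal (MvPolynomial (Fin 2) (Polynomial ℂ))) (a : ℂ)
    (G0 G1 : MvPolynomial (Fin 2) ℂ) (hs : Special I a G0 G1) (hG : G1 ∉ fib a I) :
    ¬ DiffZero a I := by
  intro hd
  obtain ⟨r, hr⟩ := hs
  have hE := Ideal.mem_map_of_mem (MvPolynomial.map (jet a)) hr
  have hd' : Ideal.map (MvPolynomial.map (jet a)) I =
      baseChange (algebraMap ℂ (DualNumber ℂ)) (fib a I) := hd
  rw [hd'] at hE
  have j1 : jet a (Polynomial.X - Polynomial.C a) = DualNumber.eps := by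
    simp [jet]
  have j2 : jet a ((Polynomial.X - Polynomial.C a) ^ 2) = 0 := by
    rw [map_pow, j1, sq, DualNumber.eps_mul_eps]
  have j3 : (jet a).comp Polynomial.C = algebraMap ℂ (DualNumber ℂ) := by
    refine RingHom.ext fun c => ?_
    simp [jet]
  rw [map_add, map_add, map_mul, map_mul, MvPolynomial.map_C, MvPolynomial.map_C, j1, j2,
    MvPolynomial.map_map, MvPolynomial.map_map, j3, map_zero, zero_mul, add_zero] at hE
  let R : Type := MvPolynomial (Fin 2) ℂ
  let K : Ideal (DualNumber R) :=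
    { carrier := {u | TrivSqZeroExt.fst u ∈ fib a I ∧ TrivSqZeroExt.snd u ∈ fib a I}
      add_mem' := by
        rintro x y ⟨h1, h2⟩ ⟨h3, h4⟩
        exact ⟨by rw [TrivSqZeroExt.fst_add]; exact Ideal.add_mem _ h1 h3,
          by rw [TrivSqZeroExt.snd_add]; exact Ideal.add_mem _ h2 h4⟩
      zero_mem' := ⟨by rw [TrivSqZeroExt.fst_zero]; exact Ideal.zero_mem _,
        by rw [TrivSqZeroExt.snd_zero]; exact Ideal.zero_mem _⟩
      smul_mem' := by
        rintro x y ⟨h3, h4⟩
        refine ⟨?_, ?_⟩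
        · rw [smul_eq_mul, TrivSqZeroExt.fst_mul]; exact Ideal.mul_mem_left _ _ h3
        · rw [smul_eq_mul, DualNumber.snd_mul]
          exact Ideal.add_mem _ (Ideal.mul_mem_left _ _ h4) (Ideal.mul_mem_left _ _ h3) }
  let cf : DualNumber ℂ →ₐ[ℂ] DualNumber R :=
    DualNumber.lift ⟨(Algebra.ofId ℂ (DualNumber R), DualNumber.eps),
      DualNumber.eps_mul_eps, fun _ => Commute.all _ _⟩
  have cf1 : cf DualNumber.eps = DualNumber.eps := DualNumber.lift_apply_eps _
  let Ψ : MvPolynomial (Fin 2) (DualNumber ℂ) →+* DualNumber R :=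
    MvPolynomial.eval₂Hom cf.toRingHom (fun i => algebraMap R (DualNumber R) (MvPolynomial.X i))
  have hΨ : ∀ g : R, Ψ (MvPolynomial.map (algebraMap ℂ (DualNumber ℂ)) g) =
      algebraMap R (DualNumber R) g := by
    intro g
    have : Ψ.comp (MvPolynomial.map (algebraMap ℂ (DualNumber ℂ))) =
        algebraMap R (DualNumber R) := by
      refine MvPolynomial.ringHom_ext (fun c => ?_) (fun i => ?_)
      · rw [RingHom.comp_apply, MvPolynomial.map_C]
        show Ψ (MvPolynomial.C _) = _
        rw [MvPolynomial.coe_eval₂Hom, MvPolynomial.eval₂_C]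
        show cf (algebraMap ℂ (DualNumber ℂ) c) = _
        rw [AlgHom.commutes]
        rfl
      · rw [RingHom.comp_apply, MvPolynomial.map_X]
        show Ψ (MvPolynomial.X _) = _
        rw [MvPolynomial.coe_eval₂Hom, MvPolynomial.eval₂_X]
    exact RingHom.congr_fun this g
  have hle : baseChange (algebraMap ℂ (DualNumber ℂ)) (fib a I) ≤ K.comap Ψ := by
    unfold baseChange
    rw [Ideal.map_le_iff_le_comap]
    intro g hg
    rw [Ideal.mem_comap, Ideal.mem_comap, hΨ]
    exact ⟨hg, Ideal.zero_mem _⟩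
  have h5 := hle hE
  rw [Ideal.mem_comap, map_add, map_mul, hΨ, hΨ] at h5
  have h6 : Ψ (MvPolynomial.C DualNumber.eps) = DualNumber.eps := by
    show Ψ (MvPolynomial.C _) = _
    rw [MvPolynomial.coe_eval₂Hom, MvPolynomial.eval₂_C]
    exact cf1
  rw [h6] at h5
  have h7 := h5.2
  apply hG
  have h8 : TrivSqZeroExt.snd (algebraMap R (DualNumber R) G0 +
      DualNumber.eps * algebraMap R (DualNumber R) G1) = G1 := by
    rw [TrivSqZeroExt.snd_add, DualNumber.snd_mul]
    simp [TrivSqZeroExt.algebraMap_eq_inl]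
  rwa [h8] at h7

end MP4403b8
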