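import Mathlib
import Pool.Agent.HilbP1.Defs

set_option autoImplicit false

namespace MP4403b8

/-- TARGET 1 -/
theorem hilb_comap {L : Type*} [Field L] (n : ℕ) (u v : Polynomial L)
    (hs : Function.Surjective (MvPolynomial.aeval ![u, v] : MvPolynomial (Fin 2) L →ₐ[L] Polynomial L)) :
    IsHilbPoint n L ((Ideal.span {(Polynomial.X : Polynomial L) ^ n}).comap
      (MvPolynomial.aeval ![u, v] : MvPolynomial (Fin 2) L →ₐ[L] Polynomial L).toRingHom) := by
  set φ : MvPolynomial (Fin 2) L →ₐ[L] Polynomial L := MvPolynomial.aeval ![u, v] with hφ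
  set J : Ideal (Polynomial L) := Ideal.span {(Polynomial.X : Polynomial L) ^ n} with hJ
  let f : MvPolynomial (Fin 2) L →ₐ[L] (Polynomial L ⧸ J) := (Ideal.Quotient.mkₐ L J).comp φ
  have hf : Function.Surjective f := (Ideal.Quotient.mkₐ_surjective L J).comp hs
  have hker : J.comap φ.toRingHom = RingHom.ker f := by
    ext g
    rw [Ideal.mem_comap, RingHom.mem_ker]
    exact Ideal.Quotient.eq_zero_iff_mem.symm
  rw [hker]
  let e := Ideal.quotientKerAlgEquivOfSurjective hf
  have hfin : Module.Finite L (Polynomial L ⧸ J) :=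
    (Polynomial.monic_X_pow n).finite_quotient
  refine ⟨Module.Finite.equiv e.symm.toLinearEquiv, Module.Free.of_divisionRing _ _, ?_⟩
  rw [e.toLinearEquiv.finrank_eq, hJ, finrank_quotient_span_eq_natDegree,
    Polynomial.natDegree_X_pow]

theorem aeval_aeval_X1 {L : Type*} [Field L] (f q : Polynomial L) :
    (MvPolynomial.aeval ![f, Polynomial.X] : MvPolynomial (Fin 2) L →ₐ[L] Polynomial L)
      (Polynomial.aeval (MvPolynomial.X 1 : MvPolynomial (Fin 2) L) q) = q := by
  have h : ((MvPolynomial.aeval ![f, Polynomial.X] :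
      MvPolynomial (Fin 2) L →ₐ[L] Polynomial L).comp
      (Polynomial.aeval (MvPolynomial.X 1 : MvPolynomial (Fin 2) L))) = AlgHom.id L _ := by
    apply Polynomial.algHom_ext
    simp
  exact congrArg (fun g : Polynomial L →ₐ[L] Polynomial L => g q) h

/-- TARGET 2 -/
theorem hilb_JJ {L : Type*} [Field L] (n : ℕ) (f : Polynomial L) : IsHilbPoint n L (JJ n f) := by
  apply hilb_comap
  intro q
  exact ⟨_, aeval_aeval_X1 f q⟩

/-- TARGET 3 -/
theorem hilb_col (n : ℕ) (hn : 1 ≤ n) (c : ℂ) (hc : c ≠ 0) :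
    IsHilbPoint n ℂ (Ideal.span (Set.range
      (![MvPolynomial.C c * MvPolynomial.X 1, MvPolynomial.X 0 ^ n] :
        Fin 2 → MvPolynomial (Fin 2) ℂ))) := by
  have hs : Function.Surjective (MvPolynomial.aeval ![(Polynomial.X : Polynomial ℂ), 0] :
      MvPolynomial (Fin 2) ℂ →ₐ[ℂ] Polynomial ℂ) := by
    intro q
    refine ⟨Polynomial.aeval (MvPolynomial.X 0 : MvPolynomial (Fin 2) ℂ) q, ?_⟩
    have h : ((MvPolynomial.aeval ![(Polynomial.X : Polynomial ℂ), 0] :
        MvPolynomial (Fin 2) ℂ →ₐ[ℂ] Polynomial ℂ).comp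
        (Polynomial.aeval (MvPolynomial.X 0 : MvPolynomial (Fin 2) ℂ))) = AlgHom.id ℂ _ := by
      apply Polynomial.algHom_ext
      simp
    exact congrArg (fun g : Polynomial ℂ →ₐ[ℂ] Polynomial ℂ => g q) h
  have h := hilb_comap n (Polynomial.X : Polynomial ℂ) 0 hs
  set I := Ideal.span (Set.range
      (![MvPolynomial.C c * MvPolynomial.X 1, MvPolynomial.X 0 ^ n] :
        Fin 2 → MvPolynomial (Fin 2) ℂ)) with hI
  have m0 : MvPolynomial.C c * MvPolynomial.X 1 ∈ I := Ideal.subset_span ⟨0, rfl⟩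
  have m1 : MvPolynomial.X 0 ^ n ∈ I := Ideal.subset_span ⟨1, rfl⟩
  have m2 : MvPolynomial.X 1 ∈ I := by
    have h1 := I.mul_mem_left (MvPolynomial.C c⁻¹) m0
    rw [← mul_assoc, ← MvPolynomial.C_mul, inv_mul_cancel₀ hc, MvPolynomial.C_1, one_mul] at h1
    exact h1
  have heq : I = (Ideal.span {(Polynomial.X : Polynomial ℂ) ^ n}).comap
      (MvPolynomial.aeval ![(Polynomial.X : Polynomial ℂ), 0] :
        MvPolynomial (Fin 2) ℂ →ₐ[ℂ] Polynomial ℂ).toRingHom := by
    apply le_antisymm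
    · rw [hI, Ideal.span_le]
      rintro _ ⟨i, rfl⟩
      rw [SetLike.mem_coe, Ideal.mem_comap]
      fin_cases i
      · change (MvPolynomial.aeval ![(Polynomial.X : Polynomial ℂ), 0])
          (MvPolynomial.C c * MvPolynomial.X 1) ∈ _
        simp
      · change (MvPolynomial.aeval ![(Polynomial.X : Polynomial ℂ), 0])
          (MvPolynomial.X 0 ^ n) ∈ _
        simp
    · intro g hg
      rw [Ideal.mem_comap, Ideal.mem_span_singleton] at hg
      obtain ⟨q, hq⟩ := hg
      change (MvPolynomial.aeval ![(Polynomial.X : Polynomial ℂ), 0]) g = _ at hq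
      -- `g ≡ g(x, 0)` modulo `I`
      have h1 : (Ideal.Quotient.mkₐ ℂ I) = (Ideal.Quotient.mkₐ ℂ I).comp
          ((Polynomial.aeval (MvPolynomial.X 0 : MvPolynomial (Fin 2) ℂ)).comp
          (MvPolynomial.aeval ![(Polynomial.X : Polynomial ℂ), 0])) := by
        apply MvPolynomial.algHom_ext
        intro i
        fin_cases i
        · simp
        · simp only [AlgHom.comp_apply]
          simp
          exact Ideal.Quotient.eq_zero_iff_mem.2 m2
      have h2 := congrArg (fun F : MvPolynomial (Fin 2) ℂ →ₐ[ℂ] (MvPolynomial (Fin 2) ℂ ⧸ I) => F g) h1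
      simp only [AlgHom.comp_apply] at h2
      rw [hq, map_mul, map_mul, map_pow, Polynomial.aeval_X] at h2
      have h3 : (Ideal.Quotient.mkₐ ℂ I) (MvPolynomial.X 0 ^ n) = 0 :=
        Ideal.Quotient.eq_zero_iff_mem.2 m1
      rw [h3, zero_mul] at h2
      exact Ideal.Quotient.eq_zero_iff_mem.1 h2
  rw [heq]
  exact h

theorem sub_mem_JJ {L : Type*} [Field L] (n : ℕ) (f : Polynomial L) :
    MvPolynomial.X 0 - Polynomial.aeval (MvPolynomial.X 1 : MvPolynomial (Fin 2) L) f ∈ JJ n f := by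
  rw [mem_JJ, map_sub, aeval_aeval_X1]
  simp

/-- TARGET 4: distinct truncated polynomials give distinct ideals -/
theorem JJ_inj {L : Type*} [Field L] (n : ℕ) (f f' : Polynomial L) (h : JJ n f = JJ n f') :
    (Polynomial.X : Polynomial L) ^ n ∣ f - f' := by
  have h1 := sub_mem_JJ n f
  rw [h, mem_JJ, map_sub, aeval_aeval_X1] at h1
  rw [← dvd_neg, neg_sub]
  simpa using h1

/-- TARGET 5: a curvilinear ideal that is monomial is `(x, y^n)` -/
theorem JJ_monomial (n : ℕ) (f : Polynomial ℂ) (hf : f.coeff 0 = 0)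
    (h : IsMonomialIdeal (JJ n f)) : (Polynomial.X : Polynomial ℂ) ^ n ∣ f := by
  obtain ⟨S, hS⟩ := h
  have h1 := sub_mem_JJ n f
  rw [hS, MvPolynomial.mem_ideal_span_monomial_image] at h1
  have h2 : MvPolynomial.coeff (Finsupp.single 0 1)
      (Polynomial.aeval (MvPolynomial.X 1 : MvPolynomial (Fin 2) ℂ) f) = 0 := by
    rw [Polynomial.aeval_eq_sum_range, MvPolynomial.coeff_sum]
    refine Finset.sum_eq_zero fun k _ => ?_
    rw [MvPolynomial.coeff_smul, MvPolynomial.coeff_X_pow, if_neg, smul_zero]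
    intro h3
    have := DFunLike.congr_fun h3 0
    simp at this
  have h3 : Finsupp.single 0 1 ∈ (MvPolynomial.X 0 -
      Polynomial.aeval (MvPolynomial.X 1 : MvPolynomial (Fin 2) ℂ) f).support := by
    rw [MvPolynomial.mem_support_iff, MvPolynomial.coeff_sub, h2, sub_zero, MvPolynomial.coeff_X]
    rw [if_pos rfl]
    exact one_ne_zero
  obtain ⟨si, hsi, hle⟩ := h1 _ h3
  have h4 : (MvPolynomial.X 0 : MvPolynomial (Fin 2) ℂ) ∈ JJ n f := by
    rw [hS, MvPolynomial.mem_ideal_span_monomial_image]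
    intro xi hxi
    rw [MvPolynomial.support_X, Finset.mem_singleton] at hxi
    rw [hxi]
    exact ⟨si, hsi, hle⟩
  rw [mem_JJ] at h4
  simpa using h4

/-- TARGET 6: `(y, x^n)` is not curvilinear over `y` -/
theorem col_ne_JJ (n : ℕ) (hn : 2 ≤ n) (c : ℂ) (hc : c ≠ 0) (f : Polynomial ℂ)
    (hf : f.coeff 0 = 0) :
    Ideal.span (Set.range
      (![MvPolynomial.C c * MvPolynomial.X 1, MvPolynomial.X 0 ^ n] :
        Fin 2 → MvPolynomial (Fin 2) ℂ)) ≠ JJ n f := by
  intro h
  have m0 : MvPolynomial.C c * MvPolynomial.X 1 ∈ Ideal.span (Set.range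
      (![MvPolynomial.C c * MvPolynomial.X 1, MvPolynomial.X 0 ^ n] :
        Fin 2 → MvPolynomial (Fin 2) ℂ)) := Ideal.subset_span ⟨0, rfl⟩
  rw [h, mem_JJ, Polynomial.X_pow_dvd_iff] at m0
  have h1 := m0 1 (by omega)
  simp at h1
  exact hc h1

end MP4403b8
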