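import Mathlib
import Pool.Agent.HilbP1.P1
import Pool.Agent.HilbP1.P3
import Pool.Agent.HilbP1.P4

set_option autoImplicit false

namespace MP4403b8

theorem taylor2 (p : Polynomial ℂ) (a : ℂ) : ∃ r : Polynomial ℂ,
    p = Polynomial.C (p.eval a) + (Polynomial.X - Polynomial.C a)
      * Polynomial.C ((Polynomial.derivative p).eval a) + (Polynomial.X - Polynomial.C a) ^ 2 * r := by
  have h1 := Polynomial.modByMonic_add_div p (Polynomial.X - Polynomial.C a)
  rw [Polynomial.modByMonic_X_sub_C_eq_C_eval] at h1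
  set q := p /ₘ (Polynomial.X - Polynomial.C a) with hq
  have h2 := Polynomial.modByMonic_add_div q (Polynomial.X - Polynomial.C a)
  rw [Polynomial.modByMonic_X_sub_C_eq_C_eval] at h2
  have h3 : (Polynomial.derivative p).eval a = q.eval a := by
    rw [← h1]
    simp
  refine ⟨q /ₘ (Polynomial.X - Polynomial.C a), ?_⟩
  rw [h3]
  conv_lhs => rw [← h1, ← h2]
  ring

theorem lin_eval {L : Type*} [Field L] (n : ℕ) (q : L) (p : ℕ → L) (f : Polynomial L) :
    MvPolynomial.aeval ![f, Polynomial.X]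
      (MvPolynomial.C q * MvPolynomial.X 0
        - ∑ i ∈ Finset.Ico 1 n, MvPolynomial.C (p i) * MvPolynomial.X 1 ^ i : MvPolynomial (Fin 2) L)
    = Polynomial.C q * f - ∑ i ∈ Finset.Ico 1 n, Polynomial.monomial i (p i) := by
  simp only [map_sub, map_sum, map_mul, map_pow, MvPolynomial.aeval_X, MvPolynomial.aeval_C,
    Matrix.cons_val_zero, Matrix.cons_val_one, Polynomial.algebraMap_eq,
    Polynomial.C_mul_X_pow_eq_monomial]

theorem lin_zero {L : Type*} [Field L] (n : ℕ) (q : L) (hq : q ≠ 0) (p : ℕ → L) :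
    Polynomial.C q * (∑ i ∈ Finset.Ico 1 n, Polynomial.monomial i (p i / q))
      - ∑ i ∈ Finset.Ico 1 n, Polynomial.monomial i (p i) = 0 := by
  rw [Finset.mul_sum, sub_eq_zero]
  refine Finset.sum_congr rfl fun i _ => ?_
  rw [Polynomial.C_mul_monomial]
  congr 1
  field_simp

theorem span_eq_JJ (n : ℕ) (q : ℂ) (hq : q ≠ 0) (p : ℕ → ℂ) :
    Ideal.span (Set.range (![MvPolynomial.C q * MvPolynomial.X 0
        - ∑ i ∈ Finset.Ico 1 n, MvPolynomial.C (p i) * MvPolynomial.X 1 ^ i,
        MvPolynomial.X 1 ^ n] : Fin 2 → MvPolynomial (Fin 2) ℂ))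
      = JJ n (∑ i ∈ Finset.Ico 1 n, Polynomial.monomial i (p i / q)) := by
  set f : Polynomial ℂ := ∑ i ∈ Finset.Ico 1 n, Polynomial.monomial i (p i / q) with hf
  set g0 : MvPolynomial (Fin 2) ℂ := MvPolynomial.C q * MvPolynomial.X 0
        - ∑ i ∈ Finset.Ico 1 n, MvPolynomial.C (p i) * MvPolynomial.X 1 ^ i with hg0
  set J : Ideal (MvPolynomial (Fin 2) ℂ) := Ideal.span (Set.range (![g0,
        MvPolynomial.X 1 ^ n] : Fin 2 → MvPolynomial (Fin 2) ℂ)) with hJ
  have hg0J : g0 ∈ J := Ideal.subset_span ⟨0, rfl⟩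
  have hxJ : (MvPolynomial.X 1 : MvPolynomial (Fin 2) ℂ) ^ n ∈ J := Ideal.subset_span ⟨1, rfl⟩
  apply le_antisymm
  · rw [hJ, Ideal.span_le]
    rintro g ⟨i, rfl⟩
    rw [SetLike.mem_coe, mem_JJ]
    fin_cases i
    · have h : MvPolynomial.aeval ![f, Polynomial.X] g0 = 0 := by
        rw [hg0, lin_eval, hf, lin_zero n q hq p]
      show _ ∣ MvPolynomial.aeval ![f, Polynomial.X] g0
      rw [h]
      exact dvd_zero _
    · show _ ∣ MvPolynomial.aeval ![f, Polynomial.X] ((MvPolynomial.X 1 : MvPolynomial (Fin 2) ℂ) ^ n)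
      rw [map_pow, MvPolynomial.aeval_X]
      exact dvd_rfl
  · intro g hg
    rw [mem_JJ] at hg
    obtain ⟨h, hh⟩ := hg
    have key : (Ideal.Quotient.mkₐ ℂ J) = (Ideal.Quotient.mkₐ ℂ J).comp
        ((Polynomial.aeval (MvPolynomial.X 1 : MvPolynomial (Fin 2) ℂ)).comp
          (MvPolynomial.aeval ![f, Polynomial.X])) := by
      apply MvPolynomial.algHom_ext
      intro i
      fin_cases i
      · show Ideal.Quotient.mk J (MvPolynomial.X 0) = Ideal.Quotient.mk J _
        rw [Ideal.Quotient.eq]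
        have : (MvPolynomial.X 0 : MvPolynomial (Fin 2) ℂ) - (Polynomial.aeval
            (MvPolynomial.X 1 : MvPolynomial (Fin 2) ℂ)) ((MvPolynomial.aeval ![f, Polynomial.X])
              (MvPolynomial.X 0 : MvPolynomial (Fin 2) ℂ)) = MvPolynomial.C (q⁻¹) * g0 := by
          rw [MvPolynomial.aeval_X]
          simp only [Matrix.cons_val_zero, hf, hg0, map_sum, Polynomial.aeval_monomial]
          rw [mul_sub, ← mul_assoc, ← map_mul, inv_mul_cancel₀ hq, map_one, one_mul,
            Finset.mul_sum]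
          congr 1
          refine Finset.sum_congr rfl fun i _ => ?_
          rw [← mul_assoc, ← map_mul, MvPolynomial.algebraMap_eq]
          congr 2
          field_simp
        have h3 := J.mul_mem_left (MvPolynomial.C (q⁻¹)) hg0J
        rw [← this] at h3
        exact h3
      · show Ideal.Quotient.mk J (MvPolynomial.X 1) = Ideal.Quotient.mk J _
        congr 1
        simp
    have h2 : Ideal.Quotient.mk J g = Ideal.Quotient.mk J
        (Polynomial.aeval (MvPolynomial.X 1 : MvPolynomial (Fin 2) ℂ)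
          (MvPolynomial.aeval ![f, Polynomial.X] g)) := DFunLike.congr_fun key g
    rw [← Ideal.Quotient.eq_zero_iff_mem, h2, hh, Ideal.Quotient.eq_zero_iff_mem, map_mul,
      map_pow, Polynomial.aeval_X]
    exact J.mul_mem_right _ hxJ

/-- TARGET: regular points -/
theorem at_regular (n : ℕ) (hn : 1 ≤ n) (Q : Polynomial ℂ) (P : ℕ → Polynomial ℂ) (a : ℂ)
    (ha : Q.eval a ≠ 0) (F : Polynomial (RatFunc ℂ))
    (hF : F = ∑ i ∈ Finset.Ico 1 n, Polynomial.monomial i (j0 (P i) / j0 Q)) :
    (fib a (fam j0 n F) =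
      JJ n (∑ i ∈ Finset.Ico 1 n, Polynomial.monomial i ((P i).eval a / Q.eval a))) ∧
    ((∃ i ∈ Finset.Ico 1 n, (Polynomial.derivative (P i) * Q
        - P i * Polynomial.derivative Q).eval a ≠ 0) → ¬ DiffZero a (fam j0 n F)) := by
  have hQ0 : Q ≠ 0 := by
    rintro rfl
    simp at ha
  have hjQ : j0 Q ≠ 0 := by
    intro h
    apply hQ0
    apply isFrac_j0.1
    rw [h, map_zero]
  have hF0 : F.coeff 0 = 0 := by
    rw [hF, Polynomial.finset_sum_coeff]
    refine Finset.sum_eq_zero fun i hi => ?_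
    rw [Polynomial.coeff_monomial, if_neg]
    have := (Finset.mem_Ico.1 hi).1
    omega
  have hfam := fam_hilb j0 isFrac_j0 n F hF0
  choose tr htr using fun p : Polynomial ℂ => taylor2 p a
  set G0 : Fin 2 → MvPolynomial (Fin 2) ℂ := ![MvPolynomial.C (Q.eval a) * MvPolynomial.X 0
        - ∑ i ∈ Finset.Ico 1 n, MvPolynomial.C ((P i).eval a) * MvPolynomial.X 1 ^ i,
        MvPolynomial.X 1 ^ n] with hG0
  set G1 : Fin 2 → MvPolynomial (Fin 2) ℂ :=
    ![MvPolynomial.C ((Polynomial.derivative Q).eval a) * MvPolynomial.X 0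
        - ∑ i ∈ Finset.Ico 1 n, MvPolynomial.C ((Polynomial.derivative (P i)).eval a)
          * MvPolynomial.X 1 ^ i, 0] with hG1
  have hspan : Ideal.span (Set.range G0) = JJ n (∑ i ∈ Finset.Ico 1 n,
      Polynomial.monomial i ((P i).eval a / Q.eval a)) := by
    rw [hG0]
    exact span_eq_JJ n (Q.eval a) ha (fun i => (P i).eval a)
  have hsp : ∀ i, Special (fam j0 n F) a (G0 i) (G1 i) := by
    intro i
    fin_cases i
    · refine ⟨MvPolynomial.C (tr Q) * MvPolynomial.X 0
        - ∑ i ∈ Finset.Ico 1 n, MvPolynomial.C (tr (P i)) * MvPolynomial.X 1 ^ i, ?_⟩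
      have e : MvPolynomial.map Polynomial.C (G0 0)
        + MvPolynomial.C (Polynomial.X - Polynomial.C a) * MvPolynomial.map Polynomial.C (G1 0)
        + MvPolynomial.C ((Polynomial.X - Polynomial.C a) ^ 2) * (MvPolynomial.C (tr Q) * MvPolynomial.X 0
        - ∑ i ∈ Finset.Ico 1 n, MvPolynomial.C (tr (P i)) * MvPolynomial.X 1 ^ i)
        = MvPolynomial.C Q * MvPolynomial.X 0
        - ∑ i ∈ Finset.Ico 1 n, MvPolynomial.C (P i) * MvPolynomial.X 1 ^ i := by
        have e1 : MvPolynomial.map Polynomial.C (G0 0) = MvPolynomial.C (Polynomial.C (Q.eval a))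
            * MvPolynomial.X 0 - ∑ i ∈ Finset.Ico 1 n,
            MvPolynomial.C (Polynomial.C ((P i).eval a)) * MvPolynomial.X 1 ^ i := by
          simp [hG0]
        have e2 : MvPolynomial.map Polynomial.C (G1 0) = MvPolynomial.C
            (Polynomial.C ((Polynomial.derivative Q).eval a))
            * MvPolynomial.X 0 - ∑ i ∈ Finset.Ico 1 n,
            MvPolynomial.C (Polynomial.C ((Polynomial.derivative (P i)).eval a))
              * MvPolynomial.X 1 ^ i := by
          simp [hG1]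
        rw [e1, e2]
        have e3 : ∑ i ∈ Finset.Ico 1 n, (MvPolynomial.C (P i) * MvPolynomial.X 1 ^ i :
            MvPolynomial (Fin 2) (Polynomial ℂ)) =
            ∑ i ∈ Finset.Ico 1 n, MvPolynomial.C (Polynomial.C ((P i).eval a)) * MvPolynomial.X 1 ^ i
            + MvPolynomial.C (Polynomial.X - Polynomial.C a) * ∑ i ∈ Finset.Ico 1 n,
              MvPolynomial.C (Polynomial.C ((Polynomial.derivative (P i)).eval a))
                * MvPolynomial.X 1 ^ i
            + MvPolynomial.C ((Polynomial.X - Polynomial.C a) ^ 2) *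
              ∑ i ∈ Finset.Ico 1 n, MvPolynomial.C (tr (P i)) * MvPolynomial.X 1 ^ i := by
          rw [Finset.mul_sum, Finset.mul_sum, ← Finset.sum_add_distrib, ← Finset.sum_add_distrib]
          refine Finset.sum_congr rfl fun i _ => ?_
          conv_lhs => rw [htr (P i)]
          simp only [map_add, map_mul]
          ring
        rw [e3]
        conv_rhs => rw [htr Q]
        simp only [map_add, map_mul]
        ring
      show _ + _ * MvPolynomial.map Polynomial.C (G1 0) + _ ∈ _
      rw [show ((fun i => i) ⟨0, by norm_num⟩ : Fin 2) = 0 from rfl]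
      rw [e]
      unfold fam
      rw [Ideal.mem_comap, mem_JJ]
      have e4 : MvPolynomial.map j0 (MvPolynomial.C Q * MvPolynomial.X 0
        - ∑ i ∈ Finset.Ico 1 n, MvPolynomial.C (P i) * MvPolynomial.X 1 ^ i)
        = (MvPolynomial.C (j0 Q) * MvPolynomial.X 0
        - ∑ i ∈ Finset.Ico 1 n, MvPolynomial.C (j0 (P i)) * MvPolynomial.X 1 ^ i :
          MvPolynomial (Fin 2) (RatFunc ℂ)) := by
        simp
      rw [e4, lin_eval, hF, lin_zero n (j0 Q) hjQ (fun i => j0 (P i))]
      exact dvd_zero _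
    · refine ⟨0, ?_⟩
      have e : MvPolynomial.map Polynomial.C (G0 1)
        + MvPolynomial.C (Polynomial.X - Polynomial.C a) * MvPolynomial.map Polynomial.C (G1 1)
        + MvPolynomial.C ((Polynomial.X - Polynomial.C a) ^ 2) * 0
        = (MvPolynomial.X 1 : MvPolynomial (Fin 2) (Polynomial ℂ)) ^ n := by
        simp [hG0, hG1]
      show MvPolynomial.map Polynomial.C (G0 1)
        + MvPolynomial.C (Polynomial.X - Polynomial.C a) * MvPolynomial.map Polynomial.C (G1 1)
        + MvPolynomial.C ((Polynomial.X - Polynomial.C a) ^ 2) * 0 ∈ _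
      rw [e]
      unfold fam
      rw [Ideal.mem_comap, mem_JJ, map_pow, MvPolynomial.map_X, map_pow, MvPolynomial.aeval_X]
      exact dvd_rfl
  have hfib : fib a (fam j0 n F) = JJ n (∑ i ∈ Finset.Ico 1 n,
      Polynomial.monomial i ((P i).eval a / Q.eval a)) := by
    rw [← hspan]
    exact fib_eq n _ hfam a G0 G1 hsp (by rw [hspan]; exact hilb_JJ n _)
  refine ⟨hfib, ?_⟩
  rintro ⟨i, hi, hne⟩
  apply not_diffZero _ a (G0 0) (G1 0) (hsp 0)
  rw [hfib, mem_JJ]
  have e5 : G1 0 = MvPolynomial.C ((Polynomial.derivative Q).eval a) * MvPolynomial.X 0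
        - ∑ i ∈ Finset.Ico 1 n, MvPolynomial.C ((Polynomial.derivative (P i)).eval a)
          * MvPolynomial.X 1 ^ i := rfl
  rw [e5, lin_eval, Polynomial.X_pow_dvd_iff]
  intro hd
  have := hd i (Finset.mem_Ico.1 hi).2
  rw [Polynomial.coeff_sub, Polynomial.coeff_C_mul, Polynomial.finset_sum_coeff,
    Polynomial.finset_sum_coeff] at this
  simp only [Polynomial.coeff_monomial, Finset.sum_ite_eq', hi, if_true] at this
  apply hne
  simp only [Polynomial.eval_sub, Polynomial.eval_mul]
  field_simp at this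
  linear_combination (-1 : ℂ) * this

end MP4403b8
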