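import Mathlib
import Pool.Agent.HilbP1.Defs

set_option autoImplicit false

namespace MP4403b8

/-- algebraic closure operator (over `ℚ`) on subsets of `ℂ` -/
noncomputable def cl (s : Set ℂ) : Set ℂ := (AlgebraicIndependent.matroid ℚ ℂ).closure s

/-- the corresponding subalgebra -/
noncomputable def clA (s : Set ℂ) : Subalgebra (Algebra.adjoin ℚ s) ℂ :=
  Subalgebra.algebraicClosure (Algebra.adjoin ℚ s) ℂ

lemma mem_cl_iff {s : Set ℂ} {x : ℂ} : x ∈ cl s ↔ x ∈ clA s := by
  unfold cl clA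
  rw [AlgebraicIndependent.matroid_closure_eq]
  rfl

lemma mem_cl {s : Set ℂ} {x : ℂ} : x ∈ cl s ↔ IsAlgebraic (Algebra.adjoin ℚ s) x := by
  rw [mem_cl_iff]; rfl

lemma subset_cl (s : Set ℂ) : s ⊆ cl s :=
  Matroid.subset_closure _ _ (by simp)

lemma cl_mono {s t : Set ℂ} (h : s ⊆ t) : cl s ⊆ cl t :=
  Matroid.closure_subset_closure _ h

lemma cl_le {s t : Set ℂ} (h : s ⊆ cl t) : cl s ⊆ cl t := by
  have := cl_mono h
  unfold cl at *
  rwa [Matroid.closure_closure] at this

lemma cl_exchange {s : Set ℂ} {e f : ℂ} (h1 : e ∉ cl s) (h2 : e ∈ cl (insert f s)) :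
    f ∈ cl (insert e s) :=
  Matroid.mem_closure_insert h1 h2

lemma cl_add {s : Set ℂ} {x y : ℂ} (hx : x ∈ cl s) (hy : y ∈ cl s) : x + y ∈ cl s := by
  rw [mem_cl_iff] at *; exact add_mem hx hy

lemma cl_sub {s : Set ℂ} {x y : ℂ} (hx : x ∈ cl s) (hy : y ∈ cl s) : x - y ∈ cl s := by
  rw [mem_cl_iff] at *; exact sub_mem hx hy

lemma cl_neg {s : Set ℂ} {x : ℂ} (hx : x ∈ cl s) : -x ∈ cl s := by
  rw [mem_cl_iff] at *; exact neg_mem hx

lemma cl_mul {s : Set ℂ} {x y : ℂ} (hx : x ∈ cl s) (hy : y ∈ cl s) : x * y ∈ cl s := by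
  rw [mem_cl_iff] at *; exact mul_mem hx hy

lemma cl_natCast {s : Set ℂ} (n : ℕ) : (n : ℂ) ∈ cl s := by
  rw [mem_cl_iff]; exact natCast_mem _ n

lemma cl_pow {s : Set ℂ} {x : ℂ} (hx : x ∈ cl s) (n : ℕ) : x ^ n ∈ cl s := by
  rw [mem_cl_iff] at *; exact pow_mem hx n

lemma cl_sum {s : Set ℂ} {ι : Type*} (t : Finset ι) (f : ι → ℂ) (h : ∀ i ∈ t, f i ∈ cl s) :
    ∑ i ∈ t, f i ∈ cl s := by
  rw [mem_cl_iff]
  exact sum_mem (fun i hi => mem_cl_iff.mp (h i hi))

lemma cl_inv {s : Set ℂ} {x : ℂ} (hx : x ∈ cl s) : x⁻¹ ∈ cl s := by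
  rw [mem_cl] at *
  exact hx.inv

lemma cl_div {s : Set ℂ} {x y : ℂ} (hx : x ∈ cl s) (hy : y ∈ cl s) : x / y ∈ cl s := by
  rw [div_eq_mul_inv]; exact cl_mul hx (cl_inv hy)

lemma cl_countable {s : Set ℂ} (hs : s.Countable) : (cl s).Countable := by
  have h1 : Countable (Algebra.adjoin ℚ s) := by
    have := Algebra.lift_cardinalMk_adjoin_le ℚ (A := ℂ) s
    rw [← Cardinal.mk_le_aleph0_iff]
    have h2 : Cardinal.mk s ≤ Cardinal.aleph0 := by
      rw [Cardinal.mk_le_aleph0_iff]; exact hs.to_subtype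
    have h3 : Cardinal.mk ℚ ≤ Cardinal.aleph0 := Cardinal.mk_le_aleph0
    simp only [Cardinal.lift_id] at this
    exact this.trans (max_le (max_le h3 h2) le_rfl)
  have h2 := Algebraic.countable (Algebra.adjoin ℚ s) ℂ
  refine h2.mono ?_
  intro x hx
  exact mem_cl.mp hx

lemma exists_not_mem_cl {s : Set ℂ} (hs : s.Countable) : ∃ r, r ∉ cl s := by
  by_contra h
  push Not at h
  have : (Set.univ : Set ℂ).Countable := (cl_countable hs).mono (fun x _ => h x)
  exact not_countable_complex this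

lemma cl_root {s : Set ℂ} (P : Polynomial ℂ) (hP : P ≠ 0) (hc : ∀ n, P.coeff n ∈ cl s) (a : ℂ)
    (ha : P.eval a = 0) : a ∈ cl s := by
  have h1 : IsAlgebraic (clA s) a := by
    have hl : P ∈ Polynomial.lifts (algebraMap (clA s) ℂ) := by
      rw [Polynomial.lifts_iff_coeff_lifts]
      intro n
      exact ⟨⟨P.coeff n, mem_cl_iff.mp (hc n)⟩, rfl⟩
    obtain ⟨P', hP'⟩ := hl
    simp only [Polynomial.coe_mapRingHom] at hP'
    refine ⟨P', ?_, ?_⟩
    · rintro rfl
      apply hP
      rw [← hP', Polynomial.map_zero]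
    · rw [Polynomial.aeval_def, Polynomial.eval₂_eq_eval_map, hP', ha]
  rw [mem_cl]
  unfold clA at h1
  exact h1.restrictScalars (Algebra.adjoin ℚ s)

lemma cl_eval {s : Set ℂ} (P : Polynomial ℂ) (hc : ∀ n, P.coeff n ∈ cl s) {a : ℂ}
    (ha : a ∈ cl s) : P.eval a ∈ cl s := by
  rw [Polynomial.eval_eq_sum_range]
  exact cl_sum _ _ (fun i _ => cl_mul (hc i) (cl_pow ha i))

lemma coeff_mul_mem {s : Set ℂ} (P R : Polynomial ℂ) (hP : ∀ n, P.coeff n ∈ cl s)
    (hR : ∀ n, R.coeff n ∈ cl s) : ∀ n, (P * R).coeff n ∈ cl s := by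
  intro n
  rw [Polynomial.coeff_mul]
  exact cl_sum _ _ (fun i _ => cl_mul (hP _) (hR _))

lemma coeff_derivative_mem {s : Set ℂ} (P : Polynomial ℂ) (hP : ∀ n, P.coeff n ∈ cl s) :
    ∀ n, (Polynomial.derivative P).coeff n ∈ cl s := by
  intro n
  rw [Polynomial.coeff_derivative]
  have : ((n : ℂ) + 1) = ((n + 1 : ℕ) : ℂ) := by push_cast; ring
  rw [this]
  exact cl_mul (hP _) (cl_natCast _)

lemma coeff_sub_mem {s : Set ℂ} (P R : Polynomial ℂ) (hP : ∀ n, P.coeff n ∈ cl s)
    (hR : ∀ n, R.coeff n ∈ cl s) : ∀ n, (P - R).coeff n ∈ cl s := by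
  intro n
  rw [Polynomial.coeff_sub]
  exact cl_sub (hP n) (hR n)

lemma coeff_C_mul_mem {s : Set ℂ} (c : ℂ) (hc : c ∈ cl s) (R : Polynomial ℂ)
    (hR : ∀ n, R.coeff n ∈ cl s) : ∀ n, (Polynomial.C c * R).coeff n ∈ cl s := by
  intro n
  rw [Polynomial.coeff_C_mul]
  exact cl_mul hc (hR n)

/-- the linear step -/
lemma linear_step {s t : Set ℂ} {r1 r2 α β γ : ℂ} (hst : s ⊆ t) (hr1t : r1 ∈ cl t)
    (h1 : r1 ∉ cl s) (h2 : r2 ∉ cl t) (hα : α ∈ cl s) (hβ : β ∈ cl s) (hγ : γ ∈ cl s)
    (hne : α ≠ 0 ∨ β ≠ 0) (h : γ + r1 * α + r2 * β = 0) : False := by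
  by_cases hb : β = 0
  · have ha : α ≠ 0 := hne.resolve_right (not_not.mpr hb)
    apply h1
    have : r1 = (-γ) / α := by
      rw [eq_div_iff ha]
      rw [hb] at h
      linear_combination h
    rw [this]
    exact cl_div (cl_neg hγ) hα
  · apply h2
    have : r2 = (-(γ + r1 * α)) / β := by
      rw [eq_div_iff hb]
      linear_combination h
    rw [this]
    exact cl_div (cl_neg (cl_add (cl_mono hst hγ) (cl_mul hr1t (cl_mono hst hα)))) (cl_mono hst hβ)

lemma coeff_X_mul_deriv (B : Polynomial ℂ) (d : ℕ) :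
    (Polynomial.X * Polynomial.derivative B).coeff d = d * B.coeff d := by
  cases d with
  | zero => simp
  | succ k =>
    rw [Polynomial.coeff_X_mul, Polynomial.coeff_derivative]
    push_cast; ring

lemma natDegree_X_mul_deriv_le (B : Polynomial ℂ) :
    (Polynomial.X * Polynomial.derivative B).natDegree ≤ B.natDegree := by
  rw [Polynomial.natDegree_le_iff_coeff_eq_zero]
  intro n hn
  rw [coeff_X_mul_deriv, Polynomial.coeff_eq_zero_of_natDegree_lt hn, mul_zero]

lemma deg_eq_of_wronskian (B Q : Polynomial ℂ) (hB : B ≠ 0) (hQ : Q ≠ 0)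
    (h : Polynomial.derivative B * Q = B * Polynomial.derivative Q) :
    B.natDegree = Q.natDegree := by
  have h1 : (Polynomial.X * Polynomial.derivative B) * Q =
      B * (Polynomial.X * Polynomial.derivative Q) := by
    linear_combination Polynomial.X * h
  have h2 := congrArg (fun p => Polynomial.coeff p (B.natDegree + Q.natDegree)) h1
  rw [Polynomial.coeff_mul_add_eq_of_natDegree_le (natDegree_X_mul_deriv_le B) le_rfl,
    Polynomial.coeff_mul_add_eq_of_natDegree_le le_rfl (natDegree_X_mul_deriv_le Q),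
    coeff_X_mul_deriv, coeff_X_mul_deriv] at h2
  have hb : B.coeff B.natDegree ≠ 0 := by
    rw [Polynomial.coeff_natDegree]; exact Polynomial.leadingCoeff_ne_zero.mpr hB
  have hq : Q.coeff Q.natDegree ≠ 0 := by
    rw [Polynomial.coeff_natDegree]; exact Polynomial.leadingCoeff_ne_zero.mpr hQ
  have h3 : ((B.natDegree : ℂ) - Q.natDegree) *
      (B.coeff B.natDegree * Q.coeff Q.natDegree) = 0 := by
    linear_combination h2
  have h4 := (mul_eq_zero.mp h3).resolve_right (mul_ne_zero hb hq)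
  exact_mod_cast sub_eq_zero.mp h4

lemma wronskian_ne_zero (B Q : Polynomial ℂ) (hQ : Q ≠ 0)
    (hB : ∀ κ : ℂ, B ≠ Polynomial.C κ * Q) :
    Polynomial.derivative B * Q - B * Polynomial.derivative Q ≠ 0 := by
  intro h
  have hB0 : B ≠ 0 := by
    intro h0
    apply hB 0
    rw [h0]; simp
  have h' : Polynomial.derivative B * Q = B * Polynomial.derivative Q := sub_eq_zero.mp h
  have hd := deg_eq_of_wronskian B Q hB0 hQ h'
  have hq : Q.leadingCoeff ≠ 0 := Polynomial.leadingCoeff_ne_zero.mpr hQ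
  set κ : ℂ := B.leadingCoeff / Q.leadingCoeff with hκ
  set R : Polynomial ℂ := B - Polynomial.C κ * Q with hR
  have hR0 : R ≠ 0 := by
    intro h0
    exact hB κ (sub_eq_zero.mp (hR ▸ h0))
  have hW : Polynomial.derivative R * Q = R * Polynomial.derivative Q := by
    rw [hR]
    simp only [Polynomial.derivative_sub, Polynomial.derivative_mul, Polynomial.derivative_C]
    linear_combination h'
  have hdR := deg_eq_of_wronskian R Q hR0 hQ hW
  apply hR0
  rw [← Polynomial.leadingCoeff_eq_zero, ← Polynomial.coeff_natDegree, hdR, hR,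
    Polynomial.coeff_sub, Polynomial.coeff_C_mul]
  have e1 : B.coeff Q.natDegree = B.leadingCoeff := by
    rw [← hd, Polynomial.coeff_natDegree]
  rw [e1, Polynomial.coeff_natDegree, hκ]
  field_simp
  ring

/-- TARGET -/
theorem generic_coeffs (B1 B2 B3 H Q : Polynomial ℂ) (hB1 : ∀ κ : ℂ, B1 ≠ Polynomial.C κ * Q) :
    ∃ r1 r2 q1 q2 : ℂ, ∀ P2 P3 : Polynomial ℂ,
      P2 = B2 + H * (Polynomial.C r1 + Polynomial.C r2 * Polynomial.X) →
      P3 = B3 + H * (Polynomial.C q1 + Polynomial.C q2 * Polynomial.X) →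
      (∀ a : ℂ, H.eval a ≠ 0 → Q.eval a ≠ 0 → ¬ (B1.eval a = 0 ∧ P2.eval a = 0)) ∧
      (∀ a : ℂ, H.eval a ≠ 0 → Q.eval a ≠ 0 →
        ¬ ((Polynomial.derivative B1 * Q - B1 * Polynomial.derivative Q).eval a = 0 ∧
           (Polynomial.derivative P2 * Q - P2 * Polynomial.derivative Q).eval a = 0)) ∧
      (∀ a a' : ℂ, a ≠ a' → H.eval a ≠ 0 → Q.eval a ≠ 0 → H.eval a' ≠ 0 → Q.eval a' ≠ 0 →
        ¬ (B1.eval a * Q.eval a' = B1.eval a' * Q.eval a ∧
           P2.eval a * Q.eval a' = P2.eval a' * Q.eval a ∧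
           P3.eval a * Q.eval a' = P3.eval a' * Q.eval a)) := by
  -- the countable set of coefficients
  let S0 : Set ℂ := Set.range B1.coeff ∪ Set.range B2.coeff ∪ Set.range B3.coeff ∪
    Set.range H.coeff ∪ Set.range Q.coeff
  have hS0 : S0.Countable :=
    ((((Set.countable_range _).union (Set.countable_range _)).union
      (Set.countable_range _)).union (Set.countable_range _)).union (Set.countable_range _)
  obtain ⟨r1, hr1⟩ := exists_not_mem_cl hS0
  obtain ⟨r2, hr2⟩ := exists_not_mem_cl (hS0.insert r1)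
  obtain ⟨q1, hq1⟩ := exists_not_mem_cl ((hS0.insert r1).insert r2)
  obtain ⟨q2, hq2⟩ := exists_not_mem_cl (((hS0.insert r1).insert r2).insert q1)
  have cB1 : ∀ n, B1.coeff n ∈ cl S0 := fun n => subset_cl _ (by
    simp only [S0, Set.mem_union, Set.mem_range_self, true_or])
  have cB2 : ∀ n, B2.coeff n ∈ cl S0 := fun n => subset_cl _ (by
    simp only [S0, Set.mem_union, Set.mem_range_self, true_or, or_true])
  have cB3 : ∀ n, B3.coeff n ∈ cl S0 := fun n => subset_cl _ (by
    simp only [S0, Set.mem_union, Set.mem_range_self, true_or, or_true])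
  have cH : ∀ n, H.coeff n ∈ cl S0 := fun n => subset_cl _ (by
    simp only [S0, Set.mem_union, Set.mem_range_self, true_or, or_true])
  have cQ : ∀ n, Q.coeff n ∈ cl S0 := fun n => subset_cl _ (by
    simp only [S0, Set.mem_union, Set.mem_range_self, or_true])
  have hB10 : B1 ≠ 0 := by
    intro h0
    apply hB1 0
    rw [h0]; simp
  refine ⟨r1, r2, q1, q2, ?_⟩
  rintro P2 P3 rfl rfl
  refine ⟨?_, ?_, ?_⟩
  · rintro a hHa hQa ⟨h1, h2⟩
    have ha : a ∈ cl S0 := cl_root B1 hB10 cB1 a h1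
    simp only [Polynomial.eval_add, Polynomial.eval_mul, Polynomial.eval_C,
      Polynomial.eval_X] at h2
    exact linear_step (Set.subset_insert r1 S0) (subset_cl _ (Set.mem_insert _ _)) hr1 hr2
      (cl_eval H cH ha) (cl_mul ha (cl_eval H cH ha)) (cl_eval B2 cB2 ha) (Or.inl hHa)
      (by linear_combination h2)
  · rintro a hHa hQa ⟨h1, h2⟩
    have hQ0 : Q ≠ 0 := by rintro rfl; simp at hQa
    have hw := wronskian_ne_zero B1 Q hQ0 hB1
    have ha : a ∈ cl S0 := cl_root _ hw (coeff_sub_mem _ _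
      (coeff_mul_mem _ _ (coeff_derivative_mem _ cB1) cQ)
      (coeff_mul_mem _ _ cB1 (coeff_derivative_mem _ cQ))) a h1
    have eH := cl_eval H cH ha
    have eQ := cl_eval Q cQ ha
    have eB := cl_eval B2 cB2 ha
    have eH' := cl_eval _ (coeff_derivative_mem _ cH) ha
    have eQ' := cl_eval _ (coeff_derivative_mem _ cQ) ha
    have eB' := cl_eval _ (coeff_derivative_mem _ cB2) ha
    simp only [Polynomial.derivative_add, Polynomial.derivative_mul, Polynomial.derivative_C,
      Polynomial.derivative_X, Polynomial.eval_sub, Polynomial.eval_add, Polynomial.eval_mul,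
      Polynomial.eval_C, Polynomial.eval_X, Polynomial.eval_zero, Polynomial.eval_one] at h2
    refine linear_step (α := (Polynomial.derivative H).eval a * Q.eval a -
        H.eval a * (Polynomial.derivative Q).eval a)
      (β := a * ((Polynomial.derivative H).eval a * Q.eval a -
        H.eval a * (Polynomial.derivative Q).eval a) + H.eval a * Q.eval a)
      (γ := (Polynomial.derivative B2).eval a * Q.eval a -
        B2.eval a * (Polynomial.derivative Q).eval a)
      (Set.subset_insert r1 S0) (subset_cl _ (Set.mem_insert _ _)) hr1 hr2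
      (cl_sub (cl_mul eH' eQ) (cl_mul eH eQ'))
      (cl_add (cl_mul ha (cl_sub (cl_mul eH' eQ) (cl_mul eH eQ'))) (cl_mul eH eQ))
      (cl_sub (cl_mul eB' eQ) (cl_mul eB eQ')) ?_ (by linear_combination h2)
    by_contra hcon
    push Not at hcon
    obtain ⟨c1, c2⟩ := hcon
    rw [c1, mul_zero, zero_add] at c2
    exact (mul_ne_zero hHa hQa) c2
  · rintro a a' haa hHa hQa hHa' hQa' ⟨h1, h2, h3⟩
    have hu : H.eval a * Q.eval a' ≠ 0 := mul_ne_zero hHa hQa'
    have hv : H.eval a' * Q.eval a ≠ 0 := mul_ne_zero hHa' hQa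
    have hne : H.eval a * Q.eval a' - H.eval a' * Q.eval a ≠ 0 ∨
        a * (H.eval a * Q.eval a') - a' * (H.eval a' * Q.eval a) ≠ 0 := by
      by_contra hcon
      push Not at hcon
      obtain ⟨c1, c2⟩ := hcon
      have : (a - a') * (H.eval a * Q.eval a') = 0 := by linear_combination c2 - a' * c1
      rcases mul_eq_zero.mp this with h | h
      · exact haa (sub_eq_zero.mp h)
      · exact hu h
    simp only [Polynomial.eval_add, Polynomial.eval_mul, Polynomial.eval_C,
      Polynomial.eval_X] at h2 h3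
    -- `a'` is algebraic over `a`
    have ha' : ∀ s : Set ℂ, S0 ⊆ s → a ∈ cl s → a' ∈ cl s := by
      intro s hs ha
      have cQ' : ∀ n, Q.coeff n ∈ cl s := fun n => cl_mono hs (cQ n)
      have cB1' : ∀ n, B1.coeff n ∈ cl s := fun n => cl_mono hs (cB1 n)
      refine cl_root (Polynomial.C (B1.eval a) * Q - Polynomial.C (Q.eval a) * B1) ?_
        (coeff_sub_mem _ _ (coeff_C_mul_mem _ (cl_eval _ cB1' ha) _ cQ')
          (coeff_C_mul_mem _ (cl_eval _ cQ' ha) _ cB1')) a' ?_
      · intro h0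
        apply hB1 (B1.eval a / Q.eval a)
        have h0' : Polynomial.C (B1.eval a) * Q = Polynomial.C (Q.eval a) * B1 :=
          sub_eq_zero.mp h0
        have hC : Polynomial.C (Q.eval a)⁻¹ * Polynomial.C (Q.eval a) = (1 : Polynomial ℂ) := by
          rw [← Polynomial.C_mul, inv_mul_cancel₀ hQa, Polynomial.C_1]
        rw [div_eq_mul_inv, Polynomial.C_mul]
        linear_combination (-B1) * hC - Polynomial.C (Q.eval a)⁻¹ * h0'
      · simp only [Polynomial.eval_sub, Polynomial.eval_mul, Polynomial.eval_C]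
        linear_combination h1
    -- values
    have hval : ∀ s : Set ℂ, S0 ⊆ s → a ∈ cl s →
        (H.eval a * Q.eval a' - H.eval a' * Q.eval a ∈ cl s) ∧
        (a * (H.eval a * Q.eval a') - a' * (H.eval a' * Q.eval a) ∈ cl s) ∧
        (B2.eval a * Q.eval a' - B2.eval a' * Q.eval a ∈ cl s) ∧
        (B3.eval a * Q.eval a' - B3.eval a' * Q.eval a ∈ cl s) := by
      intro s hs ha
      have ha'' := ha' s hs ha
      have cQ' : ∀ n, Q.coeff n ∈ cl s := fun n => cl_mono hs (cQ n)
      have cH' : ∀ n, H.coeff n ∈ cl s := fun n => cl_mono hs (cH n)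
      have cB2' : ∀ n, B2.coeff n ∈ cl s := fun n => cl_mono hs (cB2 n)
      have cB3' : ∀ n, B3.coeff n ∈ cl s := fun n => cl_mono hs (cB3 n)
      have eu := cl_mul (cl_eval _ cH' ha) (cl_eval _ cQ' ha'')
      have ev := cl_mul (cl_eval _ cH' ha'') (cl_eval _ cQ' ha)
      exact ⟨cl_sub eu ev, cl_sub (cl_mul ha eu) (cl_mul ha'' ev),
        cl_sub (cl_mul (cl_eval _ cB2' ha) (cl_eval _ cQ' ha''))
          (cl_mul (cl_eval _ cB2' ha'') (cl_eval _ cQ' ha)),
        cl_sub (cl_mul (cl_eval _ cB3' ha) (cl_eval _ cQ' ha''))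
          (cl_mul (cl_eval _ cB3' ha'') (cl_eval _ cQ' ha))⟩
    have rel2 : (B2.eval a * Q.eval a' - B2.eval a' * Q.eval a) +
        r1 * (H.eval a * Q.eval a' - H.eval a' * Q.eval a) +
        r2 * (a * (H.eval a * Q.eval a') - a' * (H.eval a' * Q.eval a)) = 0 := by
      linear_combination h2
    have rel3 : (B3.eval a * Q.eval a' - B3.eval a' * Q.eval a) +
        q1 * (H.eval a * Q.eval a' - H.eval a' * Q.eval a) +
        q2 * (a * (H.eval a * Q.eval a') - a' * (H.eval a' * Q.eval a)) = 0 := by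
      linear_combination h3
    have sub2 : S0 ⊆ insert r2 (insert r1 S0) :=
      (Set.subset_insert r1 S0).trans (Set.subset_insert r2 _)
    -- `a` is algebraic over `r1, r2`
    have hK2 : a ∈ cl (insert r2 (insert r1 S0)) := by
      by_cases hb : a * (H.eval a * Q.eval a') - a' * (H.eval a' * Q.eval a) = 0
      · have hal := hne.resolve_right (not_not.mpr hb)
        have hin : r1 ∈ cl (insert a S0) := by
          obtain ⟨v1, v2, v3, v4⟩ := hval (insert a S0) (Set.subset_insert _ _)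
            (subset_cl _ (Set.mem_insert _ _))
          have : r1 = (-(B2.eval a * Q.eval a' - B2.eval a' * Q.eval a)) /
              (H.eval a * Q.eval a' - H.eval a' * Q.eval a) := by
            rw [eq_div_iff hal]
            rw [hb] at rel2
            linear_combination rel2
          rw [this]
          exact cl_div (cl_neg v3) v1
        exact cl_mono (Set.subset_insert r2 _) (cl_exchange hr1 hin)
      · have hin : r2 ∈ cl (insert a (insert r1 S0)) := by
          have hS : S0 ⊆ insert a (insert r1 S0) :=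
            (Set.subset_insert r1 S0).trans (Set.subset_insert a _)
          obtain ⟨v1, v2, v3, v4⟩ := hval (insert a (insert r1 S0)) hS
            (subset_cl _ (Set.mem_insert _ _))
          have hr1' : r1 ∈ cl (insert a (insert r1 S0)) :=
            subset_cl _ (Set.mem_insert_of_mem _ (Set.mem_insert _ _))
          have : r2 = (-((B2.eval a * Q.eval a' - B2.eval a' * Q.eval a) +
              r1 * (H.eval a * Q.eval a' - H.eval a' * Q.eval a))) /
              (a * (H.eval a * Q.eval a') - a' * (H.eval a' * Q.eval a)) := by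
            rw [eq_div_iff hb]
            linear_combination rel2
          rw [this]
          exact cl_div (cl_neg (cl_add v3 (cl_mul hr1' v1))) v2
        exact cl_exchange hr2 hin
    obtain ⟨v1, v2, v3, v4⟩ := hval _ sub2 hK2
    exact linear_step (Set.subset_insert q1 _) (subset_cl _ (Set.mem_insert _ _)) hq1 hq2
      v1 v2 v4 hne rel3

end MP4403b8
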