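import Mathlib
import Pool.Agent.HilbP1.Defs

set_option autoImplicit false

namespace MP4403b8

/-- TARGET -/
theorem monomial_heights (n : ℕ) (I : Ideal (MvPolynomial (Fin 2) ℂ)) (hI : IsHilbPoint n ℂ I)
    (mI : IsMonomialIdeal I) :
    ∃ (h : ℕ → ℕ) (N : ℕ), Antitone h ∧ h N = 0 ∧ ∑ a ∈ Finset.range N, h a = n ∧
      (∀ a b : ℕ, (MvPolynomial.X 0 ^ a * MvPolynomial.X 1 ^ b : MvPolynomial (Fin 2) ℂ) ∈ I ↔
        h a ≤ b) ∧
      (∀ g : MvPolynomial (Fin 2) ℂ, g ∈ I ↔ ∀ m ∈ g.support, h (m 0) ≤ m 1) ∧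
      I = Ideal.span (Set.range
        (fun v : Fin (N + 1) => (MvPolynomial.X 0 ^ (v : ℕ) * MvPolynomial.X 1 ^ (h v) :
          MvPolynomial (Fin 2) ℂ))) := by
  classical
  obtain ⟨hfin, -, hrank⟩ := hI
  obtain ⟨S, hS⟩ := mI
  -- exponents
  let pt : ℕ → ℕ → (Fin 2 →₀ ℕ) := fun a b => Finsupp.single 0 a + Finsupp.single 1 b
  have pt0 : ∀ a b, pt a b 0 = a := fun a b => by simp [pt]
  have pt1 : ∀ a b, pt a b 1 = b := fun a b => by simp [pt]
  have pteta : ∀ m : Fin 2 →₀ ℕ, m = pt (m 0) (m 1) := by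
    intro m
    ext i
    fin_cases i
    · exact (pt0 _ _).symm
    · exact (pt1 _ _).symm
  have lept : ∀ (s : Fin 2 →₀ ℕ) (a b : ℕ), s ≤ pt a b ↔ s 0 ≤ a ∧ s 1 ≤ b := by
    intro s a b
    constructor
    · intro h; exact ⟨by simpa [pt0] using h 0, by simpa [pt1] using h 1⟩
    · rintro ⟨h0, h1⟩ i
      fin_cases i
      · simpa [pt0] using h0
      · simpa [pt1] using h1
  have hmon : ∀ a b, (MvPolynomial.X 0 ^ a * MvPolynomial.X 1 ^ b : MvPolynomial (Fin 2) ℂ)
      = MvPolynomial.monomial (pt a b) 1 := by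
    intro a b
    rw [MvPolynomial.X_pow_eq_monomial, MvPolynomial.X_pow_eq_monomial, MvPolynomial.monomial_mul,
      one_mul]
  have hmem : ∀ g : MvPolynomial (Fin 2) ℂ, g ∈ I ↔ ∀ m ∈ g.support, ∃ s ∈ S, s ≤ m := by
    intro g
    rw [hS]
    exact MvPolynomial.mem_ideal_span_monomial_image
  have hmem1 : ∀ a b, (MvPolynomial.X 0 ^ a * MvPolynomial.X 1 ^ b : MvPolynomial (Fin 2) ℂ) ∈ I ↔
      ∃ s ∈ S, s 0 ≤ a ∧ s 1 ≤ b := by
    intro a b
    rw [hmem, hmon, MvPolynomial.support_monomial, if_neg one_ne_zero]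
    simp only [Finset.mem_singleton, forall_eq, lept]
  -- powers of the variables
  have hpow : ∀ i : Fin 2, ∃ k : ℕ, (MvPolynomial.X i ^ k : MvPolynomial (Fin 2) ℂ) ∈ I := by
    intro i
    have hint : IsIntegral ℂ (Ideal.Quotient.mk I (MvPolynomial.X i)) :=
      haveI := hfin
      IsIntegral.of_finite ℂ _
    obtain ⟨p, hp, hp0⟩ := hint
    refine ⟨p.natDegree, ?_⟩
    have h1 : Polynomial.aeval (MvPolynomial.X i : MvPolynomial (Fin 2) ℂ) p ∈ I := by
      rw [← Ideal.Quotient.eq_zero_iff_mem]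
      have h2 : Ideal.Quotient.mk I (Polynomial.aeval (MvPolynomial.X i : MvPolynomial (Fin 2) ℂ) p)
          = Polynomial.eval₂ (algebraMap ℂ (MvPolynomial (Fin 2) ℂ ⧸ I))
            (Ideal.Quotient.mk I (MvPolynomial.X i)) p := by
        rw [Polynomial.aeval_def, Polynomial.hom_eval₂]
        rfl
      rw [h2]
      exact hp0
    rw [hmem] at h1 ⊢
    have h3 : Finsupp.single i p.natDegree ∈
        (Polynomial.aeval (MvPolynomial.X i : MvPolynomial (Fin 2) ℂ) p).support := by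
      rw [MvPolynomial.mem_support_iff, Polynomial.aeval_eq_sum_range, MvPolynomial.coeff_sum]
      rw [Finset.sum_eq_single p.natDegree]
      · rw [MvPolynomial.coeff_smul, MvPolynomial.X_pow_eq_monomial, MvPolynomial.coeff_monomial,
          if_pos rfl, smul_eq_mul, mul_one, hp.coeff_natDegree]
        exact one_ne_zero
      · intro k _ hk
        rw [MvPolynomial.coeff_smul, MvPolynomial.X_pow_eq_monomial, MvPolynomial.coeff_monomial,
          if_neg, smul_zero]
        intro h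
        exact hk (Finsupp.single_injective i h)
      · intro h
        exact absurd (Finset.mem_range.mpr (Nat.lt_succ_self _)) h
    obtain ⟨s, hs, hle⟩ := h1 _ h3
    intro m hm
    rw [MvPolynomial.X_pow_eq_monomial, MvPolynomial.support_monomial, if_neg one_ne_zero,
      Finset.mem_singleton] at hm
    exact ⟨s, hs, hm ▸ hle⟩
  obtain ⟨N, hN⟩ := hpow 0
  obtain ⟨K, hK⟩ := hpow 1
  have hN' : ∃ s ∈ S, s 0 ≤ N ∧ s 1 ≤ 0 := by
    rw [← hmem1]; simpa using hN
  have hK' : ∃ s ∈ S, s 0 ≤ 0 ∧ s 1 ≤ K := by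
    rw [← hmem1]; simpa using hK
  have hex : ∀ a, ∃ b, ∃ s ∈ S, s 0 ≤ a ∧ s 1 ≤ b := by
    intro a
    obtain ⟨s, hs, h0, h1⟩ := hK'
    exact ⟨K, s, hs, by omega, h1⟩
  let h : ℕ → ℕ := fun a => Nat.find (hex a)
  have hle : ∀ a b, (∃ s ∈ S, s 0 ≤ a ∧ s 1 ≤ b) ↔ h a ≤ b := by
    intro a b
    constructor
    · intro hh; exact Nat.find_min' (hex a) hh
    · intro hh
      obtain ⟨s, hs, h0, h1⟩ := Nat.find_spec (hex a)
      exact ⟨s, hs, h0, h1.trans hh⟩
  have hanti : Antitone h := by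
    intro a a' haa
    rw [← hle]
    obtain ⟨s, hs, h0, h1⟩ := (hle a (h a)).mpr le_rfl
    exact ⟨s, hs, h0.trans haa, h1⟩
  have hhN : h N = 0 := Nat.le_zero.mp ((hle N 0).mp hN')
  have hmem2 : ∀ g : MvPolynomial (Fin 2) ℂ, g ∈ I ↔ ∀ m ∈ g.support, h (m 0) ≤ m 1 := by
    intro g
    rw [hmem]
    refine forall₂_congr fun m _ => ?_
    rw [← hle]
    constructor
    · rintro ⟨s, hs, hsm⟩; exact ⟨s, hs, hsm 0, hsm 1⟩
    · rintro ⟨s, hs, h0, h1⟩
      refine ⟨s, hs, ?_⟩
      rw [pteta m, lept]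
      exact ⟨h0, h1⟩
  have hmem3 : ∀ a b : ℕ, (MvPolynomial.X 0 ^ a * MvPolynomial.X 1 ^ b : MvPolynomial (Fin 2) ℂ) ∈ I ↔
        h a ≤ b := fun a b => by rw [hmem1, hle]
  refine ⟨h, N, hanti, hhN, ?_, hmem3, hmem2, ?_⟩
  · -- count
    let ι := Σ a : Fin N, Fin (h a)
    let e : ι → (Fin 2 →₀ ℕ) := fun i => pt i.1 i.2
    have einj : Function.Injective e := by
      rintro ⟨a, b⟩ ⟨a', b'⟩ hh
      have h0 : (a : ℕ) = a' := by
        have := congrArg (fun m : Fin 2 →₀ ℕ => m 0) hh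
        simpa [e, pt0] using this
      have h1 : (b : ℕ) = b' := by
        have := congrArg (fun m : Fin 2 →₀ ℕ => m 1) hh
        simpa [e, pt1] using this
      have h0' : a = a' := Fin.ext h0
      subst h0'
      rw [Fin.ext h1]
    let f : MvPolynomial (Fin 2) ℂ →ₗ[ℂ] (ι → ℂ) := LinearMap.pi fun i => MvPolynomial.lcoeff ℂ (e i)
    have hf_apply : ∀ g i, f g i = MvPolynomial.coeff (e i) g := fun g i => rfl
    have hf : Function.Surjective f := by
      intro v
      refine ⟨∑ i, MvPolynomial.monomial (e i) (v i), ?_⟩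
      funext j
      rw [hf_apply, MvPolynomial.coeff_sum, Finset.sum_eq_single j]
      · rw [MvPolynomial.coeff_monomial, if_pos rfl]
      · intro i _ hij
        rw [MvPolynomial.coeff_monomial, if_neg (fun hh => hij (einj hh))]
      · intro hj; exact absurd (Finset.mem_univ j) hj
    let π : MvPolynomial (Fin 2) ℂ →ₗ[ℂ] (MvPolynomial (Fin 2) ℂ ⧸ I) :=
      (Ideal.Quotient.mkₐ ℂ I).toLinearMap
    have hπ : Function.Surjective π := Ideal.Quotient.mkₐ_surjective ℂ I
    have hker : LinearMap.ker π = LinearMap.ker f := by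
      ext g
      rw [LinearMap.mem_ker, LinearMap.mem_ker]
      have h1 : π g = 0 ↔ g ∈ I := Ideal.Quotient.eq_zero_iff_mem
      rw [h1, hmem2]
      constructor
      · intro hh
        funext i
        rw [hf_apply, Pi.zero_apply]
        by_contra hne
        have := hh (e i) (MvPolynomial.mem_support_iff.mpr hne)
        simp only [e, pt0, pt1] at this
        have := i.2.2
        omega
      · intro hh m hm
        by_contra hlt
        push Not at hlt
        have hmN : m 0 < N := by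
          by_contra hge
          push Not at hge
          have := hanti hge
          omega
        have := congrFun hh ⟨⟨m 0, hmN⟩, ⟨m 1, hlt⟩⟩
        rw [hf_apply, Pi.zero_apply] at this
        simp only [e] at this
        rw [← pteta m] at this
        exact (MvPolynomial.mem_support_iff.mp hm) this
    have eqv : (MvPolynomial (Fin 2) ℂ ⧸ I) ≃ₗ[ℂ] (ι → ℂ) :=
      (π.quotKerEquivOfSurjective hπ).symm.trans
        ((Submodule.quotEquivOfEq _ _ hker).trans (f.quotKerEquivOfSurjective hf))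
    rw [← hrank, eqv.finrank_eq, Module.finrank_fintype_fun_eq_card]
    simp only [ι, Fintype.card_sigma, Fintype.card_fin]
    rw [Finset.sum_range]
  · -- generators
    apply le_antisymm
    · intro g hg
      rw [hmem2] at hg
      rw [MvPolynomial.as_sum g]
      refine Ideal.sum_mem _ fun m hm => ?_
      have h1 := hg m hm
      have h2 : MvPolynomial.monomial m (MvPolynomial.coeff m g) =
          MvPolynomial.C (MvPolynomial.coeff m g) *
            (MvPolynomial.X 0 ^ (m 0) * MvPolynomial.X 1 ^ (m 1)) := by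
        rw [hmon, ← pteta m, MvPolynomial.C_mul_monomial, mul_one]
      rw [h2]
      refine Ideal.mul_mem_left _ _ ?_
      by_cases hmN : m 0 ≤ N
      · have h3 : (MvPolynomial.X 0 ^ (m 0) * MvPolynomial.X 1 ^ (m 1) : MvPolynomial (Fin 2) ℂ) =
            MvPolynomial.X 1 ^ (m 1 - h (m 0)) *
              (MvPolynomial.X 0 ^ (m 0) * MvPolynomial.X 1 ^ (h (m 0))) := by
          rw [mul_left_comm, ← pow_add, Nat.sub_add_cancel h1]
        rw [h3]
        refine Ideal.mul_mem_left _ _ (Ideal.subset_span ⟨⟨m 0, by omega⟩, rfl⟩)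
      · have h3 : (MvPolynomial.X 0 ^ (m 0) * MvPolynomial.X 1 ^ (m 1) : MvPolynomial (Fin 2) ℂ) =
            (MvPolynomial.X 0 ^ (m 0 - N) * MvPolynomial.X 1 ^ (m 1)) *
              (MvPolynomial.X 0 ^ N * MvPolynomial.X 1 ^ (h N)) := by
          rw [hhN, pow_zero, mul_one, mul_right_comm, ← pow_add, Nat.sub_add_cancel (by omega)]
        rw [h3]
        refine Ideal.mul_mem_left _ _ (Ideal.subset_span ⟨⟨N, by omega⟩, rfl⟩)
    · rw [Ideal.span_le]
      rintro _ ⟨v, rfl⟩
      exact (hmem3 _ _).mpr le_rfl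

end MP4403b8
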