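import Mathlib
import Pool.Agent.HilbP1.P2
import Pool.Agent.HilbP1.P5
import Pool.Agent.HilbP1.P6
import Pool.Agent.HilbP1.P6b
import Pool.Agent.HilbP1.P7
import Pool.Agent.HilbP1.P8
import Pool.Agent.HilbP1.P11
import Pool.Agent.HilbP1.A1b

set_option autoImplicit false

namespace MP4403b8

/-- the sum description of the explicit families -/
theorem monomial_sum (n k : ℕ) (hk : k ∈ Finset.Ico 1 n) :
    (Polynomial.monomial k (j0 Polynomial.X) : Polynomial (RatFunc ℂ)) =
      ∑ i ∈ Finset.Ico 1 n, Polynomial.monomial i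
        (j0 (if i = k then Polynomial.X else 0) / j0 1) := by
  rw [Finset.sum_eq_single k]
  · simp
  · intro i _ hik
    simp [hik]
  · intro h
    exact absurd hk h

theorem fib_explicit (n k : ℕ) (hk : k ∈ Finset.Ico 1 n) (a : ℂ) :
    fib a (fam j0 n (Polynomial.monomial k (j0 Polynomial.X))) = JJ n (Polynomial.monomial k a) ∧
    ¬ DiffZero a (fam j0 n (Polynomial.monomial k (j0 Polynomial.X))) := by
  have hn : 1 ≤ n := by
    have := Finset.mem_Ico.1 hk
    omega
  obtain ⟨h1, h2⟩ := at_regular n hn 1 (fun i => if i = k then Polynomial.X else 0) a (by simp)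
    _ (monomial_sum n k hk)
  constructor
  · rw [h1]
    congr 1
    rw [Finset.sum_eq_single k]
    · simp
    · intro i _ hik
      simp [hik]
    · intro h
      exact absurd hk h
  · apply h2
    refine ⟨k, hk, ?_⟩
    simp

theorem JJ_mono_inj (n k : ℕ) (hk : k < n) (a b : ℂ)
    (h : JJ n (Polynomial.monomial k a) = JJ n (Polynomial.monomial k b)) : a = b := by
  have h1 := JJ_inj n _ _ h
  rw [Polynomial.X_pow_dvd_iff] at h1
  have h2 := h1 k hk
  simp only [Polynomial.coeff_sub, Polynomial.coeff_monomial, if_true] at h2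
  exact sub_eq_zero.1 h2

/-- the explicit `ℙ¹`-family -/
noncomputable def eFam (n k : ℕ) (hk : 1 ≤ k) : P1Family n where
  I₀ := fam j0 n (Polynomial.monomial k (j0 Polynomial.X))
  I₁ := fam j1 n (Polynomial.monomial k (j0 Polynomial.X))
  hilb₀ := fam_hilb j0 isFrac_j0 n _ (by
    rw [Polynomial.coeff_monomial, if_neg (by omega)])
  hilb₁ := fam_hilb j1 isFrac_j1 n _ (by
    rw [Polynomial.coeff_monomial, if_neg (by omega)])
  glue := fam_glue n _

theorem eFam_some (n k : ℕ) (hk : k ∈ Finset.Ico 1 n) (a : ℂ) :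
    (eFam n k (Finset.mem_Ico.1 hk).1).value (a : OnePoint ℂ) = JJ n (Polynomial.monomial k a) :=
  (fib_explicit n k hk a).1

/-- general principle -/
theorem joined_of (n k : ℕ) (hk : k ∈ Finset.Ico 1 n) {ι : Type}
    (G0 G1 : ι → MvPolynomial (Fin 2) ℂ)
    (hs : ∀ i, Special (fam j1 n (Polynomial.monomial k (j0 Polynomial.X))) 0 (G0 i) (G1 i))
    (hG : IsHilbPoint n ℂ (Ideal.span (Set.range G0)))
    (i₀ : ι) (hi₀ : G1 i₀ ∉ Ideal.span (Set.range G0))
    (hne : ∀ a : ℂ, Ideal.span (Set.range G0) ≠ JJ n (Polynomial.monomial k a)) :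
    Joined n (JJ n (0 : Polynomial ℂ)) (Ideal.span (Set.range G0)) := by
  have hk1 := (Finset.mem_Ico.1 hk).1
  have hk2 := (Finset.mem_Ico.1 hk).2
  have hinf : (eFam n k hk1).value OnePoint.infty = Ideal.span (Set.range G0) :=
    fib_eq n _ (eFam n k hk1).hilb₁ 0 G0 G1 hs hG
  have hinf' : fib 0 (fam j1 n (Polynomial.monomial k (j0 Polynomial.X))) =
    Ideal.span (Set.range G0) := hinf
  refine ⟨eFam n k hk1, ⟨?_, ?_, ?_⟩, ⟨((0 : ℂ) : OnePoint ℂ), ?_⟩, ⟨OnePoint.infty, hinf⟩⟩
  · intro x y hxy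
    induction x using OnePoint.rec with
    | infty =>
      induction y using OnePoint.rec with
      | infty => rfl
      | coe b =>
        rw [hinf, eFam_some n k hk] at hxy
        exact absurd hxy (hne b)
    | coe a =>
      induction y using OnePoint.rec with
      | infty =>
        rw [hinf, eFam_some n k hk] at hxy
        exact absurd hxy.symm (hne a)
      | coe b =>
        rw [eFam_some n k hk, eFam_some n k hk] at hxy
        rw [JJ_mono_inj n k hk2 a b hxy]
  · intro a
    exact (fib_explicit n k hk a).2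
  · refine not_diffZero _ 0 (G0 i₀) (G1 i₀) (hs i₀) ?_
    show G1 i₀ ∉ fib 0 (fam j1 n (Polynomial.monomial k (j0 Polynomial.X)))
    rw [hinf']
    exact hi₀
  · rw [eFam_some n k hk]
    simp

theorem j1_X : j1 Polynomial.X = (RatFunc.X : RatFunc ℂ)⁻¹ := by
  simp [j1]

theorem j0_X : j0 Polynomial.X = (RatFunc.X : RatFunc ℂ) := by
  simp [j0]

theorem j1_C (c : ℂ) : j1 (Polynomial.C c) = RatFunc.C c := by
  simp [j1]

theorem mem_fam_iff {L : Type*} [Field L] (j : Polynomial ℂ →+* L) (n : ℕ) (f : Polynomial L)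
    (G : MvPolynomial (Fin 2) (Polynomial ℂ)) :
    G ∈ fam j n f ↔ (Polynomial.X : Polynomial L) ^ n ∣
      MvPolynomial.aeval ![f, Polynomial.X] (MvPolynomial.map j G) := by
  unfold fam
  rw [Ideal.mem_comap, mem_JJ]

theorem special_y_pow (n k : ℕ) :
    Special (fam j1 n (Polynomial.monomial k (j0 Polynomial.X))) 0
      (MvPolynomial.X 1 ^ k) (-MvPolynomial.X 0) := by
  refine ⟨0, ?_⟩
  rw [mem_fam_iff]
  have h0 : (RatFunc.X : RatFunc ℂ) ≠ 0 := RatFunc.X_ne_zero
  have : (MvPolynomial.aeval ![(Polynomial.monomial k (j0 Polynomial.X) : Polynomial (RatFunc ℂ)),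
      Polynomial.X] (MvPolynomial.map j1 (MvPolynomial.map Polynomial.C (MvPolynomial.X 1 ^ k) +
      MvPolynomial.C (Polynomial.X - Polynomial.C 0) * MvPolynomial.map Polynomial.C (-MvPolynomial.X 0)
      + MvPolynomial.C ((Polynomial.X - Polynomial.C 0) ^ 2) * 0)) : Polynomial (RatFunc ℂ)) = 0 := by
    simp only [map_add, map_mul, map_pow, map_neg, MvPolynomial.map_X, MvPolynomial.map_C,
      map_zero, sub_zero, mul_zero, add_zero, MvPolynomial.aeval_X, MvPolynomial.aeval_C, j1_X, j0_X,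
      Polynomial.algebraMap_eq]
    simp only [Matrix.cons_val_zero, Matrix.cons_val_one, mul_neg]
    rw [Polynomial.C_mul_monomial, inv_mul_cancel₀ h0, Polynomial.monomial_one_right_eq_X_pow]
    ring
  rw [this]
  exact dvd_zero _

theorem special_zero_of (n k : ℕ) (G : MvPolynomial (Fin 2) ℂ)
    (h : (Polynomial.X : Polynomial (RatFunc ℂ)) ^ n ∣
      MvPolynomial.aeval ![(Polynomial.monomial k (j0 Polynomial.X) : Polynomial (RatFunc ℂ)),
      Polynomial.X] (MvPolynomial.map (RatFunc.C) G)) :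
    Special (fam j1 n (Polynomial.monomial k (j0 Polynomial.X))) 0 G 0 := by
  refine ⟨0, ?_⟩
  rw [mem_fam_iff]
  have : MvPolynomial.map j1 (MvPolynomial.map Polynomial.C G +
      MvPolynomial.C (Polynomial.X - Polynomial.C 0) * MvPolynomial.map Polynomial.C 0
      + MvPolynomial.C ((Polynomial.X - Polynomial.C 0) ^ 2) * 0) = MvPolynomial.map RatFunc.C G := by
    simp only [map_zero, mul_zero, add_zero]
    rw [MvPolynomial.map_map]
    have hc : j1.comp Polynomial.C = RatFunc.C := RingHom.ext j1_C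
    rw [hc]
  rw [this]
  exact h

theorem X_pow_dvd_monomial {L : Type*} [Field L] (k : ℕ) (c : L) :
    (Polynomial.X : Polynomial L) ^ k ∣ Polynomial.monomial k c := by
  rw [← Polynomial.C_mul_X_pow_eq_monomial]
  exact dvd_mul_left _ _

/-- TARGET 1: the family `(x - t y, y^n)` -/
theorem joined_row_col (n : ℕ) (hn : 2 ≤ n) :
    Joined n (JJ n (0 : Polynomial ℂ)) (Ideal.span (Set.range
      (![MvPolynomial.C 1 * MvPolynomial.X 1, MvPolynomial.X 0 ^ n] :
        Fin 2 → MvPolynomial (Fin 2) ℂ))) := by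
  refine joined_of n 1 (Finset.mem_Ico.2 ⟨le_rfl, hn⟩) _ ![-MvPolynomial.X 0, 0] ?_
    (hilb_col n (by omega) 1 one_ne_zero) 0 ?_ ?_
  · intro i
    fin_cases i
    · have := special_y_pow n 1
      simpa using this
    · refine special_zero_of n 1 _ ?_
      have h1 : (Polynomial.X : Polynomial (RatFunc ℂ)) ∣ Polynomial.monomial 1 (j0 Polynomial.X) := by
        have := X_pow_dvd_monomial 1 (j0 Polynomial.X)
        rwa [pow_one] at this
      simpa using pow_dvd_pow_of_dvd h1 n
  · intro hmem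
    have hle : Ideal.span (Set.range
      (![MvPolynomial.C 1 * MvPolynomial.X 1, MvPolynomial.X 0 ^ n] :
        Fin 2 → MvPolynomial (Fin 2) ℂ)) ≤
        (Ideal.span {(Polynomial.X : Polynomial ℂ) ^ n}).comap
        (MvPolynomial.aeval ![Polynomial.X, 0] :
          MvPolynomial (Fin 2) ℂ →ₐ[ℂ] Polynomial ℂ).toRingHom := by
      rw [Ideal.span_le]
      rintro _ ⟨i, rfl⟩
      fin_cases i
      · simp
      · simp
    have h2 := hle hmem
    rw [Ideal.mem_comap, Ideal.mem_span_singleton] at h2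
    have h3 : (MvPolynomial.aeval ![Polynomial.X, 0] :
          MvPolynomial (Fin 2) ℂ →ₐ[ℂ] Polynomial ℂ).toRingHom
          ((![-MvPolynomial.X 0, 0] : Fin 2 → MvPolynomial (Fin 2) ℂ) 0) = -Polynomial.X := by
      simp
    rw [h3, Polynomial.X_pow_dvd_iff] at h2
    have h4 := h2 1 (by omega)
    simp at h4
  · intro a
    exact col_ne_JJ n hn 1 one_ne_zero _ (by simp [Polynomial.coeff_monomial])

/-- membership in the square of the maximal ideal -/
theorem mem_sq_iff (g : MvPolynomial (Fin 2) ℂ) :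
    g ∈ Ideal.span (Set.range
      (![MvPolynomial.X 1 ^ 2, MvPolynomial.X 0 * MvPolynomial.X 1, MvPolynomial.X 0 ^ 2] :
        Fin 3 → MvPolynomial (Fin 2) ℂ)) ↔
    (MvPolynomial.coeff 0 g = 0 ∧ MvPolynomial.coeff (Finsupp.single 0 1) g = 0 ∧
      MvPolynomial.coeff (Finsupp.single 1 1) g = 0) := by
  have hset : Set.range
      (![MvPolynomial.X 1 ^ 2, MvPolynomial.X 0 * MvPolynomial.X 1, MvPolynomial.X 0 ^ 2] :
        Fin 3 → MvPolynomial (Fin 2) ℂ) = (fun s => MvPolynomial.monomial s (1 : ℂ)) ''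
        ({Finsupp.single 1 2, Finsupp.single 0 1 + Finsupp.single 1 1, Finsupp.single 0 2} :
          Set (Fin 2 →₀ ℕ)) := by
    rw [Set.image_insert_eq, Set.image_insert_eq, Set.image_singleton]
    ext p
    simp only [Set.mem_range, Fin.exists_fin_succ, Set.mem_insert_iff, Set.mem_singleton_iff]
    simp [MvPolynomial.X, MvPolynomial.monomial_pow, MvPolynomial.monomial_mul, eq_comm]
  rw [hset, MvPolynomial.mem_ideal_span_monomial_image]
  constructor
  · intro h
    refine ⟨?_, ?_, ?_⟩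
    · by_contra hc
      obtain ⟨s, hs, hle⟩ := h 0 (MvPolynomial.mem_support_iff.2 hc)
      have h0 := hle 0
      have h1 := hle 1
      simp only [Set.mem_insert_iff, Set.mem_singleton_iff] at hs
      rcases hs with rfl | rfl | rfl <;> simp at h0 h1
    · by_contra hc
      obtain ⟨s, hs, hle⟩ := h _ (MvPolynomial.mem_support_iff.2 hc)
      have h0 := hle 0
      have h1 := hle 1
      simp only [Set.mem_insert_iff, Set.mem_singleton_iff] at hs
      rcases hs with rfl | rfl | rfl <;> simp at h0 h1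
    · by_contra hc
      obtain ⟨s, hs, hle⟩ := h _ (MvPolynomial.mem_support_iff.2 hc)
      have h0 := hle 0
      have h1 := hle 1
      simp only [Set.mem_insert_iff, Set.mem_singleton_iff] at hs
      rcases hs with rfl | rfl | rfl <;> simp at h0 h1
  · rintro ⟨h1, h2, h3⟩ m hm
    have hm' := MvPolynomial.mem_support_iff.1 hm
    have hm0 : ¬ (m 0 = 0 ∧ m 1 = 0) := by
      rintro ⟨e0, e1⟩
      apply hm'
      have : m = 0 := by
        ext i; fin_cases i
        · simpa using e0
        · simpa using e1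
      rw [this]; exact h1
    have hm1 : ¬ (m 0 = 1 ∧ m 1 = 0) := by
      rintro ⟨e0, e1⟩
      apply hm'
      have : m = Finsupp.single 0 1 := by
        ext i; fin_cases i
        · simpa using e0
        · simpa using e1
      rw [this]; exact h2
    have hm2 : ¬ (m 0 = 0 ∧ m 1 = 1) := by
      rintro ⟨e0, e1⟩
      apply hm'
      have : m = Finsupp.single 1 1 := by
        ext i; fin_cases i
        · simpa using e0
        · simpa using e1
      rw [this]; exact h3
    by_cases c1 : 2 ≤ m 1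
    · refine ⟨Finsupp.single 1 2, by simp, ?_⟩
      intro i; fin_cases i
      · simp
      · simpa using c1
    · by_cases c2 : 2 ≤ m 0
      · refine ⟨Finsupp.single 0 2, by simp, ?_⟩
        intro i; fin_cases i
        · simpa using c2
        · simp
      · refine ⟨Finsupp.single 0 1 + Finsupp.single 1 1, by simp, ?_⟩
        intro i; fin_cases i
        · simp; omega
        · simp; omega

/-- the three low coefficients -/
noncomputable def low : MvPolynomial (Fin 2) ℂ →ₗ[ℂ] (Fin 3 → ℂ) :=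
  LinearMap.pi ![MvPolynomial.lcoeff ℂ 0, MvPolynomial.lcoeff ℂ (Finsupp.single 0 1),
    MvPolynomial.lcoeff ℂ (Finsupp.single 1 1)]

theorem low_apply (g : MvPolynomial (Fin 2) ℂ) : low g = ![MvPolynomial.coeff 0 g,
    MvPolynomial.coeff (Finsupp.single 0 1) g, MvPolynomial.coeff (Finsupp.single 1 1) g] := by
  ext i
  fin_cases i <;> rfl

theorem low_surj : Function.Surjective low := by
  intro v
  refine ⟨MvPolynomial.C (v 0) + MvPolynomial.C (v 1) * MvPolynomial.X 0 +
    MvPolynomial.C (v 2) * MvPolynomial.X 1, ?_⟩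
  rw [low_apply]
  have e01 : (Finsupp.single (0 : Fin 2) 1 : Fin 2 →₀ ℕ) ≠ Finsupp.single 1 1 := by
    intro h
    have := DFunLike.congr_fun h 0
    simp at this
  have e0 : (Finsupp.single (0 : Fin 2) 1 : Fin 2 →₀ ℕ) ≠ 0 := by simp
  have e1 : (Finsupp.single (1 : Fin 2) 1 : Fin 2 →₀ ℕ) ≠ 0 := by simp
  ext i
  fin_cases i
  · simp [MvPolynomial.coeff_C_mul, MvPolynomial.coeff_X, MvPolynomial.coeff_C]
  · simp [MvPolynomial.coeff_C_mul, MvPolynomial.coeff_X, MvPolynomial.coeff_C, e0.symm, e01, e01.symm]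
  · simp [MvPolynomial.coeff_C_mul, MvPolynomial.coeff_X, MvPolynomial.coeff_C, e1.symm, e01, e01.symm]

theorem sq_hilb : IsHilbPoint 3 ℂ (Ideal.span (Set.range
      (![MvPolynomial.X 1 ^ 2, MvPolynomial.X 0 * MvPolynomial.X 1, MvPolynomial.X 0 ^ 2] :
        Fin 3 → MvPolynomial (Fin 2) ℂ))) := by
  set I := Ideal.span (Set.range
      (![MvPolynomial.X 1 ^ 2, MvPolynomial.X 0 * MvPolynomial.X 1, MvPolynomial.X 0 ^ 2] :
        Fin 3 → MvPolynomial (Fin 2) ℂ)) with hI
  have hker : I.restrictScalars ℂ = LinearMap.ker low := by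
    ext g
    rw [Submodule.restrictScalars_mem, hI, mem_sq_iff, LinearMap.mem_ker, low_apply]
    constructor
    · rintro ⟨h1, h2, h3⟩
      rw [h1, h2, h3]
      ext i; fin_cases i <;> rfl
    · intro h
      exact ⟨congrFun h 0, congrFun h 1, congrFun h 2⟩
  have e : (MvPolynomial (Fin 2) ℂ ⧸ I) ≃ₗ[ℂ] (Fin 3 → ℂ) :=
    (Submodule.Quotient.restrictScalarsEquiv ℂ I).symm ≪≫ₗ
      (Submodule.quotEquivOfEq _ _ hker) ≪≫ₗ (low.quotKerEquivOfSurjective low_surj)
  refine ⟨Module.Finite.equiv e.symm, Module.Free.of_equiv e.symm, ?_⟩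
  rw [e.finrank_eq]
  simp

/-- TARGET 2: the family `(x - t y^2, y^3)` -/
theorem joined_three :
    Joined 3 (JJ 3 (0 : Polynomial ℂ)) (Ideal.span (Set.range
      (![MvPolynomial.X 1 ^ 2, MvPolynomial.X 0 * MvPolynomial.X 1, MvPolynomial.X 0 ^ 2] :
        Fin 3 → MvPolynomial (Fin 2) ℂ))) := by
  have hd : (Polynomial.X : Polynomial (RatFunc ℂ)) ^ 2 ∣ Polynomial.monomial 2 (j0 Polynomial.X) :=
    X_pow_dvd_monomial 2 _
  refine joined_of 3 2 (by decide) _ ![-MvPolynomial.X 0, 0, 0] ?_ sq_hilb 0 ?_ ?_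
  · intro i
    fin_cases i
    · exact special_y_pow 3 2
    · refine special_zero_of 3 2 _ ?_
      obtain ⟨c, hc⟩ := hd
      refine ⟨c, ?_⟩
      simp only [Fin.mk_one, Matrix.cons_val_one, Matrix.cons_val_zero, map_mul,
        MvPolynomial.map_X, MvPolynomial.aeval_X]
      rw [hc]; ring
    · refine special_zero_of 3 2 _ ?_
      obtain ⟨c, hc⟩ := hd
      refine ⟨Polynomial.X * c ^ 2, ?_⟩
      have : (MvPolynomial.aeval ![(Polynomial.monomial 2 (j0 Polynomial.X) : Polynomial (RatFunc ℂ)),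
          Polynomial.X] (MvPolynomial.map (RatFunc.C : ℂ →+* RatFunc ℂ)
            (MvPolynomial.X 0 ^ 2 : MvPolynomial (Fin 2) ℂ)) : Polynomial (RatFunc ℂ)) = (Polynomial.monomial 2 (j0 Polynomial.X)) ^ 2 := by
        simp
      refine Eq.trans this ?_
      rw [hc]; ring
  · rw [mem_sq_iff]
    rintro ⟨-, h, -⟩
    have h' : MvPolynomial.coeff (Finsupp.single 0 1)
      (-MvPolynomial.X 0 : MvPolynomial (Fin 2) ℂ) = 0 := h
    simp [MvPolynomial.coeff_X] at h'
  · intro a h
    have h1 : (MvPolynomial.X 0 - MvPolynomial.C a * MvPolynomial.X 1 ^ 2 :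
      MvPolynomial (Fin 2) ℂ) ∈ JJ 3 (Polynomial.monomial 2 a) := by
      rw [mem_JJ]
      have : (MvPolynomial.aeval ![(Polynomial.monomial 2 a : Polynomial ℂ), Polynomial.X]
        (MvPolynomial.X 0 - MvPolynomial.C a * MvPolynomial.X 1 ^ 2 : MvPolynomial (Fin 2) ℂ) :
          Polynomial ℂ) = 0 := by
        simp [← Polynomial.C_mul_X_pow_eq_monomial]
      rw [this]
      exact dvd_zero _
    rw [← h, mem_sq_iff] at h1
    have h2 := h1.2.1
    rw [MvPolynomial.coeff_sub, MvPolynomial.coeff_C_mul, MvPolynomial.coeff_X_pow] at h2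
    have e02 : (Finsupp.single (1 : Fin 2) 2 : Fin 2 →₀ ℕ) ≠ Finsupp.single 0 1 := by
      intro h
      have := DFunLike.congr_fun h 0
      simp at this
    simp [MvPolynomial.coeff_X, e02] at h2

end MP4403b8
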