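import Mathlib
import Pool.Agent.HilbP1.P2
import Pool.Agent.HilbP1.P5
import Pool.Agent.HilbP1.P6
import Pool.Agent.HilbP1.P6b
import Pool.Agent.HilbP1.P7
import Pool.Agent.HilbP1.P8
import Pool.Agent.HilbP1.P11
import Pool.Agent.HilbP1.A1b

set_option autoImplicit false

namespace MP4403b8

lemma natDegree_add_mul (B H E : Polynomial ℂ) (hH : H ≠ 0) (hE : E ≠ 0)
    (h : B.natDegree < H.natDegree + E.natDegree) :
    (B + H * E).natDegree = H.natDegree + E.natDegree := by
  rw [← Polynomial.natDegree_mul hH hE]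
  apply Polynomial.natDegree_add_eq_right_of_natDegree_lt
  rwa [Polynomial.natDegree_mul hH hE]

lemma natDegree_lin (r1 r2 : ℂ) :
    (Polynomial.C r1 + Polynomial.C r2 * Polynomial.X : Polynomial ℂ).natDegree ≤ 1 := by
  compute_degree

lemma coeff_sum_mono (n : ℕ) (c : ℕ → ℂ) (i : ℕ) :
    (∑ j ∈ Finset.Ico 1 n, Polynomial.monomial j (c j) : Polynomial ℂ).coeff i =
      if i ∈ Finset.Ico 1 n then c i else 0 := by
  rw [Polynomial.finsetSum_coeff]
  simp only [Polynomial.coeff_monomial]
  rw [Finset.sum_ite_eq' (Finset.Ico 1 n) i c]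

/-- TARGET -/
theorem joined_main (n : ℕ) (hn : 4 ≤ n) (I J : Ideal (MvPolynomial (Fin 2) ℂ))
    (hI : IsHilbPoint n ℂ I) (hJ : IsHilbPoint n ℂ J)
    (mI : IsMonomialIdeal I) (mJ : IsMonomialIdeal J) (hIJ : I ≠ J)
    (yI : (MvPolynomial.X 1 : MvPolynomial (Fin 2) ℂ) ∉ I)
    (yJ : (MvPolynomial.X 1 : MvPolynomial (Fin 2) ℂ) ∉ J) : Joined n I J := by
  classical
  obtain ⟨h, NI, hanti, hN0, hsum, -, hsupp, hgen⟩ := monomial_heights n I hI mI
  obtain ⟨h', NJ, hanti', hN0', hsum', -, hsupp', hgen'⟩ := monomial_heights n J hJ mJ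
  obtain ⟨m, G0, G1, hG0, ⟨i0, m0, hm0, hlt0⟩, harc⟩ := arcs n (by omega) h hanti NI hN0 hsum
  obtain ⟨m', G0', G1', hG0', ⟨i1, m1, hm1, hlt1⟩, harc'⟩ :=
    arcs n (by omega) h' hanti' NJ hN0' hsum'
  rw [← hgen] at hG0
  rw [← hgen'] at hG0'
  have hG1I : G1 i0 ∉ I := by
    intro hmem
    have := (hsupp _).mp hmem m0 hm0
    omega
  have hG1J : G1' i1 ∉ J := by
    intro hmem
    have := (hsupp' _).mp hmem m1 hm1
    omega
  obtain ⟨N, M, B, hint⟩ := interpolate n 0 1 (by norm_num) G0 G1 G0' G1' (harc 0) (harc' 1)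
  set D : Polynomial ℂ := (Polynomial.X - Polynomial.C 0) * (Polynomial.X - Polynomial.C 1) with hD
  have hDm : D.Monic := (Polynomial.monic_X_sub_C 0).mul (Polynomial.monic_X_sub_C 1)
  have hDdeg : D.natDegree = 2 := by
    rw [hD, (Polynomial.monic_X_sub_C 0).natDegree_mul (Polynomial.monic_X_sub_C 1),
      Polynomial.natDegree_X_sub_C, Polynomial.natDegree_X_sub_C]
  have hDev : ∀ a : ℂ, a ≠ 0 → a ≠ 1 → D.eval a ≠ 0 := by
    intro a ha0 ha1
    rw [hD, Polynomial.eval_mul, Polynomial.eval_sub, Polynomial.eval_sub, Polynomial.eval_X,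
      Polynomial.eval_C, Polynomial.eval_C]
    exact mul_ne_zero (sub_ne_zero.mpr ha0) (sub_ne_zero.mpr ha1)
  set Q : Polynomial ℂ := D ^ N with hQ
  set H : Polynomial ℂ := D ^ M with hH
  have hQm : Q.Monic := hDm.pow N
  have hHm : H.Monic := hDm.pow M
  have hQdeg : Q.natDegree = 2 * N := by rw [hQ, hDm.natDegree_pow, hDdeg]; ring
  have hHdeg : H.natDegree = 2 * M := by rw [hH, hDm.natDegree_pow, hDdeg]; ring
  have hQev : ∀ a : ℂ, a ≠ 0 → a ≠ 1 → Q.eval a ≠ 0 := by
    intro a ha0 ha1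
    rw [hQ, Polynomial.eval_pow]
    exact pow_ne_zero _ (hDev a ha0 ha1)
  have hHev : ∀ a : ℂ, a ≠ 0 → a ≠ 1 → H.eval a ≠ 0 := by
    intro a ha0 ha1
    rw [hH, Polynomial.eval_pow]
    exact pow_ne_zero _ (hDev a ha0 ha1)
  -- degrees
  obtain ⟨S, hS⟩ : ∃ S : ℕ, ∀ i ≤ n, (B i).natDegree ≤ S := by
    refine ⟨∑ i ∈ Finset.range (n + 1), (B i).natDegree, fun i hi => ?_⟩
    exact Finset.single_le_sum (f := fun i => (B i).natDegree) (fun _ _ => Nat.zero_le _)
      (Finset.mem_range.mpr (by omega))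
  obtain ⟨e1, he1⟩ : ∃ e1 : ℕ, e1 = 2 * N + 2 * M + 10 + S := ⟨_, rfl⟩
  obtain ⟨e2, he2⟩ : ∃ e2 : ℕ, e2 = 2 * N + 2 * M + 9 + S + (n - 1) * (4 * M + 10 + S) := ⟨_, rfl⟩
  have hXe : ∀ e : ℕ, (Polynomial.X ^ e : Polynomial ℂ) ≠ 0 := fun e => pow_ne_zero _ Polynomial.X_ne_zero
  set P1 : Polynomial ℂ := B 1 + H * Polynomial.X ^ e1 with hP1
  have hP1deg : P1.natDegree = 2 * M + e1 := by
    rw [hP1, natDegree_add_mul _ _ _ hHm.ne_zero (hXe _), hHdeg, Polynomial.natDegree_X_pow]
    rw [hHdeg, Polynomial.natDegree_X_pow]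
    have := hS 1 (by omega)
    omega
  have hP1Q : ∀ κ : ℂ, P1 ≠ Polynomial.C κ * Q := by
    intro κ hcon
    have h1 : P1.natDegree ≤ 2 * N := by
      rw [hcon]
      exact (Polynomial.natDegree_C_mul_le κ Q).trans hQdeg.le
    omega
  obtain ⟨r1, r2, q1, q2, hgc⟩ := generic_coeffs P1 (B 2)
    (if n = 4 then B 3 + H * Polynomial.X ^ e2 else B 3) H Q hP1Q
  set E : ℕ → Polynomial ℂ := fun i =>
    if i = 1 then Polynomial.X ^ e1 else
    if i = 2 then Polynomial.C r1 + Polynomial.C r2 * Polynomial.X else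
    if i = 3 then (Polynomial.C q1 + Polynomial.C q2 * Polynomial.X) +
      (if n = 4 then Polynomial.X ^ e2 else 0) else
    if i = n - 1 then Polynomial.X ^ e2 else 0 with hE
  set P : ℕ → Polynomial ℂ := fun i => B i + H * E i with hP
  have hP1' : P 1 = P1 := by simp only [hP, hE, if_true, hP1]
  have hP2' : P 2 = B 2 + H * (Polynomial.C r1 + Polynomial.C r2 * Polynomial.X) := by
    simp [hP, hE]
  have hP3' : P 3 = (if n = 4 then B 3 + H * Polynomial.X ^ e2 else B 3) +
      H * (Polynomial.C q1 + Polynomial.C q2 * Polynomial.X) := by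
    by_cases h4 : n = 4
    · simp [hP, hE, h4]; ring
    · simp [hP, hE, h4]
  obtain ⟨gc1, gc2, gc3⟩ := hgc (P 2) (P 3) hP2' hP3'
  rw [← hP1'] at gc1 gc2 gc3
  obtain ⟨F, hF⟩ : ∃ F : Polynomial (RatFunc ℂ), F = ∑ i ∈ Finset.Ico 1 n,
    Polynomial.monomial i (j0 (P i) / j0 Q) := ⟨_, rfl⟩
  obtain ⟨hsp0, hsp1⟩ := hint E F hF
  have hF0 : F.coeff 0 = 0 := by
    rw [hF, Polynomial.finsetSum_coeff]
    apply Finset.sum_eq_zero
    intro i hi
    rw [Polynomial.coeff_monomial, if_neg]
    have := (Finset.mem_Ico.mp hi).1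
    omega
  -- at infinity
  have hEn : E (n - 1) ≠ 0 ∧ (E (n - 1)).natDegree = e2 := by
    by_cases h4 : n = 4
    · have h5 : E (n - 1) = (Polynomial.C q1 + Polynomial.C q2 * Polynomial.X) +
          Polynomial.X ^ e2 := by
        subst h4; simp [hE]
      have h6 : (E (n - 1)).natDegree = e2 := by
        rw [h5, Polynomial.natDegree_add_eq_right_of_natDegree_lt]
        · rw [Polynomial.natDegree_X_pow]
        · rw [Polynomial.natDegree_X_pow]
          have := natDegree_lin q1 q2
          omega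
      refine ⟨?_, h6⟩
      intro h0
      rw [h0, Polynomial.natDegree_zero] at h6
      omega
    · have h5 : E (n - 1) = Polynomial.X ^ e2 := by
        simp only [hE]
        rw [if_neg (by omega), if_neg (by omega), if_neg (by omega)]
        simp
      rw [h5]
      exact ⟨hXe _, Polynomial.natDegree_X_pow _⟩
  have hPn : (P (n - 1)).natDegree = 2 * M + e2 := by
    have h1 : (B (n - 1)).natDegree < H.natDegree + (E (n - 1)).natDegree := by
      have := hS (n - 1) (by omega)
      rw [hHdeg, hEn.2]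
      have : 0 ≤ (n - 1) * (4 * M + 10 + S) := Nat.zero_le _
      omega
    simp only [hP]
    rw [natDegree_add_mul _ _ _ hHm.ne_zero hEn.1 h1, hHdeg, hEn.2]
  obtain ⟨c0, c1, κ, hc0, hκ, hspi0, hspi1⟩ := at_infinity n hn Q hQm.ne_zero P
    (by rw [hP1', hP1deg, hQdeg]; omega)
    (by
      intro i hi2 hin
      rw [hP1', hP1deg]
      have hBi := hS i (by omega)
      have hEi : (E i).natDegree ≤ 1 := by
        simp only [hE]
        rw [if_neg (by omega)]
        split_ifs with ha hb hc hd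
        · exact natDegree_lin r1 r2
        · omega
        · rw [add_zero]; exact natDegree_lin q1 q2
        · omega
        · simp
      have h1 : (P i).natDegree ≤ max (B i).natDegree (2 * M + 1) := by
        simp only [hP]
        refine (Polynomial.natDegree_add_le _ _).trans ?_
        apply max_le_max le_rfl
        refine (Polynomial.natDegree_mul_le).trans ?_
        omega
      have h2 : max (B i).natDegree (2 * M + 1) ≤ S + 2 * M + 1 := by
        apply max_le <;> omega
      omega)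
    (by
      intro h0
      rw [h0, Polynomial.natDegree_zero] at hPn
      omega)
    (by
      rw [hP1', hP1deg, hPn, hQdeg, he1, he2]
      obtain ⟨k, rfl⟩ : ∃ k, n = k + 4 := ⟨n - 4, by omega⟩
      have : k + 4 - 1 = k + 3 := by omega
      rw [this]
      ring)
    F hF
  -- the family
  let Fm : P1Family n :=
    { I₀ := fam j0 n F
      I₁ := fam j1 n F
      hilb₀ := fam_hilb j0 isFrac_j0 n F hF0
      hilb₁ := fam_hilb j1 isFrac_j1 n F hF0
      glue := fam_glue n F }
  set Col : Ideal (MvPolynomial (Fin 2) ℂ) := Ideal.span (Set.range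
      (![MvPolynomial.C c0 * MvPolynomial.X 1, MvPolynomial.X 0 ^ n] :
        Fin 2 → MvPolynomial (Fin 2) ℂ)) with hCol
  have v0 : fib 0 (fam j0 n F) = I := by
    rw [fib_eq n _ (fam_hilb j0 isFrac_j0 n F hF0) 0 G0 G1 hsp0 (by rwa [hG0]), hG0]
  have v1 : fib 1 (fam j0 n F) = J := by
    rw [fib_eq n _ (fam_hilb j0 isFrac_j0 n F hF0) 1 G0' G1' hsp1 (by rwa [hG0']), hG0']
  have vi : fib 0 (fam j1 n F) = Col := by
    apply fib_eq n _ (fam_hilb j1 isFrac_j1 n F hF0) 0 _
      (![MvPolynomial.C c1 * MvPolynomial.X 1 + MvPolynomial.C κ * MvPolynomial.X 0 ^ (n - 1), 0] :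
        Fin 2 → MvPolynomial (Fin 2) ℂ)
    · intro i
      fin_cases i
      · exact hspi0
      · exact hspi1
    · exact hilb_col n (by omega) c0 hc0
  set f : ℂ → Polynomial ℂ := fun a =>
    ∑ i ∈ Finset.Ico 1 n, Polynomial.monomial i ((P i).eval a / Q.eval a) with hf
  have va : ∀ a : ℂ, a ≠ 0 → a ≠ 1 → fib a (fam j0 n F) = JJ n (f a) := fun a ha0 ha1 =>
    (at_regular n (by omega) Q P a (hQev a ha0 ha1) F hF).1
  have hf0 : ∀ a : ℂ, (f a).coeff 0 = 0 := by
    intro a
    simp only [hf]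
    rw [coeff_sum_mono, if_neg (by simp)]
  have hfi : ∀ a : ℂ, ∀ i ∈ Finset.Ico 1 n, (f a).coeff i = (P i).eval a / Q.eval a := by
    intro a i hi
    simp only [hf]
    rw [coeff_sum_mono, if_pos hi]
  have h1mem : (1:ℕ) ∈ Finset.Ico 1 n := Finset.mem_Ico.mpr ⟨le_refl _, by omega⟩
  have h2mem : (2:ℕ) ∈ Finset.Ico 1 n := Finset.mem_Ico.mpr ⟨by omega, by omega⟩
  have h3mem : (3:ℕ) ∈ Finset.Ico 1 n := Finset.mem_Ico.mpr ⟨by omega, by omega⟩
  have hmono : ∀ a : ℂ, a ≠ 0 → a ≠ 1 → ¬ IsMonomialIdeal (fib a (fam j0 n F)) := by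
    intro a ha0 ha1 hm
    rw [va a ha0 ha1] at hm
    have hdvd := JJ_monomial n (f a) (hf0 a) hm
    rw [Polynomial.X_pow_dvd_iff] at hdvd
    have hz : ∀ i ∈ Finset.Ico 1 n, (P i).eval a = 0 := by
      intro i hi
      have h1 := hdvd i (Finset.mem_Ico.mp hi).2
      rw [hfi a i hi, div_eq_zero_iff] at h1
      rcases h1 with h1 | h1
      · exact h1
      · exact absurd h1 (hQev a ha0 ha1)
    exact gc1 a (hHev a ha0 ha1) (hQev a ha0 ha1) ⟨hz 1 h1mem, hz 2 h2mem⟩
  have hX1Col : (MvPolynomial.X 1 : MvPolynomial (Fin 2) ℂ) ∈ Col := by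
    have h1 : (MvPolynomial.C c0 * MvPolynomial.X 1 : MvPolynomial (Fin 2) ℂ) ∈ Col :=
      Ideal.subset_span ⟨0, rfl⟩
    have h2 := Ideal.mul_mem_left Col (MvPolynomial.C c0⁻¹) h1
    rwa [← mul_assoc, ← MvPolynomial.C_mul, inv_mul_cancel₀ hc0, MvPolynomial.C_1, one_mul] at h2
  have hneCol : ∀ a : ℂ, fib a (fam j0 n F) ≠ Col := by
    intro a hcon
    by_cases ha0 : a = 0
    · subst ha0
      rw [v0] at hcon
      exact yI (hcon ▸ hX1Col)
    · by_cases ha1 : a = 1
      · subst ha1
        rw [v1] at hcon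
        exact yJ (hcon ▸ hX1Col)
      · rw [va a ha0 ha1] at hcon
        exact col_ne_JJ n (by omega) c0 hc0 (f a) (hf0 a) hcon.symm
  have hinj : ∀ a b : ℂ, fib a (fam j0 n F) = fib b (fam j0 n F) → a = b := by
    intro a b hab
    by_cases ha0 : a = 0
    · subst ha0
      by_cases hb0 : b = 0
      · exact hb0.symm
      · by_cases hb1 : b = 1
        · subst hb1
          rw [v0, v1] at hab
          exact absurd hab hIJ
        · exfalso
          apply hmono b hb0 hb1
          rw [← hab, v0]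
          exact mI
    · by_cases ha1 : a = 1
      · subst ha1
        by_cases hb1 : b = 1
        · exact hb1.symm
        · by_cases hb0 : b = 0
          · subst hb0
            rw [v0, v1] at hab
            exact absurd hab.symm hIJ
          · exfalso
            apply hmono b hb0 hb1
            rw [← hab, v1]
            exact mJ
      · by_cases hb0 : b = 0
        · subst hb0
          exfalso
          apply hmono a ha0 ha1
          rw [hab, v0]
          exact mI
        · by_cases hb1 : b = 1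
          · subst hb1
            exfalso
            apply hmono a ha0 ha1
            rw [hab, v1]
            exact mJ
          · by_contra hne
            rw [va a ha0 ha1, va b hb0 hb1] at hab
            have hdvd := JJ_inj n (f a) (f b) hab
            rw [Polynomial.X_pow_dvd_iff] at hdvd
            have hz : ∀ i ∈ Finset.Ico 1 n,
                (P i).eval a * Q.eval b = (P i).eval b * Q.eval a := by
              intro i hi
              have h1 := hdvd i (Finset.mem_Ico.mp hi).2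
              rw [Polynomial.coeff_sub, hfi a i hi, hfi b i hi, sub_eq_zero,
                div_eq_div_iff (hQev a ha0 ha1) (hQev b hb0 hb1)] at h1
              exact h1
            exact gc3 a b hne (hHev a ha0 ha1) (hQev a ha0 ha1) (hHev b hb0 hb1)
              (hQev b hb0 hb1) ⟨hz 1 h1mem, hz 2 h2mem, hz 3 h3mem⟩
  refine ⟨Fm, ⟨?_, ?_, ?_⟩, ⟨((0:ℂ) : OnePoint ℂ), v0⟩, ⟨((1:ℂ) : OnePoint ℂ), v1⟩⟩
  · -- injective
    intro x y hxy
    induction x using OnePoint.rec with
    | infty =>
      induction y using OnePoint.rec with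
      | infty => rfl
      | coe b =>
        exfalso
        have h1 : fib 0 (fam j1 n F) = fib b (fam j0 n F) := hxy
        rw [vi] at h1
        exact hneCol b h1.symm
    | coe a =>
      induction y using OnePoint.rec with
      | infty =>
        exfalso
        have h1 : fib a (fam j0 n F) = fib 0 (fam j1 n F) := hxy
        rw [vi] at h1
        exact hneCol a h1
      | coe b =>
        have h1 : fib a (fam j0 n F) = fib b (fam j0 n F) := hxy
        rw [hinj a b h1]
  · -- immersive on the first chart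
    intro a
    change ¬ DiffZero a (fam j0 n F)
    by_cases ha0 : a = 0
    · subst ha0
      apply not_diffZero _ 0 (G0 i0) (G1 i0) (hsp0 i0)
      rwa [v0]
    · by_cases ha1 : a = 1
      · subst ha1
        apply not_diffZero _ 1 (G0' i1) (G1' i1) (hsp1 i1)
        rwa [v1]
      · apply (at_regular n (by omega) Q P a (hQev a ha0 ha1) F hF).2
        have h2 := gc2 a (hHev a ha0 ha1) (hQev a ha0 ha1)
        by_contra hcon
        push Not at hcon
        exact h2 ⟨hcon 1 h1mem, hcon 2 h2mem⟩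
  · -- immersive at infinity
    change ¬ DiffZero 0 (fam j1 n F)
    apply not_diffZero _ 0 _ _ hspi0
    rw [vi]
    intro hmem
    -- apply the evaluation x ↦ X, y ↦ 0
    let φ : MvPolynomial (Fin 2) ℂ →ₐ[ℂ] Polynomial ℂ :=
      MvPolynomial.aeval ![(Polynomial.X : Polynomial ℂ), 0]
    have hle : Col ≤ (Ideal.span {(Polynomial.X : Polynomial ℂ) ^ n}).comap φ.toRingHom := by
      rw [hCol, Ideal.span_le]
      rintro _ ⟨i, rfl⟩
      fin_cases i
      · change φ (MvPolynomial.C c0 * MvPolynomial.X 1) ∈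
          (Ideal.span {(Polynomial.X : Polynomial ℂ) ^ n} : Ideal (Polynomial ℂ))
        have : φ (MvPolynomial.C c0 * MvPolynomial.X 1) = 0 := by
          simp [φ]
        rw [this]
        exact Submodule.zero_mem _
      · change φ (MvPolynomial.X 0 ^ n) ∈
          (Ideal.span {(Polynomial.X : Polynomial ℂ) ^ n} : Ideal (Polynomial ℂ))
        have : φ (MvPolynomial.X 0 ^ n) = Polynomial.X ^ n := by
          simp [φ]
        rw [this]
        exact Ideal.mem_span_singleton_self _
    have h1 := hle hmem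
    have h2 : φ (MvPolynomial.C c1 * MvPolynomial.X 1 +
        MvPolynomial.C κ * MvPolynomial.X 0 ^ (n - 1)) =
        Polynomial.C κ * Polynomial.X ^ (n - 1) := by
      simp [φ]
    have h3 : (Polynomial.X : Polynomial ℂ) ^ n ∣ Polynomial.C κ * Polynomial.X ^ (n - 1) := by
      rw [← h2]
      exact Ideal.mem_span_singleton.mp h1
    rw [Polynomial.X_pow_dvd_iff] at h3
    have h4 := h3 (n - 1) (by omega)
    rw [Polynomial.coeff_C_mul_X_pow, if_pos rfl] at h4
    exact hκ h4

end MP4403b8
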