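import Mathlib
import Pool.Agent.HilbP1.J12a
import Pool.Agent.HilbP1.J12b

set_option autoImplicit false

namespace MP4403b8

lemma aux_eq_of_le {n : ℕ} {I J : Ideal (MvPolynomial (Fin 2) ℂ)}
    (hI : IsHilbPoint n ℂ I) (hJ : IsHilbPoint n ℂ J) (h : I ≤ J) : I = J := by
  obtain ⟨fI, _, rI⟩ := hI
  obtain ⟨fJ, _, rJ⟩ := hJ
  apply le_antisymm h
  intro x hx
  have hs : Function.Surjective (Ideal.Quotient.factorₐ ℂ h).toLinearMap := by
    intro y
    obtain ⟨z, rfl⟩ := Ideal.Quotient.mk_surjective y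
    exact ⟨Ideal.Quotient.mk _ z, by simp⟩
  have hi : Function.Injective (Ideal.Quotient.factorₐ ℂ h).toLinearMap :=
    (LinearMap.injective_iff_surjective_of_finrank_eq_finrank (by rw [rI, rJ])).mpr hs
  rw [← Ideal.Quotient.eq_zero_iff_mem]
  apply hi
  rw [map_zero]
  have : (Ideal.Quotient.factorₐ ℂ h).toLinearMap (Ideal.Quotient.mk I x) = Ideal.Quotient.mk J x := by
    simp
  rw [this, Ideal.Quotient.eq_zero_iff_mem]
  exact hx

section heights
variable (n : ℕ) (h : ℕ → ℕ) (N : ℕ) (hh : Antitone h) (hN : h N = 0)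
  (hs : ∑ a ∈ Finset.range N, h a = n)
include hh hN hs

/-- partial sums are at most `n` -/
lemma aux_sum_le (k : ℕ) : ∑ a ∈ Finset.range k, h a ≤ n := by
  rcases le_total k N with hk | hk
  · rw [← hs]
    exact Finset.sum_le_sum_of_subset (Finset.range_subset_range.mpr hk)
  · have : ∑ a ∈ Finset.range k, h a = ∑ a ∈ Finset.range N, h a := by
      symm
      apply Finset.sum_subset (Finset.range_subset_range.mpr hk)
      intro x _ hx
      have : N ≤ x := by simpa using hx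
      have := hh this
      omega
    rw [this, hs]

/-- partial sums reach `n` once heights vanish -/
lemma aux_sum_eq (k : ℕ) (hk : h k = 0) : ∑ a ∈ Finset.range k, h a = n := by
  rcases le_total k N with hk' | hk'
  · rw [← hs]
    apply Finset.sum_subset (Finset.range_subset_range.mpr hk')
    intro x _ hx
    have : k ≤ x := by simpa using hx
    have := hh this
    omega
  · have : ∑ a ∈ Finset.range k, h a = ∑ a ∈ Finset.range N, h a := by
      symm
      apply Finset.sum_subset (Finset.range_subset_range.mpr hk')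
      intro x _ hx
      have : N ≤ x := by simpa using hx
      have := hh this
      omega
    rw [this, hs]

lemma aux_hn : h n = 0 := by
  by_contra hc
  have h1 := aux_sum_le n h N hh hN hs (n + 1)
  have h2 : ∑ a ∈ Finset.range (n + 1), 1 ≤ ∑ a ∈ Finset.range (n + 1), h a := by
    apply Finset.sum_le_sum
    intro x hx
    have : x ≤ n := by
      have := Finset.mem_range.mp hx
      omega
    have := hh this
    omega
  simp at h2
  omega

lemma aux_h0 : h 0 ≤ n := by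
  have h1 := aux_sum_le n h N hh hN hs 1
  simpa using h1

end heights

lemma aux_col {n : ℕ} (hn : 1 ≤ n) {I : Ideal (MvPolynomial (Fin 2) ℂ)}
    (hI : IsHilbPoint n ℂ I) (mI : IsMonomialIdeal I)
    (hX : (MvPolynomial.X 1 : MvPolynomial (Fin 2) ℂ) ∈ I) :
    I = Ideal.span (Set.range
      (![MvPolynomial.C 1 * MvPolynomial.X 1, MvPolynomial.X 0 ^ n] :
        Fin 2 → MvPolynomial (Fin 2) ℂ)) := by
  obtain ⟨h, N, hh, hN, hs, hm, -, -⟩ := monomial_heights n I hI mI
  symm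
  apply aux_eq_of_le (hilb_col n hn 1 one_ne_zero) hI
  rw [Ideal.span_le]
  rintro _ ⟨i, rfl⟩
  fin_cases i
  · exact Ideal.mul_mem_left _ _ hX
  · have := (hm n 0).mpr (by rw [aux_hn n h N hh hN hs])
    simpa using this

lemma aux_row {n : ℕ} {I : Ideal (MvPolynomial (Fin 2) ℂ)}
    (hI : IsHilbPoint n ℂ I) (mI : IsMonomialIdeal I)
    (hX : (MvPolynomial.X 0 : MvPolynomial (Fin 2) ℂ) ∈ I) :
    I = JJ n (0 : Polynomial ℂ) := by
  obtain ⟨h, N, hh, hN, hs, hm, -, hspan⟩ := monomial_heights n I hI mI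
  have h1 : h 1 = 0 := by
    have := (hm 1 0).mp (by simpa using hX)
    omega
  have h0 : h 0 = n := by
    have := aux_sum_eq n h N hh hN hs 1 h1
    simpa using this
  apply aux_eq_of_le hI (hilb_JJ n 0)
  rw [hspan, Ideal.span_le]
  rintro _ ⟨⟨v, hv⟩, rfl⟩
  rw [SetLike.mem_coe, mem_JJ]
  rcases v with _ | v
  · simp [h0]
  · simp

lemma aux_tri {I : Ideal (MvPolynomial (Fin 2) ℂ)}
    (hI : IsHilbPoint 3 ℂ I) (mI : IsMonomialIdeal I)
    (hX0 : (MvPolynomial.X 0 : MvPolynomial (Fin 2) ℂ) ∉ I)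
    (hX1 : (MvPolynomial.X 1 : MvPolynomial (Fin 2) ℂ) ∉ I) :
    I = Ideal.span (Set.range
      (![MvPolynomial.X 1 ^ 2, MvPolynomial.X 0 * MvPolynomial.X 1, MvPolynomial.X 0 ^ 2] :
        Fin 3 → MvPolynomial (Fin 2) ℂ)) := by
  obtain ⟨h, N, hh, hN, hs, hm, -, hspan⟩ := monomial_heights 3 I hI mI
  have h1 : 1 ≤ h 1 := by
    by_contra hc
    apply hX0
    have := (hm 1 0).mpr (by omega)
    simpa using this
  have h0 : 2 ≤ h 0 := by
    by_contra hc
    apply hX1
    have := (hm 0 1).mpr (by omega)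
    simpa using this
  have h3 := aux_sum_le 3 h N hh hN hs 3
  simp only [Finset.sum_range_succ, Finset.range_zero, Finset.sum_empty] at h3
  have e0 : h 0 = 2 := by omega
  have e1 : h 1 = 1 := by omega
  have e2 : h 2 = 0 := by omega
  apply le_antisymm
  · rw [hspan, Ideal.span_le]
    rintro _ ⟨⟨v, hv⟩, rfl⟩
    rw [SetLike.mem_coe]
    have g0 : (MvPolynomial.X 1 ^ 2 : MvPolynomial (Fin 2) ℂ) ∈ Ideal.span (Set.range
      (![MvPolynomial.X 1 ^ 2, MvPolynomial.X 0 * MvPolynomial.X 1, MvPolynomial.X 0 ^ 2] :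
        Fin 3 → MvPolynomial (Fin 2) ℂ)) := Ideal.subset_span ⟨0, rfl⟩
    have g1 : (MvPolynomial.X 0 * MvPolynomial.X 1 : MvPolynomial (Fin 2) ℂ) ∈ Ideal.span (Set.range
      (![MvPolynomial.X 1 ^ 2, MvPolynomial.X 0 * MvPolynomial.X 1, MvPolynomial.X 0 ^ 2] :
        Fin 3 → MvPolynomial (Fin 2) ℂ)) := Ideal.subset_span ⟨1, rfl⟩
    have g2 : (MvPolynomial.X 0 ^ 2 : MvPolynomial (Fin 2) ℂ) ∈ Ideal.span (Set.range
      (![MvPolynomial.X 1 ^ 2, MvPolynomial.X 0 * MvPolynomial.X 1, MvPolynomial.X 0 ^ 2] :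
        Fin 3 → MvPolynomial (Fin 2) ℂ)) := Ideal.subset_span ⟨2, rfl⟩
    rcases v with _ | _ | v
    · simpa [e0] using g0
    · simpa [e1] using g1
    · simp only
      have : (MvPolynomial.X 0 ^ (v + 1 + 1) * MvPolynomial.X 1 ^ h (v + 1 + 1) :
          MvPolynomial (Fin 2) ℂ) = (MvPolynomial.X 0 ^ v * MvPolynomial.X 1 ^ h (v + 1 + 1))
            * MvPolynomial.X 0 ^ 2 := by ring
      rw [this]
      exact Ideal.mul_mem_left _ _ g2
  · rw [Ideal.span_le]
    rintro _ ⟨i, rfl⟩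
    rw [SetLike.mem_coe]
    fin_cases i
    · have := (hm 0 2).mpr (by omega)
      simpa using this
    · have := (hm 1 1).mpr (by omega)
      simpa using this
    · have := (hm 2 0).mpr (by omega)
      simpa using this

lemma aux_two {I : Ideal (MvPolynomial (Fin 2) ℂ)}
    (hI : IsHilbPoint 2 ℂ I) (mI : IsMonomialIdeal I)
    (hX1 : (MvPolynomial.X 1 : MvPolynomial (Fin 2) ℂ) ∉ I) :
    (MvPolynomial.X 0 : MvPolynomial (Fin 2) ℂ) ∈ I := by
  obtain ⟨h, N, hh, hN, hs, hm, -, hspan⟩ := monomial_heights 2 I hI mI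
  have h0 : 2 ≤ h 0 := by
    by_contra hc
    apply hX1
    have := (hm 0 1).mpr (by omega)
    simpa using this
  have h3 := aux_sum_le 2 h N hh hN hs 2
  simp only [Finset.sum_range_succ, Finset.range_zero, Finset.sum_empty] at h3
  have := (hm 1 0).mpr (by omega)
  simpa using this

lemma aux_not_both {n : ℕ} (hn : 2 ≤ n) {I : Ideal (MvPolynomial (Fin 2) ℂ)}
    (hI : IsHilbPoint n ℂ I) (mI : IsMonomialIdeal I)
    (hX1 : (MvPolynomial.X 1 : MvPolynomial (Fin 2) ℂ) ∈ I) :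
    (MvPolynomial.X 0 : MvPolynomial (Fin 2) ℂ) ∉ I := by
  intro hX0
  obtain ⟨h, N, hh, hN, hs, hm, -, hspan⟩ := monomial_heights n I hI mI
  have h1 : h 1 = 0 := by
    have := (hm 1 0).mp (by simpa using hX0)
    omega
  have h0 : h 0 ≤ 1 := (hm 0 1).mp (by simpa using hX1)
  have h3 := aux_sum_eq n h N hh hN hs 1 h1
  simp at h3
  omega

lemma aux_sw01 {I : Ideal (MvPolynomial (Fin 2) ℂ)}
    (hX : (MvPolynomial.X 0 : MvPolynomial (Fin 2) ℂ) ∈ I) :
    (MvPolynomial.X 1 : MvPolynomial (Fin 2) ℂ) ∈ sw I := by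
  have := Ideal.mem_map_of_mem (MvPolynomial.rename (Equiv.swap (0 : Fin 2) 1) :
    MvPolynomial (Fin 2) ℂ →ₐ[ℂ] MvPolynomial (Fin 2) ℂ).toRingHom hX
  simpa [sw] using this

lemma aux_sw10 {I : Ideal (MvPolynomial (Fin 2) ℂ)}
    (hX : (MvPolynomial.X 1 : MvPolynomial (Fin 2) ℂ) ∈ I) :
    (MvPolynomial.X 0 : MvPolynomial (Fin 2) ℂ) ∈ sw I := by
  have := Ideal.mem_map_of_mem (MvPolynomial.rename (Equiv.swap (0 : Fin 2) 1) :
    MvPolynomial (Fin 2) ℂ →ₐ[ℂ] MvPolynomial (Fin 2) ℂ).toRingHom hX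
  simpa [sw] using this

lemma aux_sw01' {I : Ideal (MvPolynomial (Fin 2) ℂ)}
    (hX : (MvPolynomial.X 1 : MvPolynomial (Fin 2) ℂ) ∈ sw I) :
    (MvPolynomial.X 0 : MvPolynomial (Fin 2) ℂ) ∈ I := by
  have := aux_sw10 hX
  rwa [sw_sw] at this

lemma aux_sw10' {I : Ideal (MvPolynomial (Fin 2) ℂ)}
    (hX : (MvPolynomial.X 0 : MvPolynomial (Fin 2) ℂ) ∈ sw I) :
    (MvPolynomial.X 1 : MvPolynomial (Fin 2) ℂ) ∈ I := by
  have := aux_sw01 hX
  rwa [sw_sw] at this

lemma aux_three {I J : Ideal (MvPolynomial (Fin 2) ℂ)}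
    (hI : IsHilbPoint 3 ℂ I) (hJ : IsHilbPoint 3 ℂ J)
    (mI : IsMonomialIdeal I) (mJ : IsMonomialIdeal J) (hIJ : I ≠ J)
    (hX : (MvPolynomial.X 1 : MvPolynomial (Fin 2) ℂ) ∈ I ∨
      (MvPolynomial.X 0 : MvPolynomial (Fin 2) ℂ) ∈ I) : Joined 3 I J := by
  rcases hX with hX | hX
  · have eI := aux_col (by norm_num) hI mI hX
    by_cases h1 : (MvPolynomial.X 1 : MvPolynomial (Fin 2) ℂ) ∈ J
    · exact absurd (eI.trans (aux_col (by norm_num) hJ mJ h1).symm) hIJ
    by_cases h0 : (MvPolynomial.X 0 : MvPolynomial (Fin 2) ℂ) ∈ J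
    · rw [eI, aux_row hJ mJ h0]
      exact (joined_row_col 3 (by norm_num)).symm
    · have e1 := aux_row (sw_hilb 3 I hI) (sw_monomial I mI) (aux_sw10 hX)
      have e2 := aux_tri (sw_hilb 3 J hJ) (sw_monomial J mJ) (fun h => h1 (aux_sw10' h))
        (fun h => h0 (aux_sw01' h))
      have := joined_three
      rw [← e1, ← e2] at this
      have := Joined.sw this
      rwa [sw_sw, sw_sw] at this
  · have eI := aux_row hI mI hX
    by_cases h1 : (MvPolynomial.X 1 : MvPolynomial (Fin 2) ℂ) ∈ J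
    · rw [eI, aux_col (by norm_num) hJ mJ h1]
      exact joined_row_col 3 (by norm_num)
    by_cases h0 : (MvPolynomial.X 0 : MvPolynomial (Fin 2) ℂ) ∈ J
    · exact absurd (eI.trans (aux_row hJ mJ h0).symm) hIJ
    · rw [eI, aux_tri hJ mJ h0 h1]
      exact joined_three

lemma aux_four {n : ℕ} (hn : 4 ≤ n) {I J : Ideal (MvPolynomial (Fin 2) ℂ)}
    (hI : IsHilbPoint n ℂ I) (hJ : IsHilbPoint n ℂ J)
    (mI : IsMonomialIdeal I) (mJ : IsMonomialIdeal J) (hIJ : I ≠ J)
    (hX : (MvPolynomial.X 1 : MvPolynomial (Fin 2) ℂ) ∈ I) : Joined n I J := by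
  have eI := aux_col (by omega) hI mI hX
  by_cases h0 : (MvPolynomial.X 0 : MvPolynomial (Fin 2) ℂ) ∈ J
  · rw [eI, aux_row hJ mJ h0]
    exact (joined_row_col n (by omega)).symm
  · have := joined_main n hn (sw I) (sw J) (sw_hilb n I hI) (sw_hilb n J hJ) (sw_monomial I mI)
      (sw_monomial J mJ) (fun h => hIJ (by rw [← sw_sw I, h, sw_sw]))
      (fun h => aux_not_both (by omega) hI mI hX (aux_sw01' h)) (fun h => h0 (aux_sw01' h))
    have := Joined.sw this
    rwa [sw_sw, sw_sw] at this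

/-- TARGET -/
theorem result (n : ℕ) (I J : Ideal (MvPolynomial (Fin 2) ℂ))
    (hI : IsHilbPoint n ℂ I) (hJ : IsHilbPoint n ℂ J)
    (mI : IsMonomialIdeal I) (mJ : IsMonomialIdeal J) (hIJ : I ≠ J) : Joined n I J := by
  rcases Nat.lt_or_ge n 4 with hn | hn
  · have hsmall : n ≤ 1 → False := by
      intro hn1
      obtain ⟨h, N, hh, hN, hs, hm, -, -⟩ := monomial_heights n I hI mI
      obtain ⟨h', N', hh', hN', hs', hm', -, -⟩ := monomial_heights n J hJ mJ
      have b := aux_h0 n h N hh hN hs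
      have b' := aux_h0 n h' N' hh' hN' hs'
      rcases Nat.eq_zero_or_pos n with h0 | h0
      · have t1 : (1 : MvPolynomial (Fin 2) ℂ) ∈ I := by
          have := (hm 0 0).mpr (by omega)
          simpa using this
        have t2 : (1 : MvPolynomial (Fin 2) ℂ) ∈ J := by
          have := (hm' 0 0).mpr (by omega)
          simpa using this
        exact hIJ (((Ideal.eq_top_iff_one _).mpr t1).trans ((Ideal.eq_top_iff_one _).mpr t2).symm)
      · have t1 : (MvPolynomial.X 1 : MvPolynomial (Fin 2) ℂ) ∈ I := by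
          have := (hm 0 1).mpr (by omega)
          simpa using this
        have t2 : (MvPolynomial.X 1 : MvPolynomial (Fin 2) ℂ) ∈ J := by
          have := (hm' 0 1).mpr (by omega)
          simpa using this
        exact hIJ ((aux_col h0 hI mI t1).trans (aux_col h0 hJ mJ t2).symm)
    interval_cases n
    · exact (hsmall (by norm_num)).elim
    · exact (hsmall (by norm_num)).elim
    · by_cases h1 : (MvPolynomial.X 1 : MvPolynomial (Fin 2) ℂ) ∈ I
      · by_cases h2 : (MvPolynomial.X 1 : MvPolynomial (Fin 2) ℂ) ∈ J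
        · exact absurd ((aux_col (by norm_num) hI mI h1).trans
            (aux_col (by norm_num) hJ mJ h2).symm) hIJ
        · rw [aux_col (by norm_num) hI mI h1, aux_row hJ mJ (aux_two hJ mJ h2)]
          exact (joined_row_col 2 (by norm_num)).symm
      · by_cases h2 : (MvPolynomial.X 1 : MvPolynomial (Fin 2) ℂ) ∈ J
        · rw [aux_col (by norm_num) hJ mJ h2, aux_row hI mI (aux_two hI mI h1)]
          exact joined_row_col 2 (by norm_num)
        · exact absurd ((aux_row hI mI (aux_two hI mI h1)).trans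
            (aux_row hJ mJ (aux_two hJ mJ h2)).symm) hIJ
    · by_cases hX : (MvPolynomial.X 1 : MvPolynomial (Fin 2) ℂ) ∈ I ∨
        (MvPolynomial.X 0 : MvPolynomial (Fin 2) ℂ) ∈ I
      · exact aux_three hI hJ mI mJ hIJ hX
      · by_cases hY : (MvPolynomial.X 1 : MvPolynomial (Fin 2) ℂ) ∈ J ∨
          (MvPolynomial.X 0 : MvPolynomial (Fin 2) ℂ) ∈ J
        · exact (aux_three hJ hI mJ mI hIJ.symm hY).symm
        · push Not at hX hY
          exact absurd ((aux_tri hI mI hX.2 hX.1).trans (aux_tri hJ mJ hY.2 hY.1).symm) hIJ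
  · by_cases h1 : (MvPolynomial.X 1 : MvPolynomial (Fin 2) ℂ) ∈ I
    · exact aux_four hn hI hJ mI mJ hIJ h1
    · by_cases h2 : (MvPolynomial.X 1 : MvPolynomial (Fin 2) ℂ) ∈ J
      · exact (aux_four hn hJ hI mJ mI hIJ.symm h2).symm
      · exact joined_main n hn I J hI hJ mI mJ hIJ h1 h2

end MP4403b8
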